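import Mathlib

/-!
A parity proof of the cycle-plus-triangles theorem of Fleischner and Stiebitz, via 2 x 2 matrices
over the field with two elements.  Part 1: the alternating sum `Ph` over all fillings of a word.
-/

set_option autoImplicit false
set_option linter.unusedSectionVars false

namespace Run7.h236.FS

open Finset

abbrev Mat := Matrix (Fin 2) (Fin 2) (ZMod 2)

/-- The three symbols: identity, raising operator, lowering operator. -/
def M : Fin 3 → Mat := ![1, !![0, 1; 0, 0], !![0, 0; 1, 0]]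

lemma mat_add_self (X : Mat) : X + X = 0 := by
  ext i j
  simp only [Matrix.add_apply, Matrix.zero_apply]
  exact CharTwo.add_self_eq_zero _

lemma M_zero : M 0 = 1 := rfl

lemma M_comm_ne (s t : Fin 3) (h : ¬((s = 1 ∧ t = 2) ∨ (s = 2 ∧ t = 1))) :
    M s * M t + M t * M s = 0 := by
  revert s t; decide

lemma M_anti : M 1 * M 2 + M 2 * M 1 = 1 := by decide

lemma M_anti' : M 2 * M 1 + M 1 * M 2 = 1 := by decide

variable {ι : Type} [Fintype ι] [DecidableEq ι]

/-- The product of the matrices along the word `w`, for the filling `h`. -/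
def pr (Y : ι → Fin 3 → Mat) (w : List (ι × Fin 3)) (h : ι → Fin 3 → Fin 3) : Mat :=
  (w.map fun p => Y p.1 (h p.1 p.2)).prod

/-- The sum over all fillings allowed by `G`. -/
def Ph (Y : ι → Fin 3 → Mat) (G : ι → Finset (Fin 3 → Fin 3)) (w : List (ι × Fin 3)) : Mat :=
  ∑ h ∈ Fintype.piFinset G, pr Y w h

/-- Restrict the filling of position `p` to be the symbol `s`. -/
def res (G : ι → Finset (Fin 3 → Fin 3)) (p : ι × Fin 3) (s : Fin 3) :
    ι → Finset (Fin 3 → Fin 3) :=
  Function.update G p.1 ((G p.1).filter fun f => f p.2 = s)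

lemma filter_pi (G : ι → Finset (Fin 3 → Fin 3)) (p : ι × Fin 3) (s : Fin 3) :
    (Fintype.piFinset G).filter (fun h => h p.1 p.2 = s) = Fintype.piFinset (res G p s) := by
  ext h
  simp only [mem_filter, Fintype.mem_piFinset, res]
  constructor
  · rintro ⟨h1, h2⟩ x
    by_cases hx : x = p.1
    · subst hx
      simp only [Function.update_self, mem_filter]
      exact ⟨h1 _, h2⟩
    · rw [Function.update_of_ne hx]; exact h1 x
  · intro h1
    refine ⟨fun x => ?_, ?_⟩
    · have := h1 x
      by_cases hx : x = p.1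
      · subst hx
        simp only [Function.update_self, mem_filter] at this
        exact this.1
      · rwa [Function.update_of_ne hx] at this
    · have := h1 p.1
      simp only [Function.update_self, mem_filter] at this
      exact this.2

lemma pr_append (Y : ι → Fin 3 → Mat) (u v : List (ι × Fin 3)) (h : ι → Fin 3 → Fin 3) :
    pr Y (u ++ v) h = pr Y u h * pr Y v h := by
  simp [pr, List.map_append, List.prod_append]

lemma pr_cons (Y : ι → Fin 3 → Mat) (p : ι × Fin 3) (v : List (ι × Fin 3))
    (h : ι → Fin 3 → Fin 3) :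
    pr Y (p :: v) h = Y p.1 (h p.1 p.2) * pr Y v h := by
  simp [pr]

/-- Exchanging two neighbouring positions. -/
lemma swap_sum (G : ι → Finset (Fin 3 → Fin 3)) (l1 l2 : List (ι × Fin 3)) (p q : ι × Fin 3) :
    Ph (fun _ => M) G (l1 ++ p :: q :: l2) + Ph (fun _ => M) G (l1 ++ q :: p :: l2) =
      Ph (fun _ => M) (res (res G p 1) q 2) (l1 ++ l2) +
        Ph (fun _ => M) (res (res G p 2) q 1) (l1 ++ l2) := by
  unfold Ph
  rw [← filter_pi, ← filter_pi, ← filter_pi, ← filter_pi, filter_filter, filter_filter,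
    sum_filter, sum_filter, ← sum_add_distrib, ← sum_add_distrib]
  refine sum_congr rfl fun h _ => ?_
  simp only [pr_append, pr_cons]
  have e : ∀ a b c d : Mat, a * (b * (c * d)) + a * (c * (b * d)) = a * ((b * c + c * b) * d) := by
    intro a b c d
    simp only [mul_add, add_mul, mul_assoc]
  rw [e]
  by_cases h1 : h p.1 p.2 = 1 ∧ h q.1 q.2 = 2
  · have h2 : ¬(h p.1 p.2 = 2 ∧ h q.1 q.2 = 1) := fun h2 =>
      absurd (h1.1.symm.trans h2.1) (by decide)
    rw [if_pos h1, if_neg h2, h1.1, h1.2, M_anti, one_mul, add_zero]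
  · by_cases h2 : h p.1 p.2 = 2 ∧ h q.1 q.2 = 1
    · rw [if_neg h1, if_pos h2, h2.1, h2.2, M_anti', one_mul, zero_add]
    · have h3 : ¬((h p.1 p.2 = 1 ∧ h q.1 q.2 = 2) ∨ (h p.1 p.2 = 2 ∧ h q.1 q.2 = 1)) := by
        rintro (h | h)
        · exact h1 h
        · exact h2 h
      rw [if_neg h1, if_neg h2, M_comm_ne _ _ h3, zero_mul, mul_zero, add_zero]

/-- The six injective fillings. -/
def F0 : Finset (Fin 3 → Fin 3) := univ.filter fun f => ∀ a b, f a = f b → a = b

/-- A letter which has lost the symbol `2` at position `i`. -/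
def FA (i : Fin 3) : Finset (Fin 3 → Fin 3) := F0.filter fun f => f i = 2

/-- A letter which has lost the symbol `1` at position `i`. -/
def FB (i : Fin 3) : Finset (Fin 3 → Fin 3) := F0.filter fun f => f i = 1

/-- A letter which has lost the symbols `2` at `i` and `1` at `j`. -/
def Fd (i j : Fin 3) : Finset (Fin 3 → Fin 3) := F0.filter fun f => f i = 2 ∧ f j = 1

lemma FA_filter1 (i a : Fin 3) : (FA i).filter (fun f => f a = 1) = Fd i a := by
  simp only [FA, Fd, filter_filter]

lemma FA_filter2 (i a : Fin 3) (h : a ≠ i) : (FA i).filter (fun f => f a = 2) = ∅ := by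
  revert i a; decide

lemma FB_filter2 (j a : Fin 3) : (FB j).filter (fun f => f a = 2) = Fd a j := by
  simp only [FB, Fd, filter_filter]
  congr 1
  ext f
  tauto

lemma FB_filter1 (j a : Fin 3) (h : a ≠ j) : (FB j).filter (fun f => f a = 1) = ∅ := by
  revert j a; decide

lemma F0_filter2 (a : Fin 3) : F0.filter (fun f => f a = 2) = FA a := rfl

lemma F0_filter1 (a : Fin 3) : F0.filter (fun f => f a = 1) = FB a := rfl

lemma Fd_filter1 (i j a : Fin 3) (h : a ≠ i) (h' : a ≠ j) :
    (Fd i j).filter (fun f => f a = 1) = ∅ := by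
  revert i j a; decide

lemma Fd_filter2 (i j a : Fin 3) (h : a ≠ i) (h' : a ≠ j) :
    (Fd i j).filter (fun f => f a = 2) = ∅ := by
  revert i j a; decide

lemma Ph_empty (Y : ι → Fin 3 → Mat) (G : ι → Finset (Fin 3 → Fin 3)) (w : List (ι × Fin 3))
    (x : ι) (hx : G x = ∅) : Ph Y G w = 0 := by
  unfold Ph
  rw [Fintype.piFinset_eq_empty.2 ⟨x, hx⟩, sum_empty]

end Run7.h236.FS
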