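import Pool.Agent.Run7.h236.FS9

/-!
Total colourings of cubic graphs from the cycle-plus-triangles theorem.
-/

set_option autoImplicit false
set_option linter.unusedSectionVars false

namespace Run7.h236.FS

open Finset Function

/-- The third colour. -/
def th (a b : Fin 3) : Fin 3 := -(a + b)

lemma th_ne_left (a b : Fin 3) (h : a ≠ b) : th a b ≠ a := by revert a b; decide
lemma th_ne_right (a b : Fin 3) (h : a ≠ b) : th a b ≠ b := by revert a b; decide
lemma th_comm (a b : Fin 3) : th a b = th b a := by revert a b; decide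
lemma th_inj (a b c : Fin 3) (h : th a b = th a c) : b = c := by revert a b c; decide

/-- `v, a, b, s v, s a, s b` is a hexagon all of whose edges are not of the form `{x, n x}`. -/
def Hex {V : Type} (G : SimpleGraph V) (I : Set V) (n s : V → V) (v a b : V) : Prop :=
  [v, a, b, s v, s a, s b].Nodup ∧ b ∉ I ∧
    G.Adj v a ∧ G.Adj a b ∧ G.Adj b (s v) ∧ G.Adj (s v) (s a) ∧ G.Adj (s a) (s b) ∧
    G.Adj (s b) v ∧
    a ≠ n v ∧ b ≠ n a ∧ s v ≠ n b ∧ s a ≠ n (s v) ∧ s b ≠ n (s a) ∧ v ≠ n (s b)

section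

variable {V : Type} [Fintype V] [DecidableEq V] (G : SimpleGraph V) [DecidableRel G.Adj]

lemma nb3 (hG : G.IsRegularOfDegree 3) (u a b c d : V) (ha : G.Adj u a) (hb : G.Adj u b)
    (hc : G.Adj u c) (hd : G.Adj u d) (hab : a ≠ b) (hac : a ≠ c) (hbc : b ≠ c) :
    d = a ∨ d = b ∨ d = c := by
  have h1 : ({a, b, c} : Finset V) = G.neighborFinset u := by
    apply eq_of_subset_of_card_le
    · intro x hx
      simp only [mem_insert, mem_singleton] at hx
      rw [SimpleGraph.mem_neighborFinset]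
      rcases hx with rfl | rfl | rfl <;> assumption
    · rw [SimpleGraph.card_neighborFinset_eq_degree, hG u, card_insert_of_notMem,
        card_insert_of_notMem, card_singleton]
      · simpa using hbc
      · simp only [mem_insert, mem_singleton, not_or]; exact ⟨hab, hac⟩
  have h2 : d ∈ ({a, b, c} : Finset V) := by
    rw [h1, SimpleGraph.mem_neighborFinset]; exact hd
  simpa using h2

/-- The main construction. -/
theorem estar (hG : G.IsRegularOfDegree 3) (I : Set V) (hI : ∀ u ∈ I, ∀ v ∈ I, ¬ G.Adj u v)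
    (n s : V → V) (hn : ∀ v, v ∉ I → n v ∉ I ∧ G.Adj v (n v) ∧ n (n v) = v)
    (hs : ∀ v, v ∉ I → s v ∉ I ∧ s (s v) = v)
    (hT : ∀ v, v ∉ I → (∃ i ∈ I, G.Adj v i) → G.Adj v (s v) ∧ s v ≠ n v)
    (hX : ∀ v, v ∉ I → (∀ i ∈ I, ¬ G.Adj v i) → ∃ a b, Hex G I n s v a b)
    (hconn : ∀ S : Set V, S.Nonempty → (∀ v ∈ S, v ∉ I ∧ n v ∈ S ∧ s v ∈ S) →
      ∀ v, v ∉ I → v ∈ S) :
    ∃ (c : V → Fin 4) (d : V → V → Fin 4),
      (∀ u v : V, G.Adj u v → d u v = d v u) ∧
      (∀ u v : V, G.Adj u v → c u ≠ c v) ∧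
      (∀ u v w : V, G.Adj u v → G.Adj u w → v ≠ w → d u v ≠ d u w) ∧
      (∀ u v : V, G.Adj u v → d u v ≠ c u) := by
  classical
  have hndj : ∀ v, v ∉ I → ∀ w, w ∉ I → w = n v → v = n w := by
    intro v hv w hw h; rw [h, (hn v hv).2.2]
  -- s has no fixed point
  have hs' : ∀ v, v ∉ I → s v ≠ v := by
    intro v hv h
    by_cases ht : ∃ i ∈ I, G.Adj v i
    · have := (hT v hv ht).1
      rw [h] at this
      exact G.loopless.irrefl v this
    · push Not at ht
      obtain ⟨a, b, hh⟩ := hX v hv ht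
      have := hh.1
      simp [h] at this
  -- type T is closed under s
  have hTs : ∀ v, v ∉ I → (∃ i ∈ I, G.Adj v i) → ∃ i ∈ I, G.Adj (s v) i := by
    intro v hv ht
    by_contra hcon
    push Not at hcon
    obtain ⟨h1, h2⟩ := hs v hv
    obtain ⟨a, b, hh⟩ := hX (s v) h1 hcon
    obtain ⟨hnd, hb, e1, e2, e3, e4, e5, e6, f1, f2, f3, f4, f5, f6⟩ := hh
    rw [h2] at hnd e3 e4 f3 f4
    have hsv := hT v hv ht
    have hne1 : n (s v) ≠ a := fun h => f1 h.symm
    have hne2 : n (s v) ≠ s b := by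
      intro h
      apply f6
      have hsb : s b ∉ I := (hs b hb).1
      exact hndj (s v) h1 (s b) hsb h.symm
    have hab : a ≠ s b := by
      intro h; simp [h] at hnd
    rcases nb3 G hG (s v) (n (s v)) a (s b) v (hn (s v) h1).2.1 e1 e6.symm hsv.1.symm hne1 hne2
      hab with h | h | h
    · exact hsv.2 (hndj (s v) h1 v hv h)
    · simp [h] at hnd
    · simp [← h] at hnd
  -- neighbours of a vertex of type T
  have hTnb : ∀ v, v ∉ I → ∀ i ∈ I, G.Adj v i → ∀ w, G.Adj v w → w = n v ∨ w = s v ∨ w = i := by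
    intro v hv i hi hvi w hw
    have h1 := hT v hv ⟨i, hi, hvi⟩
    exact nb3 G hG v (n v) (s v) i w (hn v hv).2.1 h1.1 hvi hw h1.2.symm
      (fun h => (hn v hv).1 (h ▸ hi)) (fun h => (hs v hv).1 (h ▸ hi))
  have hTuniq : ∀ v, v ∉ I → ∀ i ∈ I, ∀ j ∈ I, G.Adj v i → G.Adj v j → i = j := by
    intro v hv i hi j hj hvi hvj
    rcases hTnb v hv j hj hvj i hvi with h | h | h
    · exact absurd hi (h ▸ (hn v hv).1)
    · exact absurd hi (h ▸ (hs v hv).1)
    · exact h
  -- neighbours of a vertex of a hexagon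
  have hXnb : ∀ v a b, v ∉ I → Hex G I n s v a b → ∀ w, G.Adj v w → w = n v ∨ w = a ∨ w = s b := by
    intro v a b hv hh w hw
    obtain ⟨hnd, hb, e1, e2, e3, e4, e5, e6, f1, f2, f3, f4, f5, f6⟩ := hh
    refine nb3 G hG v (n v) a (s b) w (hn v hv).2.1 e1 e6.symm hw (fun h => f1 h.symm) ?_ ?_
    · intro h
      exact f6 (hndj v hv (s b) (hs b hb).1 h.symm)
    · intro h; simp [h] at hnd
  -- hexagons avoid `I`
  have hXa : ∀ v a b, v ∉ I → (∀ i ∈ I, ¬ G.Adj v i) → Hex G I n s v a b → a ∉ I := by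
    intro v a b hv hx hh ha
    exact hx a ha hh.2.2.1
  -- rotation of hexagons
  have hrot : ∀ v a b, v ∉ I → a ∉ I → Hex G I n s v a b → Hex G I n s a b (s v) := by
    intro v a b hv ha hh
    obtain ⟨hnd, hb, e1, e2, e3, e4, e5, e6, f1, f2, f3, f4, f5, f6⟩ := hh
    refine ⟨?_, (hs v hv).1, e2, e3, ?_, e5, ?_, ?_, f2, f3, f4, ?_, ?_, ?_⟩
    · rw [(hs v hv).2]
      have : [a, b, s v, s a, s b, v].Perm [v, a, b, s v, s a, s b] := by
        have := List.perm_append_comm (l₁ := [a, b, s v, s a, s b]) (l₂ := [v])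
        simpa using this
      exact this.nodup_iff.2 hnd
    · exact e4
    · rw [(hs v hv).2]; exact e6
    · rw [(hs v hv).2]; exact e1
    · exact f5
    · rw [(hs v hv).2]; exact f6
    · rw [(hs v hv).2]
      exact f1
  -- the vertices outside `I` have a hexagon neighbour outside `I`
  have hXX : ∀ v a b, v ∉ I → (∀ i ∈ I, ¬ G.Adj v i) → Hex G I n s v a b →
      ∀ i ∈ I, ¬ G.Adj a i := by
    intro v a b hv hx hh i hi hai
    have ha := hXa v a b hv hx hh
    rcases hXnb a b (s v) ha (hrot v a b hv ha hh) i hai with h | h | h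
    · exact (hn a ha).1 (h ▸ hi)
    · exact hh.2.1 (h ▸ hi)
    · rw [(hs v hv).2] at h; exact hv (h ▸ hi)
  -- the class of a hexagon vertex
  set hexset : V → Finset V := fun x => univ.filter fun y => y ∉ I ∧
    (y = x ∨ y = s x ∨ (G.Adj x y ∧ y ≠ n x) ∨ (G.Adj x (s y) ∧ s y ≠ n x)) with hhexset
  have hhs : ∀ v a b, v ∉ I → a ∉ I → Hex G I n s v a b →
      hexset v = [v, a, b, s v, s a, s b].toFinset := by
    intro v a b hv ha hh
    have hb := hh.2.1
    have hnb := hXnb v a b hv hh
    obtain ⟨hnd, -, e1, e2, e3, e4, e5, e6, f1, f2, f3, f4, f5, f6⟩ := hh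
    have g1 : s b ≠ n v := fun h => f6 (hndj v hv (s b) (hs b hb).1 h)
    ext y
    simp only [hhexset, mem_filter, mem_univ, true_and, List.mem_toFinset, List.mem_cons,
      List.not_mem_nil, or_false]
    constructor
    · rintro ⟨hy, h | h | ⟨h1, h2⟩ | ⟨h1, h2⟩⟩
      · exact Or.inl h
      · exact Or.inr (Or.inr (Or.inr (Or.inl h)))
      · rcases hnb y h1 with h | h | h
        · exact absurd h h2
        · exact Or.inr (Or.inl h)
        · exact Or.inr (Or.inr (Or.inr (Or.inr (Or.inr h))))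
      · rcases hnb (s y) h1 with h | h | h
        · exact absurd h h2
        · have := congrArg s h
          rw [(hs y hy).2] at this
          exact Or.inr (Or.inr (Or.inr (Or.inr (Or.inl this))))
        · have := congrArg s h
          rw [(hs y hy).2, (hs b hb).2] at this
          exact Or.inr (Or.inr (Or.inl this))
    · rintro (h | h | h | h | h | h)
      · exact ⟨h ▸ hv, Or.inl h⟩
      · exact ⟨h ▸ ha, Or.inr (Or.inr (Or.inl ⟨h ▸ e1, h ▸ f1⟩))⟩
      · exact ⟨h ▸ hb, Or.inr (Or.inr (Or.inr ⟨h ▸ e6.symm, h ▸ g1⟩))⟩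
      · exact ⟨h ▸ (hs v hv).1, Or.inr (Or.inl h)⟩
      · refine ⟨h ▸ (hs a ha).1, Or.inr (Or.inr (Or.inr ?_))⟩
        rw [h, (hs a ha).2]; exact ⟨e1, f1⟩
      · refine ⟨h ▸ (hs b hb).1, Or.inr (Or.inr (Or.inl ?_))⟩
        rw [h]; exact ⟨e6.symm, g1⟩
  have hrotset : ∀ v a b : V, [a, b, s v, s a, s b, v].toFinset =
      [v, a, b, s v, s a, s b].toFinset := by
    intro v a b
    ext y
    simp only [List.mem_toFinset, List.mem_cons, List.not_mem_nil, or_false]
    tauto
  have hhs_next : ∀ v a b, v ∉ I → a ∉ I → Hex G I n s v a b → hexset a = hexset v := by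
    intro v a b hv ha hh
    rw [hhs v a b hv ha hh, hhs a b (s v) ha hh.2.1 (hrot v a b hv ha hh), (hs v hv).2]
    exact hrotset v a b
  -- all six vertices of a hexagon have the same class
  have hhs_all : ∀ v a b, v ∉ I → a ∉ I → Hex G I n s v a b →
      ∀ y ∈ [v, a, b, s v, s a, s b], hexset y = hexset v ∧ (y ∉ I) := by
    intro v a b hv ha hh
    have hb := hh.2.1
    have r1 := hrot v a b hv ha hh
    have r2 := hrot a b (s v) ha hb r1
    have r3 := hrot b (s v) (s a) hb (hs v hv).1 r2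
    have r4 := hrot (s v) (s a) (s b) (hs v hv).1 (hs a ha).1 r3
    have r5 := hrot (s a) (s b) (s (s v)) (hs a ha).1 (hs b hb).1 r4
    have q1 := hhs_next _ _ _ hv ha hh
    have q2 := hhs_next _ _ _ ha hb r1
    have q3 := hhs_next _ _ _ hb (hs v hv).1 r2
    have q4 := hhs_next _ _ _ (hs v hv).1 (hs a ha).1 r3
    have q5 := hhs_next _ _ _ (hs a ha).1 (hs b hb).1 r4
    intro y hy
    simp only [List.mem_cons, List.not_mem_nil, or_false] at hy
    rcases hy with rfl | rfl | rfl | rfl | rfl | rfl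
    · exact ⟨rfl, hv⟩
    · exact ⟨q1, ha⟩
    · exact ⟨q2.trans q1, hb⟩
    · exact ⟨q3.trans (q2.trans q1), (hs v hv).1⟩
    · exact ⟨q4.trans (q3.trans (q2.trans q1)), (hs a ha).1⟩
    · exact ⟨q5.trans (q4.trans (q3.trans (q2.trans q1))), (hs b hb).1⟩
  -- the case in which there is nothing outside `I`
  by_cases hne : ∃ v, v ∉ I
  swap
  · push Not at hne
    have hno : ∀ u v : V, ¬ G.Adj u v := fun u v => hI u (hne u) v (hne v)
    exact ⟨fun _ => 0, fun _ _ => 0, fun u v h => absurd h (hno u v),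
      fun u v h => absurd h (hno u v), fun u v w h => absurd h (hno u v),
      fun u v h => absurd h (hno u v)⟩
  obtain ⟨v0, hv0⟩ := hne
  have hXcls : ∀ v a b, v ∉ I → (∀ i ∈ I, ¬ G.Adj v i) → Hex G I n s v a b →
      ∀ y ∈ [v, a, b, s v, s a, s b], ∀ i ∈ I, ¬ G.Adj y i := by
    intro v a b hv hx hh
    have ha := hXa v a b hv hx hh
    have hb := hh.2.1
    have r1 := hrot v a b hv ha hh
    have r2 := hrot a b (s v) ha hb r1
    have r3 := hrot b (s v) (s a) hb (hs v hv).1 r2
    have r4 := hrot (s v) (s a) (s b) (hs v hv).1 (hs a ha).1 r3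
    have r5 := hrot (s a) (s b) (s (s v)) (hs a ha).1 (hs b hb).1 r4
    have x1 := hXX _ _ _ hv hx hh
    have x2 := hXX _ _ _ ha x1 r1
    have x3 := hXX _ _ _ hb x2 r2
    have x4 := hXX _ _ _ (hs v hv).1 x3 r3
    have x5 := hXX _ _ _ (hs a ha).1 x4 r4
    intro y hy
    simp only [List.mem_cons, List.not_mem_nil, or_false] at hy
    rcases hy with rfl | rfl | rfl | rfl | rfl | rfl
    · exact hx
    · exact x1
    · exact x2
    · exact x3
    · exact x4
    · exact x5
  have hself : ∀ y, y ∉ I → y ∈ hexset y := by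
    intro y hy
    rw [hhexset]
    exact mem_filter.2 ⟨mem_univ _, hy, Or.inl rfl⟩
  have : Nonempty {v : V // v ∉ I} := ⟨⟨v0, hv0⟩⟩
  obtain ⟨c0, k1, k2, k3, k4, k5⟩ := dihedral_ctp (X := {v : V // v ∉ I}) (κ := Finset V)
    (fun x => ⟨n x.1, (hn x.1 x.2).1⟩) (fun x => ⟨s x.1, (hs x.1 x.2).1⟩)
    (fun x => Subtype.ext (hn x.1 x.2).2.2)
    (fun x h => G.loopless.irrefl x.1 (by
      have h1 := congrArg Subtype.val h
      simp only at h1
      have h2 := (hn x.1 x.2).2.1
      rwa [h1] at h2))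
    (fun x => Subtype.ext (hs x.1 x.2).2)
    (fun x h => hs' x.1 x.2 (congrArg Subtype.val h))
    (fun x => ∃ i ∈ I, G.Adj x.1 i)
    (fun x => ⟨fun h => by
      have := hTs (s x.1) (hs x.1 x.2).1 h
      rwa [(hs x.1 x.2).2] at this, fun h => hTs x.1 x.2 h⟩)
    (by
      intro S hS hcl x
      have := hconn (Subtype.val '' S) (hS.image _) (by
        rintro v ⟨y, hy, rfl⟩
        refine ⟨y.2, ⟨_, (hcl y hy).1, rfl⟩, ⟨_, (hcl y hy).2, rfl⟩⟩) x.1 x.2
      obtain ⟨y, hy, hyx⟩ := this
      rwa [Subtype.ext hyx] at hy)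
    (fun x => if (∃ i ∈ I, G.Adj x.1 i) then univ.filter (fun i => i ∈ I ∧ G.Adj (s x.1) i)
      else hexset x.1)
    (by
      intro x hx
      have hx' : ¬ ∃ i ∈ I, G.Adj (s x.1) i := fun h => hx (by
        have := hTs (s x.1) (hs x.1 x.2).1 h
        rwa [(hs x.1 x.2).2] at this)
      simp only [if_neg hx, if_neg hx']
      push Not at hx
      obtain ⟨a, b, hh⟩ := hX x.1 x.2 hx
      exact (hhs_all x.1 a b x.2 (hXa _ _ _ x.2 hx hh) hh (s x.1) (by simp)).1)
    (by
      intro x y hx hy h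
      simp only [if_pos hx, if_neg hy] at h
      have h1 : y.1 ∈ hexset y.1 := hself _ y.2
      rw [← h] at h1
      simp only [mem_filter, mem_univ, true_and] at h1
      exact y.2 h1.1)
    (by
      intro x hx
      obtain ⟨i, hi, hsi⟩ := hTs x.1 x.2 hx
      have hNI : (univ.filter (fun i => i ∈ I ∧ G.Adj (s x.1) i)) = {i} := by
        ext j
        simp only [mem_filter, mem_univ, true_and, mem_singleton]
        constructor
        · rintro ⟨hj, hsj⟩
          exact hTuniq (s x.1) (hs x.1 x.2).1 j hj i hi hsj hsi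
        · rintro rfl; exact ⟨hi, hsi⟩
      have himg : (fun y : {v : V // v ∉ I} => s y.1) ''
          {y | (∃ i ∈ I, G.Adj y.1 i) ∧
            (if (∃ i ∈ I, G.Adj y.1 i) then univ.filter (fun i => i ∈ I ∧ G.Adj (s y.1) i)
              else hexset y.1) =
            (if (∃ i ∈ I, G.Adj x.1 i) then univ.filter (fun i => i ∈ I ∧ G.Adj (s x.1) i)
              else hexset x.1)} = ↑(G.neighborFinset i) := by
        ext u
        simp only [Set.mem_image, Set.mem_ofPred_eq, SimpleGraph.coe_neighborFinset,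
          SimpleGraph.mem_neighborSet]
        constructor
        · rintro ⟨y, ⟨hy1, hy2⟩, rfl⟩
          rw [if_pos hy1, if_pos hx, hNI] at hy2
          have : i ∈ ({i} : Finset V) := mem_singleton_self i
          rw [← hy2, mem_filter] at this
          exact this.2.2.symm
        · intro hu
          have huI : u ∉ I := fun h => hI i hi u h hu
          have hTu : ∃ j ∈ I, G.Adj u j := ⟨i, hi, hu.symm⟩
          have hsu := hTs u huI hTu
          refine ⟨⟨s u, (hs u huI).1⟩, ⟨hsu, ?_⟩, (hs u huI).2⟩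
          rw [if_pos hsu, if_pos hx, hNI, (hs u huI).2]
          ext j
          simp only [mem_filter, mem_univ, true_and, mem_singleton]
          constructor
          · rintro ⟨hj, huj⟩
            exact hTuniq u huI j hj i hi huj hu.symm
          · rintro rfl; exact ⟨hi, hu.symm⟩
      have hinj : Function.Injective (fun y : {v : V // v ∉ I} => s y.1) := by
        intro y z h
        simp only at h
        have := congrArg s h
        rw [(hs y.1 y.2).2, (hs z.1 z.2).2] at this
        exact Subtype.ext this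
      rw [← Set.ncard_image_of_injective _ hinj, himg, Set.ncard_coe_finset,
        SimpleGraph.card_neighborFinset_eq_degree, hG i])
    (by
      intro x hx
      have hx' := hx
      push Not at hx'
      obtain ⟨a, b, hh⟩ := hX x.1 x.2 hx'
      have ha := hXa _ _ _ x.2 hx' hh
      have himg : (Subtype.val : {v : V // v ∉ I} → V) ''
          {y | (¬ ∃ i ∈ I, G.Adj y.1 i) ∧
            (if (∃ i ∈ I, G.Adj y.1 i) then univ.filter (fun i => i ∈ I ∧ G.Adj (s y.1) i)
              else hexset y.1) =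
            (if (∃ i ∈ I, G.Adj x.1 i) then univ.filter (fun i => i ∈ I ∧ G.Adj (s x.1) i)
              else hexset x.1)} = ↑([x.1, a, b, s x.1, s a, s b].toFinset) := by
        ext u
        simp only [Set.mem_image, Set.mem_ofPred_eq, mem_coe]
        constructor
        · rintro ⟨y, ⟨hy1, hy2⟩, rfl⟩
          rw [if_neg hy1, if_neg hx] at hy2
          rw [← hhs x.1 a b x.2 ha hh, ← hy2]
          exact hself _ y.2
        · intro hu
          rw [List.mem_toFinset] at hu
          obtain ⟨g1, g2⟩ := hhs_all x.1 a b x.2 ha hh u hu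
          have g3 := hXcls x.1 a b x.2 hx' hh u hu
          have g4 : ¬ ∃ i ∈ I, G.Adj u i := by push Not; exact g3
          refine ⟨⟨u, g2⟩, ⟨g4, ?_⟩, rfl⟩
          rw [if_neg g4, if_neg hx]
          exact g1
      rw [← Set.ncard_image_of_injective _ Subtype.val_injective, himg, Set.ncard_coe_finset,
        List.toFinset_card_of_nodup hh.1]
      rfl)
  set C : V → Fin 3 := fun v => if h : v ∉ I then c0 ⟨v, h⟩ else 0 with hC
  have hCv : ∀ v (h : v ∉ I), C v = c0 ⟨v, h⟩ := by
    intro v h; simp only [hC]; rw [dif_pos h]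
  have c1 : ∀ v, v ∉ I → C v ≠ C (n v) := by
    intro v hv
    rw [hCv v hv, hCv (n v) (hn v hv).1]
    exact k1 ⟨v, hv⟩
  have c2 : ∀ v, v ∉ I → (∃ i ∈ I, G.Adj v i) → C v ≠ C (s v) := by
    intro v hv ht
    rw [hCv v hv, hCv (s v) (hs v hv).1]
    exact k2 ⟨v, hv⟩ ht
  have c3 : ∀ v, v ∉ I → (∀ i ∈ I, ¬ G.Adj v i) → C (s v) = C v := by
    intro v hv hx
    rw [hCv v hv, hCv (s v) (hs v hv).1]
    exact k3 ⟨v, hv⟩ (by push Not; exact hx)
  have c4 : ∀ i ∈ I, ∀ v w, G.Adj i v → G.Adj i w → C (s v) = C (s w) → v = w := by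
    intro i hi v w hv hw h
    have hvI : v ∉ I := fun h => hI i hi v h hv
    have hwI : w ∉ I := fun h => hI i hi w h hw
    have hTv : ∃ j ∈ I, G.Adj v j := ⟨i, hi, hv.symm⟩
    have hTw : ∃ j ∈ I, G.Adj w j := ⟨i, hi, hw.symm⟩
    have hTsv := hTs v hvI hTv
    have hTsw := hTs w hwI hTw
    rw [hCv (s v) (hs v hvI).1, hCv (s w) (hs w hwI).1] at h
    have := k4 ⟨s v, (hs v hvI).1⟩ ⟨s w, (hs w hwI).1⟩ hTsv hTsw (by
      simp only [if_pos hTsv, if_pos hTsw, (hs v hvI).2, (hs w hwI).2]
      ext j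
      simp only [mem_filter, mem_univ, true_and]
      constructor
      · rintro ⟨hj, hvj⟩
        rw [hTuniq v hvI j hj i hi hvj hv.symm]
        exact ⟨hi, hw.symm⟩
      · rintro ⟨hj, hwj⟩
        rw [hTuniq w hwI j hj i hi hwj hw.symm]
        exact ⟨hi, hv.symm⟩) h
    have h2 := congrArg Subtype.val this
    simp only at h2
    have h3 := congrArg s h2
    rwa [(hs v hvI).2, (hs w hwI).2] at h3
  have c5 : ∀ v a b, v ∉ I → (∀ i ∈ I, ¬ G.Adj v i) → Hex G I n s v a b → C v ≠ C a := by
    intro v a b hv hx hh heq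
    have ha := hXa v a b hv hx hh
    have hxa := hXX v a b hv hx hh
    have h1 : ¬ ∃ i ∈ I, G.Adj v i := by push Not; exact hx
    have h2 : ¬ ∃ i ∈ I, G.Adj a i := by push Not; exact hxa
    rw [hCv v hv, hCv a ha] at heq
    rcases k5 ⟨v, hv⟩ ⟨a, ha⟩ h1 h2 (by
      simp only [if_neg h1, if_neg h2]
      exact (hhs_next v a b hv ha hh).symm) heq with h | h
    · have := congrArg Subtype.val h
      simp only at this
      have hnd := hh.1
      simp [this] at hnd
    · have := congrArg Subtype.val h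
      simp only at this
      have hnd := hh.1
      simp [← this] at hnd
  -- the edge colours
  set D : V → V → Fin 4 := fun u v =>
    if u ∈ I then (C (s v)).castSucc else if v ∈ I then (C (s u)).castSucc else
      if v = n u then 3 else (th (C u) (C v)).castSucc with hD
  have hcs : ∀ k : Fin 3, k.castSucc ≠ (3 : Fin 4) := by decide
  -- local pictures
  have DT : ∀ v, v ∉ I → ∀ i ∈ I, G.Adj v i → D v (n v) = 3 ∧
      D v (s v) = (th (C v) (C (s v))).castSucc ∧ D v i = (C (s v)).castSucc := by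
    intro v hv i hi hvi
    have h1 := hT v hv ⟨i, hi, hvi⟩
    refine ⟨?_, ?_, ?_⟩
    · simp only [hD]; rw [if_neg hv, if_neg (hn v hv).1, if_pos trivial]
    · simp only [hD]; rw [if_neg hv, if_neg (hs v hv).1, if_neg h1.2]
    · simp only [hD]; rw [if_neg hv, if_pos hi]
  have DX : ∀ v a b, v ∉ I → (∀ i ∈ I, ¬ G.Adj v i) → Hex G I n s v a b → D v (n v) = 3 ∧
      D v a = (th (C v) (C a)).castSucc ∧ D v (s b) = (th (C v) (C b)).castSucc ∧
      C v ≠ C a ∧ C v ≠ C b ∧ C a ≠ C b := by
    intro v a b hv hx hh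
    have ha := hXa v a b hv hx hh
    have hb := hh.2.1
    have r1 := hrot v a b hv ha hh
    have r2 := hrot a b (s v) ha hb r1
    have x1 := hXX _ _ _ hv hx hh
    have x2 := hXX _ _ _ ha x1 r1
    have g1 := c5 v a b hv hx hh
    have g2 := c5 a b (s v) ha x1 r1
    have g3 := c5 b (s v) (s a) hb x2 r2
    rw [c3 v hv hx] at g3
    have hsb : s b ≠ n v := by
      intro h
      have := hh.2.2.2.2.2.2.2.2.2.2.2.2.2
      exact this (hndj v hv (s b) (hs b hb).1 h)
    refine ⟨?_, ?_, ?_, g1, g3.symm, g2⟩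
    · simp only [hD]; rw [if_neg hv, if_neg (hn v hv).1, if_pos trivial]
    · simp only [hD]; rw [if_neg hv, if_neg ha, if_neg hh.2.2.2.2.2.2.2.2.1]
    · simp only [hD]; rw [if_neg hv, if_neg (hs b hb).1, if_neg hsb, c3 b hb x2]
  -- adjacent vertices outside `I` have different colours
  have hadj : ∀ u v, u ∉ I → v ∉ I → G.Adj u v → C u ≠ C v := by
    intro u v hu hv huv
    by_cases ht : ∃ i ∈ I, G.Adj u i
    · obtain ⟨i, hi, hui⟩ := ht
      rcases hTnb u hu i hi hui v huv with h | h | h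
      · rw [h]; exact c1 u hu
      · rw [h]; exact c2 u hu ⟨i, hi, hui⟩
      · exact absurd hi (h ▸ hv)
    · push Not at ht
      obtain ⟨a, b, hh⟩ := hX u hu ht
      obtain ⟨-, -, -, g1, g2, -⟩ := DX u a b hu ht hh
      have ha := hXa u a b hu ht hh
      have hb := hh.2.1
      have r1 := hrot u a b hu ha hh
      have x1 := hXX _ _ _ hu ht hh
      have x2 := hXX _ _ _ ha x1 r1
      rcases hXnb u a b hu hh v huv with h | h | h
      · rw [h]; exact c1 u hu
      · rw [h]; exact g1
      · rw [h, c3 b hb x2]; exact g2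
  refine ⟨fun v => if v ∈ I then 3 else (C v).castSucc, D, ?_, ?_, ?_, ?_⟩
  · intro u v huv
    by_cases hu : u ∈ I
    · have hv : v ∉ I := fun h => hI u hu v h huv
      simp only [hD]; rw [if_pos hu, if_neg hv, if_pos hu]
    · by_cases hv : v ∈ I
      · simp only [hD]; rw [if_neg hu, if_pos hv, if_pos hv]
      · simp only [hD]; rw [if_neg hu, if_neg hv, if_neg hv, if_neg hu]
        by_cases h : v = n u
        · rw [if_pos h, if_pos (hndj u hu v hv h)]
        · rw [if_neg h, if_neg (fun h' => h (hndj v hv u hu h')), th_comm]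
  · intro u v huv
    simp only
    by_cases hu : u ∈ I
    · have hv : v ∉ I := fun h => hI u hu v h huv
      rw [if_pos hu, if_neg hv]; exact (hcs _).symm
    · by_cases hv : v ∈ I
      · rw [if_neg hu, if_pos hv]; exact hcs _
      · rw [if_neg hu, if_neg hv]
        intro h
        exact hadj u v hu hv huv (Fin.castSucc_injective _ h)
  · intro u v w huv huw hvw
    by_cases hu : u ∈ I
    · simp only [hD]; rw [if_pos hu, if_pos hu]
      intro h
      exact hvw (c4 u hu v w huv huw (Fin.castSucc_injective _ h))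
    · by_cases ht : ∃ i ∈ I, G.Adj u i
      · obtain ⟨i, hi, hui⟩ := ht
        obtain ⟨d1, d2, d3⟩ := DT u hu i hi hui
        have e1 := c2 u hu ⟨i, hi, hui⟩
        have e2 := th_ne_right _ _ e1
        have e3 : ∀ a b : Fin 3, a ≠ b → a.castSucc ≠ b.castSucc := fun a b h h' =>
          h (Fin.castSucc_injective _ h')
        rcases hTnb u hu i hi hui v huv with h | h | h <;>
          rcases hTnb u hu i hi hui w huw with h' | h' | h' <;> rw [h, h']
        · exact absurd (h.trans h'.symm) hvw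
        · rw [d1, d2]; exact (hcs _).symm
        · rw [d1, d3]; exact (hcs _).symm
        · rw [d1, d2]; exact hcs _
        · exact absurd (h.trans h'.symm) hvw
        · rw [d2, d3]; exact e3 _ _ e2
        · rw [d1, d3]; exact hcs _
        · rw [d2, d3]; exact e3 _ _ e2.symm
        · exact absurd (h.trans h'.symm) hvw
      · push Not at ht
        obtain ⟨a, b, hh⟩ := hX u hu ht
        obtain ⟨d1, d2, d3, g1, g2, g3⟩ := DX u a b hu ht hh
        have e2 : (th (C u) (C a)).castSucc ≠ (th (C u) (C b)).castSucc := fun h =>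
          g3 (th_inj _ _ _ (Fin.castSucc_injective _ h))
        rcases hXnb u a b hu hh v huv with h | h | h <;>
          rcases hXnb u a b hu hh w huw with h' | h' | h' <;> rw [h, h']
        · exact absurd (h.trans h'.symm) hvw
        · rw [d1, d2]; exact (hcs _).symm
        · rw [d1, d3]; exact (hcs _).symm
        · rw [d1, d2]; exact hcs _
        · exact absurd (h.trans h'.symm) hvw
        · rw [d2, d3]; exact e2
        · rw [d1, d3]; exact hcs _
        · rw [d2, d3]; exact e2.symm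
        · exact absurd (h.trans h'.symm) hvw
  · intro u v huv
    simp only
    by_cases hu : u ∈ I
    · simp only [hD]; rw [if_pos hu, if_pos hu]; exact hcs _
    · rw [if_neg hu]
      by_cases ht : ∃ i ∈ I, G.Adj u i
      · obtain ⟨i, hi, hui⟩ := ht
        obtain ⟨d1, d2, d3⟩ := DT u hu i hi hui
        have e1 := c2 u hu ⟨i, hi, hui⟩
        rcases hTnb u hu i hi hui v huv with h | h | h <;> rw [h]
        · rw [d1]; exact (hcs _).symm
        · rw [d2]; exact fun h => th_ne_left _ _ e1 (Fin.castSucc_injective _ h)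
        · rw [d3]; exact fun h => e1 (Fin.castSucc_injective _ h).symm
      · push Not at ht
        obtain ⟨a, b, hh⟩ := hX u hu ht
        obtain ⟨d1, d2, d3, g1, g2, g3⟩ := DX u a b hu ht hh
        rcases hXnb u a b hu hh v huv with h | h | h <;> rw [h]
        · rw [d1]; exact (hcs _).symm
        · rw [d2]; exact fun h => th_ne_left _ _ g1 (Fin.castSucc_injective _ h)
        · rw [d3]; exact fun h => th_ne_left _ _ g2 (Fin.castSucc_injective _ h)

end

end Run7.h236.FS
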