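import Pool.Agent.Run7.h236.FS10

/-!
Cubic graphs with an induced even cycle whose complement is independent.
-/

set_option autoImplicit false
set_option linter.unusedSectionVars false

namespace Run7.h236.FS

open Finset Function

theorem induced_even_cycle {V : Type} [Fintype V] [DecidableEq V] (G : SimpleGraph V)
    [DecidableRel G.Adj] (hG : G.IsRegularOfDegree 3) (k : ℕ) (c : ZMod (2 * k) → V)
    (hc : Function.Injective c)
    (hcc : ∀ i j : ZMod (2 * k), G.Adj (c i) (c j) ↔ (j = i + 1 ∨ i = j + 1))
    (hI : ∀ u v : V, u ∉ Set.range c → v ∉ Set.range c → ¬ G.Adj u v) :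
    ∃ (c : V → Fin 4) (d : V → V → Fin 4),
      (∀ u v : V, G.Adj u v → d u v = d v u) ∧
      (∀ u v : V, G.Adj u v → c u ≠ c v) ∧
      (∀ u v w : V, G.Adj u v → G.Adj u w → v ≠ w → d u v ≠ d u w) ∧
      (∀ u v : V, G.Adj u v → d u v ≠ c u) := by
  classical
  -- the length is positive
  have hk0 : k ≠ 0 := by
    rintro rfl
    have h1 : Finite (ZMod (2 * 0)) := Finite.of_injective c hc
    have h2 : Finite ℤ := h1
    exact not_finite ℤ
  have : NeZero (2 * k) := ⟨by omega⟩
  -- the length is at least four
  have h2 : (2 : ZMod (2 * k)) ≠ 0 := by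
    intro h
    have h' : ((2 : ℕ) : ZMod (2 * k)) = 0 := by exact_mod_cast h
    rw [ZMod.natCast_eq_zero_iff] at h'
    have hk1 : k = 1 := by
      have := Nat.le_of_dvd (by norm_num) h'
      omega
    subst hk1
    -- `c 0` has at most one neighbour on the cycle
    obtain ⟨u, hu, hu1⟩ : ∃ u, G.Adj (c 0) u ∧ u ∉ Set.range c := by
      by_contra hcon
      push Not at hcon
      have h3 : G.neighborFinset (c 0) ⊆ Finset.univ.image c := by
        intro x hx
        rw [SimpleGraph.mem_neighborFinset] at hx
        obtain ⟨y, rfl⟩ := hcon x hx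
        exact mem_image_of_mem _ (mem_univ _)
      have h4 := card_le_card h3
      rw [SimpleGraph.card_neighborFinset_eq_degree, hG] at h4
      have h5 : (Finset.univ.image c).card ≤ 2 := by
        refine le_trans card_image_le ?_
        rw [card_univ, ZMod.card]
      omega
    have h3 : G.neighborFinset u ⊆ Finset.univ.image c := by
      intro x hx
      rw [SimpleGraph.mem_neighborFinset] at hx
      by_contra hx'
      refine hI u x hu1 ?_ hx
      rintro ⟨y, rfl⟩
      exact hx' (mem_image_of_mem _ (mem_univ _))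
    have h4 := card_le_card h3
    rw [SimpleGraph.card_neighborFinset_eq_degree, hG] at h4
    have h5 : (Finset.univ.image c).card ≤ 2 := by
      refine le_trans card_image_le ?_
      rw [card_univ, ZMod.card]
    omega
  -- parity
  set π : ZMod (2 * k) →+* ZMod 2 := ZMod.castHom (Dvd.intro k rfl) (ZMod 2) with hπ
  have hp : ∀ x : ZMod 2, x = 0 ∨ x = 1 := by decide
  have h11 : (1 : ZMod 2) + 1 = 0 := by decide
  have h10 : (1 : ZMod 2) ≠ 0 := by decide
  have h01 : (0 : ZMod 2) - 1 = 1 := by decide
  set N : ZMod (2 * k) → ZMod (2 * k) := fun i => if π i = 0 then i + 1 else i - 1 with hN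
  set S : ZMod (2 * k) → ZMod (2 * k) := fun i => if π i = 0 then i - 1 else i + 1 with hS
  have hN0 : ∀ i, π i = 0 → N i = i + 1 := fun i h => by simp only [hN]; rw [if_pos h]
  have hN1 : ∀ i, π i ≠ 0 → N i = i - 1 := fun i h => by simp only [hN]; rw [if_neg h]
  have hS0 : ∀ i, π i = 0 → S i = i - 1 := fun i h => by simp only [hS]; rw [if_pos h]
  have hS1 : ∀ i, π i ≠ 0 → S i = i + 1 := fun i h => by simp only [hS]; rw [if_neg h]
  have hNN : ∀ i, N (N i) = i := by
    intro i
    by_cases h : π i = 0
    · rw [hN0 i h, hN1 (i + 1) (by rw [map_add, map_one, h, zero_add]; exact h10),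
        add_sub_cancel_right]
    · have h' : π i = 1 := (hp _).resolve_left h
      rw [hN1 i h, hN0 (i - 1) (by rw [map_sub, map_one, h', sub_self]), sub_add_cancel]
  have hSS : ∀ i, S (S i) = i := by
    intro i
    by_cases h : π i = 0
    · rw [hS0 i h, hS1 (i - 1) (by rw [map_sub, map_one, h, h01]; exact h10), sub_add_cancel]
    · have h' : π i = 1 := (hp _).resolve_left h
      rw [hS1 i h, hS0 (i + 1) (by rw [map_add, map_one, h', h11]), add_sub_cancel_right]
  have hSN : ∀ i, S i ≠ N i := by
    intro i h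
    by_cases h' : π i = 0
    · rw [hS0 i h', hN0 i h'] at h
      apply h2
      have : i + 1 - (i - 1) = 0 := by rw [h]; ring
      have h3 : i + 1 - (i - 1) = 2 := by ring
      rw [← h3, this]
    · rw [hS1 i h', hN1 i h'] at h
      apply h2
      have : i + 1 - (i - 1) = 0 := by rw [h]; ring
      have h3 : i + 1 - (i - 1) = 2 := by ring
      rw [← h3, this]
  have hNa : ∀ i, G.Adj (c i) (c (N i)) := by
    intro i
    rw [hcc]
    by_cases h' : π i = 0
    · rw [hN0 i h']; exact Or.inl rfl
    · rw [hN1 i h']; exact Or.inr (sub_add_cancel i 1).symm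
  have hSa : ∀ i, G.Adj (c i) (c (S i)) := by
    intro i
    rw [hcc]
    by_cases h' : π i = 0
    · rw [hS0 i h']; exact Or.inr (sub_add_cancel i 1).symm
    · rw [hS1 i h']; exact Or.inl rfl
  -- the maps on vertices
  have hne : ∃ i : ZMod (2 * k), True := ⟨0, trivial⟩
  set e : V → ZMod (2 * k) := Function.invFun c with he
  have hec : ∀ i, e (c i) = i := Function.leftInverse_invFun hc
  -- third neighbour
  have hthird : ∀ i, ∃ u, u ∉ Set.range c ∧ G.Adj (c i) u := by
    intro i
    by_contra hcon
    push Not at hcon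
    have h3 : G.neighborFinset (c i) ⊆ {c (i + 1), c (i - 1)} := by
      intro x hx
      rw [SimpleGraph.mem_neighborFinset] at hx
      by_cases hx1 : x ∈ Set.range c
      · obtain ⟨j, rfl⟩ := hx1
        rw [hcc] at hx
        rw [mem_insert, mem_singleton]
        rcases hx with h | h
        · left; rw [h]
        · right; rw [h, add_sub_cancel_right]
      · exact absurd hx (hcon x hx1)
    have h4 := card_le_card h3
    rw [SimpleGraph.card_neighborFinset_eq_degree, hG] at h4
    have h5 := card_le_two (a := c (i + 1)) (b := c (i - 1))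
    omega
  refine estar G hG (Set.range c)ᶜ (fun u hu v hv => hI u v hu hv) (fun v => c (N (e v)))
    (fun v => c (S (e v))) ?_ ?_ ?_ ?_ ?_
  · intro v hv
    rw [Set.notMem_compl_iff] at hv
    obtain ⟨i, rfl⟩ := hv
    simp only [hec]
    refine ⟨by rw [Set.notMem_compl_iff]; exact ⟨_, rfl⟩, hNa i, by rw [hNN]⟩
  · intro v hv
    rw [Set.notMem_compl_iff] at hv
    obtain ⟨i, rfl⟩ := hv
    simp only [hec]
    refine ⟨by rw [Set.notMem_compl_iff]; exact ⟨_, rfl⟩, by rw [hSS]⟩
  · intro v hv _
    rw [Set.notMem_compl_iff] at hv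
    obtain ⟨i, rfl⟩ := hv
    simp only [hec]
    exact ⟨hSa i, fun h => hSN i (hc h)⟩
  · intro v hv hx
    rw [Set.notMem_compl_iff] at hv
    obtain ⟨i, rfl⟩ := hv
    obtain ⟨u, hu1, hu2⟩ := hthird i
    exact absurd hu2 (hx u hu1)
  · intro T hT hcl v hv
    rw [Set.notMem_compl_iff] at hv
    obtain ⟨j, rfl⟩ := hv
    obtain ⟨w, hw⟩ := hT
    have hw1 := (hcl w hw).1
    rw [Set.notMem_compl_iff] at hw1
    obtain ⟨i, rfl⟩ := hw1
    have hstep : ∀ x, c x ∈ T → c (x + 1) ∈ T := by
      intro x hx
      have h1 := hcl _ hx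
      simp only [hec] at h1
      by_cases h' : π x = 0
      · rw [hN0 x h'] at h1; exact h1.2.1
      · rw [hS1 x h'] at h1; exact h1.2.2
    have hall : ∀ m : ℕ, c (i + m) ∈ T := by
      intro m
      induction m with
      | zero => simpa using hw
      | succ m ih =>
        have := hstep _ ih
        rwa [Nat.cast_succ, ← add_assoc]
    have := hall (j - i).val
    rwa [ZMod.natCast_zmod_val, add_sub_cancel] at this

end Run7.h236.FS
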