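import Pool.Agent.Run7.h236.FS1

/-!
A parity proof of the cycle-plus-triangles theorem.  Part 2: the sum over all fillings of a
complete word is the identity matrix.
-/

set_option autoImplicit false
set_option linter.unusedSectionVars false

namespace Run7.h236.FS

open Finset

variable {ι : Type} [Fintype ι] [DecidableEq ι]

/-- A letter is neutral: untouched, or it has lost both active symbols. -/
def Neu (G : ι → Finset (Fin 3 → Fin 3)) (w : List (ι × Fin 3)) (x : ι) : Prop :=
  G x = F0 ∨ ∃ i j, i ≠ j ∧ G x = Fd i j ∧ (x, i) ∉ w ∧ (x, j) ∉ w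

/-- The number of untouched letters. -/
def nf (G : ι → Finset (Fin 3 → Fin 3)) : ℕ := (univ.filter fun x => G x = F0).card

/-- Untouched letters occur three times. -/
def Cpl (G : ι → Finset (Fin 3 → Fin 3)) (w : List (ι × Fin 3)) : Prop :=
  ∀ x, G x = F0 → ∀ k, (x, k) ∈ w

lemma FA_ne (i : Fin 3) : FA i ≠ F0 := by revert i; decide
lemma FB_ne (i : Fin 3) : FB i ≠ F0 := by revert i; decide
lemma Fd_ne (i j : Fin 3) : Fd i j ≠ F0 := by revert i j; decide
lemma Fd_card (i j : Fin 3) (h : i ≠ j) : (Fd i j).card = 1 := by revert i j; decide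
lemma Fd_zero (i j k : Fin 3) (hi : k ≠ i) (hj : k ≠ j) (f : Fin 3 → Fin 3) (hf : f ∈ Fd i j) :
    f k = 0 := by
  revert f; revert i j k; decide

abbrev MM : ι → Fin 3 → Mat := fun _ => M

lemma pr_one (w : List (ι × Fin 3)) (h : ι → Fin 3 → Fin 3)
    (H : ∀ p ∈ w, h p.1 p.2 = 0) : pr MM w h = 1 := by
  unfold pr
  apply List.prod_eq_one
  intro m hm
  obtain ⟨p, hp, rfl⟩ := List.mem_map.1 hm
  rw [H p hp]; rfl

lemma pr_congr (Y : ι → Fin 3 → Mat) (w : List (ι × Fin 3)) (h h' : ι → Fin 3 → Fin 3)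
    (H : ∀ p ∈ w, h p.1 p.2 = h' p.1 p.2) : pr Y w h = pr Y w h' := by
  unfold pr
  congr 1
  exact List.map_congr_left fun p hp => by rw [H p hp]

/-- No untouched letters. -/
lemma N_zero (G : ι → Finset (Fin 3 → Fin 3)) (w : List (ι × Fin 3))
    (hN : ∀ x, Neu G w x) (h0 : nf G = 0) : Ph MM G w = 1 := by
  have h1 : ∀ x, ∃ i j, i ≠ j ∧ G x = Fd i j ∧ (x, i) ∉ w ∧ (x, j) ∉ w := by
    intro x
    rcases hN x with h | h
    · exfalso
      unfold nf at h0
      rw [card_eq_zero] at h0
      have : x ∈ (univ.filter fun x => G x = F0) := by simp [h]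
      rw [h0] at this
      simp at this
    · exact h
  unfold Ph
  have h2 : ∀ h ∈ Fintype.piFinset G, pr MM w h = 1 := by
    intro h hh
    apply pr_one
    intro p hp
    obtain ⟨i, j, hij, hG, hi, hj⟩ := h1 p.1
    have := (Fintype.mem_piFinset.1 hh) p.1
    rw [hG] at this
    refine Fd_zero i j p.2 ?_ ?_ _ this
    · rintro h; exact hi (by rw [← h]; exact hp)
    · rintro h; exact hj (by rw [← h]; exact hp)
  rw [sum_congr rfl h2]
  have h3 : (Fintype.piFinset G).card = 1 := by
    rw [Fintype.card_piFinset]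
    apply prod_eq_one
    intro x _
    obtain ⟨i, j, hij, hG, -, -⟩ := h1 x
    rw [hG]; exact Fd_card i j hij
  rw [sum_const, h3, one_smul]

/-- Exchange of the symbols `1` and `2`. -/
def sw : Fin 3 → Fin 3 := ![0, 2, 1]

def J : Mat := !![0, 1; 1, 0]

lemma sw_sw (k : Fin 3) : sw (sw k) = k := by revert k; decide
lemma JJ : J * J = 1 := by decide
lemma M_sw (k : Fin 3) : M (sw k) = J * M k * J := by revert k; decide
lemma sw_mem_F0 (f : Fin 3 → Fin 3) : (f ∈ F0) → (fun k => sw (f k)) ∈ F0 := by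
  intro h
  simp only [F0, mem_filter, mem_univ, true_and] at h ⊢
  intro a b hab
  apply h
  have := congrArg sw hab
  rwa [sw_sw, sw_sw] at this

lemma list_conj {α : Type} (w : List α) (X X' : α → Mat) (h : ∀ p ∈ w, X' p = J * X p * J) :
    (w.map X').prod = J * (w.map X).prod * J := by
  induction w with
  | nil => simp [JJ]
  | cons p w ih =>
    simp only [List.map_cons, List.prod_cons]
    rw [ih fun q hq => h q (List.mem_cons_of_mem _ hq), h p List.mem_cons_self]
    calc J * X p * J * (J * (List.map X w).prod * J)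
        = J * X p * (J * J) * (List.map X w).prod * J := by simp only [mul_assoc]
      _ = J * (X p * (List.map X w).prod) * J := by rw [JJ, mul_one]; simp only [mul_assoc]

lemma conj_sum (G1 G2 : ι → Finset (Fin 3 → Fin 3)) (u : List (ι × Fin 3)) (S : ι → Prop)
    [DecidablePred S]
    (h1 : ∀ z, S z → ∀ f, f ∈ G1 z → (fun k => sw (f k)) ∈ G2 z)
    (h2 : ∀ z, S z → ∀ f, f ∈ G2 z → (fun k => sw (f k)) ∈ G1 z)
    (h3 : ∀ z, ¬ S z → G2 z = G1 z)
    (h4 : ∀ z, ¬ S z → ∀ f ∈ G1 z, ∀ k, (z, k) ∈ u → f k = 0) :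
    Ph MM G2 u = J * Ph MM G1 u * J := by
  unfold Ph
  rw [mul_sum, sum_mul]
  symm
  refine sum_nbij' (fun h z => if S z then fun k => sw (h z k) else h z)
    (fun h z => if S z then fun k => sw (h z k) else h z) ?_ ?_ ?_ ?_ ?_
  · intro h hh
    rw [Fintype.mem_piFinset] at hh ⊢
    intro z
    by_cases hz : S z
    · simp only [if_pos hz]; exact h1 z hz _ (hh z)
    · simp only [if_neg hz]; rw [h3 z hz]; exact hh z
  · intro h hh
    rw [Fintype.mem_piFinset] at hh ⊢
    intro z
    by_cases hz : S z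
    · simp only [if_pos hz]; exact h2 z hz _ (hh z)
    · simp only [if_neg hz]; rw [← h3 z hz]; exact hh z
  · intro h _
    funext z
    by_cases hz : S z
    · simp only [if_pos hz, sw_sw]
    · simp only [if_neg hz]
  · intro h _
    funext z
    by_cases hz : S z
    · simp only [if_pos hz, sw_sw]
    · simp only [if_neg hz]
  · intro h hh
    unfold pr
    symm
    apply list_conj
    intro p hp
    by_cases hz : S p.1
    · simp only [if_pos hz]
      exact M_sw _
    · simp only [if_neg hz]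
      rw [h4 p.1 hz _ ((Fintype.mem_piFinset.1 hh) p.1) p.2 hp]
      change (M 0 : Mat) = J * M 0 * J
      rw [M_zero, mul_one, JJ]

end Run7.h236.FS
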