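import Pool.Agent.Run7.h236.FS2

set_option autoImplicit false
set_option linter.unusedSectionVars false

namespace Run7.h236.FS

open Finset

variable {ι : Type} [Fintype ι] [DecidableEq ι]

lemma res_self (G : ι → Finset (Fin 3 → Fin 3)) (p : ι × Fin 3) (s : Fin 3) :
    res G p s p.1 = (G p.1).filter fun f => f p.2 = s := by
  simp [res]

lemma res_ne (G : ι → Finset (Fin 3 → Fin 3)) (p : ι × Fin 3) (s : Fin 3) (x : ι) (h : x ≠ p.1) :
    res G p s x = G x := by
  simp [res, Function.update_of_ne h]

lemma add_eq_zero_mat {X Y : Mat} (h : X + Y = 0) : X = Y := by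
  have h1 : X + Y + Y = Y := by rw [h, zero_add]
  rw [add_assoc, mat_add_self, add_zero] at h1
  exact h1

/-- The statement for neutral families. -/
def NN (ι : Type) [Fintype ι] [DecidableEq ι] (n : ℕ) : Prop :=
  ∀ (G : ι → Finset (Fin 3 → Fin 3)) (w : List (ι × Fin 3)), w.Nodup →
    (∀ x, Neu G w x) → Cpl G w → nf G = n → Ph MM G w = 1

/-- The statement for families with one letter of type A and one letter of type B. -/
def TT (ι : Type) [Fintype ι] [DecidableEq ι] (n : ℕ) : Prop :=
  ∀ (G : ι → Finset (Fin 3 → Fin 3)) (w : List (ι × Fin 3)) (x y : ι) (i j : Fin 3), w.Nodup →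
    x ≠ y → G x = FA i → (x, i) ∉ w → (∀ k, k ≠ i → (x, k) ∈ w) → G y = FB j → (y, j) ∉ w →
    (∀ z, z ≠ x → z ≠ y → Neu G w z) → Cpl G w → nf G = n →
    Ph MM G w = 0 ∨ Ph MM G w = 1

lemma three (a b i : Fin 3) (hai : a ≠ i) (hbi : b ≠ i) (hab : a ≠ b) (k : Fin 3) :
    k = a ∨ k = b ∨ k = i := by
  revert a b i k; decide

lemma FA_comm (i a b : Fin 3) (hai : a ≠ i) (hbi : b ≠ i) (hab : a ≠ b) (f : Fin 3 → Fin 3)
    (hf : f ∈ FA i) : M (f a) * M (f b) = M (f b) * M (f a) := by
  revert f; revert i a b; decide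

/-- Two adjacent positions of a letter of type A cancel. -/
lemma adj_zero (G : ι → Finset (Fin 3 → Fin 3)) (l1 l3 : List (ι × Fin 3)) (x : ι)
    (i a b : Fin 3) (hG : G x = FA i) (hai : a ≠ i) (hbi : b ≠ i) (hab : a ≠ b)
    (hnd : (l1 ++ (x, a) :: (x, b) :: l3).Nodup) (hi : (x, i) ∉ l1 ++ (x, a) :: (x, b) :: l3) :
    Ph MM G (l1 ++ (x, a) :: (x, b) :: l3) = 0 := by
  have h3 : ∀ k : Fin 3, k = a ∨ k = b ∨ k = i := three a b i hai hbi hab
  have hout : ∀ p ∈ l1 ++ l3, p.1 ≠ x := by
    intro p hp hpx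
    obtain ⟨p1, p2⟩ := p
    simp only at hpx; subst hpx
    have hp' : (p1, p2) ∈ l1 ++ (p1, a) :: (p1, b) :: l3 := by
      simp only [List.mem_append, List.mem_cons] at hp ⊢; tauto
    rw [List.nodup_append] at hnd
    simp only [List.nodup_cons, List.mem_cons] at hnd
    rcases h3 p2 with h | h | h
    · subst h
      rcases List.mem_append.1 hp with h | h
      · exact hnd.2.2 _ h _ (Or.inl rfl) rfl
      · exact hnd.2.1.1 (Or.inr h)
    · subst h
      rcases List.mem_append.1 hp with h | h
      · exact hnd.2.2 _ h _ (Or.inr (Or.inl rfl)) rfl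
      · exact hnd.2.1.2.1 h
    · subst h; exact hi hp'
  unfold Ph
  refine sum_involution (fun h _ => Function.update h x (fun k => h x (Equiv.swap a b k)))
    ?_ ?_ ?_ ?_
  · intro h hh
    have hx : h x ∈ FA i := by rw [← hG]; exact (Fintype.mem_piFinset.1 hh) x
    have e1 : pr MM l1 (Function.update h x (fun k => h x (Equiv.swap a b k))) = pr MM l1 h := by
      apply pr_congr
      intro p hp
      rw [Function.update_of_ne (hout p (List.mem_append.2 (Or.inl hp)))]
    have e3 : pr MM l3 (Function.update h x (fun k => h x (Equiv.swap a b k))) = pr MM l3 h := by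
      apply pr_congr
      intro p hp
      rw [Function.update_of_ne (hout p (List.mem_append.2 (Or.inr hp)))]
    simp only [pr_append, pr_cons, e1, e3, Function.update_self, Equiv.swap_apply_left,
      Equiv.swap_apply_right]
    have hc : M (h x a) * M (h x b) = M (h x b) * M (h x a) := FA_comm i a b hai hbi hab _ hx
    have e : pr MM l1 h * (M (h x a) * (M (h x b) * pr MM l3 h)) =
        pr MM l1 h * (M (h x b) * (M (h x a) * pr MM l3 h)) := by
      rw [← mul_assoc (M (h x a)), hc, mul_assoc]
    rw [e]; exact mat_add_self _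
  · intro h hh _ heq
    have hx : h x ∈ FA i := by rw [← hG]; exact (Fintype.mem_piFinset.1 hh) x
    have h1 := congrFun (congrFun heq x) a
    simp only [Function.update_self, Equiv.swap_apply_left] at h1
    simp only [FA, F0, mem_filter, mem_univ, true_and] at hx
    exact hab (hx.1 _ _ h1).symm
  · intro h hh
    rw [Fintype.mem_piFinset] at hh ⊢
    intro z
    by_cases hz : z = x
    · subst hz
      rw [Function.update_self, hG]
      have hx := hh z
      rw [hG] at hx
      simp only [FA, F0, mem_filter, mem_univ, true_and] at hx ⊢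
      refine ⟨fun c d hcd => (Equiv.swap a b).injective (hx.1 _ _ hcd), ?_⟩
      rw [Equiv.swap_apply_of_ne_of_ne hai.symm hbi.symm]; exact hx.2
    · rw [Function.update_of_ne hz]; exact hh z
  · intro h hh
    funext z
    by_cases hz : z = x
    · subst hz; simp
    · simp [Function.update_of_ne hz]

/-- Membership after deleting two positions. -/
lemma mem_del {α : Type} (l1 l2 : List α) (p q r : α) (hnd : (l1 ++ p :: q :: l2).Nodup) :
    r ∈ l1 ++ l2 ↔ r ∈ l1 ++ p :: q :: l2 ∧ r ≠ p ∧ r ≠ q := by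
  rw [List.nodup_append] at hnd
  simp only [List.nodup_cons, List.mem_cons, List.mem_append] at hnd ⊢
  constructor
  · rintro (h | h)
    · refine ⟨Or.inl h, fun h' => ?_, fun h' => ?_⟩
      · exact hnd.2.2 _ h _ (Or.inl rfl) h'
      · exact hnd.2.2 _ h _ (Or.inr (Or.inl rfl)) h'
    · refine ⟨Or.inr (Or.inr (Or.inr h)), fun h' => ?_, fun h' => ?_⟩
      · subst h'; exact hnd.2.1.1 (Or.inr h)
      · subst h'; exact hnd.2.1.2.1 h
  · rintro ⟨h | h | h | h, h1, h2⟩
    · exact Or.inl h
    · exact absurd h h1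
    · exact absurd h h2
    · exact Or.inr h

lemma nodup_del {α : Type} (l1 l2 : List α) (p q : α) (hnd : (l1 ++ p :: q :: l2).Nodup) :
    (l1 ++ l2).Nodup := by
  refine hnd.sublist ?_
  exact (List.Sublist.refl l1).append ((List.sublist_cons_self _ _).trans (List.sublist_cons_self _ _))

end Run7.h236.FS
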