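import Pool.Agent.Run7.h236.FS3

set_option autoImplicit false
set_option linter.unusedSectionVars false

namespace Run7.h236.FS

open Finset

variable {ι : Type} [Fintype ι] [DecidableEq ι]

lemma Neu_mono {G G' : ι → Finset (Fin 3 → Fin 3)} {w u : List (ι × Fin 3)} {x : ι}
    (h : Neu G w x) (hG : G' x = G x) (hu : ∀ p ∈ u, p ∈ w) : Neu G' u x := by
  rcases h with h | ⟨i, j, h1, h2, h3, h4⟩
  · left; rw [hG]; exact h
  · right; exact ⟨i, j, h1, by rw [hG]; exact h2, fun h => h3 (hu _ h), fun h => h4 (hu _ h)⟩

lemma TT_inner (n : ℕ) (hN : NN ι n) (hT : ∀ m < n, TT ι m)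
    (G : ι → Finset (Fin 3 → Fin 3)) (x y : ι) (i j a b : Fin 3) (l3 : List (ι × Fin 3))
    (hxy : x ≠ y) (hGx : G x = FA i) (hGy : G y = FB j) (hai : a ≠ i) (hbi : b ≠ i) (hab : a ≠ b)
    (hn : nf G = n) : ∀ (l2 l1 : List (ι × Fin 3)),
    (l1 ++ (x, a) :: (l2 ++ (x, b) :: l3)).Nodup →
    (x, i) ∉ (l1 ++ (x, a) :: (l2 ++ (x, b) :: l3)) →
    (y, j) ∉ (l1 ++ (x, a) :: (l2 ++ (x, b) :: l3)) →
    (∀ z, z ≠ x → z ≠ y → Neu G (l1 ++ (x, a) :: (l2 ++ (x, b) :: l3)) z) →
    Cpl G (l1 ++ (x, a) :: (l2 ++ (x, b) :: l3)) →
    Ph MM G (l1 ++ (x, a) :: (l2 ++ (x, b) :: l3)) = 0 ∨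
      Ph MM G (l1 ++ (x, a) :: (l2 ++ (x, b) :: l3)) = 1 := by
  intro l2
  induction l2 with
  | nil =>
    intro l1 hnd hi hj hNeu hC
    left
    exact adj_zero G l1 l3 x i a b hGx hai hbi hab hnd hi
  | cons z l2 ih =>
    intro l1 hnd hi hj hNeu hC
    simp only [List.cons_append] at hnd hi hj hNeu hC ⊢
    set u := l1 ++ (l2 ++ (x, b) :: l3) with hu
    have hmem := mem_del l1 (l2 ++ (x, b) :: l3) (x, a) z
    have hperm : (l1 ++ (x, a) :: z :: (l2 ++ (x, b) :: l3)).Perm
        ((l1 ++ [z]) ++ (x, a) :: (l2 ++ (x, b) :: l3)) := by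
      rw [List.append_assoc]
      exact (List.Perm.append_left l1 (List.Perm.swap _ _ _))
    have e1 : l1 ++ z :: (x, a) :: (l2 ++ (x, b) :: l3) =
        (l1 ++ [z]) ++ (x, a) :: (l2 ++ (x, b) :: l3) := by simp
    have IH := ih (l1 ++ [z]) (hperm.nodup_iff.1 hnd) (fun h => hi (hperm.mem_iff.2 h))
      (fun h => hj (hperm.mem_iff.2 h))
      (fun c h1 h2 => Neu_mono (hNeu c h1 h2) rfl fun p hp => hperm.mem_iff.2 hp)
      (fun c hc k => hperm.mem_iff.1 (hC c hc k))
    have hs := swap_sum G l1 (l2 ++ (x, b) :: l3) (x, a) z
    rw [e1] at hs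
    -- second term vanishes
    have hz1 : z.1 ≠ x := by
      intro hz
      obtain ⟨z1, z2⟩ := z
      simp only at hz; subst hz
      rcases three a b i hai hbi hab z2 with h | h | h
      · subst h
        rw [List.nodup_append] at hnd
        simp at hnd
      · subst h
        rw [List.nodup_append] at hnd
        simp at hnd
      · subst h; exact hi (by simp)
    have t2 : Ph MM (res (res G (x, a) 2) z 1) u = 0 := by
      apply Ph_empty _ _ _ x
      rw [res_ne _ _ _ _ hz1.symm]
      have := res_self G (x, a) 2
      simp only at this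
      rw [this, hGx]
      exact FA_filter2 i a hai
    -- first term
    have t1 : Ph MM (res (res G (x, a) 1) z 2) u = 0 ∨ Ph MM (res (res G (x, a) 1) z 2) u = 1 := by
      set G' := res (res G (x, a) 1) z 2 with hG'
      have hG'x : G' x = Fd i a := by
        rw [hG', res_ne _ _ _ _ hz1.symm]
        have := res_self G (x, a) 1
        simp only at this
        rw [this, hGx]
        exact FA_filter1 i a
      have hG'z : G' z.1 = (G z.1).filter fun f => f z.2 = 2 := by
        rw [hG', res_self, res_ne _ _ _ _ (by exact hz1)]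
      have hG'o : ∀ c, c ≠ x → c ≠ z.1 → G' c = G c := by
        intro c h1 h2
        rw [hG', res_ne _ _ _ _ h2, res_ne _ _ _ _ (by exact h1)]
      have hndu : u.Nodup := nodup_del l1 _ (x, a) z hnd
      have hmu : ∀ r, r ∈ u ↔ r ∈ l1 ++ (x, a) :: z :: (l2 ++ (x, b) :: l3) ∧ r ≠ (x, a) ∧ r ≠ z :=
        fun r => hmem r hnd
      have hsub : ∀ p ∈ u, p ∈ l1 ++ (x, a) :: z :: (l2 ++ (x, b) :: l3) := fun p hp =>
        ((hmu p).1 hp).1
      have hxneu : Neu G' u x := by
        right
        refine ⟨i, a, hai.symm, hG'x, fun h => hi (hsub _ h), fun h => ?_⟩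
        exact ((hmu _).1 h).2.1 rfl
      have hzw : z ∈ l1 ++ (x, a) :: z :: (l2 ++ (x, b) :: l3) := by simp
      have hzu : z ∉ u := fun h => ((hmu _).1 h).2.2 rfl
      by_cases hzy : z.1 = y
      · -- the other active symbol is met
        right
        have hzj : z.2 ≠ j := by
          intro h
          apply hj
          have : z = (y, j) := by rw [← hzy, ← h]
          rw [← this]; exact hzw
        have hG'y : G' y = Fd z.2 j := by
          rw [← hzy, hG'z, hzy, hGy]; exact FB_filter2 j z.2
        have hyneu : Neu G' u y := by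
          right
          refine ⟨z.2, j, hzj, hG'y, fun h => hzu ?_, fun h => hj (hsub _ h)⟩
          rw [← hzy] at h; exact h
        apply hN G' u hndu
        · intro c
          by_cases h1 : c = x
          · rw [h1]; exact hxneu
          · by_cases h2 : c = y
            · rw [h2]; exact hyneu
            · exact Neu_mono (hNeu c h1 h2) (hG'o c h1 (by rw [hzy]; exact h2)) hsub
        · intro c hc k
          have h1 : c ≠ x := fun h => Fd_ne i a (by rw [← hG'x, ← h]; exact hc)
          have h2 : c ≠ y := fun h => Fd_ne z.2 j (by rw [← hG'y, ← h]; exact hc)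
          rw [hG'o c h1 (by rw [hzy]; exact h2)] at hc
          rw [hmu]
          refine ⟨hC c hc k, fun h => h1 (congrArg Prod.fst h), fun h => h2 ?_⟩
          rw [← hzy]; exact congrArg Prod.fst h
        · rw [← hn]
          unfold nf
          congr 1
          ext c
          simp only [mem_filter, mem_univ, true_and]
          by_cases h1 : c = x
          · subst h1
            exact ⟨fun h => absurd (hG'x.symm.trans h) (Fd_ne _ _),
              fun h => absurd (hGx.symm.trans h) (FA_ne _)⟩
          · by_cases h2 : c = y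
            · subst h2
              exact ⟨fun h => absurd (hG'y.symm.trans h) (Fd_ne _ _),
                fun h => absurd (hGy.symm.trans h) (FB_ne _)⟩
            · rw [hG'o c h1 (by rw [hzy]; exact h2)]
      · -- a neutral letter is met
        rcases hNeu z.1 hz1 hzy with hF | ⟨i0, j0, h0, hF, hi0, hj0⟩
        · -- an untouched letter becomes the letter of type A
          have hG'z' : G' z.1 = FA z.2 := by rw [hG'z, hF]; exact F0_filter2 z.2
          have hnf : nf G = nf G' + 1 := by
            unfold nf
            have : (univ.filter fun c => G c = F0) =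
                insert z.1 (univ.filter fun c => G' c = F0) := by
              ext c
              simp only [mem_filter, mem_univ, true_and, mem_insert]
              by_cases h1 : c = x
              · subst h1
                refine ⟨fun h => absurd (hGx.symm.trans h) (FA_ne _), ?_⟩
                rintro (h | h)
                · exact absurd h.symm hz1
                · exact absurd (hG'x.symm.trans h) (Fd_ne _ _)
              · by_cases h2 : c = z.1
                · subst h2
                  exact ⟨fun _ => Or.inl rfl, fun _ => hF⟩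
                · rw [hG'o c h1 h2]
                  simp [h2]
            rw [this, card_insert_of_notMem]
            simp only [mem_filter, mem_univ, true_and]
            rw [hG'z']; exact FA_ne _
          refine hT (nf G') (by omega) G' u z.1 y z.2 j hndu hzy hG'z' ?_ ?_ ?_ ?_ ?_ ?_ rfl
          · exact hzu
          · intro k hk
            rw [hmu]
            refine ⟨hC z.1 hF k, fun h => hz1 (congrArg Prod.fst h), fun h => hk ?_⟩
            exact congrArg Prod.snd h
          · rw [hG'o y hxy.symm (fun h => hzy h.symm)]; exact hGy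
          · exact fun h => hj (hsub _ h)
          · intro c h1 h2
            by_cases h3 : c = x
            · rw [h3]; exact hxneu
            · exact Neu_mono (hNeu c h3 h2) (hG'o c h3 h1) hsub
          · intro c hc k
            have h1 : c ≠ x := fun h => Fd_ne i a (by rw [← hG'x, ← h]; exact hc)
            have h2 : c ≠ z.1 := fun h => FA_ne z.2 (by rw [← hG'z', ← h]; exact hc)
            rw [hG'o c h1 h2] at hc
            rw [hmu]
            exact ⟨hC c hc k, fun h => h1 (congrArg Prod.fst h),
              fun h => h2 (congrArg Prod.fst h)⟩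
        · -- a finished letter commutes
          left
          apply Ph_empty _ _ _ z.1
          rw [hG'z, hF]
          apply Fd_filter2
          · intro h; apply hi0
            have : z = (z.1, i0) := by rw [← h]
            rw [← this]; exact hzw
          · intro h; apply hj0
            have : z = (z.1, j0) := by rw [← h]
            rw [← this]; exact hzw
    have t2' : Ph (fun _ => M) (res (res G (x, a) 2) z 1) (l1 ++ (l2 ++ (x, b) :: l3)) = 0 := t2
    rw [t2', add_zero] at hs
    have hs' : Ph MM G (l1 ++ (x, a) :: z :: (l2 ++ (x, b) :: l3)) =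
        Ph MM G (l1 ++ [z] ++ (x, a) :: (l2 ++ (x, b) :: l3)) +
          Ph MM (res (res G (x, a) 1) z 2) u := by
      rw [hu]
      have : Ph (fun _ => M) (res (res G (x, a) 1) z 2) (l1 ++ (l2 ++ (x, b) :: l3)) =
        Ph (fun _ => M) G (l1 ++ (x, a) :: z :: (l2 ++ (x, b) :: l3)) +
        Ph (fun _ => M) G (l1 ++ [z] ++ (x, a) :: (l2 ++ (x, b) :: l3)) := hs.symm
      change _ = Ph (fun _ => M) G (l1 ++ [z] ++ (x, a) :: (l2 ++ (x, b) :: l3)) +
        Ph (fun _ => M) (res (res G (x, a) 1) z 2) (l1 ++ (l2 ++ (x, b) :: l3))
      rw [this, add_comm, add_assoc, mat_add_self, add_zero]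
    rw [hs']
    rcases IH with h | h <;> rcases t1 with h' | h' <;> rw [h, h']
    · left; simp
    · right; simp
    · right; simp
    · left; exact mat_add_self _

end Run7.h236.FS
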