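import Pool.Agent.Run7.h236.FS4

set_option autoImplicit false
set_option linter.unusedSectionVars false

namespace Run7.h236.FS

open Finset

variable {ι : Type} [Fintype ι] [DecidableEq ι]

lemma two_others (i : Fin 3) : ∃ a b : Fin 3, a ≠ i ∧ b ≠ i ∧ a ≠ b := by
  revert i; decide

lemma TT_step (n : ℕ) (hN : NN ι n) (hT : ∀ m < n, TT ι m) : TT ι n := by
  intro G w x y i j hnd hxy hGx hi hk hGy hj hNeu hC hn
  obtain ⟨a, b, hai, hbi, hab⟩ := two_others i
  have ha := hk a hai
  have hb := hk b hbi
  obtain ⟨s, t, rfl⟩ := List.append_of_mem ha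
  simp only [List.mem_append, List.mem_cons] at hb
  rcases hb with hb | hb | hb
  · obtain ⟨s1, s2, rfl⟩ := List.append_of_mem hb
    rw [List.append_assoc, List.cons_append] at hnd hi hj hC hNeu ⊢
    exact TT_inner n hN hT G x y i j b a t hxy hGx hGy hbi hai hab.symm hn s2 s1 hnd hi hj hNeu hC
  · exact absurd (congrArg Prod.snd hb).symm hab
  · obtain ⟨s1, s2, rfl⟩ := List.append_of_mem hb
    exact TT_inner n hN hT G x y i j a b s2 hxy hGx hGy hai hbi hab hn s1 s hnd hi hj hNeu hC

/-- Swapping two neighbouring positions of an untouched letter. -/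
lemma swap_same (G : ι → Finset (Fin 3 → Fin 3)) (l1 l2 : List (ι × Fin 3)) (x : ι)
    (a b : Fin 3) (hG : G x = F0)
    (hnd : (l1 ++ (x, a) :: (x, b) :: l2).Nodup) :
    Ph MM G (l1 ++ (x, a) :: (x, b) :: l2) = Ph MM G (l1 ++ (x, b) :: (x, a) :: l2) := by
  have hmem := mem_del l1 l2 (x, a) (x, b)
  unfold Ph
  refine sum_nbij' (fun h => Function.update h x (fun k => h x (Equiv.swap a b k)))
    (fun h => Function.update h x (fun k => h x (Equiv.swap a b k))) ?_ ?_ ?_ ?_ ?_
  · intro h hh
    rw [Fintype.mem_piFinset] at hh ⊢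
    intro z
    by_cases hz : z = x
    · subst hz
      rw [Function.update_self, hG]
      have hx := hh z
      rw [hG] at hx
      simp only [F0, mem_filter, mem_univ, true_and] at hx ⊢
      exact fun c d hcd => (Equiv.swap a b).injective (hx _ _ hcd)
    · rw [Function.update_of_ne hz]; exact hh z
  · intro h hh
    rw [Fintype.mem_piFinset] at hh ⊢
    intro z
    by_cases hz : z = x
    · subst hz
      rw [Function.update_self, hG]
      have hx := hh z
      rw [hG] at hx
      simp only [F0, mem_filter, mem_univ, true_and] at hx ⊢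
      exact fun c d hcd => (Equiv.swap a b).injective (hx _ _ hcd)
    · rw [Function.update_of_ne hz]; exact hh z
  · intro h hh
    funext z
    by_cases hz : z = x
    · subst hz; simp
    · simp [Function.update_of_ne hz]
  · intro h hh
    funext z
    by_cases hz : z = x
    · subst hz; simp
    · simp [Function.update_of_ne hz]
  · intro h hh
    have key : ∀ l : List (ι × Fin 3), (∀ p ∈ l, p ∈ l1 ++ l2) →
        pr MM l (Function.update h x (fun k => h x (Equiv.swap a b k))) = pr MM l h := by
      intro l hl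
      apply pr_congr
      intro p hp
      by_cases hx : p.1 = x
      · have h1 := (hmem p hnd).1 (hl p hp)
        rw [hx, Function.update_self, Equiv.swap_apply_of_ne_of_ne]
        · intro h2
          apply h1.2.1
          rw [← hx, ← h2]
        · intro h2
          apply h1.2.2
          rw [← hx, ← h2]
      · rw [Function.update_of_ne hx]
    have e1 := key l1 fun p hp => List.mem_append.2 (Or.inl hp)
    have e2 := key l2 fun p hp => List.mem_append.2 (Or.inr hp)
    simp only [pr_append, pr_cons, e1, e2, Function.update_self, Equiv.swap_apply_left,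
      Equiv.swap_apply_right]

lemma F0_mem (f : Fin 3 → Fin 3) : f ∈ F0 ↔ ∀ a b, f a = f b → a = b := by simp [F0]

lemma sw_eq (k l : Fin 3) : sw k = l ↔ k = sw l := by
  revert k l; decide

/-- Swapping two neighbouring positions. -/
lemma swap_inv (n : ℕ) (hT : ∀ m < n, TT ι m) (G : ι → Finset (Fin 3 → Fin 3))
    (l1 l2 : List (ι × Fin 3)) (p q : ι × Fin 3) (hnd : (l1 ++ p :: q :: l2).Nodup)
    (hNeu : ∀ x, Neu G (l1 ++ p :: q :: l2) x) (hC : Cpl G (l1 ++ p :: q :: l2))
    (hn : nf G = n) :
    Ph MM G (l1 ++ p :: q :: l2) = Ph MM G (l1 ++ q :: p :: l2) := by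
  have hpw : p ∈ l1 ++ p :: q :: l2 := by simp
  have hqw : q ∈ l1 ++ p :: q :: l2 := by simp
  have hpq : p ≠ q := by
    rintro rfl
    rw [List.nodup_append] at hnd
    simp at hnd
  by_cases hx : p.1 = q.1
  · rcases hNeu p.1 with h | ⟨i, j, h0, hF, hi, hj⟩
    · obtain ⟨p1, p2⟩ := p
      obtain ⟨q1, q2⟩ := q
      simp only at hx h; subst hx
      exact swap_same G l1 l2 p1 p2 q2 h hnd
    · exfalso
      have h1 : p.2 ≠ i := by
        intro h; apply hi; have : p = (p.1, i) := by rw [← h]
        rw [← this]; exact hpw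
      have h2 : p.2 ≠ j := by
        intro h; apply hj; have : p = (p.1, j) := by rw [← h]
        rw [← this]; exact hpw
      have h3 : q.2 ≠ i := by
        intro h; apply hi; have : q = (p.1, i) := by rw [hx, ← h]
        rw [← this]; exact hqw
      have h4 : q.2 ≠ j := by
        intro h; apply hj; have : q = (p.1, j) := by rw [hx, ← h]
        rw [← this]; exact hqw
      have h5 : p.2 ≠ q.2 := fun h => hpq (Prod.ext hx h)
      have : ∀ a b c d : Fin 3, a ≠ b → c ≠ a → c ≠ b → d ≠ a → d ≠ b → c = d := by decide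
      exact h5 (this i j p.2 q.2 h0 h1 h2 h3 h4)
  · apply add_eq_zero_mat
    change Ph (fun _ => M) G (l1 ++ p :: q :: l2) + Ph (fun _ => M) G (l1 ++ q :: p :: l2) = 0
    rw [swap_sum]
    rcases hNeu p.1 with hpF | ⟨i, j, h0, hF, hi, hj⟩
    swap
    · have h1 : p.2 ≠ i := by
        intro h; apply hi; have : p = (p.1, i) := by rw [← h]
        rw [← this]; exact hpw
      have h2 : p.2 ≠ j := by
        intro h; apply hj; have : p = (p.1, j) := by rw [← h]
        rw [← this]; exact hpw
      rw [Ph_empty _ _ _ p.1, Ph_empty _ _ _ p.1, add_zero]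
      · rw [res_ne _ _ _ _ hx, res_self, hF]; exact Fd_filter2 i j p.2 h1 h2
      · rw [res_ne _ _ _ _ hx, res_self, hF]; exact Fd_filter1 i j p.2 h1 h2
    rcases hNeu q.1 with hqF | ⟨i, j, h0, hF, hi, hj⟩
    swap
    · have h1 : q.2 ≠ i := by
        intro h; apply hi; have : q = (q.1, i) := by rw [← h]
        rw [← this]; exact hqw
      have h2 : q.2 ≠ j := by
        intro h; apply hj; have : q = (q.1, j) := by rw [← h]
        rw [← this]; exact hqw
      rw [Ph_empty _ _ _ q.1, Ph_empty _ _ _ q.1, add_zero]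
      · rw [res_self, res_ne _ _ _ _ (Ne.symm hx), hF]; exact Fd_filter1 i j q.2 h1 h2
      · rw [res_self, res_ne _ _ _ _ (Ne.symm hx), hF]; exact Fd_filter2 i j q.2 h1 h2
    -- both letters untouched
    set G1 := res (res G p 1) q 2 with hG1
    set G2 := res (res G p 2) q 1 with hG2
    have a1 : G1 p.1 = FB p.2 := by rw [hG1, res_ne _ _ _ _ hx, res_self, hpF]; rfl
    have a2 : G1 q.1 = FA q.2 := by rw [hG1, res_self, res_ne _ _ _ _ (Ne.symm hx), hqF]; rfl
    have a3 : ∀ c, c ≠ p.1 → c ≠ q.1 → G1 c = G c := by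
      intro c h1 h2; rw [hG1, res_ne _ _ _ _ h2, res_ne _ _ _ _ h1]
    have b1 : G2 p.1 = FA p.2 := by rw [hG2, res_ne _ _ _ _ hx, res_self, hpF]; rfl
    have b2 : G2 q.1 = FB q.2 := by rw [hG2, res_self, res_ne _ _ _ _ (Ne.symm hx), hqF]; rfl
    have b3 : ∀ c, c ≠ p.1 → c ≠ q.1 → G2 c = G c := by
      intro c h1 h2; rw [hG2, res_ne _ _ _ _ h2, res_ne _ _ _ _ h1]
    have hmu : ∀ r, r ∈ l1 ++ l2 ↔ r ∈ l1 ++ p :: q :: l2 ∧ r ≠ p ∧ r ≠ q :=
      fun r => mem_del l1 l2 p q r hnd
    have hsub : ∀ r ∈ l1 ++ l2, r ∈ l1 ++ p :: q :: l2 := fun r hr => ((hmu r).1 hr).1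
    have hconj : Ph MM G2 (l1 ++ l2) = J * Ph MM G1 (l1 ++ l2) * J := by
      apply conj_sum G1 G2 (l1 ++ l2) (fun c => G c = F0)
      · intro z hz f hf
        by_cases h1 : z = p.1
        · rw [h1, b1]; rw [h1, a1] at hf
          simp only [FA, FB, mem_filter] at hf ⊢
          exact ⟨sw_mem_F0 f hf.1, by rw [hf.2]; rfl⟩
        · by_cases h2 : z = q.1
          · rw [h2, b2]; rw [h2, a2] at hf
            simp only [FA, FB, mem_filter] at hf ⊢
            exact ⟨sw_mem_F0 f hf.1, by rw [hf.2]; rfl⟩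
          · rw [b3 z h1 h2, hz]; rw [a3 z h1 h2, hz] at hf
            exact sw_mem_F0 f hf
      · intro z hz f hf
        by_cases h1 : z = p.1
        · rw [h1, a1]; rw [h1, b1] at hf
          simp only [FA, FB, mem_filter] at hf ⊢
          exact ⟨sw_mem_F0 f hf.1, by rw [hf.2]; rfl⟩
        · by_cases h2 : z = q.1
          · rw [h2, a2]; rw [h2, b2] at hf
            simp only [FA, FB, mem_filter] at hf ⊢
            exact ⟨sw_mem_F0 f hf.1, by rw [hf.2]; rfl⟩
          · rw [a3 z h1 h2, hz]; rw [b3 z h1 h2, hz] at hf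
            exact sw_mem_F0 f hf
      · intro z hz
        have h1 : z ≠ p.1 := fun h => hz (by rw [h]; exact hpF)
        have h2 : z ≠ q.1 := fun h => hz (by rw [h]; exact hqF)
        rw [a3 z h1 h2, b3 z h1 h2]
      · intro z hz f hf k hk
        have h1 : z ≠ p.1 := fun h => hz (by rw [h]; exact hpF)
        have h2 : z ≠ q.1 := fun h => hz (by rw [h]; exact hqF)
        rw [a3 z h1 h2] at hf
        rcases hNeu z with h | ⟨i, j, h0, hF, hi, hj⟩
        · exact absurd h hz
        · rw [hF] at hf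
          refine Fd_zero i j k ?_ ?_ f hf
          · rintro rfl; exact hi (hsub _ hk)
          · rintro rfl; exact hj (hsub _ hk)
    have hnf : nf G = nf G1 + 2 := by
      unfold nf
      have : (univ.filter fun c => G c = F0) =
          insert p.1 (insert q.1 (univ.filter fun c => G1 c = F0)) := by
        ext c
        simp only [mem_filter, mem_univ, true_and, mem_insert]
        by_cases h1 : c = p.1
        · subst h1; simp [hpF]
        · by_cases h2 : c = q.1
          · subst h2; simp [hqF]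
          · rw [a3 c h1 h2]; simp [h1, h2]
      rw [this, card_insert_of_notMem, card_insert_of_notMem]
      · simp only [mem_filter, mem_univ, true_and]; rw [a2]; exact FA_ne _
      · simp only [mem_insert, mem_filter, mem_univ, true_and, not_or]
        exact ⟨hx, by rw [a1]; exact FB_ne _⟩
    have hT1 := hT (nf G1) (by omega) G1 (l1 ++ l2) q.1 p.1 q.2 p.2 (nodup_del _ _ _ _ hnd)
      (Ne.symm hx) a2 (fun h => ((hmu _).1 h).2.2 rfl)
      (fun k hk => (hmu _).2 ⟨hC q.1 hqF k, fun h => hx (congrArg Prod.fst h).symm,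
        fun h => hk (congrArg Prod.snd h)⟩)
      a1 (fun h => ((hmu _).1 h).2.1 rfl)
      (fun z h1 h2 => Neu_mono (hNeu z) (a3 z h2 h1) hsub)
      (by
        intro c hc k
        have h1 : c ≠ p.1 := fun h => FB_ne p.2 (by rw [← a1, ← h]; exact hc)
        have h2 : c ≠ q.1 := fun h => FA_ne q.2 (by rw [← a2, ← h]; exact hc)
        rw [a3 c h1 h2] at hc
        exact (hmu _).2 ⟨hC c hc k, fun h => h1 (congrArg Prod.fst h),
          fun h => h2 (congrArg Prod.fst h)⟩) rfl
    change Ph MM G1 (l1 ++ l2) + Ph MM G2 (l1 ++ l2) = 0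
    rw [hconj]
    rcases hT1 with h | h <;> rw [h]
    · simp
    · rw [mul_one, JJ]; exact mat_add_self _

end Run7.h236.FS
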