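import Pool.Agent.Run7.h236.FS5

set_option autoImplicit false
set_option linter.unusedSectionVars false

namespace Run7.h236.FS

open Finset

variable {ι : Type} [Fintype ι] [DecidableEq ι]

lemma perm_inv (n : ℕ) (hT : ∀ m < n, TT ι m) (G : ι → Finset (Fin 3 → Fin 3))
    (hn : nf G = n) {u v : List (ι × Fin 3)} (huv : u.Perm v) :
    ∀ pre : List (ι × Fin 3), (pre ++ u).Nodup → (∀ x, Neu G (pre ++ u) x) →
      Cpl G (pre ++ u) → Ph MM G (pre ++ u) = Ph MM G (pre ++ v) := by
  induction huv with
  | nil => intro pre _ _ _; rfl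
  | cons x _ ih =>
    intro pre h1 h2 h3
    have e : ∀ l : List (ι × Fin 3), pre ++ x :: l = (pre ++ [x]) ++ l := by
      intro l; simp
    have := ih (pre ++ [x])
    rw [← e, ← e] at this
    exact this h1 h2 h3
  | swap x y l =>
    intro pre h1 h2 h3
    exact swap_inv n hT G pre l y x h1 h2 h3 hn
  | @trans l1 l2 l3 h12 h23 ih1 ih2 =>
    intro pre h1 h2 h3
    have hp : (pre ++ l1).Perm (pre ++ l2) := h12.append_left pre
    rw [ih1 pre h1 h2 h3]
    exact ih2 pre (hp.nodup_iff.1 h1) (fun x => Neu_mono (h2 x) rfl fun p hp' => hp.mem_iff.2 hp')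
      (fun x hx k => hp.mem_iff.1 (h3 x hx k))

lemma Ph_indep (G : ι → Finset (Fin 3 → Fin 3)) (w : List (ι × Fin 3)) (x : ι)
    (f f' : Fin 3 → Fin 3) (hw : ∀ p ∈ w, p.1 ≠ x) :
    Ph MM (Function.update G x {f}) w = Ph MM (Function.update G x {f'}) w := by
  unfold Ph
  have key : ∀ f1 f2 : Fin 3 → Fin 3, ∀ h ∈ Fintype.piFinset (Function.update G x {f1}),
      Function.update h x f2 ∈ Fintype.piFinset (Function.update G x {f2}) := by
    intro f1 f2 h hh
    rw [Fintype.mem_piFinset] at hh ⊢
    intro z
    by_cases hz : z = x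
    · subst hz; simp
    · rw [Function.update_of_ne hz, Function.update_of_ne hz]
      have := hh z
      rwa [Function.update_of_ne hz] at this
  have key2 : ∀ f1 f2 : Fin 3 → Fin 3, ∀ h ∈ Fintype.piFinset (Function.update G x {f1}),
      Function.update (Function.update h x f2) x f1 = h := by
    intro f1 f2 h hh
    have := (Fintype.mem_piFinset.1 hh) x
    rw [Function.update_self, mem_singleton] at this
    rw [Function.update_idem, ← this, Function.update_eq_self]
  refine sum_nbij' (fun h => Function.update h x f') (fun h => Function.update h x f)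
    (key f f') (key f' f) (key2 f f') (key2 f' f) ?_
  intro h _
  apply pr_congr
  intro p hp
  rw [Function.update_of_ne (hw p hp)]

lemma sum_F0 : ∑ f ∈ F0, M (f 0) * M (f 1) * M (f 2) = 1 := by decide

lemma Fd_01 : Fd 0 1 = {![2, 1, 0]} := by decide

lemma peel (G : ι → Finset (Fin 3 → Fin 3)) (w : List (ι × Fin 3)) (x : ι) (hG : G x = F0)
    (hw : ∀ p ∈ w, p.1 ≠ x) :
    Ph MM G ((x, 0) :: (x, 1) :: (x, 2) :: w) = Ph MM (Function.update G x (Fd 0 1)) w := by
  rw [Fd_01]
  have h1 : Ph MM G ((x, 0) :: (x, 1) :: (x, 2) :: w) =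
      ∑ f ∈ F0, ∑ h ∈ Fintype.piFinset G with h x = f,
        pr MM ((x, 0) :: (x, 1) :: (x, 2) :: w) h := by
    unfold Ph
    rw [sum_fiberwise_of_maps_to]
    intro h hh
    have := (Fintype.mem_piFinset.1 hh) x
    rwa [hG] at this
  rw [h1]
  have h2 : ∀ f ∈ F0, (∑ h ∈ Fintype.piFinset G with h x = f,
        pr MM ((x, 0) :: (x, 1) :: (x, 2) :: w) h) =
      (M (f 0) * M (f 1) * M (f 2)) * Ph MM (Function.update G x {![2, 1, 0]}) w := by
    intro f hf
    have h3 : (Fintype.piFinset G).filter (fun h => h x = f) =
        Fintype.piFinset (Function.update G x {f}) := by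
      ext h
      simp only [mem_filter, Fintype.mem_piFinset]
      constructor
      · rintro ⟨h1, h2⟩ z
        by_cases hz : z = x
        · subst hz; simp [h2]
        · rw [Function.update_of_ne hz]; exact h1 z
      · intro h1
        refine ⟨fun z => ?_, ?_⟩
        · by_cases hz : z = x
          · subst hz
            have := h1 z
            rw [Function.update_self, mem_singleton] at this
            rw [this, hG]; exact hf
          · have := h1 z
            rwa [Function.update_of_ne hz] at this
        · have := h1 x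
          rwa [Function.update_self, mem_singleton] at this
    rw [h3, ← Ph_indep G w x f ![2, 1, 0] hw]
    unfold Ph
    rw [mul_sum]
    refine sum_congr rfl fun h hh => ?_
    have h4 : h x = f := by
      have := (Fintype.mem_piFinset.1 hh) x
      rwa [Function.update_self, mem_singleton] at this
    simp only [pr_cons, h4, MM, mul_assoc]
  rw [sum_congr rfl h2, ← sum_mul, sum_F0, one_mul]

lemma NN_step (n : ℕ) (hN : NN ι n) (hT : ∀ m < n + 1, TT ι m) : NN ι (n + 1) := by
  intro G w hnd hNeu hC hn
  obtain ⟨x, hx⟩ : ∃ x, G x = F0 := by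
    by_contra hcon
    push Not at hcon
    unfold nf at hn
    rw [filter_false_of_mem (fun x _ => hcon x)] at hn
    simp at hn
  set v := w.filter (fun p => decide (p.1 ≠ x)) with hv
  have hvx : ∀ p ∈ v, p.1 ≠ x := by
    intro p hp
    rw [hv, List.mem_filter] at hp
    simpa using hp.2
  have hvw : ∀ p ∈ v, p ∈ w := fun p hp => (List.mem_filter.1 hp).1
  have hperm : w.Perm ((x, 0) :: (x, 1) :: (x, 2) :: v) := by
    rw [List.perm_ext_iff_of_nodup hnd]
    · intro p
      simp only [List.mem_cons]
      constructor
      · intro hp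
        by_cases h : p.1 = x
        · obtain ⟨p1, p2⟩ := p
          simp only at h; subst h
          have : ∀ k : Fin 3, k = 0 ∨ k = 1 ∨ k = 2 := by decide
          have := this p2
          rcases this with h | h | h <;> subst h <;> simp
        · right; right; right
          rw [hv, List.mem_filter]
          exact ⟨hp, by simpa using h⟩
      · rintro (h | h | h | h)
        · rw [h]; exact hC x hx 0
        · rw [h]; exact hC x hx 1
        · rw [h]; exact hC x hx 2
        · exact hvw p h
    · simp only [List.nodup_cons, List.mem_cons, not_or]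
      refine ⟨⟨by simp, by simp, fun h => hvx _ h rfl⟩, ⟨by simp, fun h => hvx _ h rfl⟩,
        fun h => hvx _ h rfl, hnd.filter _⟩
  have h1 := perm_inv (n + 1) hT G hn hperm [] (by simpa using hnd) (by simpa using hNeu)
    (by simpa using hC)
  simp only [List.nil_append] at h1
  rw [h1, peel G v x hx hvx]
  apply hN
  · exact hnd.filter _
  · intro z
    by_cases hz : z = x
    · subst hz
      right
      exact ⟨0, 1, by decide, by simp, fun h => hvx _ h rfl, fun h => hvx _ h rfl⟩
    · exact Neu_mono (hNeu z) (by rw [Function.update_of_ne hz]) hvw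
  · intro z hz k
    have hzx : z ≠ x := by
      rintro rfl
      rw [Function.update_self] at hz
      exact Fd_ne 0 1 hz
    rw [Function.update_of_ne hzx] at hz
    rw [hv, List.mem_filter]
    exact ⟨hC z hz k, by simpa using hzx⟩
  · have : (univ.filter fun c => G c = F0) =
        insert x (univ.filter fun c => Function.update G x (Fd 0 1) c = F0) := by
      ext c
      simp only [mem_filter, mem_univ, true_and, mem_insert]
      by_cases h : c = x
      · subst h; simp [hx]
      · rw [Function.update_of_ne h]; simp [h]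
    unfold nf at hn ⊢
    rw [this, card_insert_of_notMem] at hn
    · omega
    · simp only [mem_filter, mem_univ, true_and, Function.update_self]
      exact Fd_ne 0 1

lemma NT (n : ℕ) : NN ι n ∧ ∀ m < n, TT ι m := by
  induction n with
  | zero =>
    refine ⟨fun G w _ h _ h0 => N_zero G w h h0, fun m hm => absurd hm (Nat.not_lt_zero _)⟩
  | succ n ih =>
    have hT : ∀ m < n + 1, TT ι m := by
      intro m hm
      rcases Nat.lt_succ_iff_lt_or_eq.1 hm with h | h
      · exact ih.2 m h
      · subst h; exact TT_step m ih.1 ih.2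
    exact ⟨NN_step n ih.1 hT, hT⟩

/-- For a word containing every position exactly once, the sum over all fillings is the identity. -/
theorem Ph_full (w : List (ι × Fin 3)) (hnd : w.Nodup) (hall : ∀ p, p ∈ w) :
    Ph (fun _ => M) (fun _ => F0) w = 1 :=
  (NT (nf (fun _ : ι => F0))).1 _ w hnd (fun _ => Or.inl rfl) (fun _ _ _ => hall _) rfl

end Run7.h236.FS
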