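import Pool.Agent.Run7.h236.FS6

set_option autoImplicit false
set_option linter.unusedSectionVars false

namespace Run7.h236.FS

open Finset

variable {ι : Type} [Fintype ι] [DecidableEq ι]

lemma F0_surj (f : Fin 3 → Fin 3) (hf : f ∈ F0) (k : Fin 3) : ∃ c, f c = k := by
  rw [F0_mem] at hf
  have hi : Function.Injective f := fun a b hab => hf a b hab
  exact (Finite.injective_iff_surjective.1 hi) k

lemma prod_lin {α : Type} (w : List α) (hnd : w.Nodup) (p0 : α) (F F1 F2 : α → Mat)
    (h0 : F p0 = F1 p0 + F2 p0) (hne : ∀ q ∈ w, q ≠ p0 → F q = F1 q ∧ F q = F2 q)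
    (hp : p0 ∈ w) : (w.map F).prod = (w.map F1).prod + (w.map F2).prod := by
  induction w with
  | nil => simp at hp
  | cons a w ih =>
    rw [List.nodup_cons] at hnd
    simp only [List.map_cons, List.prod_cons]
    by_cases ha : a = p0
    · subst ha
      have e1 : w.map F = w.map F1 := List.map_congr_left fun q hq =>
        (hne q (List.mem_cons_of_mem _ hq) (fun h => hnd.1 (h ▸ hq))).1
      have e2 : w.map F = w.map F2 := List.map_congr_left fun q hq =>
        (hne q (List.mem_cons_of_mem _ hq) (fun h => hnd.1 (h ▸ hq))).2
      rw [h0, add_mul, ← e1, ← e2]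
    · have hpw : p0 ∈ w := by
        rcases List.mem_cons.1 hp with h | h
        · exact absurd h.symm ha
        · exact h
      rw [ih hnd.2 (fun q hq => hne q (List.mem_cons_of_mem _ hq)) hpw, mul_add]
      have := hne a List.mem_cons_self ha
      rw [this.1, ← this.2, this.1]

lemma base_change (Y : ι → Fin 3 → Mat) (w : List (ι × Fin 3)) (hnd : w.Nodup)
    (hall : ∀ p, p ∈ w) (x : ι) (k l : Fin 3) (hkl : k ≠ l) :
    Ph (Function.update Y x (Function.update (Y x) k (Y x k + Y x l))) (fun _ => F0) w =
      Ph Y (fun _ => F0) w := by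
  have h1 : Ph (Function.update Y x (Function.update (Y x) k (Y x k + Y x l))) (fun _ => F0) w =
      Ph Y (fun _ => F0) w +
        Ph (Function.update Y x (Function.update (Y x) k (Y x l))) (fun _ => F0) w := by
    unfold Ph
    rw [← sum_add_distrib]
    refine sum_congr rfl fun h hh => ?_
    have hx := (Fintype.mem_piFinset.1 hh) x
    obtain ⟨c, hc⟩ := F0_surj _ hx k
    rw [F0_mem] at hx
    unfold pr
    apply prod_lin w hnd (x, c)
    · simp only [Function.update_self, hc]
    · intro q _ hq
      by_cases hq1 : q.1 = x
      · obtain ⟨q1, q2⟩ := q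
        simp only at hq1; subst hq1
        have : h q1 q2 ≠ k := by
          intro h'
          apply hq
          rw [hx q2 c (h'.trans hc.symm)]
        simp only [Function.update_self, Function.update_of_ne this, and_self]
      · simp only [Function.update_of_ne hq1, and_self]
    · exact hall _
  rw [h1]
  have h2 : Ph (Function.update Y x (Function.update (Y x) k (Y x l))) (fun _ => F0) w = 0 := by
    unfold Ph
    refine sum_involution (fun h _ => Function.update h x (fun c => Equiv.swap k l (h x c)))
      ?_ ?_ ?_ ?_
    · intro h hh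
      have : pr (Function.update Y x (Function.update (Y x) k (Y x l))) w
          (Function.update h x (fun c => Equiv.swap k l (h x c))) =
          pr (Function.update Y x (Function.update (Y x) k (Y x l))) w h := by
        unfold pr
        congr 1
        apply List.map_congr_left
        intro p _
        by_cases hp : p.1 = x
        · rw [hp, Function.update_self, Function.update_self]
          by_cases h3 : h x p.2 = k
          · rw [h3, Equiv.swap_apply_left, Function.update_self,
              Function.update_of_ne hkl.symm]
          · by_cases h4 : h x p.2 = l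
            · rw [h4, Equiv.swap_apply_right, Function.update_self,
                Function.update_of_ne hkl.symm]
            · rw [Equiv.swap_apply_of_ne_of_ne h3 h4]
        · rw [Function.update_of_ne hp, Function.update_of_ne hp]
      rw [this]; exact mat_add_self _
    · intro h hh _ heq
      have hx := (Fintype.mem_piFinset.1 hh) x
      obtain ⟨c, hc⟩ := F0_surj _ hx k
      have h3 := congrFun (congrFun heq x) c
      rw [Function.update_self, hc, Equiv.swap_apply_left] at h3
      exact hkl h3.symm
    · intro h hh
      rw [Fintype.mem_piFinset] at hh ⊢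
      intro z
      by_cases hz : z = x
      · subst hz
        rw [Function.update_self, F0_mem]
        have hx := hh z
        rw [F0_mem] at hx
        exact fun c d hcd => hx _ _ ((Equiv.swap k l).injective hcd)
      · rw [Function.update_of_ne hz]; exact hh z
    · intro h hh
      funext z
      by_cases hz : z = x
      · subst hz; simp
      · simp [Function.update_of_ne hz]
  rw [h2, add_zero]

/-- The matrices of the three colours. -/
def P : Fin 3 → Mat := ![!![1, 1; 1, 1], !![0, 1; 0, 0], !![0, 0; 1, 0]]

def M1 : Fin 3 → Mat := ![!![1, 1; 0, 1], !![0, 1; 0, 0], !![0, 0; 1, 0]]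

lemma M1_eq : Function.update M 0 (M 0 + M 1) = M1 := by decide
lemma P_eq : Function.update M1 0 (M1 0 + M1 2) = P := by decide

lemma Ph_P (w : List (ι × Fin 3)) (hnd : w.Nodup) (hall : ∀ p, p ∈ w) (S : Finset ι) :
    Ph (fun x => if x ∈ S then P else M) (fun _ => F0) w = 1 := by
  induction S using Finset.induction_on with
  | empty => simpa using Ph_full w hnd hall
  | insert x S hx ih =>
    have s1 := base_change (fun x => if x ∈ S then P else M) w hnd hall x 0 1 (by decide)
    have e1 : Function.update (fun x => if x ∈ S then P else M) x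
        (Function.update ((fun x => if x ∈ S then P else M) x) 0
          ((fun x => if x ∈ S then P else M) x 0 + (fun x => if x ∈ S then P else M) x 1)) =
        Function.update (fun x => if x ∈ S then P else M) x M1 := by
      simp only [if_neg hx, M1_eq]
    rw [e1] at s1
    have s2 := base_change (Function.update (fun x => if x ∈ S then P else M) x M1) w hnd hall
      x 0 2 (by decide)
    rw [Function.update_self, P_eq, Function.update_idem, s1, ih] at s2
    rw [← s2]
    congr 1
    funext z
    by_cases hz : z = x
    · subst hz; simp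
    · rw [Function.update_of_ne hz]; simp [hz]

/-- Rank one matrices. -/
def U (s t : Fin 3) : Mat := Matrix.of fun i j =>
  (![![1, 1], ![1, 0], ![0, 1]] : Fin 3 → Fin 2 → ZMod 2) s i *
    (![![1, 1], ![0, 1], ![1, 0]] : Fin 3 → Fin 2 → ZMod 2) t j

lemma U_self (s : Fin 3) : U s s = P s := by revert s; decide
lemma U_mul (s t v : Fin 3) : U s t * P v = if t = v then 0 else U s v := by
  revert s t v; decide

lemma U_prod (s : Fin 3) (l : List (Fin 3)) : ∀ t : Fin 3, U s t * (l.map P).prod =
    if List.IsChain (· ≠ ·) (t :: l) then U s ((t :: l).getLast (List.cons_ne_nil _ _)) else 0 := by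
  induction l with
  | nil => intro t; simp
  | cons v l ih =>
    intro t
    rw [List.map_cons, List.prod_cons, ← mul_assoc, U_mul]
    by_cases h : t = v
    · rw [if_pos h, zero_mul, if_neg]
      rw [List.isChain_cons_cons]
      exact fun h' => h'.1 h
    · rw [if_neg h, ih v]
      simp only [List.isChain_cons_cons, ne_eq, h, not_false_eq_true, true_and]
      rw [List.getLast_cons_cons]

lemma P_prod (t : Fin 3) (l : List (Fin 3)) : ((t :: l).map P).prod =
    if List.IsChain (· ≠ ·) (t :: l) then U t ((t :: l).getLast (List.cons_ne_nil _ _)) else 0 := by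
  rw [List.map_cons, List.prod_cons, ← U_self, U_prod]

/-- The reflection fixing the colour `s`. -/
def rf (s : Fin 3) : Equiv.Perm (Fin 3) := Equiv.swap (s + 1) (s + 2)

lemma rf_self (s : Fin 3) : rf s s = s := by revert s; decide
lemma rf_rf (s t : Fin 3) : rf s (rf s t) = t := by revert s t; decide
lemma rf_ne (s : Fin 3) : rf s (s + 1) ≠ s + 1 := by revert s; decide

/-- The cycle-plus-triangles theorem (Fleischner and Stiebitz). -/
theorem cycle_plus_triangles (p : ι × Fin 3) (w : List (ι × Fin 3)) (hnd : (p :: w).Nodup)
    (hall : ∀ q, q ∈ p :: w) :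
    ∃ f : ι × Fin 3 → Fin 3, (∀ x a b, f (x, a) = f (x, b) → a = b) ∧
      List.IsChain (fun q r => f q ≠ f r) (p :: w) ∧
      f ((p :: w).getLast (List.cons_ne_nil _ _)) ≠ f p := by
  by_contra hcon
  have hP : Ph (fun _ => P) (fun _ : ι => F0) (p :: w) = 1 := by
    have := Ph_P (p :: w) hnd hall univ
    simpa using this
  have h0 : Ph (fun _ => P) (fun _ : ι => F0) (p :: w) = 0 := by
    have hval : ∀ h : ι → Fin 3 → Fin 3, h ∈ Fintype.piFinset (fun _ : ι => F0) →
        pr (fun _ => P) (p :: w) h =
          if List.IsChain (fun q r : ι × Fin 3 => h q.1 q.2 ≠ h r.1 r.2) (p :: w) then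
            U (h p.1 p.2) (h p.1 p.2) else 0 := by
      intro h hh
      unfold pr
      have e : (List.map (fun q : ι × Fin 3 => P (h q.1 q.2)) (p :: w)) =
          List.map P (h p.1 p.2 :: w.map (fun q => h q.1 q.2)) := by
        simp [Function.comp_def]
      have e2 : (h p.1 p.2 :: w.map (fun q : ι × Fin 3 => h q.1 q.2)) =
          (p :: w).map (fun q => h q.1 q.2) := by simp
      rw [e, P_prod]
      have e3 : List.IsChain (· ≠ ·) (h p.1 p.2 :: w.map (fun q : ι × Fin 3 => h q.1 q.2)) ↔
          List.IsChain (fun q r : ι × Fin 3 => h q.1 q.2 ≠ h r.1 r.2) (p :: w) := by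
        rw [e2, List.isChain_map]
      by_cases hc : List.IsChain (fun q r : ι × Fin 3 => h q.1 q.2 ≠ h r.1 r.2) (p :: w)
      · rw [if_pos (e3.2 hc), if_pos hc]
        congr 1
        simp only [e2]
        rw [List.getLast_map]
        by_contra hne
        apply hcon
        refine ⟨fun q => h q.1 q.2, ?_, hc, hne⟩
        intro x a b hab
        have hx := (Fintype.mem_piFinset.1 hh) x
        rw [F0_mem] at hx
        exact hx a b hab
      · rw [if_neg (fun h' => hc (e3.1 h')), if_neg hc]
    unfold Ph
    refine sum_involution (fun h _ => fun x a => rf (h p.1 p.2) (h x a)) ?_ ?_ ?_ ?_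
    · intro h hh
      have hh' : (fun x a => rf (h p.1 p.2) (h x a)) ∈ Fintype.piFinset (fun _ : ι => F0) := by
        rw [Fintype.mem_piFinset] at hh ⊢
        intro z
        have hx := hh z
        rw [F0_mem] at hx ⊢
        exact fun c d hcd => hx _ _ ((rf _).injective hcd)
      rw [hval h hh, hval _ hh']
      simp only [ne_eq, EmbeddingLike.apply_eq_iff_eq, rf_self]
      exact mat_add_self _
    · intro h hh _ heq
      have hx := (Fintype.mem_piFinset.1 hh) p.1
      obtain ⟨c, hc⟩ := F0_surj _ hx (h p.1 p.2 + 1)
      have h3 := congrFun (congrFun heq p.1) c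
      simp only [hc] at h3
      exact rf_ne _ h3
    · intro h hh
      rw [Fintype.mem_piFinset] at hh ⊢
      intro z
      have hx := hh z
      rw [F0_mem] at hx ⊢
      exact fun c d hcd => hx _ _ ((rf _).injective hcd)
    · intro h hh
      funext x a
      simp only [rf_self, rf_rf]
  rw [h0] at hP
  have : (0 : Mat) 0 0 = (1 : Mat) 0 0 := by rw [hP]
  revert this; decide

end Run7.h236.FS
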