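import Pool.Agent.Run7.h236.FS7

/-!
The cycle-plus-triangles theorem for a list of elements of an arbitrary type whose classes
(fibres of `τ` inside the list) all have exactly three elements.
-/

set_option autoImplicit false
set_option linter.unusedSectionVars false

namespace Run7.h236.FS

open Finset

/-- Cycle-plus-triangles, for a finite type with a map all of whose fibres have three elements. -/
theorem ctp_type (L κ : Type) [Fintype L] [DecidableEq L] [DecidableEq κ] (τ : L → κ)
    (h3 : ∀ l, (univ.filter (fun l' => τ l' = τ l)).card = 3) (p : L) (w : List L)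
    (hnd : (p :: w).Nodup) (hall : ∀ q, q ∈ p :: w) :
    ∃ f : L → Fin 3, (∀ l l', τ l = τ l' → f l = f l' → l = l') ∧
      List.IsChain (fun q r => f q ≠ f r) (p :: w) ∧
      f ((p :: w).getLast (List.cons_ne_nil _ _)) ≠ f p := by
  classical
  let ι := {k : κ // ∃ l, τ l = k}
  have : Finite ι := Finite.of_surjective (fun l : L => (⟨τ l, l, rfl⟩ : ι)) (by
    rintro ⟨k, l, rfl⟩; exact ⟨l, rfl⟩)
  have : Fintype ι := Fintype.ofFinite ι
  have hcard : ∀ k : ι, Fintype.card {l : L // τ l = k.1} = 3 := by
    rintro ⟨k, l, rfl⟩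
    rw [Fintype.card_subtype]
    exact h3 l
  let e : ∀ k : ι, {l : L // τ l = k.1} ≃ Fin 3 := fun k => Fintype.equivFinOfCardEq (hcard k)
  let E : L → ι × Fin 3 := fun l => (⟨τ l, l, rfl⟩, e ⟨τ l, l, rfl⟩ ⟨l, rfl⟩)
  have key : ∀ (k k' : ι) (hk : k = k') (l : {l : L // τ l = k.1}) (l' : {l : L // τ l = k'.1}),
      e k l = e k' l' → l.1 = l'.1 := by
    intro k k' hk l l' h
    subst hk
    exact congrArg Subtype.val ((e k).injective h)
  have hEinj : Function.Injective E := by
    intro l l' h
    have h1 := congrArg Prod.fst h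
    have h2 := congrArg Prod.snd h
    exact key _ _ h1 ⟨l, rfl⟩ ⟨l', rfl⟩ h2
  have hEsurj : Function.Surjective E := by
    rintro ⟨k, a⟩
    refine ⟨((e k).symm a).1, ?_⟩
    have h1 : (⟨τ ((e k).symm a).1, ((e k).symm a).1, rfl⟩ : ι) = k :=
      Subtype.ext ((e k).symm a).2
    apply Prod.ext
    · exact h1
    · change e ⟨τ ((e k).symm a).1, ((e k).symm a).1, rfl⟩ ⟨((e k).symm a).1, rfl⟩ = a
      have key2 : ∀ (k' : ι) (hk : k' = k) (l' : {l : L // τ l = k'.1}),
          l'.1 = ((e k).symm a).1 → e k' l' = a := by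
        intro k' hk l' h
        subst hk
        have : l' = (e k').symm a := Subtype.ext h
        rw [this, Equiv.apply_symm_apply]
      exact key2 _ h1 _ rfl
  obtain ⟨f, hf1, hf2, hf3⟩ := cycle_plus_triangles (ι := ι) (E p) (w.map E)
    (by rw [← List.map_cons]; exact hnd.map hEinj)
    (by
      intro q
      rw [← List.map_cons]
      obtain ⟨l, rfl⟩ := hEsurj q
      exact List.mem_map.2 ⟨l, hall l, rfl⟩)
  refine ⟨fun l => f (E l), ?_, ?_, ?_⟩
  · intro l l' hτ hff
    apply hEinj
    have h1 : (E l).1 = (E l').1 := Subtype.ext hτ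
    apply Prod.ext h1
    apply hf1 (E l).1
    have e1 : ((E l).1, (E l).2) = E l := rfl
    have e2 : ((E l).1, (E l').2) = E l' := by rw [h1]
    rw [e1, e2]; exact hff
  · rw [← List.map_cons, List.isChain_map] at hf2
    exact hf2
  · have : (E p :: w.map E).getLast (List.cons_ne_nil _ _) =
        E ((p :: w).getLast (List.cons_ne_nil _ _)) := by
      rw [← List.getLast_map (f := E) (by simp)]
      rfl
    rw [this] at hf3
    exact hf3

/-- The same for a nonempty list which is not split. -/
theorem ctp_type' (L κ : Type) [Fintype L] [DecidableEq L] [DecidableEq κ] (τ : L → κ)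
    (h3 : ∀ l, (univ.filter (fun l' => τ l' = τ l)).card = 3) (w : List L) (hne : w ≠ [])
    (hnd : w.Nodup) (hall : ∀ q, q ∈ w) :
    ∃ f : L → Fin 3, (∀ l l', τ l = τ l' → f l = f l' → l = l') ∧
      List.IsChain (fun q r => f q ≠ f r) w ∧ f (w.getLast hne) ≠ f (w.head hne) := by
  cases w with
  | nil => exact absurd rfl hne
  | cons p w => exact ctp_type L κ τ h3 p w hnd hall

/-- Cycle-plus-triangles, for a list without repetitions. -/
theorem ctp_list {α κ : Type} [DecidableEq α] [DecidableEq κ] (τ : α → κ) (w : List α)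
    (hne : w ≠ []) (hnd : w.Nodup)
    (h3 : ∀ x ∈ w, (w.toFinset.filter (fun y => τ y = τ x)).card = 3) :
    ∃ f : α → Fin 3, (∀ x ∈ w, ∀ y ∈ w, τ x = τ y → f x = f y → x = y) ∧
      List.IsChain (fun q r => f q ≠ f r) w ∧ f (w.getLast hne) ≠ f (w.head hne) := by
  classical
  have : Fintype {x : α // x ∈ w} := Fintype.subtype w.toFinset (fun x => List.mem_toFinset)
  have hne' : w.attach ≠ [] := by simpa using hne
  obtain ⟨f, hf1, hf2, hf3⟩ := ctp_type' {x : α // x ∈ w} κ (fun x => τ x.1) (by
    intro l
    rw [← h3 l.1 l.2]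
    refine card_bij (fun x _ => x.1) ?_ ?_ ?_
    · intro x hx
      simp only [mem_filter, mem_univ, true_and] at hx
      simp only [mem_filter]
      exact ⟨List.mem_toFinset.2 x.2, hx⟩
    · intro x _ y _ h
      exact Subtype.ext h
    · intro y hy
      rw [mem_filter, List.mem_toFinset] at hy
      exact ⟨⟨y, hy.1⟩, by simpa using hy.2, rfl⟩) w.attach hne' hnd.attach
    (fun q => List.mem_attach _ _)
  refine ⟨fun x => if h : x ∈ w then f ⟨x, h⟩ else 0, ?_, ?_, ?_⟩
  · intro x hx y hy hτ hff
    simp only [dif_pos hx, dif_pos hy] at hff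
    exact congrArg Subtype.val (hf1 ⟨x, hx⟩ ⟨y, hy⟩ hτ hff)
  · have h1 : List.IsChain (fun q r : {x : α // x ∈ w} =>
        (if h : q.1 ∈ w then f ⟨q.1, h⟩ else 0) ≠
        (if h : r.1 ∈ w then f ⟨r.1, h⟩ else 0)) w.attach := by
      refine List.IsChain.imp ?_ hf2
      intro a b hab
      rw [dif_pos a.2, dif_pos b.2]
      exact hab
    have h2 := (List.isChain_map (R := fun q r : α => (if h : q ∈ w then f ⟨q, h⟩ else 0) ≠
        (if h : r ∈ w then f ⟨r, h⟩ else 0)) (Subtype.val : {x : α // x ∈ w} → α)
        (l := w.attach)).2 h1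
    rw [List.attach_map_subtype_val] at h2
    exact h2
  · simp only [dif_pos (List.getLast_mem hne), dif_pos (List.head_mem hne)]
    have e1 : w.attach.getLast hne' = ⟨w.getLast hne, List.getLast_mem hne⟩ := by
      apply Subtype.ext
      have := List.getLast_map (f := (Subtype.val : {x : α // x ∈ w} → α)) (l := w.attach)
        (h := by simpa using hne)
      rw [← this]
      simp only [List.attach_map_subtype_val]
    have e2 : w.attach.head hne' = ⟨w.head hne, List.head_mem hne⟩ := by
      apply Subtype.ext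
      have := List.head_map (f := (Subtype.val : {x : α // x ∈ w} → α)) (l := w.attach)
        (w := by simpa using hne)
      rw [← this]
      simp only [List.attach_map_subtype_val]
    rw [← e1, ← e2]
    exact hf3

end Run7.h236.FS
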