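import Pool.Agent.Run7.h236.FS8

/-!
Cycle-plus-triangles for the cycle traced by two fixed point free involutions `n`, `s` which
together act transitively.  Points satisfying `T` carry their own colour; a point not
satisfying `T` shares its colour with its `s`-partner.
-/

set_option autoImplicit false
set_option linter.unusedSectionVars false

namespace Run7.h236.FS

open Finset Function

section Dih

variable {X : Type} (n s : X → X)

/-- The product of the two involutions. -/
def rho (x : X) : X := n (s x)

lemma rho_inj (hn : ∀ x, n (n x) = x) (hs : ∀ x, s (s x) = x) : Function.Injective (rho n s) := by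
  intro x y h
  have h1 := congrArg n h
  simp only [rho, hn] at h1
  have h2 := congrArg s h1
  rwa [hs, hs] at h2

lemma s_ne_iter (hn : ∀ x, n (n x) = x) (hn' : ∀ x, n x ≠ x) (hs : ∀ x, s (s x) = x)
    (hs' : ∀ x, s x ≠ x) : ∀ (k : ℕ) (x : X), s x ≠ (rho n s)^[k] x := by
  intro k
  induction k using Nat.strong_induction_on with
  | _ k ih =>
    intro x h
    match k, ih, h with
    | 0, _, h => exact hs' x h
    | 1, _, h =>
      simp only [iterate_one, rho] at h
      exact hn' (s x) h.symm
    | k + 2, ih, h =>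
      rw [iterate_succ_apply' (rho n s)] at h
      have h1 := congrArg n h
      simp only [rho] at h1
      rw [hn] at h1
      -- `n (s x) = s ((rho)^[k+1] x)`
      change rho n s x = s ((rho n s)^[k + 1] x) at h1
      rw [iterate_succ_apply (rho n s)] at h1
      have h2 := congrArg s h1
      rw [hs] at h2
      exact ih k (by omega) (rho n s x) h2

lemma s_iter_ne_iter (hn : ∀ x, n (n x) = x) (hn' : ∀ x, n x ≠ x) (hs : ∀ x, s (s x) = x)
    (hs' : ∀ x, s x ≠ x) (x : X) (i j : ℕ) : s ((rho n s)^[i] x) ≠ (rho n s)^[j] x := by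
  intro h
  rcases le_total i j with hij | hij
  · obtain ⟨k, rfl⟩ := Nat.exists_eq_add_of_le hij
    rw [add_comm, iterate_add_apply] at h
    exact s_ne_iter n s hn hn' hs hs' k _ h
  · obtain ⟨k, rfl⟩ := Nat.exists_eq_add_of_le hij
    rw [add_comm, iterate_add_apply] at h
    have h2 := congrArg s h
    rw [hs] at h2
    exact s_ne_iter n s hn hn' hs hs' k _ h2.symm

variable (T : X → Prop) [DecidablePred T]

/-- One block of the word. -/
def blk (x : X) : List X := if T x then [x, s x] else [x]

/-- The word. -/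
def Lst : ℕ → X → List X
  | 0, _ => []
  | k + 1, x => blk s T x ++ Lst k (rho n s x)

/-- The last element of a block. -/
def lb (x : X) : X := if T x then s x else x

lemma blk_head (x : X) : (blk s T x).head? = some x := by
  unfold blk; split_ifs <;> rfl

lemma blk_last (x : X) : (blk s T x).getLast? = some (lb s T x) := by
  unfold blk lb; split_ifs <;> rfl

lemma blk_ne (x : X) : blk s T x ≠ [] := by
  unfold blk; split_ifs <;> simp

lemma mem_Lst (k : ℕ) : ∀ (x y : X), y ∈ Lst n s T k x ↔ ∃ j < k, y ∈ blk s T ((rho n s)^[j] x) := by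
  induction k with
  | zero => intro x y; simp [Lst]
  | succ k ih =>
    intro x y
    simp only [Lst, List.mem_append]
    rw [ih]
    constructor
    · rintro (h | ⟨j, hj, h⟩)
      · exact ⟨0, by omega, h⟩
      · exact ⟨j + 1, by omega, by rwa [iterate_succ_apply]⟩
    · rintro ⟨j, hj, h⟩
      cases j with
      | zero => left; exact h
      | succ j => right; exact ⟨j, by omega, by rwa [iterate_succ_apply] at h⟩

lemma Lst_head (k : ℕ) (x : X) : (Lst n s T (k + 1) x).head? = some x := by
  simp only [Lst]
  rw [List.head?_append_of_ne_nil _ (blk_ne s T x), blk_head]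

lemma Lst_last (k : ℕ) : ∀ x : X,
    (Lst n s T (k + 1) x).getLast? = some (lb s T ((rho n s)^[k] x)) := by
  induction k with
  | zero => intro x; simp [Lst, blk_last]
  | succ k ih =>
    intro x
    have e : Lst n s T (k + 1 + 1) x = blk s T x ++ Lst n s T (k + 1) (rho n s x) := rfl
    rw [e, List.getLast?_append, ih, iterate_succ_apply]
    rfl

lemma chain_Lst (R : X → X → Prop) (k : ℕ) : ∀ x : X, List.IsChain R (Lst n s T k x) →
    (∀ j < k, T ((rho n s)^[j] x) → R ((rho n s)^[j] x) (s ((rho n s)^[j] x))) ∧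
    (∀ j, j + 1 < k → R (lb s T ((rho n s)^[j] x)) ((rho n s)^[j + 1] x)) := by
  induction k with
  | zero => intro x _; exact ⟨fun j hj => absurd hj (Nat.not_lt_zero _),
      fun j hj => absurd hj (Nat.not_lt_zero _)⟩
  | succ k ih =>
    intro x h
    simp only [Lst] at h
    rw [List.isChain_append] at h
    obtain ⟨h1, h2, h3⟩ := h
    obtain ⟨a1, a2⟩ := ih _ h2
    refine ⟨?_, ?_⟩
    · intro j hj hT
      cases j with
      | zero =>
        simp only [iterate_zero, id_eq] at hT ⊢
        unfold blk at h1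
        rw [if_pos hT] at h1
        simpa using h1
      | succ j =>
        rw [iterate_succ_apply] at hT ⊢
        exact a1 j (by omega) hT
    · intro j hj
      cases j with
      | zero =>
        obtain ⟨k, rfl⟩ : ∃ k', k = k' + 1 := ⟨k - 1, by omega⟩
        have := h3 (lb s T x) (by rw [blk_last]; rfl) (rho n s x) (by rw [Lst_head]; rfl)
        simpa using this
      | succ j =>
        rw [iterate_succ_apply, iterate_succ_apply]
        exact a2 j (by omega)

lemma nodup_Lst (hn : ∀ x, n (n x) = x) (hn' : ∀ x, n x ≠ x) (hs : ∀ x, s (s x) = x)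
    (hs' : ∀ x, s x ≠ x) (k : ℕ) : ∀ x : X,
    (∀ i j, i < k → j < k → (rho n s)^[i] x = (rho n s)^[j] x → i = j) →
    (Lst n s T k x).Nodup := by
  induction k with
  | zero => intro x _; simp [Lst]
  | succ k ih =>
    intro x hinj
    simp only [Lst]
    rw [List.nodup_append]
    refine ⟨?_, ?_, ?_⟩
    · unfold blk
      split_ifs
      · simp [(hs' x).symm]
      · simp
    · apply ih
      intro i j hi hj h
      have := hinj (i + 1) (j + 1) (by omega) (by omega) (by
        rw [iterate_succ_apply, iterate_succ_apply]; exact h)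
      omega
    · intro a ha b hb hab
      subst hab
      rw [mem_Lst] at hb
      obtain ⟨j, hj, hb⟩ := hb
      rw [← iterate_succ_apply (rho n s)] at hb
      have key : ∀ y : X, a ∈ blk s T y → a = y ∨ a = s y := by
        intro y hy
        unfold blk at hy
        split_ifs at hy
        · simpa using hy
        · left; simpa using hy
      rcases key _ ha with h1 | h1 <;> rcases key _ hb with h2 | h2
      · have := hinj 0 (j + 1) (by omega) (by omega) (h1.symm.trans h2)
        omega
      · exact s_iter_ne_iter n s hn hn' hs hs' x (j + 1) 0 (h2.symm.trans h1)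
      · exact s_iter_ne_iter n s hn hn' hs hs' x 0 (j + 1) (h1.symm.trans h2)
      · have h3 : s x = s ((rho n s)^[j + 1] x) := h1.symm.trans h2
        have h4 := congrArg s h3
        rw [hs, hs] at h4
        have := hinj 0 (j + 1) (by omega) (by omega) (by
          rw [iterate_zero, id_eq]; exact h4)
        omega

end Dih

/-- Cycle-plus-triangles for two involutions. -/
theorem dihedral_ctp {X κ : Type} [Fintype X] [DecidableEq X] [DecidableEq κ] [Nonempty X]
    (n s : X → X)
    (hn : ∀ x, n (n x) = x) (hn' : ∀ x, n x ≠ x) (hs : ∀ x, s (s x) = x) (hs' : ∀ x, s x ≠ x)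
    (T : X → Prop) (hTs : ∀ x, T (s x) ↔ T x)
    (hconn : ∀ S : Set X, S.Nonempty → (∀ x ∈ S, n x ∈ S ∧ s x ∈ S) → ∀ x, x ∈ S)
    (τ : X → κ) (hτ : ∀ x, ¬ T x → τ (s x) = τ x)
    (hmix : ∀ x y, T x → ¬ T y → τ x ≠ τ y)
    (h3 : ∀ x, T x → {y | T y ∧ τ y = τ x}.ncard = 3)
    (h6 : ∀ x, ¬ T x → {y | ¬ T y ∧ τ y = τ x}.ncard = 6) :
    ∃ c : X → Fin 3, (∀ x, c x ≠ c (n x)) ∧ (∀ x, T x → c x ≠ c (s x)) ∧
      (∀ x, ¬ T x → c (s x) = c x) ∧ (∀ x y, T x → T y → τ x = τ y → c x = c y → x = y) ∧
      (∀ x y, ¬ T x → ¬ T y → τ x = τ y → c x = c y → y = x ∨ y = s x) := by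
  classical
  obtain ⟨w0⟩ := (inferInstance : Nonempty X)
  have hinj := rho_inj n s hn hs
  have hper : w0 ∈ periodicPts (rho n s) := hinj.mem_periodicPts w0
  set m := minimalPeriod (rho n s) w0 with hm
  have hmpos : 0 < m := minimalPeriod_pos_of_mem_periodicPts hper
  obtain ⟨m', hm'⟩ : ∃ m', m = m' + 1 := ⟨m - 1, by omega⟩
  set O : Set X := {x | ∃ j, (rho n s)^[j] w0 = x} with hO
  have hOm : ∀ x, x ∈ O ↔ ∃ j < m, (rho n s)^[j] w0 = x := by
    intro x
    constructor
    · rintro ⟨j, rfl⟩
      exact ⟨j % m, Nat.mod_lt _ hmpos, iterate_mod_minimalPeriod_eq⟩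
    · rintro ⟨j, _, h⟩; exact ⟨j, h⟩
  have hρO : ∀ x ∈ O, rho n s x ∈ O := by
    rintro x ⟨j, rfl⟩
    exact ⟨j + 1, by rw [iterate_succ_apply']⟩
  have hsO : ∀ x ∈ O, s x ∉ O := by
    rintro x ⟨j, rfl⟩ ⟨i, hi⟩
    exact s_iter_ne_iter n s hn hn' hs hs' w0 j i hi.symm
  -- predecessors
  have hpred : ∀ x ∈ O, ∃ y ∈ O, rho n s y = x := by
    rintro x hx
    obtain ⟨j, hj, rfl⟩ := (hOm x).1 hx
    cases j with
    | zero =>
      refine ⟨(rho n s)^[m'] w0, ⟨m', rfl⟩, ?_⟩
      rw [← iterate_succ_apply' (rho n s)]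
      change (rho n s)^[m' + 1] w0 = w0
      rw [← hm']
      exact iterate_minimalPeriod
    | succ j => exact ⟨(rho n s)^[j] w0, ⟨j, rfl⟩, by rw [iterate_succ_apply']⟩
  have hcov : ∀ x, x ∈ O ∨ s x ∈ O := by
    have := hconn {x | x ∈ O ∨ s x ∈ O} ⟨w0, Or.inl ⟨0, rfl⟩⟩ (by
      intro x hx
      rcases hx with hx | hx
      · refine ⟨?_, ?_⟩
        · obtain ⟨y, hy, rfl⟩ := hpred x hx
          right
          simp only [rho, hn, hs]
          exact hy
        · right; rw [hs]; exact hx
      · refine ⟨?_, Or.inl hx⟩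
        left
        have := hρO _ hx
        simp only [rho, hs] at this
        exact this)
    exact this
  set w := Lst n s T m w0 with hw
  have hwne : w ≠ [] := by
    rw [hw, hm']
    intro h
    have := Lst_head n s T m' w0
    rw [h] at this
    simp at this
  have hwnd : w.Nodup := by
    apply nodup_Lst n s T hn hn' hs hs'
    intro i j hi hj h
    exact iterate_injOn_Iio_minimalPeriod hi hj h
  have hmemw : ∀ x, x ∈ w ↔ T x ∨ x ∈ O := by
    intro x
    rw [hw, mem_Lst]
    constructor
    · rintro ⟨j, hj, h⟩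
      unfold blk at h
      split_ifs at h with hT
      · simp only [List.mem_cons, List.not_mem_nil, or_false] at h
        rcases h with h | h
        · left; rw [h]; exact hT
        · left; rw [h, hTs]; exact hT
      · right; simp only [List.mem_cons, List.not_mem_nil, or_false] at h
        exact ⟨j, h.symm⟩
    · intro h
      rcases hcov x with hx | hx
      · obtain ⟨j, hj, rfl⟩ := (hOm x).1 hx
        refine ⟨j, hj, ?_⟩
        unfold blk; split_ifs <;> simp
      · have hxO : x ∉ O := fun h => hsO x h hx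
        have hT : T x := by
          rcases h with h | h
          · exact h
          · exact absurd h hxO
        obtain ⟨j, hj, hjx⟩ := (hOm (s x)).1 hx
        refine ⟨j, hj, ?_⟩
        unfold blk
        rw [hjx, if_pos ((hTs x).2 hT)]
        simp [hs]
  obtain ⟨f, hf1, hf2, hf3⟩ := ctp_list τ w hwne hwnd (by
    intro x hx
    by_cases hT : T x
    · have := h3 x hT
      rw [Set.ncard_eq_toFinset_card'] at this
      rw [← this]
      congr 1
      ext y
      simp only [mem_filter, List.mem_toFinset, Set.mem_toFinset, Set.mem_ofPred_eq]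
      constructor
      · rintro ⟨h1, h2⟩
        refine ⟨?_, h2⟩
        by_contra hTy
        exact hmix x y hT hTy h2.symm
      · rintro ⟨h1, h2⟩
        exact ⟨(hmemw y).2 (Or.inl h1), h2⟩
    · have := h6 x hT
      rw [Set.ncard_eq_toFinset_card'] at this
      set A := w.toFinset.filter (fun y => τ y = τ x) with hA
      have hAm : ∀ y, y ∈ A ↔ ¬ T y ∧ y ∈ O ∧ τ y = τ x := by
        intro y
        simp only [hA, mem_filter, List.mem_toFinset, hmemw]
        constructor
        · rintro ⟨h1, h2⟩
          have hTy : ¬ T y := fun h => hmix y x h hT h2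
          exact ⟨hTy, by tauto, h2⟩
        · rintro ⟨h1, h2, h3⟩
          exact ⟨Or.inr h2, h3⟩
      have hdec : ({y | ¬ T y ∧ τ y = τ x} : Set X).toFinset = A ∪ A.image s := by
        ext y
        simp only [Set.mem_toFinset, Set.mem_ofPred_eq, mem_union, mem_image, hAm]
        constructor
        · rintro ⟨h1, h2⟩
          rcases hcov y with h | h
          · left; exact ⟨h1, h, h2⟩
          · right
            exact ⟨s y, ⟨fun h' => h1 ((hTs y).1 h'), h, by rw [hτ y h1]; exact h2⟩, hs y⟩
        · rintro (⟨h1, _, h2⟩ | ⟨z, ⟨h1, _, h2⟩, rfl⟩)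
          · exact ⟨h1, h2⟩
          · exact ⟨fun h' => h1 ((hTs z).1 h'), by rw [hτ z h1]; exact h2⟩
      have hdisj : Disjoint A (A.image s) := by
        rw [disjoint_left]
        intro y hy hy'
        obtain ⟨z, hz, rfl⟩ := mem_image.1 hy'
        exact hsO z ((hAm z).1 hz).2.1 ((hAm _).1 hy).2.1
      rw [hdec, card_union_of_disjoint hdisj, card_image_of_injective] at this
      · omega
      · intro a b hab
        have := congrArg s hab
        rwa [hs, hs] at this)
  rw [hw] at hf2
  obtain ⟨g1, g2⟩ := chain_Lst n s T _ m w0 hf2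
  have glast : f (lb s T ((rho n s)^[m'] w0)) ≠ f w0 := by
    have e1 : w.getLast hwne = lb s T ((rho n s)^[m'] w0) := by
      have := Lst_last n s T m' w0
      rw [← hm', ← hw, List.getLast?_eq_getLast_of_ne_nil hwne] at this
      exact Option.some.inj this
    have e2 : w.head hwne = w0 := by
      have := Lst_head n s T m' w0
      rw [← hm', ← hw, List.head?_eq_some_head hwne] at this
      exact Option.some.inj this
    rw [e1, e2] at hf3
    exact hf3
  -- inside blocks
  have k1 : ∀ x ∈ O, T x → f x ≠ f (s x) := by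
    intro x hx hT
    obtain ⟨j, hj, rfl⟩ := (hOm x).1 hx
    exact g1 j hj hT
  -- between blocks
  have k2 : ∀ x ∈ O, f (lb s T x) ≠ f (rho n s x) := by
    intro x hx
    obtain ⟨j, hj, rfl⟩ := (hOm x).1 hx
    by_cases h : j + 1 < m
    · have := g2 j h
      rwa [iterate_succ_apply'] at this
    · have hj' : j = m' := by omega
      subst hj'
      rw [← iterate_succ_apply' (rho n s)]
      have : (rho n s)^[j.succ] w0 = w0 := by
        change (rho n s)^[j + 1] w0 = w0
        rw [← hm']; exact iterate_minimalPeriod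
      rw [this]
      exact glast
  set c : X → Fin 3 := fun x => if T x ∨ x ∈ O then f x else f (s x) with hc
  have cO : ∀ x ∈ O, c x = f x := by
    intro x hx; simp only [hc]; rw [if_pos (Or.inr hx)]
  have cT : ∀ x, T x → c x = f x := by
    intro x hx; simp only [hc]; rw [if_pos (Or.inl hx)]
  have cN : ∀ x, ¬ T x → x ∉ O → c x = f (s x) := by
    intro x h1 h2; simp only [hc]; rw [if_neg (by tauto)]
  have csO : ∀ x ∈ O, c (s x) = f (lb s T x) := by
    intro x hx
    unfold lb
    by_cases hT : T x
    · rw [if_pos hT, cT _ ((hTs x).2 hT)]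
    · rw [if_neg hT, cN _ (fun h => hT ((hTs x).1 h)) (hsO x hx), hs]
  have m1 : ∀ x ∈ O, c x ≠ c (n x) := by
    intro x hx
    obtain ⟨y, hy, rfl⟩ := hpred x hx
    have e : n (rho n s y) = s y := by simp only [rho, hn]
    rw [e, csO y hy, cO _ hx]
    exact (k2 y hy).symm
  have hO' : ∀ x, x ∉ O → s x ∈ O := fun x hx => by
    rcases hcov x with h | h
    · exact absurd h hx
    · exact h
  refine ⟨c, ?_, ?_, ?_, ?_, ?_⟩
  · intro x
    by_cases hx : x ∈ O
    · exact m1 x hx
    · have h1 : n x ∈ O := by
        have := hρO _ (hO' x hx)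
        simp only [rho, hs] at this
        exact this
      have := m1 _ h1
      rw [hn] at this
      exact this.symm
  · intro x hT
    rw [cT x hT, cT _ ((hTs x).2 hT)]
    by_cases hx : x ∈ O
    · exact k1 x hx hT
    · have := k1 _ (hO' x hx) ((hTs x).2 hT)
      rw [hs] at this
      exact this.symm
  · intro x hT
    by_cases hx : x ∈ O
    · rw [cO x hx, csO x hx]; unfold lb; rw [if_neg hT]
    · rw [cN x hT hx, cO _ (hO' x hx)]
  · intro x y hx hy hxy hcc
    rw [cT x hx, cT y hy] at hcc
    exact hf1 x ((hmemw x).2 (Or.inl hx)) y ((hmemw y).2 (Or.inl hy)) hxy hcc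
  · intro x y hx hy hxy hcc
    by_cases hxO : x ∈ O
    · by_cases hyO : y ∈ O
      · rw [cO x hxO, cO y hyO] at hcc
        left
        exact (hf1 x ((hmemw x).2 (Or.inr hxO)) y ((hmemw y).2 (Or.inr hyO)) hxy hcc).symm
      · rw [cO x hxO, cN y hy hyO] at hcc
        right
        have := hf1 x ((hmemw x).2 (Or.inr hxO)) (s y) ((hmemw _).2 (Or.inr (hO' y hyO)))
          (by rw [hτ y hy]; exact hxy) hcc
        rw [this, hs]
    · by_cases hyO : y ∈ O
      · rw [cN x hx hxO, cO y hyO] at hcc
        right
        exact (hf1 (s x) ((hmemw _).2 (Or.inr (hO' x hxO))) y ((hmemw y).2 (Or.inr hyO))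
          (by rw [hτ x hx]; exact hxy) hcc).symm
      · rw [cN x hx hxO, cN y hy hyO] at hcc
        left
        have := hf1 (s x) ((hmemw _).2 (Or.inr (hO' x hxO))) (s y)
          ((hmemw _).2 (Or.inr (hO' y hyO))) (by rw [hτ x hx, hτ y hy]; exact hxy) hcc
        have h2 := congrArg s this
        rw [hs, hs] at h2
        exact h2.symm

end Run7.h236.FS
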