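import Mathlib

/-!
Total colourings of the covers of the cubic Haar graphs of abelian groups: the colouring by
intervals.
-/

set_option autoImplicit false

namespace Run7.h236.HR

/-- A total colouring with four colours of the Haar graph of `B` with offsets `a`, `b`, `c`:
`P`, `Q` are the colours of the vertices, `X`, `Y`, `Z` those of the edges
`p_t q_(t+a)`, `p_t q_(t+b)`, `p_t q_(t+c)`. -/
def Col (B : Type) [AddCommGroup B] (a b c : B) : Prop :=
  ∃ P Q X Y Z : B → Fin 4, ∀ t,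
    (P t ≠ Q (t + a) ∧ P t ≠ Q (t + b) ∧ P t ≠ Q (t + c)) ∧
    (P t ≠ X t ∧ P t ≠ Y t ∧ P t ≠ Z t ∧ X t ≠ Y t ∧ X t ≠ Z t ∧ Y t ≠ Z t) ∧
    (Q t ≠ X (t - a) ∧ Q t ≠ Y (t - b) ∧ Q t ≠ Z (t - c) ∧
      X (t - a) ≠ Y (t - b) ∧ X (t - a) ≠ Z (t - c) ∧ Y (t - b) ≠ Z (t - c))

theorem Col.swap12 {B : Type} [AddCommGroup B] {a b c : B} (h : Col B a b c) : Col B b a c := by
  obtain ⟨P, Q, X, Y, Z, h⟩ := h
  refine ⟨P, Q, Y, X, Z, fun t => ?_⟩
  obtain ⟨⟨h1, h2, h3⟩, ⟨h4, h5, h6, h7, h8, h9⟩, ⟨k4, k5, k6, k7, k8, k9⟩⟩ := h t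
  exact ⟨⟨h2, h1, h3⟩, ⟨h5, h4, h6, h7.symm, h9, h8⟩, ⟨k5, k4, k6, k7.symm, k9, k8⟩⟩

theorem Col.swap23 {B : Type} [AddCommGroup B] {a b c : B} (h : Col B a b c) : Col B a c b := by
  obtain ⟨P, Q, X, Y, Z, h⟩ := h
  refine ⟨P, Q, X, Z, Y, fun t => ?_⟩
  obtain ⟨⟨h1, h2, h3⟩, ⟨h4, h5, h6, h7, h8, h9⟩, ⟨k4, k5, k6, k7, k8, k9⟩⟩ := h t
  exact ⟨⟨h1, h3, h2⟩, ⟨h4, h6, h5, h8, h7, h9.symm⟩, ⟨k4, k6, k5, k8, k7, k9.symm⟩⟩

theorem Col.shift {B : Type} [AddCommGroup B] {a b c : B} (h : Col B a b c) (d : B) :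
    Col B (a + d) (b + d) (c + d) := by
  obtain ⟨P, Q, X, Y, Z, h⟩ := h
  refine ⟨P, fun t => Q (t - d), X, Y, Z, fun t => ?_⟩
  have e1 : ∀ x : B, t + (x + d) - d = t + x := fun x => by abel
  have e2 : ∀ x : B, t - (x + d) = t - d - x := fun x => by abel
  simp only [e1, e2]
  exact ⟨(h t).1, (h t).2.1, (h (t - d)).2.2⟩

/-- Division by a positive integer is monotone. -/
lemma fl_mono {D : ℤ} (hD : 0 < D) {x y : ℤ} (h : x ≤ y) : x / D ≤ y / D :=
  Int.ediv_le_ediv hD h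

lemma fl_add {D : ℤ} (hD : 0 < D) (x : ℤ) : (x + D) / D = x / D + 1 := by
  rw [Int.add_ediv_of_dvd_right (dvd_refl D), Int.ediv_self hD.ne']

lemma fl_add2 {D : ℤ} (hD : 0 < D) (x : ℤ) : (x + 2 * D) / D = x / D + 2 := by
  have : x + 2 * D = x + D + D := by ring
  rw [this, fl_add hD, fl_add hD]; ring

lemma ne4 {x y : ℤ} (h : ¬ (4 : ℤ) ∣ y - x) : (x : ZMod 4) ≠ (y : ZMod 4) := by
  intro h'
  exact h ((ZMod.intCast_eq_intCast_iff_dvd_sub x y 4).1 h')

/-- Functions on `ZMod N` from functions on `ℤ`. -/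
lemma lift_spec {N : ℕ} [NeZero N] {f : ℤ → ZMod 4} (hf : ∀ t, f (t + N) = f t) (z : ℤ) :
    f ((z : ZMod N).val : ℤ) = f z := by
  have hper : ∀ (m : ℕ) (t : ℤ), f (t + m * N) = f t := by
    intro m
    induction m with
    | zero => intro t; simp
    | succ m ih =>
      intro t
      have : t + ((m + 1 : ℕ) : ℤ) * N = (t + m * N) + N := by push_cast; ring
      rw [this, hf, ih]
  have hper' : ∀ (m t : ℤ), f (t + m * N) = f t := by
    intro m t
    rcases Int.eq_nat_or_neg m with ⟨k, rfl | rfl⟩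
    · exact hper k t
    · have := hper k (t + -(k : ℤ) * N)
      rw [← this]; congr 1; ring
  rw [ZMod.val_intCast]
  have : z = z % N + (z / N) * N := by
    have := Int.emod_add_mul_ediv z N
    linarith
  conv_rhs => rw [this]
  rw [hper']

/-- The colouring by intervals. -/
theorem interval_col (N : ℕ) (hN : 0 < N) (U W : ℤ) (hU : (N : ℤ) ≤ 4 * U)
    (hW : (N : ℤ) ≤ 4 * W) (hUW : 4 * (U + W) ≤ 3 * N) :
    Col (ZMod N) (-(U : ZMod N)) (-(W : ZMod N)) 0 := by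
  have : NeZero N := ⟨hN.ne'⟩
  set D : ℤ := 2 * N with hD
  have hD0 : 0 < D := by rw [hD]; exact_mod_cast (by omega : 0 < 2 * N)
  -- the five functions on the integers
  set P : ℤ → ZMod 4 := fun t => ((4 * t / D + (4 * t - N) / D + 1 : ℤ) : ZMod 4) with hP
  set E : ℤ → ZMod 4 := fun t =>
    ((-((4 * t - N) / D) - (4 * t - 2 * N + 4 * W) / D : ℤ) : ZMod 4) with hE
  set F : ℤ → ZMod 4 := fun t =>
    ((2 - (4 * t / D) - (4 * t - 3 * N + 4 * U) / D : ℤ) : ZMod 4) with hF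
  set G : ℤ → ZMod 4 := fun t =>
    (((4 * t - 2 * N + 4 * W) / D + (4 * t - 3 * N + 4 * U) / D + 3 : ℤ) : ZMod 4) with hG
  set R : ℤ → ZMod 4 := fun t =>
    (((4 * (t + U) - 2 * N + 4 * W) / D + (4 * (t + U) - 3 * N + 4 * W) / D + 3 : ℤ) : ZMod 4)
    with hR
  have e4 : ((4 : ℤ) : ZMod 4) = 0 := by decide
  have key : ∀ (a t : ℤ), (4 * (t + N) + a) / D = (4 * t + a) / D + 2 := by
    intro a t
    have : 4 * (t + N) + a = 4 * t + a + 2 * D := by rw [hD]; ring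
    rw [this, fl_add2 hD0]
  have shift4 : ∀ x y : ℤ, x = y + 4 → ((x : ℤ) : ZMod 4) = ((y : ℤ) : ZMod 4) := by
    intro x y h; rw [h, Int.cast_add, e4, add_zero]
  have shift4' : ∀ x y : ℤ, x = y - 4 → ((x : ℤ) : ZMod 4) = ((y : ℤ) : ZMod 4) := by
    intro x y h; rw [h, Int.cast_sub, e4, sub_zero]
  have pP : ∀ t, P (t + N) = P t := by
    intro t
    have h1 := key 0 t
    have h2 := key (-N) t
    simp only [add_zero, ← sub_eq_add_neg] at h1 h2
    simp only [hP]; rw [h1, h2]; exact shift4 _ _ (by ring)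
  have pE : ∀ t, E (t + N) = E t := by
    intro t
    have h1 := key (-N) t
    have h2 := key (-(2 * N) + 4 * W) t
    simp only [← sub_eq_add_neg, ← add_assoc] at h1 h2
    simp only [hE]; rw [h1, h2]; exact shift4' _ _ (by ring)
  have pF : ∀ t, F (t + N) = F t := by
    intro t
    have h1 := key 0 t
    have h2 := key (-(3 * N) + 4 * U) t
    simp only [add_zero, ← sub_eq_add_neg, ← add_assoc] at h1 h2
    simp only [hF]; rw [h1, h2]; exact shift4' _ _ (by ring)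
  have pG : ∀ t, G (t + N) = G t := by
    intro t
    have h1 := key (-(2 * N) + 4 * W) t
    have h2 := key (-(3 * N) + 4 * U) t
    simp only [← sub_eq_add_neg, ← add_assoc] at h1 h2
    simp only [hG]; rw [h1, h2]; exact shift4 _ _ (by ring)
  have pR : ∀ t, R (t + N) = R t := by
    intro t
    have e : t + N + U = t + U + N := by ring
    have h1 := key (-(2 * N) + 4 * W) (t + U)
    have h2 := key (-(3 * N) + 4 * W) (t + U)
    simp only [← sub_eq_add_neg, ← add_assoc] at h1 h2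
    simp only [hR]; rw [e, h1, h2]; exact shift4 _ _ (by ring)
  -- the conditions on the integers
  have main : ∀ t : ℤ,
      (P t ≠ R (t - U) ∧ P t ≠ R (t - W) ∧ P t ≠ R t) ∧
      (P t ≠ E t ∧ P t ≠ F t ∧ P t ≠ G t ∧ E t ≠ F t ∧ E t ≠ G t ∧ F t ≠ G t) ∧
      (R t ≠ E (t + U) ∧ R t ≠ F (t + W) ∧ R t ≠ G t ∧
        E (t + U) ≠ F (t + W) ∧ E (t + U) ≠ G t ∧ F (t + W) ≠ G t) := by
    intro t
    -- floors at `t`
    have c1 : (4 * t - 3 * N + 4 * U) / D ≤ (4 * t - N) / D := fl_mono hD0 (by linarith)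
    have c2 : (4 * t - N) / D ≤ (4 * t - 2 * N + 4 * W) / D := fl_mono hD0 (by linarith)
    have c3 : (4 * t - 2 * N + 4 * W) / D ≤ (4 * t) / D := fl_mono hD0 (by linarith)
    have c4 : (4 * t) / D ≤ (4 * t - 3 * N + 4 * U) / D + 1 := by
      rw [← fl_add hD0]; exact fl_mono hD0 (by rw [hD]; linarith)
    have d1 : (4 * t - 3 * N + 4 * W) / D ≤ (4 * t - N) / D := fl_mono hD0 (by linarith)
    have d4 : (4 * t) / D ≤ (4 * t - 3 * N + 4 * W) / D + 1 := by
      rw [← fl_add hD0]; exact fl_mono hD0 (by rw [hD]; linarith)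
    -- shifted
    have f1 : (4 * t - N) / D ≤ (4 * t + 4 * U - 2 * N) / D := fl_mono hD0 (by linarith)
    have f2 : (4 * t + 4 * U - 2 * N) / D ≤ (4 * t - N) / D + 1 := by
      rw [← fl_add hD0]; exact fl_mono hD0 (by rw [hD]; linarith)
    have g1 : (4 * t + 4 * U + 4 * W - 3 * N) / D ≤ (4 * t) / D := fl_mono hD0 (by linarith)
    have g2 : (4 * t) / D ≤ (4 * t + 4 * U + 4 * W - 3 * N) / D + 1 := by
      rw [← fl_add hD0]; exact fl_mono hD0 (by rw [hD]; linarith)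
    have g3 : (4 * t - N) / D ≤ (4 * t + 4 * U + 4 * W - 2 * N) / D :=
      fl_mono hD0 (by linarith)
    have g4 : (4 * t + 4 * U + 4 * W - 2 * N) / D ≤ (4 * t - N) / D + 1 := by
      rw [← fl_add hD0]; exact fl_mono hD0 (by rw [hD]; linarith)
    -- floors at `y = t + U`
    have y1 : (4 * (t + U) - 3 * N + 4 * W) / D ≤ (4 * (t + U) - N) / D :=
      fl_mono hD0 (by linarith)
    have y2 : (4 * (t + U) - N) / D ≤ (4 * (t + U) - 2 * N + 4 * W) / D :=
      fl_mono hD0 (by linarith)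
    have y3 : (4 * (t + U) - 2 * N + 4 * W) / D ≤ (4 * (t + W)) / D :=
      fl_mono hD0 (by linarith)
    have y4 : (4 * (t + W)) / D ≤ (4 * (t + U) - 3 * N + 4 * W) / D + 1 := by
      rw [← fl_add hD0]; exact fl_mono hD0 (by rw [hD]; linarith)
    have z1 : (4 * (t + W) - 3 * N + 4 * U) / D = (4 * (t + U) - 3 * N + 4 * W) / D := by
      congr 1; ring
    have z2 : (4 * t - 2 * N + 4 * W) / D = (4 * (t + W)) / D - 1 := by
      have : (4 * (t + W)) = 4 * t - 2 * N + 4 * W + D := by rw [hD]; ring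
      rw [this, fl_add hD0]; ring
    have z3 : (4 * t - 3 * N + 4 * U) / D = (4 * (t + U) - N) / D - 1 := by
      have : (4 * (t + U) - N) = 4 * t - 3 * N + 4 * U + D := by rw [hD]; ring
      rw [this, fl_add hD0]; ring
    have w1 : (4 * (t - U + U) - 2 * N + 4 * W) / D = (4 * t - 2 * N + 4 * W) / D := by
      congr 1; ring
    have w2 : (4 * (t - U + U) - 3 * N + 4 * W) / D = (4 * t - 3 * N + 4 * W) / D := by
      congr 1; ring
    have w3 : (4 * (t - W + U) - 2 * N + 4 * W) / D = (4 * t + 4 * U - 2 * N) / D := by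
      congr 1; ring
    have w4 : (4 * (t - W + U) - 3 * N + 4 * W) / D = (4 * t - 3 * N + 4 * U) / D := by
      congr 1; ring
    have w5 : (4 * (t + U) - 2 * N + 4 * W) / D = (4 * t + 4 * U + 4 * W - 2 * N) / D := by
      congr 1; ring
    have w6 : (4 * (t + U) - 3 * N + 4 * W) / D = (4 * t + 4 * U + 4 * W - 3 * N) / D := by
      congr 1; ring
    simp only [hP, hE, hF, hG, hR]
    refine ⟨⟨?_, ?_, ?_⟩, ⟨?_, ?_, ?_, ?_, ?_, ?_⟩, ⟨?_, ?_, ?_, ?_, ?_, ?_⟩⟩ <;>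
      apply ne4 <;> omega
  -- transfer
  refine ⟨fun t => P (t.val : ℤ), fun t => R (t.val : ℤ), fun t => E (t.val : ℤ),
    fun t => F (t.val : ℤ), fun t => G (t.val : ℤ), fun t => ?_⟩
  have ht : ((t.val : ℤ) : ZMod N) = t := by rw [Int.cast_natCast, ZMod.natCast_zmod_val]
  have q1 : t + -(U : ZMod N) = (((t.val : ℤ) - U : ℤ) : ZMod N) := by
    rw [Int.cast_sub, ht, sub_eq_add_neg]
  have q2 : t + -(W : ZMod N) = (((t.val : ℤ) - W : ℤ) : ZMod N) := by
    rw [Int.cast_sub, ht, sub_eq_add_neg]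
  have q3 : t - -(U : ZMod N) = (((t.val : ℤ) + U : ℤ) : ZMod N) := by
    rw [Int.cast_add, ht, sub_neg_eq_add]
  have q4 : t - -(W : ZMod N) = (((t.val : ℤ) + W : ℤ) : ZMod N) := by
    rw [Int.cast_add, ht, sub_neg_eq_add]
  have m := main (t.val : ℤ)
  simp only [q1, q2, q3, q4, add_zero, sub_zero, lift_spec pR, lift_spec pE, lift_spec pF]
  exact m

end Run7.h236.HR
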