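import Pool.Agent.Run7.h236.HR9

/-!
The third kind of labelled graphs.
-/

set_option autoImplicit false

namespace Run7.h236.HR

/-- The colour with number `fl` of the column `T` on the strand `s`. -/
def cv (T fl : ℕ) (s : ZMod 2 × ZMod 2) : Fin 4 :=
  ⟨dg T (4 * fl + (s.1.val + 2 * s.2.val)), dg_lt _ _⟩

/-- The conditions inside a column: `0` is the colour of `p`, `1` that of its rung, `2` that of the
edge from `p` to `q`, `3` that of `q`, `4` that of its rung, `5` that of the edge to the next
column. -/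
def IC (T : ℕ) : Prop := ∀ s : ZMod 2 × ZMod 2,
  (cv T 0 s ≠ cv T 1 s ∧ cv T 0 s ≠ cv T 2 s ∧ cv T 1 s ≠ cv T 2 s ∧ cv T 0 s ≠ cv T 3 s) ∧
  (cv T 3 s ≠ cv T 4 s ∧ cv T 3 s ≠ cv T 2 s ∧ cv T 3 s ≠ cv T 5 s ∧ cv T 4 s ≠ cv T 2 s ∧
    cv T 4 s ≠ cv T 5 s ∧ cv T 2 s ≠ cv T 5 s) ∧
  (cv T 1 s = cv T 1 (s + (1, 0)) ∧ cv T 0 s ≠ cv T 0 (s + (1, 0)) ∧
    cv T 4 s = cv T 4 (s + (0, 1)) ∧ cv T 3 s ≠ cv T 3 (s + (0, 1)))

/-- The conditions between two columns. -/
def LK (T T' : ℕ) (δ : ZMod 2 × ZMod 2) : Prop := ∀ s : ZMod 2 × ZMod 2,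
  cv T' 0 (s + δ) ≠ cv T 5 s ∧ cv T' 1 (s + δ) ≠ cv T 5 s ∧ cv T' 2 (s + δ) ≠ cv T 5 s ∧
    cv T' 0 (s + δ) ≠ cv T 3 s

instance (T : ℕ) : Decidable (IC T) := by unfold IC; infer_instance
instance (T T' : ℕ) (δ : ZMod 2 × ZMod 2) : Decidable (LK T T' δ) := by unfold LK; infer_instance

lemma glue2 (A0 A1 z0 z1 : ℕ) (ε : ZMod 2 × ZMod 2) (m : ℕ) (hm : 2 ≤ m) (hpar : m % 2 = 0)
    (i1 : IC A0) (i2 : IC A1) (i3 : IC z0) (i4 : IC z1) (l1 : LK A0 A1 0) (l2 : LK A1 A0 0)
    (l3 : LK A1 z0 0) (l4 : LK z0 z1 0) (l5 : LK z1 A0 ε) (l6 : LK z1 z0 ε) :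
    ∃ g : ℕ → ℕ, (∀ κ, κ < m → IC (g κ)) ∧ (∀ κ, κ + 1 < m → LK (g κ) (g (κ + 1)) 0) ∧
      LK (g (m - 1)) (g 0) ε := by
  refine ⟨fun κ => if κ + 2 < m then (if κ % 2 = 0 then A0 else A1) else
    (if κ + 2 = m then z0 else z1), ?_, ?_, ?_⟩
  · intro κ _
    beta_reduce
    split_ifs <;> assumption
  · intro κ hκ
    by_cases h1 : κ + 1 + 2 < m
    · have h2 : κ + 2 < m := by omega
      simp only [if_pos h1, if_pos h2]
      by_cases h3 : κ % 2 = 0
      · have h4 : (κ + 1) % 2 ≠ 0 := by omega
        simp only [if_pos h3, if_neg h4]; exact l1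
      · have h4 : (κ + 1) % 2 = 0 := by omega
        simp only [if_neg h3, if_pos h4]; exact l2
    · by_cases h2 : κ + 2 < m
      · have h3 : κ % 2 ≠ 0 := by omega
        have h4 : κ + 1 + 2 = m := by omega
        simp only [if_neg h1, if_pos h2, if_neg h3, if_pos h4]; exact l3
      · have h3 : κ + 2 = m := by omega
        have h4 : κ + 1 + 2 ≠ m := by omega
        simp only [if_neg h1, if_neg h2, if_pos h3, if_neg h4]; exact l4
  · have h1 : ¬ (m - 1 + 2 < m) := by omega
    have h2 : m - 1 + 2 ≠ m := by omega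
    simp only [if_neg h1, if_neg h2]
    by_cases h3 : 0 + 2 < m
    · simp only [if_pos h3, if_true]; exact l5
    · have h4 : 0 + 2 = m := by omega
      simp only [if_neg h3, if_pos h4]; exact l6

lemma glue3 (A0 A1 z0 z1 z2 : ℕ) (ε : ZMod 2 × ZMod 2) (m : ℕ) (hm : 2 ≤ m) (hpar : m % 2 ≠ 0)
    (i1 : IC A0) (i2 : IC A1) (i3 : IC z0) (i4 : IC z1) (i5 : IC z2) (l1 : LK A0 A1 0)
    (l2 : LK A1 A0 0) (l3 : LK A1 z0 0) (l4 : LK z0 z1 0) (l7 : LK z1 z2 0) (l5 : LK z2 A0 ε)
    (l6 : LK z2 z0 ε) :
    ∃ g : ℕ → ℕ, (∀ κ, κ < m → IC (g κ)) ∧ (∀ κ, κ + 1 < m → LK (g κ) (g (κ + 1)) 0) ∧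
      LK (g (m - 1)) (g 0) ε := by
  refine ⟨fun κ => if κ + 3 < m then (if κ % 2 = 0 then A0 else A1) else
    (if κ + 3 = m then z0 else if κ + 2 = m then z1 else z2), ?_, ?_, ?_⟩
  · intro κ _
    beta_reduce
    split_ifs <;> assumption
  · intro κ hκ
    by_cases h1 : κ + 1 + 3 < m
    · have h2 : κ + 3 < m := by omega
      simp only [if_pos h1, if_pos h2]
      by_cases h3 : κ % 2 = 0
      · have h4 : (κ + 1) % 2 ≠ 0 := by omega
        simp only [if_pos h3, if_neg h4]; exact l1
      · have h4 : (κ + 1) % 2 = 0 := by omega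
        simp only [if_neg h3, if_pos h4]; exact l2
    · by_cases h2 : κ + 3 < m
      · have h3 : κ % 2 ≠ 0 := by omega
        have h4 : κ + 1 + 3 = m := by omega
        simp only [if_neg h1, if_pos h2, if_neg h3, if_pos h4]; exact l3
      · by_cases h3 : κ + 3 = m
        · have h4 : κ + 1 + 3 ≠ m := by omega
          have h5 : κ + 1 + 2 = m := by omega
          simp only [if_neg h1, if_neg h2, if_pos h3, if_neg h4]; exact l4
        · have h4 : κ + 1 + 3 ≠ m := by omega
          have h5 : κ + 1 + 2 ≠ m := by omega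
          have h6 : κ + 2 = m := by omega
          simp only [if_neg h1, if_neg h2, if_neg h3, if_neg h4, if_pos h6]; exact l7
  · have h1 : ¬ (m - 1 + 3 < m) := by omega
    have h2 : m - 1 + 3 ≠ m := by omega
    have h2' : m - 1 + 2 ≠ m := by omega
    simp only [if_neg h1, if_neg h2, if_neg h2']
    by_cases h3 : 0 + 3 < m
    · simp only [if_pos h3, if_true]; exact l5
    · have h4 : 0 + 3 = m := by omega
      simp only [if_neg h3, if_pos h4]; exact l6

/-- Double ladders with `m` columns and twist `ε`. -/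
theorem double_ladder (m : ℕ) (hm : 2 ≤ m) (ε : ZMod 2 × ZMod 2) :
    ∃ g : ℕ → ℕ, (∀ κ, κ < m → IC (g κ)) ∧ (∀ κ, κ + 1 < m → LK (g κ) (g (κ + 1)) 0) ∧
      LK (g (m - 1)) (g 0) ε := by
  have hε : ε = (0, 0) ∨ ε = (1, 0) ∨ ε = (0, 1) ∨ ε = (1, 1) := by revert ε; decide
  by_cases hpar : m % 2 = 0
  · rcases hε with rfl | rfl | rfl | rfl
    · exact glue2 219534304563435 148431119667390 219534304563435 148431119667390 _ m hm hpar
        (by decide) (by decide) (by decide) (by decide) (by decide) (by decide) (by decide)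
        (by decide) (by decide) (by decide)
    · exact glue2 219534304563435 148431119667390 260878766919917 46176544378939 _ m hm hpar
        (by decide) (by decide) (by decide) (by decide) (by decide) (by decide) (by decide)
        (by decide) (by decide) (by decide)
    · exact glue2 219534304563435 148431119667390 259852001300717 115444519404923 _ m hm hpar
        (by decide) (by decide) (by decide) (by decide) (by decide) (by decide) (by decide)
        (by decide) (by decide) (by decide)
    · exact glue2 219534304563435 148431119667390 4032779120683 161624005080478 _ m hm hpar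
        (by decide) (by decide) (by decide) (by decide) (by decide) (by decide) (by decide)
        (by decide) (by decide) (by decide)
  · rcases hε with rfl | rfl | rfl | rfl
    · exact glue3 219534304563435 148431119667390 45374500720681 218877585674439 148431119667390
        _ m hm hpar
        (by decide) (by decide) (by decide) (by decide) (by decide) (by decide) (by decide)
        (by decide) (by decide) (by decide) (by decide) (by decide)
    · exact glue3 219534304563435 148431119667390 219534304563435 53801031147582 46176544382953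
        _ m hm hpar
        (by decide) (by decide) (by decide) (by decide) (by decide) (by decide) (by decide)
        (by decide) (by decide) (by decide) (by decide) (by decide)
    · exact glue3 219534304563435 148431119667390 41267438243881 13928399895180 115444519466347
        _ m hm hpar
        (by decide) (by decide) (by decide) (by decide) (by decide) (by decide) (by decide)
        (by decide) (by decide) (by decide) (by decide) (by decide)
    · exact glue3 219534304563435 148431119667390 45374500720681 232289711575239 161624005019070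
        _ m hm hpar
        (by decide) (by decide) (by decide) (by decide) (by decide) (by decide) (by decide)
        (by decide) (by decide) (by decide) (by decide) (by decide)

/-- The element of the subgroup generated by the two involutions. -/
def el {A : Type} [AddCommGroup A] (i j : A) (s : ZMod 2 × ZMod 2) : A :=
  (if s.1 = 0 then 0 else i) + (if s.2 = 0 then 0 else j)

section

variable {A : Type} [AddCommGroup A] {i j : A}

lemma el_add (hi : i + i = 0) (hj : j + j = 0) (s t : ZMod 2 × ZMod 2) :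
    el i j (s + t) = el i j s + el i j t := by
  have h : ∀ a b : ZMod 2, ∀ x : A, x + x = 0 →
      (if a + b = 0 then 0 else x) = (if a = 0 then 0 else x) + (if b = 0 then 0 else x) := by
    intro a b x hx
    have ha : a = 0 ∨ a = 1 := by revert a; decide
    have hb : b = 0 ∨ b = 1 := by revert b; decide
    have h11 : (1 : ZMod 2) + 1 = 0 := by decide
    have h10 : (1 : ZMod 2) ≠ 0 := by decide
    rcases ha with rfl | rfl <;> rcases hb with rfl | rfl
    · simp
    · simp
    · simp
    · rw [if_pos h11, if_neg h10, hx]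
  unfold el
  rw [Prod.fst_add, Prod.snd_add, h _ _ _ hi, h _ _ _ hj]; abel

lemma el_zero : el i j 0 = 0 := by simp [el]

lemma el_eq_zero (hi0 : i ≠ 0) (hj0 : j ≠ 0) (hij : i ≠ j) (hj : j + j = 0)
    (s : ZMod 2 × ZMod 2) (h : el i j s = 0) : s = 0 := by
  have h10 : (1 : ZMod 2) ≠ 0 := by decide
  obtain ⟨a, b⟩ := s
  have ha : a = 0 ∨ a = 1 := (by decide : ∀ a : ZMod 2, a = 0 ∨ a = 1) a
  have hb : b = 0 ∨ b = 1 := (by decide : ∀ a : ZMod 2, a = 0 ∨ a = 1) b
  rcases ha with rfl | rfl <;> rcases hb with rfl | rfl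
  · rfl
  · exfalso; apply hj0; simpa [el] using h
  · exfalso; apply hi0; simpa [el] using h
  · exfalso
    apply hij
    have h1 : i + j = 0 := by simpa [el] using h
    have h2 : i + j = j + j := h1.trans hj.symm
    exact add_right_cancel h2

lemma el_neg (hi : i + i = 0) (hj : j + j = 0) (s : ZMod 2 × ZMod 2) :
    -(el i j s) = el i j s := by
  have : s + s = 0 := by revert s; decide
  have h1 := el_add hi hj s s
  rw [this, el_zero] at h1
  rw [neg_eq_iff_add_eq_zero]; exact h1.symm

end

/-- Labels for the third kind of graphs. -/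
theorem exists_strip {A : Type} [AddCommGroup A] [Finite A] (i j c : A) (hi : i + i = 0)
    (hj : j + j = 0) (hi0 : i ≠ 0) (hj0 : j ≠ 0) (hij : i ≠ j)
    (hc : ∀ s, c ≠ el i j s) :
    ∃ F : ℕ → A → Fin 4, ∀ x : A,
      (F 0 x ≠ F 1 x ∧ F 0 x ≠ F 2 x ∧ F 1 x ≠ F 2 x ∧ F 0 x ≠ F 3 x) ∧
      (F 3 x ≠ F 4 x ∧ F 3 x ≠ F 2 x ∧ F 3 x ≠ F 5 x ∧ F 4 x ≠ F 2 x ∧ F 4 x ≠ F 5 x ∧
        F 2 x ≠ F 5 x) ∧
      (F 1 x = F 1 (x + i) ∧ F 0 x ≠ F 0 (x + i) ∧ F 4 x = F 4 (x + j) ∧ F 3 x ≠ F 3 (x + j)) ∧
      (F 0 (x + c) ≠ F 5 x ∧ F 1 (x + c) ≠ F 5 x ∧ F 2 (x + c) ≠ F 5 x ∧ F 0 (x + c) ≠ F 3 x) := by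
  classical
  -- the order of `c` modulo the involutions
  have hex : ∃ m : ℕ, 0 < m ∧ ∃ s, m • c = el i j s :=
    ⟨Nat.card A, Nat.card_pos, 0, by rw [el_zero]; exact card_nsmul_eq_zero'⟩
  obtain ⟨hm0, ε, hε⟩ := Nat.find_spec hex
  set m := Nat.find hex with hm
  have hmin : ∀ k : ℕ, 0 < k → (∃ s, k • c = el i j s) → m ≤ k := by
    intro k h1 h2; exact Nat.find_min' hex ⟨h1, h2⟩
  have hm2 : 2 ≤ m := by
    rcases Nat.lt_or_ge m 2 with h | h
    · have h1 : m = 1 := by omega
      rw [h1, one_smul] at hε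
      exact absurd hε (hc ε)
    · exact h
  have hdvd : ∀ (k : ℤ) (s : ZMod 2 × ZMod 2), k • c = el i j s → (m : ℤ) ∣ k := by
    intro k s hk
    have h1 := Int.emod_add_mul_ediv k m
    have h2 := Int.emod_nonneg k (by exact_mod_cast hm0.ne' : (m : ℤ) ≠ 0)
    have h3 := Int.emod_lt_of_pos k (by exact_mod_cast hm0 : (0 : ℤ) < m)
    by_contra hnd
    have h4 : k % m ≠ 0 := fun h => hnd (Int.dvd_of_emod_eq_zero h)
    obtain ⟨n, hn⟩ := Int.eq_ofNat_of_zero_le h2
    have h5 : ∃ s, (k / m) • ((m : ℤ) • c) = el i j s := by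
      rw [natCast_zsmul, hε]
      have : ∀ (z : ℤ) (s : ZMod 2 × ZMod 2), ∃ s', z • el i j s = el i j s' := by
        intro z s
        rcases Int.even_or_odd z with ⟨w, rfl⟩ | ⟨w, rfl⟩
        · refine ⟨0, ?_⟩
          rw [el_zero, add_smul, ← smul_add]
          have : el i j s + el i j s = 0 := by
            have h := el_neg hi hj s
            rw [neg_eq_iff_add_eq_zero] at h; exact h
          rw [this, smul_zero]
        · refine ⟨s, ?_⟩
          rw [add_smul, one_smul, two_mul, add_smul, ← smul_add]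
          have : el i j s + el i j s = 0 := by
            have h := el_neg hi hj s
            rw [neg_eq_iff_add_eq_zero] at h; exact h
          rw [this, smul_zero, zero_add]
      exact this _ _
    obtain ⟨s', hs'⟩ := h5
    have h6 : n • c = el i j (s + s') := by
      have e1 : (n : ℤ) • c = k • c - (k / m) • ((m : ℤ) • c) := by
        rw [smul_smul, ← sub_smul]
        congr 1
        have : (k % m : ℤ) = n := hn
        rw [← this]
        linarith
      rw [← natCast_zsmul, e1, hk, hs', el_add hi hj, sub_eq_add_neg, el_neg hi hj]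
    have h7 := hmin n (by
      rcases Nat.eq_zero_or_pos n with h | h
      · rw [h] at hn; exact absurd hn h4
      · exact h) ⟨_, h6⟩
    have : (k % m : ℤ) = n := hn
    rw [this] at h3
    exact absurd h3 (by exact_mod_cast Nat.not_lt.2 h7)
  -- the closed formula on `ℤ × (ZMod 2 × ZMod 2)`
  obtain ⟨g, hg1, hg2, hg3⟩ := double_ladder m hm2 ε
  have hmz : (m : ℤ) ≠ 0 := by exact_mod_cast hm0.ne'
  have hmz0 : (0 : ℤ) < m := by exact_mod_cast hm0
  set H : ℕ → ℤ → ZMod 2 × ZMod 2 → Fin 4 := fun fl k s =>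
    cv (g (k % m).toNat) fl (s + (k / m) • ε) with hH
  have hper : ∀ (fl : ℕ) (k h : ℤ) (s : ZMod 2 × ZMod 2), H fl (k + m * h) (s + h • ε) = H fl k s := by
    intro fl k h s
    simp only [hH]
    rw [Int.add_mul_emod_self_left, Int.add_mul_ediv_left _ _ hmz]
    congr 1
    have : h • ε + h • ε = 0 := by
      rw [← smul_add]
      have : ε + ε = 0 := by
        generalize ε = ε'
        revert ε'; decide
      rw [this, smul_zero]
    rw [add_smul]
    have e : s + h • ε + ((k / (m : ℤ)) • ε + h • ε) = s + (k / (m : ℤ)) • ε + (h • ε + h • ε) := by abel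
    rw [e, this, add_zero]
  -- the conditions
  have hcond : ∀ (k : ℤ) (s : ZMod 2 × ZMod 2),
      (H 0 k s ≠ H 1 k s ∧ H 0 k s ≠ H 2 k s ∧ H 1 k s ≠ H 2 k s ∧ H 0 k s ≠ H 3 k s) ∧
      (H 3 k s ≠ H 4 k s ∧ H 3 k s ≠ H 2 k s ∧ H 3 k s ≠ H 5 k s ∧ H 4 k s ≠ H 2 k s ∧
        H 4 k s ≠ H 5 k s ∧ H 2 k s ≠ H 5 k s) ∧
      (H 1 k s = H 1 k (s + (1, 0)) ∧ H 0 k s ≠ H 0 k (s + (1, 0)) ∧
        H 4 k s = H 4 k (s + (0, 1)) ∧ H 3 k s ≠ H 3 k (s + (0, 1))) := by
    intro k s
    have h2 := Int.emod_nonneg k hmz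
    have h3 := Int.emod_lt_of_pos k hmz0
    have h4 : (k % m).toNat < m := by omega
    have h5 := hg1 _ h4 (s + (k / m) • ε)
    simp only [hH]
    have e1 : s + (1, 0) + (k / (m : ℤ)) • ε = s + (k / (m : ℤ)) • ε + (1, 0) := by abel
    have e2 : s + (0, 1) + (k / (m : ℤ)) • ε = s + (k / (m : ℤ)) • ε + (0, 1) := by abel
    rw [e1, e2]
    exact h5
  have hlink : ∀ (k : ℤ) (s : ZMod 2 × ZMod 2), H 0 (k + 1) s ≠ H 5 k s ∧ H 1 (k + 1) s ≠ H 5 k s ∧
      H 2 (k + 1) s ≠ H 5 k s ∧ H 0 (k + 1) s ≠ H 3 k s := by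
    intro k s
    have h1 := Int.emod_add_mul_ediv k m
    have h2 := Int.emod_nonneg k hmz
    have h3 := Int.emod_lt_of_pos k hmz0
    by_cases hlast : k % m + 1 < m
    · have e1 : (k + 1) % m = k % m + 1 := by
        rw [Int.add_emod, Int.emod_eq_of_lt (by norm_num : (0 : ℤ) ≤ 1) (by omega)]
        exact Int.emod_eq_of_lt (by omega) hlast
      have e2 : (k + 1) / m = k / m := by
        have h4 := Int.emod_add_mul_ediv (k + 1) m
        rw [e1] at h4
        have h5 : (m : ℤ) * ((k + 1) / m) = m * (k / m) := by linarith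
        exact mul_left_cancel₀ hmz h5
      have h4 := hg2 (k % m).toNat (by omega) (s + (k / m) • ε)
      have e3 : (k % m + 1).toNat = (k % m).toNat + 1 := by omega
      simp only [hH]
      rw [e1, e2, e3]
      rw [add_zero] at h4
      exact h4
    · have e0 : k % m = m - 1 := by omega
      have e1 : (k + 1) % m = 0 := by
        have : k + 1 = m * (k / m + 1) := by
          rw [mul_add, mul_one]; linarith
        rw [this]; exact Int.mul_emod_right _ _
      have e2 : (k + 1) / m = k / m + 1 := by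
        have : k + 1 = m * (k / m + 1) := by
          rw [mul_add, mul_one]; linarith
        conv_lhs => rw [this]
        exact Int.mul_ediv_cancel_left _ hmz
      have h4 := hg3 (s + (k / m) • ε)
      have e3 : (k % m).toNat = m - 1 := by omega
      simp only [hH]
      rw [e1, e2, e3]
      have e4 : s + (k / (m : ℤ) + 1) • ε = s + (k / (m : ℤ)) • ε + ε := by
        rw [add_smul, one_smul]; abel
      rw [e4]
      exact h4
  -- coordinates
  set K : AddSubgroup A := AddSubgroup.closure {i, j, c} with hK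
  have hiK : i ∈ K := AddSubgroup.subset_closure (by simp)
  have hjK : j ∈ K := AddSubgroup.subset_closure (by simp)
  have hcK : c ∈ K := AddSubgroup.subset_closure (by simp)
  set r : A → A := fun x => (Quotient.out (QuotientAddGroup.mk x : A ⧸ K)) with hr
  have hmemK : ∀ x ∈ K, ∃ (k : ℤ) (s : ZMod 2 × ZMod 2), k • c + el i j s = x := by
    intro x hx
    induction hx using AddSubgroup.closure_induction with
    | mem x hx =>
      simp only [Set.mem_insert_iff, Set.mem_singleton_iff] at hx
      rcases hx with rfl | rfl | rfl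
      · exact ⟨0, (1, 0), by simp [el]⟩
      · exact ⟨0, (0, 1), by simp [el]⟩
      · exact ⟨1, 0, by simp [el]⟩
    | zero => exact ⟨0, 0, by simp [el]⟩
    | add x y _ _ hx hy =>
      obtain ⟨k, s, rfl⟩ := hx
      obtain ⟨k', s', rfl⟩ := hy
      exact ⟨k + k', s + s', by rw [add_smul, el_add hi hj]; abel⟩
    | neg x _ hx =>
      obtain ⟨k, s, rfl⟩ := hx
      exact ⟨-k, s, by rw [neg_smul, neg_add, el_neg hi hj]⟩
  have hcoord : ∀ x, ∃ (k : ℤ) (s : ZMod 2 × ZMod 2), k • c + el i j s = -(r x) + x := by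
    intro x
    apply hmemK
    have : (QuotientAddGroup.mk (r x) : A ⧸ K) = QuotientAddGroup.mk x := by
      simp only [hr]
      exact Quotient.out_eq (QuotientAddGroup.mk x : A ⧸ K)
    rwa [QuotientAddGroup.eq] at this
  choose kk ss hks using hcoord
  have hrK : ∀ x y, y ∈ K → r (x + y) = r x := by
    intro x y hy
    have : (QuotientAddGroup.mk (x + y) : A ⧸ K) = QuotientAddGroup.mk x := by
      rw [QuotientAddGroup.eq]
      have : -(x + y) + x = -y := by abel
      rw [this]
      exact K.neg_mem hy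
    simp only [hr, this]
  -- comparison of coordinates
  have hcmp : ∀ (fl : ℕ) (k k' : ℤ) (s s' : ZMod 2 × ZMod 2),
      k • c + el i j s = k' • c + el i j s' → H fl k s = H fl k' s' := by
    intro fl k k' s s' h
    have h1 : (k - k') • c = el i j (s + s') := by
      rw [sub_smul, el_add hi hj]
      have : k • c = k' • c + el i j s' - el i j s := by rw [← h]; abel
      rw [this]
      have e : k' • c + el i j s' - el i j s - k' • c = el i j s' + -(el i j s) := by abel
      rw [e, el_neg hi hj, add_comm]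
    obtain ⟨h', hh'⟩ := hdvd _ _ h1
    have h2 : el i j (s + s') = el i j (h' • ε) := by
      rw [← h1, hh', mul_comm, mul_smul, natCast_zsmul, hε]
      -- `h' • el ε = el (h' • ε)`
      have h3 : ∀ (z : ℤ), z • el i j ε = el i j (z • ε) := by
        intro z
        rcases Int.even_or_odd z with ⟨w, rfl⟩ | ⟨w, rfl⟩
        · have e1 : el i j ε + el i j ε = 0 := by
            have h := el_neg hi hj ε
            rw [neg_eq_iff_add_eq_zero] at h; exact h
          have e2 : ε + ε = 0 := by
            generalize ε = ε'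
            revert ε'; decide
          rw [add_smul, ← smul_add, e1, smul_zero, add_smul, ← smul_add, e2, smul_zero, el_zero]
        · have e1 : el i j ε + el i j ε = 0 := by
            have h := el_neg hi hj ε
            rw [neg_eq_iff_add_eq_zero] at h; exact h
          have e2 : ε + ε = 0 := by
            generalize ε = ε'
            revert ε'; decide
          rw [add_smul, one_smul, two_mul, add_smul, ← smul_add, e1, smul_zero, zero_add,
            add_smul, one_smul, add_smul, ← smul_add, e2, smul_zero, zero_add]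
      exact h3 h'
    have h3 : s + s' + h' • ε = 0 := by
      apply el_eq_zero hi0 hj0 hij hj
      rw [el_add hi hj, h2, ← el_add hi hj]
      have : h' • ε + h' • ε = 0 := by
        rw [← smul_add]
        have e2 : ε + ε = 0 := by
          generalize ε = ε'
          revert ε'; decide
        rw [e2, smul_zero]
      rw [this, el_zero]
    have h4 : s = s' + h' • ε := by
      have h5 : ∀ a b d : ZMod 2 × ZMod 2, a + b + d = 0 → a = b + d := by decide
      exact h5 _ _ _ h3
    have h5 : k = k' + m * h' := by linarith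
    rw [h4, h5, hper]
  refine ⟨fun fl x => H fl (kk x) (ss x), fun x => ?_⟩
  have ei : ∀ fl, H fl (kk (x + i)) (ss (x + i)) = H fl (kk x) (ss x + (1, 0)) := by
    intro fl
    apply hcmp
    have e1 : el i j (1, 0) = i := by simp [el]
    rw [hks, hrK _ _ hiK, el_add hi hj, e1, ← add_assoc, ← add_assoc, hks]
  have ej : ∀ fl, H fl (kk (x + j)) (ss (x + j)) = H fl (kk x) (ss x + (0, 1)) := by
    intro fl
    apply hcmp
    have e1 : el i j (0, 1) = j := by simp [el]
    rw [hks, hrK _ _ hjK, el_add hi hj, e1, ← add_assoc, ← add_assoc, hks]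
  have ec : ∀ fl, H fl (kk (x + c)) (ss (x + c)) = H fl (kk x + 1) (ss x) := by
    intro fl
    apply hcmp
    rw [hks, hrK _ _ hcK, add_smul, one_smul]
    have := hks x
    have e2 : kk x • c + c + el i j (ss x) = (kk x • c + el i j (ss x)) + c := by abel
    rw [e2, this]; abel
  simp only [ei, ej, ec]
  obtain ⟨h1, h2, h3⟩ := hcond (kk x) (ss x)
  exact ⟨h1, h2, h3, hlink (kk x) (ss x)⟩

end Run7.h236.HR
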