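import Pool.Agent.Run7.h236.HR10

/-!
Total colourings of labelled graphs of the third kind.
-/

set_option autoImplicit false

namespace Run7.h236.HR

theorem label_J {V : Type} (G : SimpleGraph V) {A : Type} [AddCommGroup A] [Finite A]
    (P : Set V) (f : V → A) (i j c : A) (hi : i + i = 0)
    (hj : j + j = 0) (hi0 : i ≠ 0) (hj0 : j ≠ 0) (hij : i ≠ j)
    (hc : ∀ s, c ≠ el i j s)
    (hP : ∀ u v, G.Adj u v → u ∈ P → v ∈ P → f v = f u + i)
    (hQ : ∀ u v, G.Adj u v → u ∉ P → v ∉ P → f v = f u + j)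
    (hPQ : ∀ u v, G.Adj u v → u ∈ P → v ∉ P → f v = f u ∨ f v = f u + c)
    (hinj : ∀ u v w, G.Adj u v → G.Adj u w → (v ∈ P ↔ w ∈ P) → f v = f w → v = w) : TC G := by
  classical
  obtain ⟨F, hF⟩ := exists_strip i j c hi hj hi0 hj0 hij hc
  have hc0 : c ≠ 0 := by
    have := hc 0
    rwa [el_zero] at this
  set col : V → Fin 4 := fun u => if u ∈ P then F 0 (f u) else F 3 (f u - c) with hcol
  set D : V → V → Fin 4 := fun u v =>
    if u ∈ P then (if v ∈ P then F 1 (f u) else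
      (if f v = f u + c then F 2 (f u) else F 5 (f u - c)))
    else (if v ∈ P then (if f u = f v + c then F 2 (f u - c) else F 5 (f u - c))
      else F 4 (f u - c)) with hD
  have hne : ∀ x : A, x ≠ x + c := by
    intro x h
    apply hc0
    have : x + 0 = x + c := by rw [add_zero]; exact h
    exact (add_left_cancel this).symm
  -- local picture
  have pP : ∀ u v, G.Adj u v → u ∈ P →
      (v ∈ P ∧ f v = f u + i ∧ D u v = F 1 (f u)) ∨
      (v ∉ P ∧ f v = f u + c ∧ D u v = F 2 (f u)) ∨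
      (v ∉ P ∧ f v = f u ∧ D u v = F 5 (f u - c)) := by
    intro u v huv hu
    by_cases hv : v ∈ P
    · refine Or.inl ⟨hv, hP u v huv hu hv, ?_⟩
      simp only [hD]; rw [if_pos hu, if_pos hv]
    · rcases hPQ u v huv hu hv with h | h
      · refine Or.inr (Or.inr ⟨hv, h, ?_⟩)
        simp only [hD]; rw [if_pos hu, if_neg hv, if_neg (by rw [h]; exact hne _)]
      · refine Or.inr (Or.inl ⟨hv, h, ?_⟩)
        simp only [hD]; rw [if_pos hu, if_neg hv, if_pos h]
  have pQ : ∀ u v, G.Adj u v → u ∉ P →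
      (v ∉ P ∧ f v = f u + j ∧ D u v = F 4 (f u - c)) ∨
      (v ∈ P ∧ f v = f u - c ∧ D u v = F 2 (f u - c)) ∨
      (v ∈ P ∧ f v = f u ∧ D u v = F 5 (f u - c)) := by
    intro u v huv hu
    by_cases hv : v ∈ P
    · rcases hPQ v u huv.symm hv hu with h | h
      · refine Or.inr (Or.inr ⟨hv, h.symm, ?_⟩)
        simp only [hD]; rw [if_neg hu, if_pos hv, if_neg (by rw [h]; exact hne _)]
      · refine Or.inr (Or.inl ⟨hv, by rw [h]; abel, ?_⟩)
        simp only [hD]; rw [if_neg hu, if_pos hv, if_pos h]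
    · refine Or.inl ⟨hv, hQ u v huv hu hv, ?_⟩
      simp only [hD]; rw [if_neg hu, if_neg hv]
  have colP : ∀ u, u ∈ P → col u = F 0 (f u) := by
    intro u hu; simp only [hcol]; rw [if_pos hu]
  have colQ : ∀ u, u ∉ P → col u = F 3 (f u - c) := by
    intro u hu; simp only [hcol]; rw [if_neg hu]
  have hlink : ∀ x, F 0 x ≠ F 5 (x - c) ∧ F 1 x ≠ F 5 (x - c) ∧ F 2 x ≠ F 5 (x - c) ∧
      F 0 x ≠ F 3 (x - c) := by
    intro x
    have := (hF (x - c)).2.2.2
    rwa [sub_add_cancel] at this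
  refine ⟨col, D, ?_, ?_, ?_, ?_⟩
  · intro u v huv
    by_cases hu : u ∈ P
    · rcases pP u v huv hu with ⟨h1, h2, h3⟩ | ⟨h1, h2, h3⟩ | ⟨h1, h2, h3⟩
      · rcases pP v u huv.symm h1 with ⟨k1, k2, k3⟩ | ⟨k1, k2, k3⟩ | ⟨k1, k2, k3⟩
        · rw [h3, k3, h2]; exact (hF (f u)).2.2.1.1
        · exact absurd hu k1
        · exact absurd hu k1
      · rcases pQ v u huv.symm h1 with ⟨k1, k2, k3⟩ | ⟨k1, k2, k3⟩ | ⟨k1, k2, k3⟩
        · exact absurd hu k1
        · rw [h3, k3, h2, add_sub_cancel_right]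
        · rw [k2] at h2; exact absurd h2 (hne _)
      · rcases pQ v u huv.symm h1 with ⟨k1, k2, k3⟩ | ⟨k1, k2, k3⟩ | ⟨k1, k2, k3⟩
        · exact absurd hu k1
        · exfalso
          rw [h2] at k2
          apply hne (f u - c)
          rw [sub_add_cancel]; exact k2.symm
        · rw [h3, k3, h2]
    · rcases pQ u v huv hu with ⟨h1, h2, h3⟩ | ⟨h1, h2, h3⟩ | ⟨h1, h2, h3⟩
      · rcases pQ v u huv.symm h1 with ⟨k1, k2, k3⟩ | ⟨k1, k2, k3⟩ | ⟨k1, k2, k3⟩
        · rw [h3, k3, h2]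
          have : f u + j - c = f u - c + j := by abel
          rw [this]; exact (hF (f u - c)).2.2.1.2.2.1
        · exact absurd k1 hu
        · exact absurd k1 hu
      · rcases pP v u huv.symm h1 with ⟨k1, k2, k3⟩ | ⟨k1, k2, k3⟩ | ⟨k1, k2, k3⟩
        · exact absurd k1 hu
        · rw [h3, k3, h2]
        · exfalso
          rw [← k2] at h2
          apply hne (f u - c)
          rw [sub_add_cancel]; exact h2.symm
      · rcases pP v u huv.symm h1 with ⟨k1, k2, k3⟩ | ⟨k1, k2, k3⟩ | ⟨k1, k2, k3⟩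
        · exact absurd k1 hu
        · rw [h2] at k2; exact absurd k2 (hne _)
        · rw [h3, k3, h2]
  · intro u v huv
    by_cases hu : u ∈ P
    · rw [colP u hu]
      rcases pP u v huv hu with ⟨h1, h2, h3⟩ | ⟨h1, h2, h3⟩ | ⟨h1, h2, h3⟩
      · rw [colP v h1, h2]; exact (hF (f u)).2.2.1.2.1
      · rw [colQ v h1, h2, add_sub_cancel_right]; exact (hF (f u)).1.2.2.2
      · rw [colQ v h1, h2]; exact (hlink (f u)).2.2.2
    · rw [colQ u hu]
      rcases pQ u v huv hu with ⟨h1, h2, h3⟩ | ⟨h1, h2, h3⟩ | ⟨h1, h2, h3⟩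
      · rw [colQ v h1, h2]
        have : f u + j - c = f u - c + j := by abel
        rw [this]; exact (hF (f u - c)).2.2.1.2.2.2
      · rw [colP v h1, h2]; exact (hF (f u - c)).1.2.2.2.symm
      · rw [colP v h1, h2]; exact (hlink (f u)).2.2.2.symm
  · intro u v w huv huw hvw
    by_cases hu : u ∈ P
    · obtain ⟨e1, e2, e3, e4⟩ := (hF (f u)).1
      obtain ⟨l1, l2, l3, l4⟩ := hlink (f u)
      rcases pP u v huv hu with ⟨h1, h2, h3⟩ | ⟨h1, h2, h3⟩ | ⟨h1, h2, h3⟩ <;>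
        rcases pP u w huw hu with ⟨k1, k2, k3⟩ | ⟨k1, k2, k3⟩ | ⟨k1, k2, k3⟩ <;> rw [h3, k3]
      · exact absurd (hinj u v w huv huw ⟨fun _ => k1, fun _ => h1⟩ (h2.trans k2.symm)) hvw
      · exact e3
      · exact l2
      · exact e3.symm
      · exact absurd (hinj u v w huv huw ⟨fun h => absurd h h1, fun h => absurd h k1⟩
          (h2.trans k2.symm)) hvw
      · exact l3
      · exact l2.symm
      · exact l3.symm
      · exact absurd (hinj u v w huv huw ⟨fun h => absurd h h1, fun h => absurd h k1⟩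
          (h2.trans k2.symm)) hvw
    · obtain ⟨e1, e2, e3, e4, e5, e6⟩ := (hF (f u - c)).2.1
      rcases pQ u v huv hu with ⟨h1, h2, h3⟩ | ⟨h1, h2, h3⟩ | ⟨h1, h2, h3⟩ <;>
        rcases pQ u w huw hu with ⟨k1, k2, k3⟩ | ⟨k1, k2, k3⟩ | ⟨k1, k2, k3⟩ <;> rw [h3, k3]
      · exact absurd (hinj u v w huv huw ⟨fun h => absurd h h1, fun h => absurd h k1⟩
          (h2.trans k2.symm)) hvw
      · exact e4
      · exact e5
      · exact e4.symm
      · exact absurd (hinj u v w huv huw ⟨fun _ => k1, fun _ => h1⟩ (h2.trans k2.symm)) hvw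
      · exact e6
      · exact e5.symm
      · exact e6.symm
      · exact absurd (hinj u v w huv huw ⟨fun _ => k1, fun _ => h1⟩ (h2.trans k2.symm)) hvw
  · intro u v huv
    by_cases hu : u ∈ P
    · rw [colP u hu]
      obtain ⟨e1, e2, e3, e4⟩ := (hF (f u)).1
      obtain ⟨l1, l2, l3, l4⟩ := hlink (f u)
      rcases pP u v huv hu with ⟨h1, h2, h3⟩ | ⟨h1, h2, h3⟩ | ⟨h1, h2, h3⟩ <;> rw [h3]
      · exact e1.symm
      · exact e2.symm
      · exact l1.symm
    · rw [colQ u hu]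
      obtain ⟨e1, e2, e3, e4, e5, e6⟩ := (hF (f u - c)).2.1
      rcases pQ u v huv hu with ⟨h1, h2, h3⟩ | ⟨h1, h2, h3⟩ | ⟨h1, h2, h3⟩ <;> rw [h3]
      · exact e1.symm
      · exact e2.symm
      · exact e3.symm

end Run7.h236.HR
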