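import Pool.Agent.Run7.h236.HR11

/-!
Cubic graphs of girth at least five with an abelian group of automorphisms acting semiregularly
with at most two orbits.
-/

set_option autoImplicit false
set_option linter.unusedSimpArgs false

namespace Run7.h236.HR

section girth

variable {W : Type} (H : SimpleGraph W)

lemma no_triangle (hg : ∀ (u : W) (p : H.Walk u u), p.IsCycle → 5 ≤ p.length) (x y z : W)
    (h1 : H.Adj x y) (h2 : H.Adj y z) (h3 : H.Adj z x) : False := by
  have := hg x (SimpleGraph.Walk.cons h1 (SimpleGraph.Walk.cons h2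
    (SimpleGraph.Walk.cons h3 SimpleGraph.Walk.nil))) (by
      rw [SimpleGraph.Walk.cons_isCycle_iff]
      simp [SimpleGraph.Walk.cons_isPath_iff, h1.ne, h1.ne.symm, h2.ne, h2.ne.symm, h3.ne,
        h3.ne.symm])
  simp at this

lemma no_square (hg : ∀ (u : W) (p : H.Walk u u), p.IsCycle → 5 ≤ p.length) (x y z w : W)
    (h1 : H.Adj x y) (h2 : H.Adj y z) (h3 : H.Adj z w) (h4 : H.Adj w x) (h5 : x ≠ z)
    (h6 : y ≠ w) : False := by
  have := hg x (SimpleGraph.Walk.cons h1 (SimpleGraph.Walk.cons h2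
    (SimpleGraph.Walk.cons h3 (SimpleGraph.Walk.cons h4 SimpleGraph.Walk.nil)))) (by
      rw [SimpleGraph.Walk.cons_isCycle_iff]
      simp [SimpleGraph.Walk.cons_isPath_iff, h1.ne, h1.ne.symm, h2.ne, h2.ne.symm, h3.ne,
        h3.ne.symm, h4.ne, h4.ne.symm, h5, h5.symm, h6, h6.symm])
  simp at this

end girth

lemma small_qf (x y : ℤ) (h : qf 1 x y < 7) : (-2 ≤ x ∧ x ≤ 2) ∧ (-2 ≤ y ∧ y ≤ 2) := by
  unfold qf at h
  have h1 : x * x + y * y ≤ 13 := by nlinarith [sq_nonneg (x + y)]
  have hx1 : -3 ≤ x := by nlinarith [sq_nonneg (x + 4), sq_nonneg y]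
  have hx2 : x ≤ 3 := by nlinarith [sq_nonneg (x - 4), sq_nonneg y]
  have hy1 : -3 ≤ y := by nlinarith [sq_nonneg (y + 4), sq_nonneg x]
  have hy2 : y ≤ 3 := by nlinarith [sq_nonneg (y - 4), sq_nonneg x]
  interval_cases x <;> interval_cases y <;> simp_all

/-- The relations excluded by the girth for Haar graphs. -/
lemma haar_bad {A : Type} [AddCommGroup A] (a b c : A)
    (hS : ∀ s1 s2 s3 s4 : A, (s1 = a ∨ s1 = b ∨ s1 = c) → (s2 = a ∨ s2 = b ∨ s2 = c) →
      (s3 = a ∨ s3 = b ∨ s3 = c) → (s4 = a ∨ s4 = b ∨ s4 = c) → s1 ≠ s2 → s1 ≠ s4 →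
      s1 + s3 = s2 + s4 → False) (hab : a ≠ b) (hac : a ≠ c) (hbc : b ≠ c) (x y : ℤ)
    (hne : (x, y) ≠ ((0, 0) : ℤ × ℤ)) (hF : qf 1 x y < 7) :
    x • (c - a) + y • (c - b) ≠ 0 := by
  -- the nine relations
  have r1 : (1 : ℤ) • (c - a) + (0 : ℤ) • (c - b) ≠ 0 := by
    intro h
    rw [one_smul, zero_smul, add_zero, sub_eq_zero] at h
    exact hac h.symm
  have r2 : (0 : ℤ) • (c - a) + (1 : ℤ) • (c - b) ≠ 0 := by
    intro h
    rw [one_smul, zero_smul, zero_add, sub_eq_zero] at h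
    exact hbc h.symm
  have r3 : (1 : ℤ) • (c - a) + (-1 : ℤ) • (c - b) ≠ 0 := by
    intro h
    have h2 : b - a = 0 := by rw [← h]; simp only [one_smul, neg_smul]; abel
    exact hab (sub_eq_zero.1 h2).symm
  have r4 : (1 : ℤ) • (c - a) + (1 : ℤ) • (c - b) ≠ 0 := by
    intro h
    have h2 : c + c - (a + b) = 0 := by rw [← h]; simp only [one_smul]; abel
    exact hS c a c b (by simp) (by simp) (by simp) (by simp) hac.symm hbc.symm (sub_eq_zero.1 h2)
  have r5 : (2 : ℤ) • (c - a) + (-1 : ℤ) • (c - b) ≠ 0 := by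
    intro h
    have h2 : b + c - (a + a) = 0 := by rw [← h]; simp only [two_smul, neg_smul, one_smul]; abel
    exact hS a b a c (by simp) (by simp) (by simp) (by simp) hab hac (sub_eq_zero.1 h2).symm
  have r6 : (1 : ℤ) • (c - a) + (-2 : ℤ) • (c - b) ≠ 0 := by
    intro h
    have h2 : b + b - (a + c) = 0 := by rw [← h]; simp only [two_smul, neg_smul, one_smul]; abel
    exact hS b a b c (by simp) (by simp) (by simp) (by simp) hab.symm hbc (sub_eq_zero.1 h2)
  have r7 : (2 : ℤ) • (c - a) + (0 : ℤ) • (c - b) ≠ 0 := by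
    intro h
    have h2 : c + c - (a + a) = 0 := by
      rw [← h]; simp only [two_smul, zero_smul]; abel
    exact hS c a c a (by simp) (by simp) (by simp) (by simp) hac.symm hac.symm (sub_eq_zero.1 h2)
  have r8 : (0 : ℤ) • (c - a) + (2 : ℤ) • (c - b) ≠ 0 := by
    intro h
    have h2 : c + c - (b + b) = 0 := by
      rw [← h]; simp only [two_smul, zero_smul]; abel
    exact hS c b c b (by simp) (by simp) (by simp) (by simp) hbc.symm hbc.symm (sub_eq_zero.1 h2)
  have r9 : (2 : ℤ) • (c - a) + (-2 : ℤ) • (c - b) ≠ 0 := by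
    intro h
    have h2 : b + b - (a + a) = 0 := by
      rw [← h]; simp only [two_smul, neg_smul]; abel
    exact hS b a b a (by simp) (by simp) (by simp) (by simp) hab.symm hab.symm (sub_eq_zero.1 h2)
  have hneg : ∀ x y : ℤ, x • (c - a) + y • (c - b) ≠ 0 → (-x) • (c - a) + (-y) • (c - b) ≠ 0 := by
    intro x y h h'
    apply h
    have : x • (c - a) + y • (c - b) = -((-x) • (c - a) + (-y) • (c - b)) := by
      simp only [neg_smul]; abel
    rw [this, h', neg_zero]
  obtain ⟨⟨hx1, hx2⟩, ⟨hy1, hy2⟩⟩ := small_qf x y hF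
  interval_cases x <;> interval_cases y <;>
    first
    | exact absurd hF (by decide)
    | exact absurd rfl hne
    | exact r1
    | exact r2
    | exact r3
    | exact r4
    | exact r5
    | exact r6
    | exact r7
    | exact r8
    | exact r9
    | exact hneg _ _ r1
    | exact hneg _ _ r2
    | exact hneg _ _ r3
    | exact hneg _ _ r4
    | exact hneg _ _ r5
    | exact hneg _ _ r6
    | exact hneg _ _ r7
    | exact hneg _ _ r8
    | exact hneg _ _ r9

/-- The relations excluded by the girth for I-graphs. -/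
lemma I_bad {A : Type} [AddCommGroup A] (a b : A)
    (ha : ∀ k : ℤ, 1 ≤ k → k ≤ 4 → k • a ≠ 0) (hb : ∀ k : ℤ, 1 ≤ k → k ≤ 4 → k • b ≠ 0)
    (hab1 : a ≠ b) (hab2 : a ≠ -b) (x y : ℤ) (h : x • a + y • b = 0) : ¬ BadI x y := by
  rintro ⟨hne, h1 | h1 | h1⟩
  · obtain ⟨rfl, h2, h3⟩ := h1
    rw [zero_smul, add_zero] at h
    have hx : x ≠ 0 := fun hx => hne (by rw [hx])
    rcases lt_or_gt_of_ne hx with h4 | h4
    · exact ha (-x) (by linarith) (by linarith) (by rw [neg_smul, h, neg_zero])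
    · exact ha x (by linarith) (by linarith) h
  · obtain ⟨rfl, h2, h3⟩ := h1
    rw [zero_smul, zero_add] at h
    have hy : y ≠ 0 := fun hy => hne (by rw [hy])
    rcases lt_or_gt_of_ne hy with h4 | h4
    · exact hb (-y) (by linarith) (by linarith) (by rw [neg_smul, h, neg_zero])
    · exact hb y (by linarith) (by linarith) h
  · obtain ⟨h2, h3⟩ := h1
    have hx : x = 1 ∨ x = -1 := by
      have : x ∣ 1 := ⟨x, h2.symm⟩
      exact Int.isUnit_iff.1 (isUnit_of_dvd_one this)
    have hy : y = 1 ∨ y = -1 := by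
      have : y ∣ 1 := ⟨y, h3.symm⟩
      exact Int.isUnit_iff.1 (isUnit_of_dvd_one this)
    rcases hx with rfl | rfl <;> rcases hy with rfl | rfl <;>
      simp only [one_smul, neg_smul] at h
    · exact hab2 (eq_neg_of_add_eq_zero_left h)
    · exact hab1 (eq_of_sub_eq_zero (by rw [sub_eq_add_neg]; exact h))
    · exact hab1 (neg_add_eq_zero.1 h)
    · apply hab2
      have h5 : a + b = 0 := by
        have : a + b = -(-a + -b) := by abel
        rw [this, h, neg_zero]
      exact eq_neg_of_add_eq_zero_left h5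

end Run7.h236.HR
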