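import Pool.Agent.Run7.h236.HR12

/-!
Cubic graphs of girth at least five with an abelian group of automorphisms acting semiregularly
with at most two orbits: the theorem.
-/

set_option autoImplicit false

namespace Run7.h236.HR

theorem two_orbits {W : Type} [Fintype W] [DecidableEq W] (H : SimpleGraph W) [DecidableRel H.Adj]
    (hreg : H.IsRegularOfDegree 3)
    (hg : ∀ (u : W) (p : H.Walk u u), p.IsCycle → 5 ≤ p.length)
    {A : Type} [AddCommGroup A] [AddAction A W]
    (hact : ∀ (a : A) (x y : W), H.Adj x y → H.Adj (a +ᵥ x) (a +ᵥ y))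
    (hfree : ∀ (a : A) (x : W), a +ᵥ x = x → a = 0)
    (p q : W) (horb : ∀ x : W, ∃ a : A, x = a +ᵥ p ∨ x = a +ᵥ q) : TC H := by
  classical
  have hinj : ∀ (x : W) (a b : A), a +ᵥ x = b +ᵥ x → a = b := by
    intro x a b h
    have h1 : (-b + a) +ᵥ x = x := by rw [add_vadd, h, neg_vadd_vadd]
    have h2 := hfree _ _ h1
    exact (neg_add_eq_zero.1 h2).symm
  have hfin : Finite A := Finite.of_injective (fun a : A => a +ᵥ p) (fun a b h => hinj p a b h)
  have hsub : ∀ (a b : A) (x y : W), H.Adj (a +ᵥ x) (b +ᵥ y) → H.Adj x ((b - a) +ᵥ y) := by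
    intro a b x y h
    have h1 := hact (-a) _ _ h
    rw [neg_vadd_vadd, ← add_vadd] at h1
    have h2 : -a + b = b - a := by abel
    rwa [h2] at h1
  have hsub' : ∀ (a : A) (x y : W), H.Adj x (a +ᵥ y) → H.Adj y (-a +ᵥ x) := by
    intro a x y h
    have h1 := hact (-a) _ _ h
    rw [neg_vadd_vadd] at h1
    exact h1.symm
  -- two neighbours in the same orbit
  have htwo : ∀ (x : W) (r1 r2 : A), H.Adj x (r1 +ᵥ x) → H.Adj x (r2 +ᵥ x) → r1 ≠ r2 →
      r1 + r2 = 0 := by
    intro x r1 r2 h1 h2 hne
    by_contra hsum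
    refine no_square H hg x (r1 +ᵥ x) ((r1 + r2) +ᵥ x) (r2 +ᵥ x) h1 ?_ ?_ h2.symm ?_ ?_
    · rw [add_vadd]; exact hact r1 _ _ h2
    · rw [add_comm, add_vadd]; exact (hact r2 _ _ h1).symm
    · intro h; exact hsum (hfree _ _ h.symm)
    · intro h; exact hne (hinj x _ _ h)
  set P : Set W := {x | ∃ a : A, x = a +ᵥ p} with hP
  have hPvadd : ∀ (a : A) (x : W), a +ᵥ x ∈ P → x ∈ P := by
    rintro a x ⟨b, hb⟩
    refine ⟨-a + b, ?_⟩
    rw [add_vadd, ← hb, neg_vadd_vadd]
  have hpP : p ∈ P := ⟨0, (zero_vadd A p).symm⟩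
  -- a neighbour in the other orbit
  obtain ⟨q', hq'P, hpq'⟩ : ∃ q', q' ∉ P ∧ H.Adj p q' := by
    by_contra hcon
    push Not at hcon
    have hc3 : (H.neighborFinset p).card = 3 := by
      rw [SimpleGraph.card_neighborFinset_eq_degree]; exact hreg p
    obtain ⟨x1, x2, x3, h12, h13, h23, hx⟩ := Finset.card_eq_three.1 hc3
    have hn : ∀ x ∈ H.neighborFinset p, ∃ a : A, x = a +ᵥ p ∧ H.Adj p (a +ᵥ p) := by
      intro x hx
      rw [SimpleGraph.mem_neighborFinset] at hx
      by_contra hcon2
      have hxP : x ∉ P := by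
        rintro ⟨a, rfl⟩
        exact hcon2 ⟨a, rfl, hx⟩
      exact hcon x hxP hx
    obtain ⟨a1, e1, f1⟩ := hn x1 (by rw [hx]; simp)
    obtain ⟨a2, e2, f2⟩ := hn x2 (by rw [hx]; simp)
    obtain ⟨a3, e3, f3⟩ := hn x3 (by rw [hx]; simp)
    have g12 := htwo p a1 a2 f1 f2 (fun h => h12 (by rw [e1, e2, h]))
    have g13 := htwo p a1 a3 f1 f3 (fun h => h13 (by rw [e1, e3, h]))
    apply h23
    rw [e2, e3]
    have : a2 = a3 := add_left_cancel (g12.trans g13.symm)
    rw [this]
  have hQ : ∀ x : W, x ∉ P → ∃ a : A, x = a +ᵥ q' := by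
    intro x hx
    obtain ⟨b, hb | hb⟩ := horb q'
    · exact absurd ⟨b, hb⟩ hq'P
    · obtain ⟨a, ha | ha⟩ := horb x
      · exact absurd ⟨a, ha⟩ hx
      · refine ⟨a - b, ?_⟩
        rw [hb, ← add_vadd, sub_add_cancel]; exact ha
  have hPQ' : ∀ a b : A, a +ᵥ p ≠ b +ᵥ q' := by
    intro a b h
    exact hq'P (hPvadd b q' ⟨a, h.symm⟩)
  -- labels
  choose! fP hfP using (fun x (hx : x ∈ P) => hx : ∀ x, x ∈ P → ∃ a : A, x = a +ᵥ p)
  choose! fQ hfQ using hQ
  set f : W → A := fun x => if x ∈ P then fP x else fQ x with hf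
  have hf1 : ∀ x, x ∈ P → x = f x +ᵥ p := by
    intro x hx
    simp only [hf]; rw [if_pos hx]; exact hfP x hx
  have hf2 : ∀ x, x ∉ P → x = f x +ᵥ q' := by
    intro x hx
    simp only [hf]; rw [if_neg hx]; exact hfQ x hx
  -- the connection sets
  have : Fintype A := Fintype.ofFinite A
  set R : Finset A := Finset.univ.filter (fun r => H.Adj p (r +ᵥ p)) with hR
  set S : Finset A := Finset.univ.filter (fun r => H.Adj p (r +ᵥ q')) with hS
  set L : Finset A := Finset.univ.filter (fun r => H.Adj q' (r +ᵥ q')) with hL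
  have mR : ∀ r, r ∈ R ↔ H.Adj p (r +ᵥ p) := by intro r; simp [hR]
  have mS : ∀ r, r ∈ S ↔ H.Adj p (r +ᵥ q') := by intro r; simp [hS]
  have mL : ∀ r, r ∈ L ↔ H.Adj q' (r +ᵥ q') := by intro r; simp [hL]
  have aPP : ∀ u v, H.Adj u v → u ∈ P → v ∈ P → f v - f u ∈ R := by
    intro u v huv hu hv
    rw [mR]
    apply hsub
    rw [← hf1 u hu, ← hf1 v hv]; exact huv
  have aPQ : ∀ u v, H.Adj u v → u ∈ P → v ∉ P → f v - f u ∈ S := by
    intro u v huv hu hv
    rw [mS]
    apply hsub
    rw [← hf1 u hu, ← hf2 v hv]; exact huv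
  have aQQ : ∀ u v, H.Adj u v → u ∉ P → v ∉ P → f v - f u ∈ L := by
    intro u v huv hu hv
    rw [mL]
    apply hsub
    rw [← hf2 u hu, ← hf2 v hv]; exact huv
  have hsame : ∀ v w, (v ∈ P ↔ w ∈ P) → f v = f w → v = w := by
    intro v w h h'
    by_cases hv : v ∈ P
    · rw [hf1 v hv, hf1 w (h.1 hv), h']
    · rw [hf2 v hv, hf2 w (fun hw => hv (h.2 hw)), h']
  -- cardinalities
  have cp : R.card + S.card = 3 := by
    have h1 : H.neighborFinset p = R.image (fun r => r +ᵥ p) ∪ S.image (fun r => r +ᵥ q') := by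
      ext x
      rw [SimpleGraph.mem_neighborFinset, Finset.mem_union, Finset.mem_image, Finset.mem_image]
      constructor
      · intro hx
        by_cases hxP : x ∈ P
        · left
          refine ⟨f x, ?_, (hf1 x hxP).symm⟩
          rw [mR, ← hf1 x hxP]; exact hx
        · right
          refine ⟨f x, ?_, (hf2 x hxP).symm⟩
          rw [mS, ← hf2 x hxP]; exact hx
      · rintro (⟨r, hr, rfl⟩ | ⟨r, hr, rfl⟩)
        · exact (mR r).1 hr
        · exact (mS r).1 hr
    have h2 : (H.neighborFinset p).card = 3 := by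
      rw [SimpleGraph.card_neighborFinset_eq_degree]; exact hreg p
    rw [h1, Finset.card_union_of_disjoint, Finset.card_image_of_injective _ (fun a b h => hinj p a b h),
      Finset.card_image_of_injective _ (fun a b h => hinj q' a b h)] at h2
    · exact h2
    · rw [Finset.disjoint_left]
      intro x hx hx'
      rw [Finset.mem_image] at hx hx'
      obtain ⟨a, -, ha⟩ := hx
      obtain ⟨b, -, hb⟩ := hx'
      exact hPQ' a b (ha.trans hb.symm)
  have cq : L.card + S.card = 3 := by
    have h1 : H.neighborFinset q' = L.image (fun r => r +ᵥ q') ∪ S.image (fun r : A => -r +ᵥ p) := by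
      ext x
      rw [SimpleGraph.mem_neighborFinset, Finset.mem_union, Finset.mem_image, Finset.mem_image]
      constructor
      · intro hx
        by_cases hxP : x ∈ P
        · right
          refine ⟨-f x, ?_, by rw [neg_neg]; exact (hf1 x hxP).symm⟩
          rw [mS]
          apply hsub'
          rw [← hf1 x hxP]; exact hx
        · left
          refine ⟨f x, ?_, (hf2 x hxP).symm⟩
          rw [mL, ← hf2 x hxP]; exact hx
      · rintro (⟨r, hr, rfl⟩ | ⟨r, hr, rfl⟩)
        · exact (mL r).1 hr
        · exact hsub' r p q' ((mS r).1 hr)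
    have h2 : (H.neighborFinset q').card = 3 := by
      rw [SimpleGraph.card_neighborFinset_eq_degree]; exact hreg q'
    rw [h1, Finset.card_union_of_disjoint, Finset.card_image_of_injective _ (fun a b h => hinj q' a b h),
      Finset.card_image_of_injective _ (fun a b h => neg_injective (hinj p _ _ h))] at h2
    · exact h2
    · rw [Finset.disjoint_left]
      intro x hx hx'
      rw [Finset.mem_image] at hx hx'
      obtain ⟨a, -, ha⟩ := hx
      obtain ⟨b, -, hb⟩ := hx'
      exact hPQ' (-b) a (hb.trans ha.symm)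
  have h0S : (0 : A) ∈ S := by rw [mS, zero_vadd]; exact hpq'
  have hS1 : 1 ≤ S.card := Finset.card_pos.2 ⟨0, h0S⟩
  -- two vertices related by the same element
  have hRL : ∀ r : A, H.Adj p (r +ᵥ p) → H.Adj q' (r +ᵥ q') → False := by
    intro r h1 h2
    refine no_square H hg p (r +ᵥ p) (r +ᵥ q') q' h1 (hact r _ _ hpq') h2.symm hpq'.symm ?_ ?_
    · intro h
      apply hPQ' 0 r
      rw [zero_vadd]; exact h
    · intro h
      apply hPQ' r 0
      rw [zero_vadd]; exact h
  have hcases : S.card = 3 ∨ S.card = 2 ∨ S.card = 1 := by omega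
  rcases hcases with h3 | h3 | h3
  · -- Haar graphs
    have hR0 : R = ∅ := Finset.card_eq_zero.1 (by omega)
    have hL0 : L = ∅ := Finset.card_eq_zero.1 (by omega)
    obtain ⟨a, b, c, hab, hac, hbc, hSe⟩ := Finset.card_eq_three.1 h3
    have hmem : ∀ s, (s = a ∨ s = b ∨ s = c) ↔ s ∈ S := by
      intro s; rw [hSe]; simp
    have hPQ : ∀ u v, H.Adj u v → (u ∈ P ↔ v ∉ P) := by
      intro u v huv
      constructor
      · intro hu hv
        have := aPP u v huv hu hv
        rw [hR0] at this
        exact absurd this (Finset.notMem_empty _)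
      · intro hv
        by_contra hu
        have := aQQ u v huv hu hv
        rw [hL0] at this
        exact absurd this (Finset.notMem_empty _)
    refine label_haar H P f a b c hPQ ?_ ?_ ?_
    · intro u v hu huv
      have h1 := aPQ u v huv hu ((hPQ u v huv).1 hu)
      rw [← hmem] at h1
      rcases h1 with h | h | h
      · exact Or.inl (by rw [← h]; abel)
      · exact Or.inr (Or.inl (by rw [← h]; abel))
      · exact Or.inr (Or.inr (by rw [← h]; abel))
    · intro u v w huv huw hvw
      apply hsame _ _ _ hvw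
      have h1 := hPQ u v huv
      have h2 := hPQ u w huw
      tauto
    · apply goodH
      intro x y hne hF
      refine haar_bad a b c ?_ hab hac hbc x y hne hF
      intro s1 s2 s3 s4 h1 h2 h3 h4 h12 h14 hsum
      rw [hmem, mS] at h1 h2 h3 h4
      refine no_square H hg p (s1 +ᵥ q') ((s1 - s2) +ᵥ p) (s4 +ᵥ q') h1 ?_ ?_ h4.symm ?_ ?_
      · have := hact (s1 - s2) _ _ h2
        rw [← add_vadd, sub_add_cancel] at this
        exact this.symm
      · have := hact (s1 - s2) _ _ h3
        rw [← add_vadd] at this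
        have e : s1 - s2 + s3 = s4 := by
          have : s1 - s2 + s3 = (s1 + s3) - s2 := by abel
          rw [this, hsum]; abel
        rwa [e] at this
      · intro h
        apply h12
        exact sub_eq_zero.1 (hfree _ _ h.symm)
      · intro h; exact h14 (hinj _ _ _ h)
  · -- the third kind
    obtain ⟨i, hRi⟩ := Finset.card_eq_one.1 (by omega : R.card = 1)
    obtain ⟨j, hLj⟩ := Finset.card_eq_one.1 (by omega : L.card = 1)
    obtain ⟨c, hc0, hSc⟩ : ∃ c, c ≠ 0 ∧ ∀ s, s ∈ S ↔ s = 0 ∨ s = c := by
      obtain ⟨a, b, hab, hSe⟩ := Finset.card_eq_two.1 h3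
      rw [hSe] at h0S
      simp only [Finset.mem_insert, Finset.mem_singleton] at h0S
      rcases h0S with h | h
      · refine ⟨b, fun h' => hab (by rw [← h, h']), fun s => ?_⟩
        rw [hSe, ← h]; simp
      · refine ⟨a, fun h' => hab (by rw [← h, h']), fun s => ?_⟩
        rw [hSe, ← h]; simp [or_comm]
    have hi1 : H.Adj p (i +ᵥ p) := by rw [← mR, hRi]; simp
    have hj1 : H.Adj q' (j +ᵥ q') := by rw [← mL, hLj]; simp
    have hc1 : H.Adj p (c +ᵥ q') := by rw [← mS, hSc]; simp
    have hii : i + i = 0 := by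
      have h1 := hsub' i p p hi1
      rw [← mR, hRi, Finset.mem_singleton] at h1
      rw [← neg_eq_iff_add_eq_zero]; exact h1
    have hjj : j + j = 0 := by
      have h1 := hsub' j q' q' hj1
      rw [← mL, hLj, Finset.mem_singleton] at h1
      rw [← neg_eq_iff_add_eq_zero]; exact h1
    have hi0 : i ≠ 0 := by
      rintro rfl
      rw [zero_vadd] at hi1; exact H.loopless.irrefl _ hi1
    have hj0 : j ≠ 0 := by
      rintro rfl
      rw [zero_vadd] at hj1; exact H.loopless.irrefl _ hj1
    have hij : i ≠ j := by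
      rintro rfl
      exact hRL i hi1 hj1
    have hcel : ∀ s, c ≠ el i j s := by
      rintro ⟨s, t⟩
      have hs : s = 0 ∨ s = 1 := (by decide : ∀ a : ZMod 2, a = 0 ∨ a = 1) s
      have ht : t = 0 ∨ t = 1 := (by decide : ∀ a : ZMod 2, a = 0 ∨ a = 1) t
      rcases hs with rfl | rfl <;> rcases ht with rfl | rfl
      · simpa [el] using hc0
      · have : el i j (0, 1) = j := by simp [el]
        rw [this]
        intro h
        rw [h] at hc1
        exact no_triangle H hg p q' (j +ᵥ q') hpq' hj1 hc1.symm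
      · have : el i j (1, 0) = i := by simp [el]
        rw [this]
        intro h
        rw [h] at hc1
        exact no_triangle H hg p (i +ᵥ p) (i +ᵥ q') hi1 (hact i _ _ hpq') hc1.symm
      · have : el i j (1, 1) = i + j := by simp [el]
        rw [this]
        intro h
        have h5 := hact i _ _ hc1
        rw [h, ← add_vadd, ← add_assoc, hii, zero_add] at h5
        refine no_square H hg p q' (j +ᵥ q') (i +ᵥ p) hpq' hj1 h5.symm hi1.symm ?_ ?_
        · intro h6
          apply hPQ' 0 j
          rw [zero_vadd]; exact h6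
        · intro h6
          apply hPQ' i 0
          rw [zero_vadd]; exact h6.symm
    refine label_J H P f i j c hii hjj hi0 hj0 hij hcel ?_ ?_ ?_ ?_
    · intro u v huv hu hv
      have h1 := aPP u v huv hu hv
      rw [hRi, Finset.mem_singleton] at h1
      rw [← h1]; abel
    · intro u v huv hu hv
      have h1 := aQQ u v huv hu hv
      rw [hLj, Finset.mem_singleton] at h1
      rw [← h1]; abel
    · intro u v huv hu hv
      have h1 := aPQ u v huv hu hv
      rw [hSc] at h1
      rcases h1 with h | h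
      · left; exact sub_eq_zero.1 h
      · right; rw [← h]; abel
    · intro u v w _ _ h h'
      exact hsame v w h h'
  · -- I-graphs
    have hS0 : ∀ s, s ∈ S ↔ s = 0 := by
      obtain ⟨a, ha⟩ := Finset.card_eq_one.1 h3
      rw [ha, Finset.mem_singleton] at h0S
      intro s; rw [ha, Finset.mem_singleton, h0S]
    obtain ⟨r, r', hrr, hRr⟩ := Finset.card_eq_two.1 (by omega : R.card = 2)
    obtain ⟨l, l', hll, hLl⟩ := Finset.card_eq_two.1 (by omega : L.card = 2)
    have hr1 : H.Adj p (r +ᵥ p) := by rw [← mR, hRr]; simp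
    have hr2 : H.Adj p (r' +ᵥ p) := by rw [← mR, hRr]; simp
    have hl1 : H.Adj q' (l +ᵥ q') := by rw [← mL, hLl]; simp
    have hl2 : H.Adj q' (l' +ᵥ q') := by rw [← mL, hLl]; simp
    have hr' : r' = -r := (neg_eq_of_add_eq_zero_right (htwo p r r' hr1 hr2 hrr)).symm
    have hl' : l' = -l := (neg_eq_of_add_eq_zero_right (htwo q' l l' hl1 hl2 hll)).symm
    have mult : ∀ (x : W) (r : A), H.Adj x (r +ᵥ x) → r ≠ -r → ∀ k : ℤ, 1 ≤ k → k ≤ 4 →
        k • r ≠ 0 := by
      intro x r hr hrr k hk1 hk4 hk
      have h2 : r + r ≠ 0 := fun h => hrr (eq_neg_of_add_eq_zero_left h)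
      have step : ∀ m : ℤ, H.Adj (m • r +ᵥ x) ((m + 1) • r +ᵥ x) := by
        intro m
        have := hact (m • r) _ _ hr
        rw [← add_vadd] at this
        rwa [add_smul, one_smul]
      have hk' : k = 1 ∨ k = 2 ∨ k = 3 ∨ k = 4 := by omega
      rcases hk' with rfl | rfl | rfl | rfl
      · rw [one_smul] at hk
        apply h2; rw [hk, add_zero]
      · rw [two_smul] at hk; exact h2 hk
      · have s0 := step 0
        have s1 := step 1
        have s2 := step 2
        norm_num at s0 s1 s2
        rw [hk, zero_vadd] at s2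
        exact no_triangle H hg x (r +ᵥ x) ((2 : ℤ) • r +ᵥ x) s0 s1 s2
      · have s0 := step 0
        have s1 := step 1
        have s2 := step 2
        have s3 := step 3
        norm_num at s0 s1 s2 s3
        rw [hk, zero_vadd] at s3
        refine no_square H hg x (r +ᵥ x) ((2 : ℤ) • r +ᵥ x) ((3 : ℤ) • r +ᵥ x) s0 s1 s2 s3 ?_ ?_
        · intro h
          have := hfree _ _ h.symm
          rw [two_smul] at this
          exact h2 this
        · intro h
          have := hinj _ _ _ h
          apply h2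
          have h5 : (3 : ℤ) • r = r + (r + r) := by
            have : (3 : ℤ) = 1 + (1 + 1) := by norm_num
            rw [this, add_smul, add_smul, one_smul]
          rw [h5] at this
          have h6 : r + 0 = r + (r + r) := by rw [add_zero]; exact this
          exact (add_left_cancel h6).symm
    have hrne : r ≠ -r := fun h => hrr (h.trans hr'.symm)
    have hlne : l ≠ -l := fun h => hll (h.trans hl'.symm)
    refine label_I H P f r l (fun h => hrne (eq_neg_of_add_eq_zero_left h))
      (fun h => hlne (eq_neg_of_add_eq_zero_left h)) ?_ ?_ ?_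
    · intro u v huv
      by_cases hu : u ∈ P
      · by_cases hv : v ∈ P
        · left
          refine ⟨hu, hv, ?_⟩
          have h1 := aPP u v huv hu hv
          rw [hRr, Finset.mem_insert, Finset.mem_singleton, hr'] at h1
          rcases h1 with h | h
          · left; rw [← h]; abel
          · right
            have : r = -(f v - f u) := by rw [h, neg_neg]
            rw [this]; abel
        · right; right
          refine ⟨⟨fun _ => hv, fun _ => hu⟩, ?_⟩
          have h1 := aPQ u v huv hu hv
          rw [hS0] at h1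
          exact (sub_eq_zero.1 h1).symm
      · by_cases hv : v ∈ P
        · right; right
          refine ⟨⟨fun h => absurd h hu, fun h => absurd hv h⟩, ?_⟩
          have h1 := aPQ v u huv.symm hv hu
          rw [hS0] at h1
          exact sub_eq_zero.1 h1
        · right; left
          refine ⟨hu, hv, ?_⟩
          have h1 := aQQ u v huv hu hv
          rw [hLl, Finset.mem_insert, Finset.mem_singleton, hl'] at h1
          rcases h1 with h | h
          · left; rw [← h]; abel
          · right
            have : l = -(f v - f u) := by rw [h, neg_neg]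
            rw [this]; abel
    · intro u v w _ _ h h'
      exact hsame v w h h'
    · apply goodI
      intro x y hxy
      refine I_bad r l (mult p r hr1 hrne) (mult q' l hl1 hlne) ?_ ?_ x y hxy
      · intro h
        exact hRL r hr1 (by rw [h]; exact hl1)
      · intro h
        exact hRL r hr1 (by rw [h, ← hl']; exact hl2)

/-- Pulling back along locally injective homomorphisms. -/
theorem TC.pullback {V W : Type} {G : SimpleGraph V} {H : SimpleGraph W} (h : TC H) (φ : V → W)
    (hφ : ∀ u v, G.Adj u v → H.Adj (φ u) (φ v))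
    (hφ' : ∀ u v w, G.Adj u v → G.Adj u w → φ v = φ w → v = w) : TC G := by
  obtain ⟨c, d, h1, h2, h3, h4⟩ := h
  refine ⟨fun u => c (φ u), fun u v => d (φ u) (φ v), ?_, ?_, ?_, ?_⟩
  · intro u v huv; exact h1 _ _ (hφ _ _ huv)
  · intro u v huv; exact h2 _ _ (hφ _ _ huv)
  · intro u v w huv huw hvw
    exact h3 _ _ _ (hφ _ _ huv) (hφ _ _ huw) (fun h => hvw (hφ' u v w huv huw h))
  · intro u v huv; exact h4 _ _ (hφ _ _ huv)

end Run7.h236.HR
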