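import Mathlib

/-!
Two lemmas: a map of an abelian group compatible with two translations, and reduced bases of
lattices in the plane.
-/

set_option autoImplicit false

namespace Run7.h236.HR

/-- A map compatible with two translations. -/
theorem exists_lift {A B : Type} [AddCommGroup A] [AddCommGroup B] (u w : A) (α β : B)
    (h : ∀ x y : ℤ, x • u + y • w = 0 → x • α + y • β = 0) :
    ∃ χ : A → B, ∀ x, χ (x + u) = χ x + α ∧ χ (x + w) = χ x + β := by
  classical
  set K : AddSubgroup A := AddSubgroup.closure {u, w} with hK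
  set r : A → A := fun x => (Quotient.out (QuotientAddGroup.mk x : A ⧸ K)) with hr
  have h1 : ∀ x, ∃ m n : ℤ, m • u + n • w = -(r x) + x := by
    intro x
    have : (QuotientAddGroup.mk (r x) : A ⧸ K) = QuotientAddGroup.mk x := by
      simp only [hr]
      exact Quotient.out_eq (QuotientAddGroup.mk x : A ⧸ K)
    rw [QuotientAddGroup.eq] at this
    rw [hK, AddSubgroup.mem_closure_pair] at this
    exact this
  have hru : ∀ x, r (x + u) = r x := by
    intro x
    have : (QuotientAddGroup.mk (x + u) : A ⧸ K) = QuotientAddGroup.mk x := by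
      rw [QuotientAddGroup.eq]
      have : -(x + u) + x = -u := by abel
      rw [this]
      exact K.neg_mem (AddSubgroup.subset_closure (by simp))
    simp only [hr, this]
  have hrw : ∀ x, r (x + w) = r x := by
    intro x
    have : (QuotientAddGroup.mk (x + w) : A ⧸ K) = QuotientAddGroup.mk x := by
      rw [QuotientAddGroup.eq]
      have : -(x + w) + x = -w := by abel
      rw [this]
      exact K.neg_mem (AddSubgroup.subset_closure (by simp))
    simp only [hr, this]
  choose m n hmn using h1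
  refine ⟨fun x => m x • α + n x • β, fun x => ⟨?_, ?_⟩⟩
  · have e1 := hmn (x + u)
    have e2 := hmn x
    rw [hru] at e1
    have e3 : (m (x + u) - m x - 1) • u + (n (x + u) - n x) • w = 0 := by
      have : (m (x + u) - m x - 1) • u + (n (x + u) - n x) • w =
          (m (x + u) • u + n (x + u) • w) - (m x • u + n x • w) - u := by
        simp only [sub_smul, one_smul]; abel
      rw [this, e1, e2]; abel
    have e4 := h _ _ e3
    have : m (x + u) • α + n (x + u) • β = ((m (x + u) - m x - 1) • α +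
        (n (x + u) - n x) • β) + (m x • α + n x • β) + α := by
      simp only [sub_smul, one_smul]; abel
    simp only
    rw [this, e4, zero_add]
  · have e1 := hmn (x + w)
    have e2 := hmn x
    rw [hrw] at e1
    have e3 : (m (x + w) - m x) • u + (n (x + w) - n x - 1) • w = 0 := by
      have : (m (x + w) - m x) • u + (n (x + w) - n x - 1) • w =
          (m (x + w) • u + n (x + w) • w) - (m x • u + n x • w) - w := by
        simp only [sub_smul, one_smul]; abel
      rw [this, e1, e2]; abel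
    have e4 := h _ _ e3
    have : m (x + w) • α + n (x + w) • β = ((m (x + w) - m x) • α +
        (n (x + w) - n x - 1) • β) + (m x • α + n x • β) + β := by
      simp only [sub_smul, one_smul]; abel
    simp only
    rw [this, e4, zero_add]

/-- The quadratic form. -/
def qf (e x y : ℤ) : ℤ := x * x + e * (x * y) + y * y

/-- Twice the bilinear form. -/
def bf (e x y p q : ℤ) : ℤ := 2 * (x * p) + e * (x * q + y * p) + 2 * (y * q)

lemma qf_bf (e x y p q : ℤ) : 4 * qf e p q * qf e x y =
    bf e x y p q ^ 2 + (4 - e ^ 2) * (p * y - q * x) ^ 2 := by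
  unfold qf bf; ring

lemma bf_sub (e x y p q j : ℤ) : bf e (x - j * p) (y - j * q) p q = bf e x y p q - 2 * j * qf e p q := by
  unfold qf bf; ring

/-- Reduced bases. `L` is the set of relations. -/
theorem exists_basis (e : ℤ) (he0 : 0 ≤ e) (he1 : e ≤ 1) (L : AddSubgroup (ℤ × ℤ)) (p q : ℤ)
    (hv : (p, q) ∈ L) (hne : (p, q) ≠ 0) (hmin : ∀ x y : ℤ, (x, y) ∈ L → (x, y) ≠ (0 : ℤ × ℤ) →
      qf e p q ≤ qf e x y) (n : ℤ) (hn : n ≠ 0) (hn1 : (n, 0) ∈ L) (hn2 : (0, n) ∈ L)
    (hp : 0 < p) :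
    ∃ r s : ℤ, (r, s) ∈ L ∧ 0 < p * s - q * r ∧ 0 ≤ r ∧ r < p ∧
      (∀ x y : ℤ, (x, y) ∈ L → ∃ i j : ℤ, x = i * p + j * r ∧ y = i * q + j * s) ∧
      3 * qf e p q ^ 2 ≤ (4 - e ^ 2) * (p * s - q * r) ^ 2 := by
  -- positivity of the form
  have hpos : 0 < qf e p q := by
    have h1 : 2 * qf e p q = (1 - e) * (p * p + q * q) + e * (p + q) ^ 2 +
        (p * p + q * q) := by unfold qf; ring
    have h2 : 0 < p * p + q * q := by nlinarith
    have h3 : 0 ≤ (1 - e) * (p * p + q * q) := mul_nonneg (by linarith) h2.le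
    have h4 : 0 ≤ e * (p + q) ^ 2 := mul_nonneg he0 (sq_nonneg _)
    linarith
  -- reduction modulo `(p, q)`
  have hred : ∀ x y : ℤ, ∃ j : ℤ, |bf e (x - j * p) (y - j * q) p q| ≤ qf e p q := by
    intro x y
    set F := qf e p q with hF
    refine ⟨(bf e x y p q + F) / (2 * F), ?_⟩
    rw [bf_sub]
    have h1 := Int.emod_add_mul_ediv (bf e x y p q + F) (2 * F)
    have h2 := Int.emod_nonneg (bf e x y p q + F) (by positivity : (2 * F) ≠ 0)
    have h3 := Int.emod_lt_of_pos (bf e x y p q + F) (by positivity : 0 < 2 * F)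
    rw [abs_le]
    constructor <;> nlinarith
  -- vectors of determinant zero
  have hzero : ∀ x y : ℤ, (x, y) ∈ L → p * y - q * x = 0 → ∃ i : ℤ, x = i * p ∧ y = i * q := by
    intro x y hxy hdet
    obtain ⟨j, hj⟩ := hred x y
    have hmem : (x - j * p, y - j * q) ∈ L := by
      have : (x - j * p, y - j * q) = (x, y) - j • (p, q) := by simp
      rw [this]
      exact L.sub_mem hxy (L.zsmul_mem hv j)
    by_cases h0 : (x - j * p, y - j * q) = (0 : ℤ × ℤ)
    · rw [Prod.mk_eq_zero] at h0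
      exact ⟨j, by linarith [h0.1], by linarith [h0.2]⟩
    · exfalso
      have h1 := hmin _ _ hmem h0
      have h2 := qf_bf e (x - j * p) (y - j * q) p q
      have h3 : p * (y - j * q) - q * (x - j * p) = 0 := by linarith
      rw [h3] at h2
      have h4 : bf e (x - j * p) (y - j * q) p q ^ 2 ≤ qf e p q ^ 2 := sq_le_sq' (by
        have := (abs_le.1 hj).1; linarith) (abs_le.1 hj).2
      nlinarith
  -- the subgroup of determinants
  set D : AddSubgroup ℤ := L.map ((AddMonoidHom.mulLeft p).comp (AddMonoidHom.snd ℤ ℤ) -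
    (AddMonoidHom.mulLeft q).comp (AddMonoidHom.fst ℤ ℤ)) with hD
  have hDmem : ∀ d : ℤ, d ∈ D ↔ ∃ x y : ℤ, (x, y) ∈ L ∧ p * y - q * x = d := by
    intro d
    rw [hD, AddSubgroup.mem_map]
    constructor
    · rintro ⟨⟨x, y⟩, h1, h2⟩
      exact ⟨x, y, h1, by simpa using h2⟩
    · rintro ⟨x, y, h1, h2⟩
      exact ⟨(x, y), h1, by simpa using h2⟩
  obtain ⟨g, hg⟩ := Int.subgroup_cyclic D
  have hgD : ∀ d : ℤ, d ∈ D ↔ g ∣ d := by
    intro d
    rw [hg, AddSubgroup.mem_closure_singleton]
    constructor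
    · rintro ⟨m, rfl⟩
      exact ⟨m, by rw [smul_eq_mul, mul_comm]⟩
    · rintro ⟨m, rfl⟩
      exact ⟨m, by rw [smul_eq_mul, mul_comm]⟩
  have hg0 : g ≠ 0 := by
    rintro rfl
    have h1 : p * n - q * 0 ∈ D := (hDmem _).2 ⟨0, n, hn2, rfl⟩
    rw [hgD] at h1
    have h2 := zero_dvd_iff.1 h1
    have h3 : p * n = 0 := by linarith
    rcases mul_eq_zero.1 h3 with h | h
    · omega
    · exact hn h
  -- the generator may be taken positive
  obtain ⟨N, hN0, hN⟩ : ∃ N : ℤ, 0 < N ∧ ∀ d : ℤ, d ∈ D ↔ N ∣ d := by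
    refine ⟨|g|, abs_pos.2 hg0, fun d => ?_⟩
    rw [hgD, abs_dvd]
  obtain ⟨x0, y0, hxy0, hdet0⟩ := (hDmem N).1 ((hN N).2 (dvd_refl N))
  -- any vector of determinant `N` will do
  have hbasis : ∀ r s : ℤ, (r, s) ∈ L → p * s - q * r = N →
      ∀ x y : ℤ, (x, y) ∈ L → ∃ i j : ℤ, x = i * p + j * r ∧ y = i * q + j * s := by
    intro r s hrs hdet x y hxy
    obtain ⟨j, hj⟩ := (hN _).1 ((hDmem _).2 ⟨x, y, hxy, rfl⟩)
    have hmem : (x - j * r, y - j * s) ∈ L := by
      have : (x - j * r, y - j * s) = (x, y) - j • (r, s) := by simp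
      rw [this]
      exact L.sub_mem hxy (L.zsmul_mem hrs j)
    obtain ⟨i, hi1, hi2⟩ := hzero _ _ hmem (by
      have : p * (y - j * s) - q * (x - j * r) = (p * y - q * x) - j * (p * s - q * r) := by ring
      rw [this, hj, hdet]; ring)
    exact ⟨i, j, by linarith, by linarith⟩
  -- the bound
  have hbound : 3 * qf e p q ^ 2 ≤ (4 - e ^ 2) * N ^ 2 := by
    obtain ⟨j, hj⟩ := hred x0 y0
    have hmem : (x0 - j * p, y0 - j * q) ∈ L := by
      have : (x0 - j * p, y0 - j * q) = (x0, y0) - j • (p, q) := by simp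
      rw [this]
      exact L.sub_mem hxy0 (L.zsmul_mem hv j)
    have hd : p * (y0 - j * q) - q * (x0 - j * p) = N := by rw [← hdet0]; ring
    have h0 : (x0 - j * p, y0 - j * q) ≠ (0 : ℤ × ℤ) := by
      intro h0
      rw [Prod.mk_eq_zero] at h0
      rw [h0.1, h0.2] at hd
      omega
    have h1 := hmin _ _ hmem h0
    have h2 := qf_bf e (x0 - j * p) (y0 - j * q) p q
    rw [hd] at h2
    have h4 : bf e (x0 - j * p) (y0 - j * q) p q ^ 2 ≤ qf e p q ^ 2 := sq_le_sq' (by
      have := (abs_le.1 hj).1; linarith) (abs_le.1 hj).2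
    nlinarith
  -- normalise
  refine ⟨x0 - (x0 / p) * p, y0 - (x0 / p) * q, ?_, ?_, ?_, ?_, ?_, ?_⟩
  · have : (x0 - (x0 / p) * p, y0 - (x0 / p) * q) = (x0, y0) - (x0 / p) • (p, q) := by simp
    rw [this]
    exact L.sub_mem hxy0 (L.zsmul_mem hv _)
  · have : p * (y0 - (x0 / p) * q) - q * (x0 - (x0 / p) * p) = N := by rw [← hdet0]; ring
    rw [this]; exact hN0
  · have := Int.emod_nonneg x0 hp.ne'
    have h2 := Int.emod_add_mul_ediv x0 p
    nlinarith
  · have := Int.emod_lt_of_pos x0 hp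
    have h2 := Int.emod_add_mul_ediv x0 p
    nlinarith
  · apply hbasis
    · have : (x0 - (x0 / p) * p, y0 - (x0 / p) * q) = (x0, y0) - (x0 / p) • (p, q) := by simp
      rw [this]
      exact L.sub_mem hxy0 (L.zsmul_mem hv _)
    · rw [← hdet0]; ring
  · have : p * (y0 - (x0 / p) * q) - q * (x0 - (x0 / p) * p) = N := by rw [← hdet0]; ring
    rw [this]; exact hbound

end Run7.h236.HR
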