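import Pool.Agent.Run7.h236.HR2

/-!
The arithmetic of the characters: Haar graphs.
-/

set_option autoImplicit false
set_option linter.unusedVariables false

namespace Run7.h236.HR

/-- The triangle. -/
def Tri (N u w : ℤ) : Prop := N ≤ 4 * u ∧ N ≤ 4 * w ∧ 4 * (u + w) ≤ 3 * N

instance (N u w : ℤ) : Decidable (Tri N u w) := by unfold Tri; infer_instance

/-- The exceptional lattices. -/
def ExcH (p q r s : ℤ) : Prop :=
  (p = 2 ∧ q = 2 ∧ r = 0 ∧ s = 6) ∨
  (p = 2 ∧ q = 2 ∧ r = 0 ∧ s = 7) ∨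
  (p = 2 ∧ q = 2 ∧ r = 0 ∧ s = 14) ∨
  (p = 2 ∧ q = 2 ∧ r = 1 ∧ s = 8) ∨
  (p = 3 ∧ q = 1 ∧ r = 1 ∧ s = 6) ∨
  (p = 3 ∧ q = 1 ∧ r = 2 ∧ s = 5) ∨
  (p = 3 ∧ q = 2 ∧ r = 1 ∧ s = 7) ∨
  (p = 3 ∧ q = 2 ∧ r = 1 ∧ s = 9) ∨
  (p = 5 ∧ q = 0 ∧ r = 0 ∧ s = 5)

instance (p q r s : ℤ) : Decidable (ExcH p q r s) := by unfold ExcH; infer_instance

/-- A character in one of the triangles, or an exceptional lattice. -/
def OutH (p q r s : ℤ) : Prop :=
  (∃ U W : ℤ, (p * s - q * r) ∣ (p * U + q * W) ∧ (p * s - q * r) ∣ (r * U + s * W) ∧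
    (Tri (p * s - q * r) U W ∨ Tri (p * s - q * r) (W - U) (-U) ∨
      Tri (p * s - q * r) (U - W) (-W))) ∨ ExcH p q r s

theorem mkH (p q r s k1 k2 : ℤ)
    (h : Tri (p * s - q * r) (s * k1 - q * k2) (p * k2 - r * k1) ∨
      Tri (p * s - q * r) ((p * k2 - r * k1) - (s * k1 - q * k2)) (-(s * k1 - q * k2)) ∨
      Tri (p * s - q * r) ((s * k1 - q * k2) - (p * k2 - r * k1)) (-(p * k2 - r * k1))) :
    OutH p q r s :=
  Or.inl ⟨s * k1 - q * k2, p * k2 - r * k1, ⟨k1, by ring⟩, ⟨k2, by ring⟩, h⟩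

/-- The general criterion for the first triangle. -/
theorem tri_crit (p q r s k1 : ℤ) (hp : 0 < p) (hq : 0 ≤ q) (hqp : q ≤ p)
    (h1 : 4 * p * q ≤ (p * s - q * r) * (4 * k1 - p - q))
    (h2 : 4 * p * (p - q) ≤ (p * s - q * r) * (2 * p + q - 4 * k1)) :
    ∃ k2 : ℤ, Tri (p * s - q * r) (s * k1 - q * k2) (p * k2 - r * k1) := by
  set N := p * s - q * r with hN
  set m := N + 4 * r * k1 with hm
  -- the least `k2` with `m ≤ 4 * p * k2`
  have hm1 := Int.emod_add_mul_ediv (-m) (4 * p)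
  have hm2 := Int.emod_nonneg (-m) (by positivity : (4 * p) ≠ 0)
  have hm3 := Int.emod_lt_of_pos (-m) (by positivity : 0 < 4 * p)
  refine ⟨-((-m) / (4 * p)), ?_⟩
  set k2 := -((-m) / (4 * p)) with hk2
  have e : 4 * p * ((-m) / (4 * p)) = -(4 * p * k2) := by rw [hk2]; ring
  rw [e] at hm1
  have a1 : m ≤ 4 * p * k2 := by linarith
  have a2 : 4 * p * k2 < m + 4 * p := by linarith
  refine ⟨?_, ?_, ?_⟩
  · -- multiply by `p`
    have b1 : q * (4 * p * k2) ≤ q * (m + 4 * p) := mul_le_mul_of_nonneg_left a2.le hq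
    have b2 : p * N ≤ p * (4 * (s * k1 - q * k2)) := by
      have : p * (4 * (s * k1 - q * k2)) = 4 * (p * s) * k1 - q * (4 * p * k2) := by ring
      have e2 : p * s = N + q * r := by rw [hN]; ring
      rw [this, e2]
      have : q * (m + 4 * p) = q * N + 4 * q * r * k1 + 4 * p * q := by rw [hm]; ring
      nlinarith
    exact le_of_mul_le_mul_left b2 hp
  · have : 4 * (p * k2 - r * k1) = 4 * p * k2 - 4 * r * k1 := by ring
    linarith
  · have b1 : (p - q) * (4 * p * k2) ≤ (p - q) * (m + 4 * p) :=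
      mul_le_mul_of_nonneg_left a2.le (by linarith)
    have b2 : p * (4 * (s * k1 - q * k2 + (p * k2 - r * k1))) ≤ p * (3 * N) := by
      have : p * (4 * (s * k1 - q * k2 + (p * k2 - r * k1))) =
          4 * (p * s) * k1 - 4 * p * r * k1 + (p - q) * (4 * p * k2) := by ring
      have e2 : p * s = N + q * r := by rw [hN]; ring
      rw [this, e2]
      have : (p - q) * (m + 4 * p) = (p - q) * N + 4 * (p - q) * r * k1 + 4 * p * (p - q) := by
        rw [hm]; ring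
      nlinarith
    exact le_of_mul_le_mul_left b2 hp

/-- Large first coordinates. -/
theorem tri_large (p q r s : ℤ) (hp : 0 < p) (hq : 0 ≤ q) (hqp : q ≤ p)
    (hN0 : 0 < p * s - q * r)
    (hN : 4 * p * p ≤ (p * s - q * r) * (p - 4)) :
    ∃ k1 k2 : ℤ, Tri (p * s - q * r) (s * k1 - q * k2) (p * k2 - r * k1) := by
  set N := p * s - q * r with hNd
  set m := 4 * p * q + N * (p + q) with hm
  have hm1 := Int.emod_add_mul_ediv (-m) (4 * N)
  have hm2 := Int.emod_nonneg (-m) (by positivity : (4 * N) ≠ 0)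
  have hm3 := Int.emod_lt_of_pos (-m) (by positivity : 0 < 4 * N)
  set k1 := -((-m) / (4 * N)) with hk1
  have e : 4 * N * ((-m) / (4 * N)) = -(4 * N * k1) := by rw [hk1]; ring
  rw [e] at hm1
  have a1 : m ≤ 4 * N * k1 := by linarith
  have a2 : 4 * N * k1 < m + 4 * N := by linarith
  refine ⟨k1, ?_⟩
  have h1 : 4 * p * q ≤ N * (4 * k1 - p - q) := by
    have : N * (4 * k1 - p - q) = 4 * N * k1 - N * (p + q) := by ring
    rw [this]; linarith
  have h2 : 4 * p * (p - q) ≤ N * (2 * p + q - 4 * k1) := by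
    have : N * (2 * p + q - 4 * k1) = N * (2 * p + q) - 4 * N * k1 := by ring
    rw [this]
    have : N * (2 * p + q) - (m + 4 * N) = N * (p - 4) - 4 * p * q := by rw [hm]; ring
    nlinarith
  exact tri_crit p q r s k1 hp hq hqp h1 h2

theorem rowH_2_1 (r s : ℤ) (h0 : 0 ≤ r) (h1 : r < 2) (hN : 7 ≤ 2 * s - 1 * r)
    (hmin : ∀ i j : ℤ, (i * 2 + j * r, i * 1 + j * s) ≠ ((0, 0) : ℤ × ℤ) → 7 ≤ qf 1 (i * 2 + j * r) (i * 1 + j * s)) :
    OutH 2 1 r s := by
  by_cases hb : 8 ≤ 2 * s - 1 * r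
  · refine mkH 2 1 r s (1) ((1 * r + 2 * s) / 4) (Or.inl ?_)
    unfold Tri; omega
  · interval_cases r
    · exfalso; omega
    · have hs1 : 4 ≤ s := by omega
      have hs2 : s ≤ 4 := by omega
      interval_cases s
      · exact mkH 2 1 1 4 (1) (2) (Or.inl (by decide))

theorem rowH_2_2 (r s : ℤ) (h0 : 0 ≤ r) (h1 : r < 2) (hN : 12 ≤ 2 * s - 2 * r)
    (hmin : ∀ i j : ℤ, (i * 2 + j * r, i * 2 + j * s) ≠ ((0, 0) : ℤ × ℤ) → 12 ≤ qf 1 (i * 2 + j * r) (i * 2 + j * s)) :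
    OutH 2 2 r s := by
  by_cases hb : 48 ≤ 2 * s - 2 * r
  · refine mkH 2 2 r s (-1) (-((6 * r + 2 * s) / 16)) (Or.inr (Or.inl ?_))
    unfold Tri; omega
  · interval_cases r
    · have hs1 : 6 ≤ s := by omega
      have hs2 : s ≤ 23 := by omega
      interval_cases s
      · exact Or.inr (by decide)
      · exact Or.inr (by decide)
      · exact mkH 2 2 0 8 (1) (2) (Or.inl (by decide))
      · exact mkH 2 2 0 9 (-1) (-1) (Or.inr (Or.inl (by decide)))
      · exact mkH 2 2 0 10 (-1) (-1) (Or.inr (Or.inl (by decide)))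
      · exact mkH 2 2 0 11 (-1) (-1) (Or.inr (Or.inl (by decide)))
      · exact mkH 2 2 0 12 (1) (3) (Or.inl (by decide))
      · exact mkH 2 2 0 13 (-1) (-5) (Or.inr (Or.inr (by decide)))
      · exact Or.inr (by decide)
      · exact mkH 2 2 0 15 (-1) (-6) (Or.inr (Or.inr (by decide)))
      · exact mkH 2 2 0 16 (1) (4) (Or.inl (by decide))
      · exact mkH 2 2 0 17 (-1) (-2) (Or.inr (Or.inl (by decide)))
      · exact mkH 2 2 0 18 (-1) (-2) (Or.inr (Or.inl (by decide)))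
      · exact mkH 2 2 0 19 (-1) (-2) (Or.inr (Or.inl (by decide)))
      · exact mkH 2 2 0 20 (1) (5) (Or.inl (by decide))
      · exact mkH 2 2 0 21 (-1) (-2) (Or.inr (Or.inl (by decide)))
      · exact mkH 2 2 0 22 (-1) (-2) (Or.inr (Or.inl (by decide)))
      · exact mkH 2 2 0 23 (-1) (-2) (Or.inr (Or.inl (by decide)))
    · have hs1 : 7 ≤ s := by omega
      have hs2 : s ≤ 24 := by omega
      interval_cases s
      · exact absurd (hmin (-2) (1) (by decide)) (by decide)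
      · exact Or.inr (by decide)
      · exact mkH 2 2 1 9 (0) (2) (Or.inr (Or.inl (by decide)))
      · exact mkH 2 2 1 10 (-1) (-4) (Or.inr (Or.inr (by decide)))
      · exact mkH 2 2 1 11 (1) (3) (Or.inl (by decide))
      · exact mkH 2 2 1 12 (-1) (-5) (Or.inr (Or.inr (by decide)))
      · exact mkH 2 2 1 13 (-1) (-2) (Or.inr (Or.inl (by decide)))
      · exact mkH 2 2 1 14 (-1) (-2) (Or.inr (Or.inl (by decide)))
      · exact mkH 2 2 1 15 (1) (4) (Or.inl (by decide))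
      · exact mkH 2 2 1 16 (-1) (-2) (Or.inr (Or.inl (by decide)))
      · exact mkH 2 2 1 17 (-1) (-2) (Or.inr (Or.inl (by decide)))
      · exact mkH 2 2 1 18 (-1) (-2) (Or.inr (Or.inl (by decide)))
      · exact mkH 2 2 1 19 (1) (5) (Or.inl (by decide))
      · exact mkH 2 2 1 20 (-1) (-8) (Or.inr (Or.inr (by decide)))
      · exact mkH 2 2 1 21 (-1) (-3) (Or.inr (Or.inl (by decide)))
      · exact mkH 2 2 1 22 (-1) (-3) (Or.inr (Or.inl (by decide)))
      · exact mkH 2 2 1 23 (1) (6) (Or.inl (by decide))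
      · exact mkH 2 2 1 24 (-1) (-3) (Or.inr (Or.inl (by decide)))

theorem rowH_3_0 (r s : ℤ) (h0 : 0 ≤ r) (h1 : r < 3) (hN : 9 ≤ 3 * s - 0 * r)
    (hmin : ∀ i j : ℤ, (i * 3 + j * r, i * 0 + j * s) ≠ ((0, 0) : ℤ × ℤ) → 9 ≤ qf 1 (i * 3 + j * r) (i * 0 + j * s)) :
    OutH 3 0 r s := by
  by_cases hb : 18 ≤ 3 * s - 0 * r
  · refine mkH 3 0 r s (1) (-((-4 * r + -3 * s) / 12)) (Or.inl ?_)
    unfold Tri; omega
  · interval_cases r
    · have hs1 : 3 ≤ s := by omega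
      have hs2 : s ≤ 5 := by omega
      interval_cases s
      · exact mkH 3 0 0 3 (1) (1) (Or.inl (by decide))
      · exact mkH 3 0 0 4 (1) (1) (Or.inl (by decide))
      · exact mkH 3 0 0 5 (1) (2) (Or.inl (by decide))
    · have hs1 : 3 ≤ s := by omega
      have hs2 : s ≤ 5 := by omega
      interval_cases s
      · exact absurd (hmin (-1) (1) (by decide)) (by decide)
      · exact mkH 3 0 1 4 (1) (2) (Or.inl (by decide))
      · exact mkH 3 0 1 5 (1) (2) (Or.inl (by decide))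
    · have hs1 : 3 ≤ s := by omega
      have hs2 : s ≤ 5 := by omega
      interval_cases s
      · exact absurd (hmin (-1) (1) (by decide)) (by decide)
      · exact mkH 3 0 2 4 (1) (2) (Or.inl (by decide))
      · exact mkH 3 0 2 5 (1) (2) (Or.inl (by decide))

theorem rowH_3_1 (r s : ℤ) (h0 : 0 ≤ r) (h1 : r < 3) (hN : 13 ≤ 3 * s - 1 * r)
    (hmin : ∀ i j : ℤ, (i * 3 + j * r, i * 1 + j * s) ≠ ((0, 0) : ℤ × ℤ) → 13 ≤ qf 1 (i * 3 + j * r) (i * 1 + j * s)) :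
    OutH 3 1 r s := by
  by_cases hb : 27 ≤ 3 * s - 1 * r
  · refine mkH 3 1 r s (-1) (-((5 * r + 1 * s) / 16)) (Or.inr (Or.inl ?_))
    unfold Tri; omega
  · interval_cases r
    · have hs1 : 5 ≤ s := by omega
      have hs2 : s ≤ 8 := by omega
      interval_cases s
      · exact mkH 3 1 0 5 (-1) (0) (Or.inr (Or.inl (by decide)))
      · exact mkH 3 1 0 6 (-1) (0) (Or.inr (Or.inl (by decide)))
      · exact mkH 3 1 0 7 (-1) (0) (Or.inr (Or.inl (by decide)))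
      · exact mkH 3 1 0 8 (1) (2) (Or.inl (by decide))
    · have hs1 : 5 ≤ s := by omega
      have hs2 : s ≤ 9 := by omega
      interval_cases s
      · exact absurd (hmin (-1) (1) (by decide)) (by decide)
      · exact Or.inr (by decide)
      · exact mkH 3 1 1 7 (1) (2) (Or.inl (by decide))
      · exact mkH 3 1 1 8 (-1) (0) (Or.inr (Or.inl (by decide)))
      · exact mkH 3 1 1 9 (-1) (0) (Or.inr (Or.inl (by decide)))
    · have hs1 : 5 ≤ s := by omega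
      have hs2 : s ≤ 9 := by omega
      interval_cases s
      · exact Or.inr (by decide)
      · exact mkH 3 1 2 6 (1) (2) (Or.inl (by decide))
      · exact mkH 3 1 2 7 (-1) (-1) (Or.inr (Or.inl (by decide)))
      · exact mkH 3 1 2 8 (-1) (-1) (Or.inr (Or.inl (by decide)))
      · exact mkH 3 1 2 9 (-1) (-1) (Or.inr (Or.inl (by decide)))

theorem rowH_3_2 (r s : ℤ) (h0 : 0 ≤ r) (h1 : r < 3) (hN : 19 ≤ 3 * s - 2 * r)
    (hmin : ∀ i j : ℤ, (i * 3 + j * r, i * 2 + j * s) ≠ ((0, 0) : ℤ × ℤ) → 19 ≤ qf 1 (i * 3 + j * r) (i * 2 + j * s)) :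
    OutH 3 2 r s := by
  by_cases hb : 35 ≤ 3 * s - 2 * r
  · refine mkH 3 2 r s (-1) (-((6 * r + 1 * s) / 20)) (Or.inr (Or.inl ?_))
    unfold Tri; omega
  · interval_cases r
    · have hs1 : 7 ≤ s := by omega
      have hs2 : s ≤ 11 := by omega
      interval_cases s
      · exact mkH 3 2 0 7 (-1) (0) (Or.inr (Or.inl (by decide)))
      · exact mkH 3 2 0 8 (2) (2) (Or.inl (by decide))
      · exact mkH 3 2 0 9 (-1) (0) (Or.inr (Or.inl (by decide)))
      · exact mkH 3 2 0 10 (-1) (0) (Or.inr (Or.inl (by decide)))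
      · exact mkH 3 2 0 11 (-1) (0) (Or.inr (Or.inl (by decide)))
    · have hs1 : 7 ≤ s := by omega
      have hs2 : s ≤ 12 := by omega
      interval_cases s
      · exact Or.inr (by decide)
      · exact mkH 3 2 1 8 (-1) (-3) (Or.inr (Or.inr (by decide)))
      · exact Or.inr (by decide)
      · exact mkH 3 2 1 10 (2) (3) (Or.inl (by decide))
      · exact mkH 3 2 1 11 (-1) (0) (Or.inr (Or.inl (by decide)))
      · exact mkH 3 2 1 12 (-1) (0) (Or.inr (Or.inl (by decide)))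
    · have hs1 : 8 ≤ s := by omega
      have hs2 : s ≤ 12 := by omega
      interval_cases s
      · exact absurd (hmin (-2) (1) (by decide)) (by decide)
      · exact mkH 3 2 2 9 (-1) (-1) (Or.inr (Or.inl (by decide)))
      · exact mkH 3 2 2 10 (-1) (-1) (Or.inr (Or.inl (by decide)))
      · exact mkH 3 2 2 11 (-1) (-1) (Or.inr (Or.inl (by decide)))
      · exact mkH 3 2 2 12 (2) (4) (Or.inl (by decide))

theorem rowH_3_3 (r s : ℤ) (h0 : 0 ≤ r) (h1 : r < 3) (hN : 27 ≤ 3 * s - 3 * r) :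
    OutH 3 3 r s := by
  refine mkH 3 3 r s (2) ((3 * r + 5 * s) / 12) (Or.inl ?_)
  unfold Tri; omega

theorem rowH_4_0 (r s : ℤ) (h0 : 0 ≤ r) (h1 : r < 4) (hN : 16 ≤ 4 * s - 0 * r) :
    OutH 4 0 r s := by
  refine mkH 4 0 r s (1) (-((-4 * r + -4 * s) / 16)) (Or.inl ?_)
  unfold Tri; omega

theorem rowH_4_1 (r s : ℤ) (h0 : 0 ≤ r) (h1 : r < 4) (hN : 21 ≤ 4 * s - 1 * r)
    (hmin : ∀ i j : ℤ, (i * 4 + j * r, i * 1 + j * s) ≠ ((0, 0) : ℤ × ℤ) → 21 ≤ qf 1 (i * 4 + j * r) (i * 1 + j * s)) :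
    OutH 4 1 r s := by
  by_cases hb : 24 ≤ 4 * s - 1 * r
  · refine mkH 4 1 r s (-1) (-((5 * r + 0 * s) / 20)) (Or.inr (Or.inl ?_))
    unfold Tri; omega
  · interval_cases r
    · exfalso; omega
    · have hs1 : 6 ≤ s := by omega
      have hs2 : s ≤ 6 := by omega
      interval_cases s
      · exact absurd (hmin (-1) (1) (by decide)) (by decide)
    · have hs1 : 6 ≤ s := by omega
      have hs2 : s ≤ 6 := by omega
      interval_cases s
      · exact absurd (hmin (-1) (1) (by decide)) (by decide)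
    · have hs1 : 6 ≤ s := by omega
      have hs2 : s ≤ 6 := by omega
      interval_cases s
      · exact mkH 4 1 3 6 (2) (3) (Or.inl (by decide))

theorem rowH_4_2 (r s : ℤ) (h0 : 0 ≤ r) (h1 : r < 4) (hN : 28 ≤ 4 * s - 2 * r) :
    OutH 4 2 r s := by
  refine mkH 4 2 r s (2) ((2 * r + 4 * s) / 8) (Or.inl ?_)
  unfold Tri; omega

theorem rowH_4_3 (r s : ℤ) (h0 : 0 ≤ r) (h1 : r < 4) (hN : 37 ≤ 4 * s - 3 * r)
    (hmin : ∀ i j : ℤ, (i * 4 + j * r, i * 3 + j * s) ≠ ((0, 0) : ℤ × ℤ) → 37 ≤ qf 1 (i * 4 + j * r) (i * 3 + j * s)) :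
    OutH 4 3 r s := by
  by_cases hb : 40 ≤ 4 * s - 3 * r
  · refine mkH 4 3 r s (-1) (-((7 * r + 0 * s) / 28)) (Or.inr (Or.inl ?_))
    unfold Tri; omega
  · interval_cases r
    · exfalso; omega
    · have hs1 : 10 ≤ s := by omega
      have hs2 : s ≤ 10 := by omega
      interval_cases s
      · exact mkH 4 3 1 10 (2) (3) (Or.inl (by decide))
    · have hs1 : 11 ≤ s := by omega
      have hs2 : s ≤ 11 := by omega
      interval_cases s
      · exact absurd (hmin (-2) (1) (by decide)) (by decide)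
    · have hs1 : 12 ≤ s := by omega
      have hs2 : s ≤ 12 := by omega
      interval_cases s
      · exact absurd (hmin (-2) (1) (by decide)) (by decide)

theorem rowH_4_4 (r s : ℤ) (h0 : 0 ≤ r) (h1 : r < 4) (hN : 48 ≤ 4 * s - 4 * r) :
    OutH 4 4 r s := by
  refine mkH 4 4 r s (3) ((4 * r + 8 * s) / 16) (Or.inl ?_)
  unfold Tri; omega

theorem rowH_5_0 (r s : ℤ) (h0 : 0 ≤ r) (h1 : r < 5) (hN : 25 ≤ 5 * s - 0 * r)
    (hmin : ∀ i j : ℤ, (i * 5 + j * r, i * 0 + j * s) ≠ ((0, 0) : ℤ × ℤ) → 25 ≤ qf 1 (i * 5 + j * r) (i * 0 + j * s)) :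
    OutH 5 0 r s := by
  by_cases hb : 40 ≤ 5 * s - 0 * r
  · refine mkH 5 0 r s (0) ((0 * r + -5 * s) / 20) (Or.inr (Or.inr ?_))
    unfold Tri; omega
  · interval_cases r
    · have hs1 : 5 ≤ s := by omega
      have hs2 : s ≤ 7 := by omega
      interval_cases s
      · exact Or.inr (by decide)
      · exact mkH 5 0 0 6 (2) (2) (Or.inl (by decide))
      · exact mkH 5 0 0 7 (2) (2) (Or.inl (by decide))
    · have hs1 : 5 ≤ s := by omega
      have hs2 : s ≤ 7 := by omega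
      interval_cases s
      · exact absurd (hmin (-1) (1) (by decide)) (by decide)
      · exact mkH 5 0 1 6 (2) (2) (Or.inl (by decide))
      · exact mkH 5 0 1 7 (-2) (-1) (Or.inr (Or.inl (by decide)))
    · have hs1 : 5 ≤ s := by omega
      have hs2 : s ≤ 7 := by omega
      interval_cases s
      · exact absurd (hmin (-1) (1) (by decide)) (by decide)
      · exact mkH 5 0 2 6 (0) (-2) (Or.inr (Or.inr (by decide)))
      · exact mkH 5 0 2 7 (2) (3) (Or.inl (by decide))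
    · have hs1 : 5 ≤ s := by omega
      have hs2 : s ≤ 7 := by omega
      interval_cases s
      · exact absurd (hmin (-1) (1) (by decide)) (by decide)
      · exact mkH 5 0 3 6 (2) (3) (Or.inl (by decide))
      · exact mkH 5 0 3 7 (2) (3) (Or.inl (by decide))
    · have hs1 : 5 ≤ s := by omega
      have hs2 : s ≤ 7 := by omega
      interval_cases s
      · exact absurd (hmin (-1) (1) (by decide)) (by decide)
      · exact mkH 5 0 4 6 (-2) (-2) (Or.inr (Or.inl (by decide)))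
      · exact mkH 5 0 4 7 (2) (4) (Or.inl (by decide))

theorem rowH_5_1 (r s : ℤ) (h0 : 0 ≤ r) (h1 : r < 5) (hN : 31 ≤ 5 * s - 1 * r) :
    OutH 5 1 r s := by
  refine mkH 5 1 r s (2) (-((-7 * r + -5 * s) / 20)) (Or.inl ?_)
  unfold Tri; omega

theorem rowH_5_2 (r s : ℤ) (h0 : 0 ≤ r) (h1 : r < 5) (hN : 39 ≤ 5 * s - 2 * r)
    (hmin : ∀ i j : ℤ, (i * 5 + j * r, i * 2 + j * s) ≠ ((0, 0) : ℤ × ℤ) → 39 ≤ qf 1 (i * 5 + j * r) (i * 2 + j * s)) :
    OutH 5 2 r s := by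
  by_cases hb : 40 ≤ 5 * s - 2 * r
  · refine mkH 5 2 r s (2) ((2 * r + 3 * s) / 8) (Or.inl ?_)
    unfold Tri; omega
  · interval_cases r
    · exfalso; omega
    · exfalso; omega
    · exfalso; omega
    · have hs1 : 9 ≤ s := by omega
      have hs2 : s ≤ 9 := by omega
      interval_cases s
      · exact mkH 5 2 3 9 (2) (4) (Or.inl (by decide))
    · exfalso; omega

theorem rowH_5_3 (r s : ℤ) (h0 : 0 ≤ r) (h1 : r < 5) (hN : 49 ≤ 5 * s - 3 * r) :
    OutH 5 3 r s := by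
  refine mkH 5 3 r s (3) (-((-9 * r + -5 * s) / 20)) (Or.inl ?_)
  unfold Tri; omega

theorem rowH_5_4 (r s : ℤ) (h0 : 0 ≤ r) (h1 : r < 5) (hN : 61 ≤ 5 * s - 4 * r) :
    OutH 5 4 r s := by
  refine mkH 5 4 r s (3) ((4 * r + 7 * s) / 16) (Or.inl ?_)
  unfold Tri; omega

theorem rowH_5_5 (r s : ℤ) (h0 : 0 ≤ r) (h1 : r < 5) (hN : 75 ≤ 5 * s - 5 * r) :
    OutH 5 5 r s := by
  refine mkH 5 5 r s (3) ((5 * r + 7 * s) / 20) (Or.inl ?_)
  unfold Tri; omega

theorem rowH_6_0 (r s : ℤ) (h0 : 0 ≤ r) (h1 : r < 6) (hN : 36 ≤ 6 * s - 0 * r) :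
    OutH 6 0 r s := by
  refine mkH 6 0 r s (2) (-((-8 * r + -6 * s) / 24)) (Or.inl ?_)
  unfold Tri; omega

theorem rowH_6_1 (r s : ℤ) (h0 : 0 ≤ r) (h1 : r < 6) (hN : 43 ≤ 6 * s - 1 * r) :
    OutH 6 1 r s := by
  refine mkH 6 1 r s (2) ((1 * r + 2 * s) / 4) (Or.inl ?_)
  unfold Tri; omega

theorem rowH_6_2 (r s : ℤ) (h0 : 0 ≤ r) (h1 : r < 6) (hN : 52 ≤ 6 * s - 2 * r) :
    OutH 6 2 r s := by
  refine mkH 6 2 r s (3) (-((-10 * r + -6 * s) / 24)) (Or.inl ?_)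
  unfold Tri; omega

theorem rowH_6_3 (r s : ℤ) (h0 : 0 ≤ r) (h1 : r < 6) (hN : 63 ≤ 6 * s - 3 * r) :
    OutH 6 3 r s := by
  refine mkH 6 3 r s (3) ((3 * r + 6 * s) / 12) (Or.inl ?_)
  unfold Tri; omega

theorem rowH_6_4 (r s : ℤ) (h0 : 0 ≤ r) (h1 : r < 6) (hN : 76 ≤ 6 * s - 4 * r) :
    OutH 6 4 r s := by
  refine mkH 6 4 r s (3) ((4 * r + 6 * s) / 16) (Or.inl ?_)
  unfold Tri; omega

theorem rowH_6_5 (r s : ℤ) (h0 : 0 ≤ r) (h1 : r < 6) (hN : 91 ≤ 6 * s - 5 * r) :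
    OutH 6 5 r s := by
  refine mkH 6 5 r s (4) ((5 * r + 10 * s) / 20) (Or.inl ?_)
  unfold Tri; omega

theorem rowH_6_6 (r s : ℤ) (h0 : 0 ≤ r) (h1 : r < 6) (hN : 108 ≤ 6 * s - 6 * r) :
    OutH 6 6 r s := by
  refine mkH 6 6 r s (4) ((6 * r + 10 * s) / 24) (Or.inl ?_)
  unfold Tri; omega

theorem rowH_7_0 (r s : ℤ) (h0 : 0 ≤ r) (h1 : r < 7) (hN : 49 ≤ 7 * s - 0 * r) :
    OutH 7 0 r s := by
  refine mkH 7 0 r s (2) (-((-8 * r + -7 * s) / 28)) (Or.inl ?_)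
  unfold Tri; omega

theorem rowH_7_1 (r s : ℤ) (h0 : 0 ≤ r) (h1 : r < 7) (hN : 57 ≤ 7 * s - 1 * r) :
    OutH 7 1 r s := by
  refine mkH 7 1 r s (-2) (-((9 * r + 1 * s) / 32)) (Or.inr (Or.inl ?_))
  unfold Tri; omega

theorem rowH_7_2 (r s : ℤ) (h0 : 0 ≤ r) (h1 : r < 7) (hN : 67 ≤ 7 * s - 2 * r) :
    OutH 7 2 r s := by
  refine mkH 7 2 r s (3) (-((-10 * r + -7 * s) / 28)) (Or.inl ?_)
  unfold Tri; omega

theorem rowH_7_3 (r s : ℤ) (h0 : 0 ≤ r) (h1 : r < 7) (hN : 79 ≤ 7 * s - 3 * r) :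
    OutH 7 3 r s := by
  refine mkH 7 3 r s (3) ((3 * r + 5 * s) / 12) (Or.inl ?_)
  unfold Tri; omega

theorem rowH_7_4 (r s : ℤ) (h0 : 0 ≤ r) (h1 : r < 7) (hN : 93 ≤ 7 * s - 4 * r) :
    OutH 7 4 r s := by
  refine mkH 7 4 r s (4) (-((-12 * r + -7 * s) / 28)) (Or.inl ?_)
  unfold Tri; omega

theorem rowH_7_5 (r s : ℤ) (h0 : 0 ≤ r) (h1 : r < 7) (hN : 109 ≤ 7 * s - 5 * r) :
    OutH 7 5 r s := by
  refine mkH 7 5 r s (4) ((5 * r + 9 * s) / 20) (Or.inl ?_)
  unfold Tri; omega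

theorem rowH_7_6 (r s : ℤ) (h0 : 0 ≤ r) (h1 : r < 7) (hN : 127 ≤ 7 * s - 6 * r) :
    OutH 7 6 r s := by
  refine mkH 7 6 r s (4) ((6 * r + 9 * s) / 24) (Or.inl ?_)
  unfold Tri; omega

theorem rowH_7_7 (r s : ℤ) (h0 : 0 ≤ r) (h1 : r < 7) (hN : 147 ≤ 7 * s - 7 * r) :
    OutH 7 7 r s := by
  refine mkH 7 7 r s (5) ((7 * r + 13 * s) / 28) (Or.inl ?_)
  unfold Tri; omega

/-- All the reduced lattices. -/
theorem arithH (p q r s : ℤ) (hq : 0 ≤ q) (hqp : q ≤ p) (hF : 7 ≤ qf 1 p q) (h0 : 0 ≤ r)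
    (h1 : r < p) (hN : qf 1 p q ≤ p * s - q * r)
    (hmin : ∀ i j : ℤ, (i * p + j * r, i * q + j * s) ≠ ((0, 0) : ℤ × ℤ) →
      qf 1 p q ≤ qf 1 (i * p + j * r) (i * q + j * s)) : OutH p q r s := by
  by_cases hp8 : 8 ≤ p
  · have hpp : p * p ≤ p * s - q * r := by
      refine le_trans ?_ hN
      unfold qf
      have : 0 ≤ p * q := mul_nonneg (by linarith) hq
      nlinarith
    obtain ⟨k1, k2, h⟩ := tri_large p q r s (by linarith) hq hqp (by nlinarith) (by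
      have h3 : p * p * (p - 4) ≤ (p * s - q * r) * (p - 4) :=
        mul_le_mul_of_nonneg_right hpp (by linarith)
      nlinarith)
    exact mkH p q r s k1 k2 (Or.inl h)
  · have hp0 : 0 ≤ p := by linarith
    push Not at hp8
    interval_cases p
    · interval_cases q
      · exact absurd hF (by decide)
    · interval_cases q
      · exact absurd hF (by decide)
      · exact absurd hF (by decide)
    · interval_cases q
      · exact absurd hF (by decide)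
      · exact rowH_2_1 r s h0 h1 hN hmin
      · exact rowH_2_2 r s h0 h1 hN hmin
    · interval_cases q
      · exact rowH_3_0 r s h0 h1 hN hmin
      · exact rowH_3_1 r s h0 h1 hN hmin
      · exact rowH_3_2 r s h0 h1 hN hmin
      · exact rowH_3_3 r s h0 h1 hN
    · interval_cases q
      · exact rowH_4_0 r s h0 h1 hN
      · exact rowH_4_1 r s h0 h1 hN hmin
      · exact rowH_4_2 r s h0 h1 hN
      · exact rowH_4_3 r s h0 h1 hN hmin
      · exact rowH_4_4 r s h0 h1 hN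
    · interval_cases q
      · exact rowH_5_0 r s h0 h1 hN hmin
      · exact rowH_5_1 r s h0 h1 hN
      · exact rowH_5_2 r s h0 h1 hN hmin
      · exact rowH_5_3 r s h0 h1 hN
      · exact rowH_5_4 r s h0 h1 hN
      · exact rowH_5_5 r s h0 h1 hN
    · interval_cases q
      · exact rowH_6_0 r s h0 h1 hN
      · exact rowH_6_1 r s h0 h1 hN
      · exact rowH_6_2 r s h0 h1 hN
      · exact rowH_6_3 r s h0 h1 hN
      · exact rowH_6_4 r s h0 h1 hN
      · exact rowH_6_5 r s h0 h1 hN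
      · exact rowH_6_6 r s h0 h1 hN
    · interval_cases q
      · exact rowH_7_0 r s h0 h1 hN
      · exact rowH_7_1 r s h0 h1 hN
      · exact rowH_7_2 r s h0 h1 hN
      · exact rowH_7_3 r s h0 h1 hN
      · exact rowH_7_4 r s h0 h1 hN
      · exact rowH_7_5 r s h0 h1 hN
      · exact rowH_7_6 r s h0 h1 hN
      · exact rowH_7_7 r s h0 h1 hN

end Run7.h236.HR
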