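import Pool.Agent.Run7.h236.HR3

/-!
The arithmetic of the characters: I-graphs.
-/

set_option autoImplicit false
set_option linter.unusedVariables false

namespace Run7.h236.HR

/-- The relations excluded by the girth. -/
def BadI (x y : ℤ) : Prop := (x, y) ≠ ((0, 0) : ℤ × ℤ) ∧
  ((y = 0 ∧ -4 ≤ x ∧ x ≤ 4) ∨ (x = 0 ∧ -4 ≤ y ∧ y ≤ 4) ∨ (x * x = 1 ∧ y * y = 1))

instance (x y : ℤ) : Decidable (BadI x y) := by unfold BadI; infer_instance

/-- The exceptional lattices. -/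
def ExcI (p q r s : ℤ) : Prop :=
  (p, q, r, s) ∈ ([(2, 1, 1, 3), (2, 2, 0, 5), (2, 2, 1, 6), (3, 1, 0, 5), (3, 1, 0, 6), (3, 1, 0, 9), (3, 1,
    1, 4), (3, 1, 1, 6), (3, 1, 1, 10), (3, 1, 1, 14), (3, 1, 2, 4), (3, 1, 2, 5), (3, 1, 2,
    8), (3, 1, 2, 9), (3, 1, 2, 12), (3, 2, 0, 6), (3, 2, 0, 11), (3, 2, 1, 5), (3, 2, 1, 7),
    (3, 2, 1, 9), (3, 2, 2, 7), (3, 2, 2, 10), (4, 1, 3, 5), (4, 3, 1, 7), (5, 0, 0, 5), (5,
    0, 2, 5), (5, 0, 3, 5)] : List (ℤ × ℤ × ℤ × ℤ))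

instance (p q r s : ℤ) : Decidable (ExcI p q r s) := by unfold ExcI; infer_instance

/-- A character in one of the triangles, or an exceptional lattice. -/
def OutI (p q r s : ℤ) : Prop :=
  (∃ U W : ℤ, (p * s - q * r) ∣ (p * U + q * W) ∧ (p * s - q * r) ∣ (r * U + s * W) ∧
    (Tri (p * s - q * r) U W ∨ Tri (p * s - q * r) (-U) W)) ∨ ExcI p q r s

theorem mkI (p q r s k1 k2 : ℤ)
    (h : Tri (p * s - q * r) (s * k1 - q * k2) (p * k2 - r * k1) ∨
      Tri (p * s - q * r) (-(s * k1 - q * k2)) (p * k2 - r * k1)) :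
    OutI p q r s :=
  Or.inl ⟨s * k1 - q * k2, p * k2 - r * k1, ⟨k1, by ring⟩, ⟨k2, by ring⟩, h⟩

theorem rowI_2_1 (r s : ℤ) (h0 : 0 ≤ r) (h1 : r < 2) (hN : 5 ≤ 2 * s - 1 * r)
    (hmin : ∀ i j : ℤ, ¬ BadI (i * 2 + j * r) (i * 1 + j * s))
    (hmin2 : ∀ i j : ℤ, (i * 2 + j * r, i * 1 + j * s) ≠ ((0, 0) : ℤ × ℤ) → 5 ≤ qf 0 (i * 2 + j * r) (i * 1 + j * s)) :
    OutI 2 1 r s := by
  by_cases hb : 8 ≤ 2 * s - 1 * r
  · refine mkI 2 1 r s (1) ((1 * r + 2 * s) / 4) (Or.inl ?_)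
    unfold Tri; omega
  · interval_cases r
    · have hs1 : 3 ≤ s := by omega
      have hs2 : s ≤ 3 := by omega
      interval_cases s
      · exact absurd (by decide) (hmin (0) (-1))
    · have hs1 : 3 ≤ s := by omega
      have hs2 : s ≤ 4 := by omega
      interval_cases s
      · exact Or.inr (by decide)
      · exact mkI 2 1 1 4 (1) (2) (Or.inl (by decide))

theorem rowI_2_2 (r s : ℤ) (h0 : 0 ≤ r) (h1 : r < 2) (hN : 7 ≤ 2 * s - 2 * r)
    (hmin : ∀ i j : ℤ, ¬ BadI (i * 2 + j * r) (i * 2 + j * s))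
    (hmin2 : ∀ i j : ℤ, (i * 2 + j * r, i * 2 + j * s) ≠ ((0, 0) : ℤ × ℤ) → 8 ≤ qf 0 (i * 2 + j * r) (i * 2 + j * s)) :
    OutI 2 2 r s := by
  by_cases hb : 16 ≤ 2 * s - 2 * r
  · refine mkI 2 2 r s (0) (-((2 * r + -2 * s) / 8)) (Or.inr ?_)
    unfold Tri; omega
  · interval_cases r
    · have hs1 : 4 ≤ s := by omega
      have hs2 : s ≤ 7 := by omega
      interval_cases s
      · exact absurd (by decide) (hmin (0) (-1))
      · exact Or.inr (by decide)
      · exact mkI 2 2 0 6 (0) (2) (Or.inr (by decide))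
      · exact mkI 2 2 0 7 (0) (2) (Or.inr (by decide))
    · have hs1 : 5 ≤ s := by omega
      have hs2 : s ≤ 8 := by omega
      interval_cases s
      · exact mkI 2 2 1 5 (0) (1) (Or.inr (by decide))
      · exact Or.inr (by decide)
      · exact mkI 2 2 1 7 (1) (2) (Or.inl (by decide))
      · exact mkI 2 2 1 8 (0) (2) (Or.inr (by decide))

theorem rowI_3_1 (r s : ℤ) (h0 : 0 ≤ r) (h1 : r < 3) (hN : 9 ≤ 3 * s - 1 * r)
    (hmin : ∀ i j : ℤ, ¬ BadI (i * 3 + j * r) (i * 1 + j * s))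
    (hmin2 : ∀ i j : ℤ, (i * 3 + j * r, i * 1 + j * s) ≠ ((0, 0) : ℤ × ℤ) → 10 ≤ qf 0 (i * 3 + j * r) (i * 1 + j * s)) :
    OutI 3 1 r s := by
  by_cases hb : 48 ≤ 3 * s - 1 * r
  · refine mkI 3 1 r s (-1) (-((5 * r + -3 * s) / 12)) (Or.inr ?_)
    unfold Tri; omega
  · interval_cases r
    · have hs1 : 3 ≤ s := by omega
      have hs2 : s ≤ 15 := by omega
      interval_cases s
      · exact absurd (by decide) (hmin (0) (-1))
      · exact absurd (by decide) (hmin (0) (-1))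
      · exact Or.inr (by decide)
      · exact Or.inr (by decide)
      · exact mkI 3 1 0 7 (-1) (2) (Or.inr (by decide))
      · exact mkI 3 1 0 8 (1) (2) (Or.inl (by decide))
      · exact Or.inr (by decide)
      · exact mkI 3 1 0 10 (-1) (3) (Or.inr (by decide))
      · exact mkI 3 1 0 11 (-1) (3) (Or.inr (by decide))
      · exact mkI 3 1 0 12 (1) (3) (Or.inl (by decide))
      · exact mkI 3 1 0 13 (-1) (4) (Or.inr (by decide))
      · exact mkI 3 1 0 14 (-1) (4) (Or.inr (by decide))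
      · exact mkI 3 1 0 15 (-1) (4) (Or.inr (by decide))
    · have hs1 : 4 ≤ s := by omega
      have hs2 : s ≤ 16 := by omega
      interval_cases s
      · exact Or.inr (by decide)
      · exact mkI 3 1 1 5 (-1) (1) (Or.inr (by decide))
      · exact Or.inr (by decide)
      · exact mkI 3 1 1 7 (1) (2) (Or.inl (by decide))
      · exact mkI 3 1 1 8 (-1) (2) (Or.inr (by decide))
      · exact mkI 3 1 1 9 (-1) (2) (Or.inr (by decide))
      · exact Or.inr (by decide)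
      · exact mkI 3 1 1 11 (1) (3) (Or.inl (by decide))
      · exact mkI 3 1 1 12 (-1) (3) (Or.inr (by decide))
      · exact mkI 3 1 1 13 (-1) (3) (Or.inr (by decide))
      · exact Or.inr (by decide)
      · exact mkI 3 1 1 15 (1) (4) (Or.inl (by decide))
      · exact mkI 3 1 1 16 (-1) (4) (Or.inr (by decide))
    · have hs1 : 4 ≤ s := by omega
      have hs2 : s ≤ 16 := by omega
      interval_cases s
      · exact Or.inr (by decide)
      · exact Or.inr (by decide)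
      · exact mkI 3 1 2 6 (1) (2) (Or.inl (by decide))
      · exact mkI 3 1 2 7 (-1) (1) (Or.inr (by decide))
      · exact Or.inr (by decide)
      · exact Or.inr (by decide)
      · exact mkI 3 1 2 10 (1) (3) (Or.inl (by decide))
      · exact mkI 3 1 2 11 (-1) (2) (Or.inr (by decide))
      · exact Or.inr (by decide)
      · exact mkI 3 1 2 13 (-1) (3) (Or.inr (by decide))
      · exact mkI 3 1 2 14 (1) (4) (Or.inl (by decide))
      · exact mkI 3 1 2 15 (-1) (3) (Or.inr (by decide))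
      · exact mkI 3 1 2 16 (-1) (4) (Or.inr (by decide))

theorem rowI_3_2 (r s : ℤ) (h0 : 0 ≤ r) (h1 : r < 3) (hN : 12 ≤ 3 * s - 2 * r)
    (hmin : ∀ i j : ℤ, ¬ BadI (i * 3 + j * r) (i * 2 + j * s))
    (hmin2 : ∀ i j : ℤ, (i * 3 + j * r, i * 2 + j * s) ≠ ((0, 0) : ℤ × ℤ) → 13 ≤ qf 0 (i * 3 + j * r) (i * 2 + j * s)) :
    OutI 3 2 r s := by
  by_cases hb : 40 ≤ 3 * s - 2 * r
  · refine mkI 3 2 r s (0) (-((2 * r + -3 * s) / 8)) (Or.inr ?_)
    unfold Tri; omega
  · interval_cases r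
    · have hs1 : 4 ≤ s := by omega
      have hs2 : s ≤ 13 := by omega
      interval_cases s
      · exact absurd (by decide) (hmin (0) (-1))
      · exact mkI 3 2 0 5 (0) (2) (Or.inr (by decide))
      · exact Or.inr (by decide)
      · exact mkI 3 2 0 7 (0) (3) (Or.inr (by decide))
      · exact mkI 3 2 0 8 (2) (2) (Or.inl (by decide))
      · exact mkI 3 2 0 9 (0) (4) (Or.inr (by decide))
      · exact mkI 3 2 0 10 (0) (4) (Or.inr (by decide))
      · exact Or.inr (by decide)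
      · exact mkI 3 2 0 12 (2) (3) (Or.inl (by decide))
      · exact mkI 3 2 0 13 (0) (5) (Or.inr (by decide))
    · have hs1 : 5 ≤ s := by omega
      have hs2 : s ≤ 13 := by omega
      interval_cases s
      · exact Or.inr (by decide)
      · exact mkI 3 2 1 6 (2) (2) (Or.inl (by decide))
      · exact Or.inr (by decide)
      · exact mkI 3 2 1 8 (0) (3) (Or.inr (by decide))
      · exact Or.inr (by decide)
      · exact mkI 3 2 1 10 (2) (3) (Or.inl (by decide))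
      · exact mkI 3 2 1 11 (0) (4) (Or.inr (by decide))
      · exact mkI 3 2 1 12 (0) (5) (Or.inr (by decide))
      · exact mkI 3 2 1 13 (0) (5) (Or.inr (by decide))
    · have hs1 : 6 ≤ s := by omega
      have hs2 : s ≤ 14 := by omega
      interval_cases s
      · exact mkI 3 2 2 6 (0) (2) (Or.inr (by decide))
      · exact Or.inr (by decide)
      · exact mkI 3 2 2 8 (2) (3) (Or.inl (by decide))
      · exact mkI 3 2 2 9 (0) (3) (Or.inr (by decide))
      · exact Or.inr (by decide)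
      · exact mkI 3 2 2 11 (0) (4) (Or.inr (by decide))
      · exact mkI 3 2 2 12 (2) (4) (Or.inl (by decide))
      · exact mkI 3 2 2 13 (0) (5) (Or.inr (by decide))
      · exact mkI 3 2 2 14 (0) (5) (Or.inr (by decide))

theorem rowI_3_3 (r s : ℤ) (h0 : 0 ≤ r) (h1 : r < 3) (hN : 16 ≤ 3 * s - 3 * r)
    (hmin : ∀ i j : ℤ, ¬ BadI (i * 3 + j * r) (i * 3 + j * s))
    (hmin2 : ∀ i j : ℤ, (i * 3 + j * r, i * 3 + j * s) ≠ ((0, 0) : ℤ × ℤ) → 18 ≤ qf 0 (i * 3 + j * r) (i * 3 + j * s)) :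
    OutI 3 3 r s := by
  by_cases hb : 18 ≤ 3 * s - 3 * r
  · refine mkI 3 3 r s (2) ((3 * r + 5 * s) / 12) (Or.inl ?_)
    unfold Tri; omega
  · interval_cases r
    · exfalso; omega
    · exfalso; omega
    · exfalso; omega

theorem rowI_4_1 (r s : ℤ) (h0 : 0 ≤ r) (h1 : r < 4) (hN : 15 ≤ 4 * s - 1 * r)
    (hmin : ∀ i j : ℤ, ¬ BadI (i * 4 + j * r) (i * 1 + j * s))
    (hmin2 : ∀ i j : ℤ, (i * 4 + j * r, i * 1 + j * s) ≠ ((0, 0) : ℤ × ℤ) → 17 ≤ qf 0 (i * 4 + j * r) (i * 1 + j * s)) :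
    OutI 4 1 r s := by
  by_cases hb : 27 ≤ 4 * s - 1 * r
  · refine mkI 4 1 r s (-1) (-((5 * r + -4 * s) / 16)) (Or.inr ?_)
    unfold Tri; omega
  · interval_cases r
    · have hs1 : 4 ≤ s := by omega
      have hs2 : s ≤ 6 := by omega
      interval_cases s
      · exact absurd (by decide) (hmin (0) (-1))
      · exact mkI 4 1 0 5 (-1) (2) (Or.inr (by decide))
      · exact mkI 4 1 0 6 (2) (2) (Or.inl (by decide))
    · have hs1 : 4 ≤ s := by omega
      have hs2 : s ≤ 6 := by omega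
      interval_cases s
      · exact mkI 4 1 1 4 (-1) (1) (Or.inr (by decide))
      · exact mkI 4 1 1 5 (2) (2) (Or.inl (by decide))
      · exact mkI 4 1 1 6 (2) (2) (Or.inl (by decide))
    · have hs1 : 5 ≤ s := by omega
      have hs2 : s ≤ 7 := by omega
      interval_cases s
      · exact mkI 4 1 2 5 (-1) (1) (Or.inr (by decide))
      · exact mkI 4 1 2 6 (-1) (1) (Or.inr (by decide))
      · exact mkI 4 1 2 7 (2) (3) (Or.inl (by decide))
    · have hs1 : 5 ≤ s := by omega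
      have hs2 : s ≤ 7 := by omega
      interval_cases s
      · exact Or.inr (by decide)
      · exact mkI 4 1 3 6 (2) (3) (Or.inl (by decide))
      · exact mkI 4 1 3 7 (-1) (1) (Or.inr (by decide))

theorem rowI_4_2 (r s : ℤ) (h0 : 0 ≤ r) (h1 : r < 4) (hN : 18 ≤ 4 * s - 2 * r) :
    OutI 4 2 r s := by
  refine mkI 4 2 r s (2) ((2 * r + 4 * s) / 8) (Or.inl ?_)
  unfold Tri; omega

theorem rowI_4_3 (r s : ℤ) (h0 : 0 ≤ r) (h1 : r < 4) (hN : 22 ≤ 4 * s - 3 * r)
    (hmin : ∀ i j : ℤ, ¬ BadI (i * 4 + j * r) (i * 3 + j * s))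
    (hmin2 : ∀ i j : ℤ, (i * 4 + j * r, i * 3 + j * s) ≠ ((0, 0) : ℤ × ℤ) → 25 ≤ qf 0 (i * 4 + j * r) (i * 3 + j * s)) :
    OutI 4 3 r s := by
  by_cases hb : 42 ≤ 4 * s - 3 * r
  · refine mkI 4 3 r s (0) (-((3 * r + -4 * s) / 12)) (Or.inr ?_)
    unfold Tri; omega
  · interval_cases r
    · have hs1 : 6 ≤ s := by omega
      have hs2 : s ≤ 10 := by omega
      interval_cases s
      · exact mkI 4 3 0 6 (2) (2) (Or.inl (by decide))
      · exact mkI 4 3 0 7 (2) (2) (Or.inl (by decide))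
      · exact mkI 4 3 0 8 (2) (2) (Or.inl (by decide))
      · exact mkI 4 3 0 9 (2) (3) (Or.inl (by decide))
      · exact mkI 4 3 0 10 (2) (3) (Or.inl (by decide))
    · have hs1 : 7 ≤ s := by omega
      have hs2 : s ≤ 11 := by omega
      interval_cases s
      · exact Or.inr (by decide)
      · exact mkI 4 3 1 8 (0) (3) (Or.inr (by decide))
      · exact mkI 4 3 1 9 (2) (3) (Or.inl (by decide))
      · exact mkI 4 3 1 10 (2) (3) (Or.inl (by decide))
      · exact mkI 4 3 1 11 (0) (4) (Or.inr (by decide))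
    · have hs1 : 7 ≤ s := by omega
      have hs2 : s ≤ 11 := by omega
      interval_cases s
      · exact absurd (hmin2 (-1) (1) (by decide)) (by decide)
      · exact mkI 4 3 2 8 (2) (3) (Or.inl (by decide))
      · exact mkI 4 3 2 9 (2) (3) (Or.inl (by decide))
      · exact mkI 4 3 2 10 (0) (3) (Or.inr (by decide))
      · exact mkI 4 3 2 11 (2) (4) (Or.inl (by decide))
    · have hs1 : 8 ≤ s := by omega
      have hs2 : s ≤ 12 := by omega
      interval_cases s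
      · exact mkI 4 3 3 8 (2) (3) (Or.inl (by decide))
      · exact mkI 4 3 3 9 (-1) (1) (Or.inr (by decide))
      · exact mkI 4 3 3 10 (2) (4) (Or.inl (by decide))
      · exact mkI 4 3 3 11 (2) (4) (Or.inl (by decide))
      · exact mkI 4 3 3 12 (2) (4) (Or.inl (by decide))

theorem rowI_4_4 (r s : ℤ) (h0 : 0 ≤ r) (h1 : r < 4) (hN : 28 ≤ 4 * s - 4 * r) :
    OutI 4 4 r s := by
  refine mkI 4 4 r s (3) ((4 * r + 8 * s) / 16) (Or.inl ?_)
  unfold Tri; omega

theorem rowI_5_0 (r s : ℤ) (h0 : 0 ≤ r) (h1 : r < 5) (hN : 22 ≤ 5 * s - 0 * r)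
    (hmin : ∀ i j : ℤ, ¬ BadI (i * 5 + j * r) (i * 0 + j * s))
    (hmin2 : ∀ i j : ℤ, (i * 5 + j * r, i * 0 + j * s) ≠ ((0, 0) : ℤ × ℤ) → 25 ≤ qf 0 (i * 5 + j * r) (i * 0 + j * s)) :
    OutI 5 0 r s := by
  by_cases hb : 50 ≤ 5 * s - 0 * r
  · refine mkI 5 0 r s (2) (-((-8 * r + -5 * s) / 20)) (Or.inl ?_)
    unfold Tri; omega
  · interval_cases r
    · have hs1 : 5 ≤ s := by omega
      have hs2 : s ≤ 9 := by omega
      interval_cases s
      · exact Or.inr (by decide)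
      · exact mkI 5 0 0 6 (2) (2) (Or.inl (by decide))
      · exact mkI 5 0 0 7 (2) (2) (Or.inl (by decide))
      · exact mkI 5 0 0 8 (2) (2) (Or.inl (by decide))
      · exact mkI 5 0 0 9 (2) (3) (Or.inl (by decide))
    · have hs1 : 5 ≤ s := by omega
      have hs2 : s ≤ 9 := by omega
      interval_cases s
      · exact mkI 5 0 1 5 (2) (2) (Or.inl (by decide))
      · exact mkI 5 0 1 6 (2) (2) (Or.inl (by decide))
      · exact mkI 5 0 1 7 (-2) (2) (Or.inr (by decide))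
      · exact mkI 5 0 1 8 (2) (3) (Or.inl (by decide))
      · exact mkI 5 0 1 9 (2) (3) (Or.inl (by decide))
    · have hs1 : 5 ≤ s := by omega
      have hs2 : s ≤ 9 := by omega
      interval_cases s
      · exact Or.inr (by decide)
      · exact mkI 5 0 2 6 (-2) (1) (Or.inr (by decide))
      · exact mkI 5 0 2 7 (2) (3) (Or.inl (by decide))
      · exact mkI 5 0 2 8 (2) (3) (Or.inl (by decide))
      · exact mkI 5 0 2 9 (-2) (2) (Or.inr (by decide))
    · have hs1 : 5 ≤ s := by omega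
      have hs2 : s ≤ 9 := by omega
      interval_cases s
      · exact Or.inr (by decide)
      · exact mkI 5 0 3 6 (2) (3) (Or.inl (by decide))
      · exact mkI 5 0 3 7 (2) (3) (Or.inl (by decide))
      · exact mkI 5 0 3 8 (2) (4) (Or.inl (by decide))
      · exact mkI 5 0 3 9 (2) (4) (Or.inl (by decide))
    · have hs1 : 5 ≤ s := by omega
      have hs2 : s ≤ 9 := by omega
      interval_cases s
      · exact mkI 5 0 4 5 (2) (3) (Or.inl (by decide))
      · exact mkI 5 0 4 6 (-2) (0) (Or.inr (by decide))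
      · exact mkI 5 0 4 7 (2) (4) (Or.inl (by decide))
      · exact mkI 5 0 4 8 (2) (4) (Or.inl (by decide))
      · exact mkI 5 0 4 9 (2) (4) (Or.inl (by decide))

theorem rowI_5_1 (r s : ℤ) (h0 : 0 ≤ r) (h1 : r < 5) (hN : 23 ≤ 5 * s - 1 * r)
    (hmin : ∀ i j : ℤ, ¬ BadI (i * 5 + j * r) (i * 1 + j * s))
    (hmin2 : ∀ i j : ℤ, (i * 5 + j * r, i * 1 + j * s) ≠ ((0, 0) : ℤ × ℤ) → 26 ≤ qf 0 (i * 5 + j * r) (i * 1 + j * s)) :
    OutI 5 1 r s := by
  by_cases hb : 24 ≤ 5 * s - 1 * r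
  · refine mkI 5 1 r s (-1) (-((1 * r + -1 * s) / 4)) (Or.inr ?_)
    unfold Tri; omega
  · interval_cases r
    · exfalso; omega
    · exfalso; omega
    · have hs1 : 5 ≤ s := by omega
      have hs2 : s ≤ 5 := by omega
      interval_cases s
      · exact absurd (hmin2 (-1) (1) (by decide)) (by decide)
    · exfalso; omega
    · exfalso; omega

theorem rowI_5_2 (r s : ℤ) (h0 : 0 ≤ r) (h1 : r < 5) (hN : 26 ≤ 5 * s - 2 * r)
    (hmin : ∀ i j : ℤ, ¬ BadI (i * 5 + j * r) (i * 2 + j * s))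
    (hmin2 : ∀ i j : ℤ, (i * 5 + j * r, i * 2 + j * s) ≠ ((0, 0) : ℤ × ℤ) → 29 ≤ qf 0 (i * 5 + j * r) (i * 2 + j * s)) :
    OutI 5 2 r s := by
  by_cases hb : 35 ≤ 5 * s - 2 * r
  · refine mkI 5 2 r s (-1) (-((6 * r + -5 * s) / 20)) (Or.inr ?_)
    unfold Tri; omega
  · interval_cases r
    · have hs1 : 6 ≤ s := by omega
      have hs2 : s ≤ 6 := by omega
      interval_cases s
      · exact mkI 5 2 0 6 (2) (2) (Or.inl (by decide))
    · have hs1 : 6 ≤ s := by omega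
      have hs2 : s ≤ 7 := by omega
      interval_cases s
      · exact mkI 5 2 1 6 (2) (2) (Or.inl (by decide))
      · exact mkI 5 2 1 7 (-1) (2) (Or.inr (by decide))
    · have hs1 : 6 ≤ s := by omega
      have hs2 : s ≤ 7 := by omega
      interval_cases s
      · exact absurd (hmin2 (-1) (1) (by decide)) (by decide)
      · exact mkI 5 2 2 7 (2) (3) (Or.inl (by decide))
    · have hs1 : 7 ≤ s := by omega
      have hs2 : s ≤ 8 := by omega
      interval_cases s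
      · exact mkI 5 2 3 7 (2) (3) (Or.inl (by decide))
      · exact mkI 5 2 3 8 (2) (3) (Or.inl (by decide))
    · have hs1 : 7 ≤ s := by omega
      have hs2 : s ≤ 8 := by omega
      interval_cases s
      · exact absurd (hmin2 (-1) (1) (by decide)) (by decide)
      · exact mkI 5 2 4 8 (2) (4) (Or.inl (by decide))

theorem rowI_5_3 (r s : ℤ) (h0 : 0 ≤ r) (h1 : r < 5) (hN : 30 ≤ 5 * s - 3 * r)
    (hmin : ∀ i j : ℤ, ¬ BadI (i * 5 + j * r) (i * 3 + j * s))
    (hmin2 : ∀ i j : ℤ, (i * 5 + j * r, i * 3 + j * s) ≠ ((0, 0) : ℤ × ℤ) → 34 ≤ qf 0 (i * 5 + j * r) (i * 3 + j * s)) :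
    OutI 5 3 r s := by
  by_cases hb : 40 ≤ 5 * s - 3 * r
  · refine mkI 5 3 r s (3) (-((-9 * r + -5 * s) / 20)) (Or.inl ?_)
    unfold Tri; omega
  · interval_cases r
    · have hs1 : 6 ≤ s := by omega
      have hs2 : s ≤ 7 := by omega
      interval_cases s
      · exact mkI 5 3 0 6 (3) (2) (Or.inl (by decide))
      · exact mkI 5 3 0 7 (3) (2) (Or.inl (by decide))
    · have hs1 : 7 ≤ s := by omega
      have hs2 : s ≤ 8 := by omega
      interval_cases s
      · exact absurd (hmin2 (-1) (1) (by decide)) (by decide)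
      · exact mkI 5 3 1 8 (3) (3) (Or.inl (by decide))
    · have hs1 : 8 ≤ s := by omega
      have hs2 : s ≤ 9 := by omega
      interval_cases s
      · exact mkI 5 3 2 8 (3) (3) (Or.inl (by decide))
      · exact mkI 5 3 2 9 (3) (4) (Or.inl (by decide))
    · have hs1 : 8 ≤ s := by omega
      have hs2 : s ≤ 9 := by omega
      interval_cases s
      · exact absurd (hmin2 (-1) (1) (by decide)) (by decide)
      · exact mkI 5 3 3 9 (2) (3) (Or.inl (by decide))
    · have hs1 : 9 ≤ s := by omega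
      have hs2 : s ≤ 10 := by omega
      interval_cases s
      · exact mkI 5 3 4 9 (-1) (1) (Or.inr (by decide))
      · exact mkI 5 3 4 10 (3) (5) (Or.inl (by decide))

theorem rowI_5_4 (r s : ℤ) (h0 : 0 ≤ r) (h1 : r < 5) (hN : 36 ≤ 5 * s - 4 * r) :
    OutI 5 4 r s := by
  refine mkI 5 4 r s (3) ((4 * r + 7 * s) / 16) (Or.inl ?_)
  unfold Tri; omega

theorem rowI_5_5 (r s : ℤ) (h0 : 0 ≤ r) (h1 : r < 5) (hN : 44 ≤ 5 * s - 5 * r) :
    OutI 5 5 r s := by
  refine mkI 5 5 r s (0) (-((5 * r + -5 * s) / 20)) (Or.inr ?_)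
  unfold Tri; omega

theorem rowI_6_0 (r s : ℤ) (h0 : 0 ≤ r) (h1 : r < 6) (hN : 32 ≤ 6 * s - 0 * r)
    (hmin : ∀ i j : ℤ, ¬ BadI (i * 6 + j * r) (i * 0 + j * s))
    (hmin2 : ∀ i j : ℤ, (i * 6 + j * r, i * 0 + j * s) ≠ ((0, 0) : ℤ × ℤ) → 36 ≤ qf 0 (i * 6 + j * r) (i * 0 + j * s)) :
    OutI 6 0 r s := by
  by_cases hb : 36 ≤ 6 * s - 0 * r
  · refine mkI 6 0 r s (2) (-((-8 * r + -6 * s) / 24)) (Or.inl ?_)
    unfold Tri; omega
  · interval_cases r
    · exfalso; omega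
    · exfalso; omega
    · exfalso; omega
    · exfalso; omega
    · exfalso; omega
    · exfalso; omega

theorem rowI_6_1 (r s : ℤ) (h0 : 0 ≤ r) (h1 : r < 6) (hN : 33 ≤ 6 * s - 1 * r) :
    OutI 6 1 r s := by
  refine mkI 6 1 r s (2) ((1 * r + 2 * s) / 4) (Or.inl ?_)
  unfold Tri; omega

theorem rowI_6_2 (r s : ℤ) (h0 : 0 ≤ r) (h1 : r < 6) (hN : 35 ≤ 6 * s - 2 * r) :
    OutI 6 2 r s := by
  refine mkI 6 2 r s (-1) (-((2 * r + -2 * s) / 8)) (Or.inr ?_)
  unfold Tri; omega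

theorem rowI_6_3 (r s : ℤ) (h0 : 0 ≤ r) (h1 : r < 6) (hN : 39 ≤ 6 * s - 3 * r) :
    OutI 6 3 r s := by
  refine mkI 6 3 r s (3) ((3 * r + 6 * s) / 12) (Or.inl ?_)
  unfold Tri; omega

theorem rowI_6_4 (r s : ℤ) (h0 : 0 ≤ r) (h1 : r < 6) (hN : 46 ≤ 6 * s - 4 * r)
    (hmin : ∀ i j : ℤ, ¬ BadI (i * 6 + j * r) (i * 4 + j * s))
    (hmin2 : ∀ i j : ℤ, (i * 6 + j * r, i * 4 + j * s) ≠ ((0, 0) : ℤ × ℤ) → 52 ≤ qf 0 (i * 6 + j * r) (i * 4 + j * s)) :
    OutI 6 4 r s := by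
  by_cases hb : 48 ≤ 6 * s - 4 * r
  · refine mkI 6 4 r s (3) ((4 * r + 6 * s) / 16) (Or.inl ?_)
    unfold Tri; omega
  · interval_cases r
    · exfalso; omega
    · exfalso; omega
    · have hs1 : 9 ≤ s := by omega
      have hs2 : s ≤ 9 := by omega
      interval_cases s
      · exact absurd (hmin2 (-1) (1) (by decide)) (by decide)
    · exfalso; omega
    · exfalso; omega
    · have hs1 : 11 ≤ s := by omega
      have hs2 : s ≤ 11 := by omega
      interval_cases s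
      · exact absurd (hmin2 (-1) (1) (by decide)) (by decide)

theorem rowI_6_5 (r s : ℤ) (h0 : 0 ≤ r) (h1 : r < 6) (hN : 53 ≤ 6 * s - 5 * r) :
    OutI 6 5 r s := by
  refine mkI 6 5 r s (4) ((5 * r + 10 * s) / 20) (Or.inl ?_)
  unfold Tri; omega

theorem rowI_6_6 (r s : ℤ) (h0 : 0 ≤ r) (h1 : r < 6) (hN : 63 ≤ 6 * s - 6 * r) :
    OutI 6 6 r s := by
  refine mkI 6 6 r s (4) ((6 * r + 10 * s) / 24) (Or.inl ?_)
  unfold Tri; omega

theorem rowI_7_0 (r s : ℤ) (h0 : 0 ≤ r) (h1 : r < 7) (hN : 43 ≤ 7 * s - 0 * r) :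
    OutI 7 0 r s := by
  refine mkI 7 0 r s (2) (-((-8 * r + -7 * s) / 28)) (Or.inl ?_)
  unfold Tri; omega

theorem rowI_7_1 (r s : ℤ) (h0 : 0 ≤ r) (h1 : r < 7) (hN : 44 ≤ 7 * s - 1 * r)
    (hmin : ∀ i j : ℤ, ¬ BadI (i * 7 + j * r) (i * 1 + j * s))
    (hmin2 : ∀ i j : ℤ, (i * 7 + j * r, i * 1 + j * s) ≠ ((0, 0) : ℤ × ℤ) → 50 ≤ qf 0 (i * 7 + j * r) (i * 1 + j * s)) :
    OutI 7 1 r s := by
  by_cases hb : 45 ≤ 7 * s - 1 * r
  · refine mkI 7 1 r s (-2) (-((9 * r + -7 * s) / 28)) (Or.inr ?_)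
    unfold Tri; omega
  · interval_cases r
    · exfalso; omega
    · exfalso; omega
    · exfalso; omega
    · exfalso; omega
    · exfalso; omega
    · have hs1 : 7 ≤ s := by omega
      have hs2 : s ≤ 7 := by omega
      interval_cases s
      · exact absurd (hmin2 (-1) (1) (by decide)) (by decide)
    · exfalso; omega

theorem rowI_7_2 (r s : ℤ) (h0 : 0 ≤ r) (h1 : r < 7) (hN : 46 ≤ 7 * s - 2 * r) :
    OutI 7 2 r s := by
  refine mkI 7 2 r s (3) (-((-10 * r + -7 * s) / 28)) (Or.inl ?_)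
  unfold Tri; omega

theorem rowI_7_3 (r s : ℤ) (h0 : 0 ≤ r) (h1 : r < 7) (hN : 51 ≤ 7 * s - 3 * r) :
    OutI 7 3 r s := by
  refine mkI 7 3 r s (-1) (-((3 * r + -3 * s) / 12)) (Or.inr ?_)
  unfold Tri; omega

theorem rowI_7_4 (r s : ℤ) (h0 : 0 ≤ r) (h1 : r < 7) (hN : 57 ≤ 7 * s - 4 * r) :
    OutI 7 4 r s := by
  refine mkI 7 4 r s (4) (-((-12 * r + -7 * s) / 28)) (Or.inl ?_)
  unfold Tri; omega

theorem rowI_7_5 (r s : ℤ) (h0 : 0 ≤ r) (h1 : r < 7) (hN : 65 ≤ 7 * s - 5 * r) :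
    OutI 7 5 r s := by
  refine mkI 7 5 r s (4) ((5 * r + 9 * s) / 20) (Or.inl ?_)
  unfold Tri; omega

theorem rowI_7_6 (r s : ℤ) (h0 : 0 ≤ r) (h1 : r < 7) (hN : 74 ≤ 7 * s - 6 * r) :
    OutI 7 6 r s := by
  refine mkI 7 6 r s (4) ((6 * r + 9 * s) / 24) (Or.inl ?_)
  unfold Tri; omega

theorem rowI_7_7 (r s : ℤ) (h0 : 0 ≤ r) (h1 : r < 7) (hN : 85 ≤ 7 * s - 7 * r) :
    OutI 7 7 r s := by
  refine mkI 7 7 r s (5) ((7 * r + 13 * s) / 28) (Or.inl ?_)
  unfold Tri; omega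

theorem rowI_8_0 (r s : ℤ) (h0 : 0 ≤ r) (h1 : r < 8) (hN : 56 ≤ 8 * s - 0 * r) :
    OutI 8 0 r s := by
  refine mkI 8 0 r s (2) (-((-8 * r + -8 * s) / 32)) (Or.inl ?_)
  unfold Tri; omega

theorem rowI_8_1 (r s : ℤ) (h0 : 0 ≤ r) (h1 : r < 8) (hN : 57 ≤ 8 * s - 1 * r) :
    OutI 8 1 r s := by
  refine mkI 8 1 r s (-2) (-((9 * r + -8 * s) / 32)) (Or.inr ?_)
  unfold Tri; omega

theorem rowI_8_2 (r s : ℤ) (h0 : 0 ≤ r) (h1 : r < 8) (hN : 59 ≤ 8 * s - 2 * r) :
    OutI 8 2 r s := by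
  refine mkI 8 2 r s (3) ((2 * r + 4 * s) / 8) (Or.inl ?_)
  unfold Tri; omega

theorem rowI_8_3 (r s : ℤ) (h0 : 0 ≤ r) (h1 : r < 8) (hN : 64 ≤ 8 * s - 3 * r) :
    OutI 8 3 r s := by
  refine mkI 8 3 r s (4) (-((-13 * r + -8 * s) / 32)) (Or.inl ?_)
  unfold Tri; omega

theorem rowI_8_4 (r s : ℤ) (h0 : 0 ≤ r) (h1 : r < 8) (hN : 70 ≤ 8 * s - 4 * r) :
    OutI 8 4 r s := by
  refine mkI 8 4 r s (4) ((4 * r + 8 * s) / 16) (Or.inl ?_)
  unfold Tri; omega

theorem rowI_8_5 (r s : ℤ) (h0 : 0 ≤ r) (h1 : r < 8) (hN : 78 ≤ 8 * s - 5 * r) :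
    OutI 8 5 r s := by
  refine mkI 8 5 r s (4) ((5 * r + 8 * s) / 20) (Or.inl ?_)
  unfold Tri; omega

theorem rowI_8_6 (r s : ℤ) (h0 : 0 ≤ r) (h1 : r < 8) (hN : 87 ≤ 8 * s - 6 * r) :
    OutI 8 6 r s := by
  refine mkI 8 6 r s (5) ((6 * r + 12 * s) / 24) (Or.inl ?_)
  unfold Tri; omega

theorem rowI_8_7 (r s : ℤ) (h0 : 0 ≤ r) (h1 : r < 8) (hN : 98 ≤ 8 * s - 7 * r) :
    OutI 8 7 r s := by
  refine mkI 8 7 r s (5) ((7 * r + 12 * s) / 28) (Or.inl ?_)
  unfold Tri; omega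

theorem rowI_8_8 (r s : ℤ) (h0 : 0 ≤ r) (h1 : r < 8) (hN : 111 ≤ 8 * s - 8 * r) :
    OutI 8 8 r s := by
  refine mkI 8 8 r s (6) ((8 * r + 16 * s) / 32) (Or.inl ?_)
  unfold Tri; omega

/-- All the reduced lattices. -/
theorem arithI (p q r s : ℤ) (hq : 0 ≤ q) (hqp : q ≤ p) (hF : ¬ BadI p q) (hne : p ≠ 0) (h0 : 0 ≤ r)
    (h1 : r < p) (hN0 : 0 < p * s - q * r)
    (hN : 3 * qf 0 p q ^ 2 ≤ 4 * (p * s - q * r) ^ 2)
    (hmin : ∀ i j : ℤ, ¬ BadI (i * p + j * r) (i * q + j * s))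
    (hmin2 : ∀ i j : ℤ, (i * p + j * r, i * q + j * s) ≠ ((0, 0) : ℤ × ℤ) →
      qf 0 p q ≤ qf 0 (i * p + j * r) (i * q + j * s)) : OutI p q r s := by
  have key : ∀ a b : ℤ, 0 < a → 4 * (b - 1) ^ 2 < 3 * a ^ 2 → qf 0 p q = a →
      b ≤ p * s - q * r := by
    intro a b ha hab hqf
    rw [hqf] at hN
    by_contra hcon
    push Not at hcon
    have : (p * s - q * r) ^ 2 ≤ (b - 1) ^ 2 := by
      apply pow_le_pow_left₀ hN0.le; linarith
    linarith
  by_cases hp8 : 9 ≤ p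
  · have hpp : p * p ≤ qf 0 p q := by unfold qf; nlinarith
    have h5 : 3 * (p * p) ^ 2 ≤ 4 * (p * s - q * r) ^ 2 := by
      have : (p * p) ^ 2 ≤ qf 0 p q ^ 2 := pow_le_pow_left₀ (by positivity) hpp 2
      linarith
    have h6 : 6 * (p * p) ≤ 7 * (p * s - q * r) := by
      by_contra hcon
      push Not at hcon
      have h7 : (7 * (p * s - q * r)) ^ 2 ≤ (6 * (p * p)) ^ 2 :=
        pow_le_pow_left₀ (by positivity) hcon.le 2
      have h8 : 0 < (p * p) ^ 2 := by positivity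
      nlinarith
    obtain ⟨k1, k2, h⟩ := tri_large p q r s (by linarith) hq hqp hN0 (by
      have h3 : 6 * (p * p) * (p - 4) ≤ 7 * (p * s - q * r) * (p - 4) :=
        mul_le_mul_of_nonneg_right h6 (by linarith)
      nlinarith)
    exact mkI p q r s k1 k2 (Or.inl h)
  · have hp0 : 0 ≤ p := by linarith
    push Not at hp8
    interval_cases p
    · interval_cases q
      · exact absurd rfl hne
    · interval_cases q
      · exact absurd (by decide) hF
      · exact absurd (by decide) hF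
    · interval_cases q
      · exact absurd (by decide) hF
      · exact rowI_2_1 r s h0 h1 (key 5 5 (by norm_num) (by norm_num) (by decide)) hmin hmin2
      · exact rowI_2_2 r s h0 h1 (key 8 7 (by norm_num) (by norm_num) (by decide)) hmin hmin2
    · interval_cases q
      · exact absurd (by decide) hF
      · exact rowI_3_1 r s h0 h1 (key 10 9 (by norm_num) (by norm_num) (by decide)) hmin hmin2
      · exact rowI_3_2 r s h0 h1 (key 13 12 (by norm_num) (by norm_num) (by decide)) hmin hmin2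
      · exact rowI_3_3 r s h0 h1 (key 18 16 (by norm_num) (by norm_num) (by decide)) hmin hmin2
    · interval_cases q
      · exact absurd (by decide) hF
      · exact rowI_4_1 r s h0 h1 (key 17 15 (by norm_num) (by norm_num) (by decide)) hmin hmin2
      · exact rowI_4_2 r s h0 h1 (key 20 18 (by norm_num) (by norm_num) (by decide))
      · exact rowI_4_3 r s h0 h1 (key 25 22 (by norm_num) (by norm_num) (by decide)) hmin hmin2
      · exact rowI_4_4 r s h0 h1 (key 32 28 (by norm_num) (by norm_num) (by decide))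
    · interval_cases q
      · exact rowI_5_0 r s h0 h1 (key 25 22 (by norm_num) (by norm_num) (by decide)) hmin hmin2
      · exact rowI_5_1 r s h0 h1 (key 26 23 (by norm_num) (by norm_num) (by decide)) hmin hmin2
      · exact rowI_5_2 r s h0 h1 (key 29 26 (by norm_num) (by norm_num) (by decide)) hmin hmin2
      · exact rowI_5_3 r s h0 h1 (key 34 30 (by norm_num) (by norm_num) (by decide)) hmin hmin2
      · exact rowI_5_4 r s h0 h1 (key 41 36 (by norm_num) (by norm_num) (by decide))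
      · exact rowI_5_5 r s h0 h1 (key 50 44 (by norm_num) (by norm_num) (by decide))
    · interval_cases q
      · exact rowI_6_0 r s h0 h1 (key 36 32 (by norm_num) (by norm_num) (by decide)) hmin hmin2
      · exact rowI_6_1 r s h0 h1 (key 37 33 (by norm_num) (by norm_num) (by decide))
      · exact rowI_6_2 r s h0 h1 (key 40 35 (by norm_num) (by norm_num) (by decide))
      · exact rowI_6_3 r s h0 h1 (key 45 39 (by norm_num) (by norm_num) (by decide))
      · exact rowI_6_4 r s h0 h1 (key 52 46 (by norm_num) (by norm_num) (by decide)) hmin hmin2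
      · exact rowI_6_5 r s h0 h1 (key 61 53 (by norm_num) (by norm_num) (by decide))
      · exact rowI_6_6 r s h0 h1 (key 72 63 (by norm_num) (by norm_num) (by decide))
    · interval_cases q
      · exact rowI_7_0 r s h0 h1 (key 49 43 (by norm_num) (by norm_num) (by decide))
      · exact rowI_7_1 r s h0 h1 (key 50 44 (by norm_num) (by norm_num) (by decide)) hmin hmin2
      · exact rowI_7_2 r s h0 h1 (key 53 46 (by norm_num) (by norm_num) (by decide))
      · exact rowI_7_3 r s h0 h1 (key 58 51 (by norm_num) (by norm_num) (by decide))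
      · exact rowI_7_4 r s h0 h1 (key 65 57 (by norm_num) (by norm_num) (by decide))
      · exact rowI_7_5 r s h0 h1 (key 74 65 (by norm_num) (by norm_num) (by decide))
      · exact rowI_7_6 r s h0 h1 (key 85 74 (by norm_num) (by norm_num) (by decide))
      · exact rowI_7_7 r s h0 h1 (key 98 85 (by norm_num) (by norm_num) (by decide))
    · interval_cases q
      · exact rowI_8_0 r s h0 h1 (key 64 56 (by norm_num) (by norm_num) (by decide))
      · exact rowI_8_1 r s h0 h1 (key 65 57 (by norm_num) (by norm_num) (by decide))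
      · exact rowI_8_2 r s h0 h1 (key 68 59 (by norm_num) (by norm_num) (by decide))
      · exact rowI_8_3 r s h0 h1 (key 73 64 (by norm_num) (by norm_num) (by decide))
      · exact rowI_8_4 r s h0 h1 (key 80 70 (by norm_num) (by norm_num) (by decide))
      · exact rowI_8_5 r s h0 h1 (key 89 78 (by norm_num) (by norm_num) (by decide))
      · exact rowI_8_6 r s h0 h1 (key 100 87 (by norm_num) (by norm_num) (by decide))
      · exact rowI_8_7 r s h0 h1 (key 113 98 (by norm_num) (by norm_num) (by decide))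
      · exact rowI_8_8 r s h0 h1 (key 128 111 (by norm_num) (by norm_num) (by decide))

end Run7.h236.HR
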