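import Pool.Agent.Run7.h236.HR1

/-!
Total colourings of the covers of the I-graphs of abelian groups: the colouring by intervals.
-/

set_option autoImplicit false

namespace Run7.h236.HR

/-- A total colouring with four colours of the I-graph of `B` with parameters `a`, `b`:
`U`, `W` are the colours of the vertices `u_t`, `w_t`, `O` that of the edges `u_t u_(t+a)`, `I` that
of the edges `w_t w_(t+b)` and `S` that of the spokes `u_t w_t`. -/
def ColI (B : Type) [AddCommGroup B] (a b : B) : Prop :=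
  ∃ U W O I S : B → Fin 4, ∀ t,
    (U t ≠ S t ∧ U t ≠ O t ∧ U t ≠ O (t - a) ∧ S t ≠ O t ∧ S t ≠ O (t - a) ∧ O t ≠ O (t - a)) ∧
    (W t ≠ S t ∧ W t ≠ I t ∧ W t ≠ I (t - b) ∧ S t ≠ I t ∧ S t ≠ I (t - b) ∧ I t ≠ I (t - b)) ∧
    (U t ≠ U (t + a) ∧ W t ≠ W (t + b) ∧ U t ≠ W t)

theorem ColI.swap {B : Type} [AddCommGroup B] {a b : B} (h : ColI B a b) : ColI B b a := by
  obtain ⟨U, W, O, I, S, h⟩ := h
  refine ⟨W, U, I, O, S, fun t => ?_⟩
  obtain ⟨h1, h2, h3⟩ := h t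
  exact ⟨h2, h1, ⟨h3.2.1, h3.1, h3.2.2.symm⟩⟩

theorem ColI.neg2 {B : Type} [AddCommGroup B] {a b : B} (h : ColI B a b) : ColI B a (-b) := by
  obtain ⟨U, W, O, I, S, h⟩ := h
  refine ⟨U, W, O, fun t => I (t - b), S, fun t => ?_⟩
  obtain ⟨h1, ⟨k1, k2, k3, k4, k5, k6⟩, h3⟩ := h t
  have e1 : t - -b - b = t := by abel
  have e2 : t + -b = t - b := by abel
  have e3 : t - b + b = t := by abel
  have h4 := (h (t - b)).2.2.2.1
  rw [e3] at h4
  simp only [e1, e2]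
  exact ⟨h1, ⟨k1, k3, k2, k5, k4, k6.symm⟩, ⟨h3.1, h4.symm, h3.2.2⟩⟩

theorem ColI.neg1 {B : Type} [AddCommGroup B] {a b : B} (h : ColI B a b) : ColI B (-a) b :=
  h.swap.neg2.swap

/-- The colouring by intervals. -/
theorem interval_colI (N : ℕ) (hN : 0 < N) (u w : ℤ) (hu : (N : ℤ) ≤ 4 * u)
    (hw : (N : ℤ) ≤ 4 * w) (huw : 4 * (u + w) ≤ 3 * N) :
    ColI (ZMod N) (u : ZMod N) (-(w : ZMod N)) := by
  have : NeZero N := ⟨hN.ne'⟩
  have hD0 : (0 : ℤ) < N := by exact_mod_cast hN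
  have e4 : ((4 : ℤ) : ZMod 4) = 0 := by decide
  set n : ℤ → ℤ := fun t => 4 * t / N with hn
  have nper : ∀ t, n (t + N) = n t + 4 := by
    intro t
    simp only [hn]
    have : 4 * (t + N) = 4 * t + N + N + N + N := by ring
    rw [this, fl_add hD0, fl_add hD0, fl_add hD0, fl_add hD0]; ring
  set O : ℤ → ZMod 4 := fun t => ((n t : ℤ) : ZMod 4) with hO
  set A : ℤ → ZMod 4 := fun t => ((n (t - u) : ℤ) : ZMod 4) with hA
  set K : ℤ → ZMod 4 := fun t => ((n (t + w) : ℤ) : ZMod 4) with hK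
  set S : ℤ → ZMod 4 := fun t => ((2 - n t - n (t - u) - n (t + w) : ℤ) : ZMod 4) with hS
  have pO : ∀ t, O (t + N) = O t := by
    intro t; simp only [hO]; rw [nper, Int.cast_add, e4, add_zero]
  have pA : ∀ t, A (t + N) = A t := by
    intro t; simp only [hA]
    have : t + N - u = t - u + N := by ring
    rw [this, nper, Int.cast_add, e4, add_zero]
  have pK : ∀ t, K (t + N) = K t := by
    intro t; simp only [hK]
    have : t + N + w = t + w + N := by ring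
    rw [this, nper, Int.cast_add, e4, add_zero]
  have pS : ∀ t, S (t + N) = S t := by
    intro t; simp only [hS]
    have e1 : t + N - u = t - u + N := by ring
    have e2 : t + N + w = t + w + N := by ring
    rw [e1, e2, nper, nper, nper]
    have : 2 - (n t + 4) - (n (t - u) + 4) - (n (t + w) + 4) =
      (2 - n t - n (t - u) - n (t + w)) + 4 * (-3) := by ring
    rw [this, Int.cast_add, Int.cast_mul, e4, zero_mul, add_zero]
  have main : ∀ t : ℤ,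
      (K t ≠ S t ∧ K t ≠ O t ∧ K t ≠ O (t - u) ∧ S t ≠ O t ∧ S t ≠ O (t - u) ∧ O t ≠ O (t - u)) ∧
      (A t ≠ S t ∧ A t ≠ O t ∧ A t ≠ O (t + w) ∧ S t ≠ O t ∧ S t ≠ O (t + w) ∧
        O t ≠ O (t + w)) ∧
      (K t ≠ K (t + u) ∧ A t ≠ A (t - w) ∧ K t ≠ A t) := by
    intro t
    have a1 : n (t - u) ≤ n t - 1 := by
      have : n (t - u) + 1 ≤ n t := by
        simp only [hn]; rw [← fl_add hD0]; exact fl_mono hD0 (by linarith)
      linarith
    have a2 : n t - 2 ≤ n (t - u) := by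
      have : n t ≤ n (t - u) + 1 + 1 := by
        simp only [hn]; rw [← fl_add hD0, ← fl_add hD0]; exact fl_mono hD0 (by linarith)
      linarith
    have b1 : n t + 1 ≤ n (t + w) := by
      simp only [hn]; rw [← fl_add hD0]; exact fl_mono hD0 (by linarith)
    have b2 : n (t + w) ≤ n t + 1 + 1 := by
      simp only [hn]; rw [← fl_add hD0, ← fl_add hD0]; exact fl_mono hD0 (by linarith)
    have c1 : n (t - u) + 1 + 1 ≤ n (t + w) := by
      simp only [hn]; rw [← fl_add hD0, ← fl_add hD0]; exact fl_mono hD0 (by linarith)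
    have c2 : n (t + w) ≤ n (t - u) + 1 + 1 + 1 := by
      simp only [hn]; rw [← fl_add hD0, ← fl_add hD0, ← fl_add hD0]
      exact fl_mono hD0 (by linarith)
    have d1 : n (t + w) + 1 ≤ n (t + u + w) := by
      simp only [hn]; rw [← fl_add hD0]; exact fl_mono hD0 (by linarith)
    have d2 : n (t + u + w) ≤ n (t + w) + 1 + 1 := by
      simp only [hn]; rw [← fl_add hD0, ← fl_add hD0]; exact fl_mono hD0 (by linarith)
    have f1 : n (t - w - u) + 1 ≤ n (t - u) := by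
      simp only [hn]; rw [← fl_add hD0]; exact fl_mono hD0 (by linarith)
    have f2 : n (t - u) ≤ n (t - w - u) + 1 + 1 := by
      simp only [hn]; rw [← fl_add hD0, ← fl_add hD0]; exact fl_mono hD0 (by linarith)
    simp only [hK, hS, hO, hA]
    refine ⟨⟨?_, ?_, ?_, ?_, ?_, ?_⟩, ⟨?_, ?_, ?_, ?_, ?_, ?_⟩, ⟨?_, ?_, ?_⟩⟩ <;>
      apply ne4 <;> omega
  refine ⟨fun t => K (t.val : ℤ), fun t => A (t.val : ℤ), fun t => O (t.val : ℤ),
    fun t => O (t.val : ℤ), fun t => S (t.val : ℤ), fun t => ?_⟩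
  have ht : ((t.val : ℤ) : ZMod N) = t := by rw [Int.cast_natCast, ZMod.natCast_zmod_val]
  have q1 : t - (u : ZMod N) = (((t.val : ℤ) - u : ℤ) : ZMod N) := by
    rw [Int.cast_sub, ht]
  have q2 : t + (u : ZMod N) = (((t.val : ℤ) + u : ℤ) : ZMod N) := by
    rw [Int.cast_add, ht]
  have q3 : t - -(w : ZMod N) = (((t.val : ℤ) + w : ℤ) : ZMod N) := by
    rw [Int.cast_add, ht, sub_neg_eq_add]
  have q4 : t + -(w : ZMod N) = (((t.val : ℤ) - w : ℤ) : ZMod N) := by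
    rw [Int.cast_sub, ht, sub_eq_add_neg]
  have m := main (t.val : ℤ)
  simp only [q1, q2, q3, q4, lift_spec pO, lift_spec pK, lift_spec pA]
  exact m

/-- Digits in base four. -/
def dg (T t : ℕ) : ℕ := T / 4 ^ t % 4

lemma dg_lt (T t : ℕ) : dg T t < 4 := Nat.mod_lt _ (by norm_num)

/-- The colouring with a table. -/
def tb (T : ℕ) {n : ℕ} (t : ZMod n) : Fin 4 := ⟨dg T t.val, dg_lt _ _⟩

lemma tb_ne {T T' : ℕ} {n : ℕ} {t t' : ZMod n} (h : dg T t.val ≠ dg T' t'.val) :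
    tb T t ≠ tb T' t' := fun h' => h (congrArg Fin.val h')

lemma val_add_nat {n : ℕ} [NeZero n] (t : ZMod n) (a : ℕ) :
    (t + (a : ZMod n)).val = (t.val + a) % n := by
  rw [ZMod.val_add, ZMod.val_natCast]; simp

lemma sub_eq_add_nat {n : ℕ} (a b : ℕ) (h : (a + b) % n = 0) (t : ZMod n) :
    t - (a : ZMod n) = t + (b : ZMod n) := by
  have : ((a : ZMod n) + (b : ZMod n)) = 0 := by
    rw [← Nat.cast_add, ZMod.natCast_eq_zero_iff]; exact Nat.dvd_of_mod_eq_zero h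
  have h2 : (b : ZMod n) = -(a : ZMod n) := by rw [eq_neg_iff_add_eq_zero, add_comm]; exact this
  rw [h2, sub_eq_add_neg]

/-- Haar graphs of cyclic groups by tables: offsets `a`, `b`, `0`, and `a'`, `b'` their
opposites. -/
theorem col_of_table (n a b a' b' P Q X Y Z : ℕ) (hn : 0 < n) (ha : (a + a') % n = 0)
    (hb : (b + b') % n = 0)
    (h : ∀ t < n, (dg P t ≠ dg Q ((t + a) % n) ∧ dg P t ≠ dg Q ((t + b) % n) ∧
        dg P t ≠ dg Q t) ∧
      (dg P t ≠ dg X t ∧ dg P t ≠ dg Y t ∧ dg P t ≠ dg Z t ∧ dg X t ≠ dg Y t ∧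
        dg X t ≠ dg Z t ∧ dg Y t ≠ dg Z t) ∧
      (dg Q t ≠ dg X ((t + a') % n) ∧ dg Q t ≠ dg Y ((t + b') % n) ∧ dg Q t ≠ dg Z t ∧
        dg X ((t + a') % n) ≠ dg Y ((t + b') % n) ∧ dg X ((t + a') % n) ≠ dg Z t ∧
        dg Y ((t + b') % n) ≠ dg Z t)) :
    Col (ZMod n) (a : ZMod n) (b : ZMod n) 0 := by
  have : NeZero n := ⟨hn.ne'⟩
  refine ⟨tb P, tb Q, tb X, tb Y, tb Z, fun t => ?_⟩
  obtain ⟨⟨h1, h2, h3⟩, ⟨h4, h5, h6, h7, h8, h9⟩, ⟨k1, k2, k3, k4, k5, k6⟩⟩ := h t.val t.val_lt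
  rw [sub_eq_add_nat a a' ha, sub_eq_add_nat b b' hb, sub_zero, add_zero]
  refine ⟨⟨?_, ?_, ?_⟩, ⟨?_, ?_, ?_, ?_, ?_, ?_⟩, ⟨?_, ?_, ?_, ?_, ?_, ?_⟩⟩ <;>
    apply tb_ne <;> (try rw [val_add_nat]) <;> (try rw [val_add_nat]) <;> assumption

/-- I-graphs of cyclic groups by tables. -/
theorem colI_of_table (n a b a' b' U W O I S : ℕ) (hn : 0 < n) (ha : (a + a') % n = 0)
    (hb : (b + b') % n = 0)
    (h : ∀ t < n, (dg U t ≠ dg S t ∧ dg U t ≠ dg O t ∧ dg U t ≠ dg O ((t + a') % n) ∧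
        dg S t ≠ dg O t ∧ dg S t ≠ dg O ((t + a') % n) ∧ dg O t ≠ dg O ((t + a') % n)) ∧
      (dg W t ≠ dg S t ∧ dg W t ≠ dg I t ∧ dg W t ≠ dg I ((t + b') % n) ∧
        dg S t ≠ dg I t ∧ dg S t ≠ dg I ((t + b') % n) ∧ dg I t ≠ dg I ((t + b') % n)) ∧
      (dg U t ≠ dg U ((t + a) % n) ∧ dg W t ≠ dg W ((t + b) % n) ∧ dg U t ≠ dg W t)) :
    ColI (ZMod n) (a : ZMod n) (b : ZMod n) := by
  have : NeZero n := ⟨hn.ne'⟩
  refine ⟨tb U, tb W, tb O, tb I, tb S, fun t => ?_⟩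
  obtain ⟨⟨h1, h2, h3, h4, h5, h6⟩, ⟨k1, k2, k3, k4, k5, k6⟩, ⟨l1, l2, l3⟩⟩ := h t.val t.val_lt
  rw [sub_eq_add_nat a a' ha, sub_eq_add_nat b b' hb]
  refine ⟨⟨?_, ?_, ?_, ?_, ?_, ?_⟩, ⟨?_, ?_, ?_, ?_, ?_, ?_⟩, ⟨?_, ?_, ?_⟩⟩ <;>
    apply tb_ne <;> (try rw [val_add_nat]) <;> assumption

end Run7.h236.HR
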