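import Pool.Agent.Run7.h236.HR5
import Pool.Agent.Run7.h236.HR4

/-!
The exceptional lattices.
-/

set_option autoImplicit false

namespace Run7.h236.HR

/-- The colouring with a table on a product. -/
def tb2 (T : ℕ) {n : ℕ} (t : ZMod n × ZMod n) : Fin 4 := ⟨dg T (n * t.1.val + t.2.val), dg_lt _ _⟩


theorem tabH_14_1_6 : Col (ZMod 14) ((13 : ℕ) : ZMod 14) ((8 : ℕ) : ZMod 14) 0 :=
  col_of_table 14 13 8 1 6 2708199 156281676 177474396 88253450 268434865 (by norm_num) (by norm_num) (by norm_num) (by decide)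

theorem tabH_14_2_5 : Col (ZMod 14) ((12 : ℕ) : ZMod 14) ((9 : ℕ) : ZMod 14) 0 :=
  col_of_table 14 12 9 2 5 101562832 165094411 144189030 31932427 259186621 (by norm_num) (by norm_num) (by norm_num) (by decide)

theorem tabH_17_1_14 : Col (ZMod 17) ((16 : ℕ) : ZMod 17) ((3 : ℕ) : ZMod 17) 0 :=
  col_of_table 17 16 3 1 14 3058511640 11947782525 11964813473 4841698686 14494714567 (by norm_num) (by norm_num) (by norm_num) (by decide)

theorem tabH_13_1_10 : Col (ZMod 13) ((12 : ℕ) : ZMod 13) ((3 : ℕ) : ZMod 13) 0 :=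
  col_of_table 13 12 3 1 10 44041563 22456332 350892 22716421 67108850 (by norm_num) (by norm_num) (by norm_num) (by decide)

theorem tabH_19_1_8 : Col (ZMod 19) ((18 : ℕ) : ZMod 19) ((11 : ℕ) : ZMod 19) 0 :=
  col_of_table 19 18 11 1 8 63226926147 172963717881 87014629693 176448092904 223066165142 (by norm_num) (by norm_num) (by norm_num) (by decide)

theorem tabH_25_1_11 : Col (ZMod 25) ((24 : ℕ) : ZMod 25) ((14 : ℕ) : ZMod 25) 0 :=
  col_of_table 25 24 14 1 11 931861223739618 321437514825375 607036263059339 446822667909661 266079658976628 (by norm_num) (by norm_num) (by norm_num) (by decide)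

theorem tabI_5_1_3 : ColI (ZMod 5) ((1 : ℕ) : ZMod 5) ((3 : ℕ) : ZMod 5) :=
  colI_of_table 5 1 3 4 2 584 31 295 645 1010 (by norm_num) (by norm_num) (by norm_num) (by decide)

theorem tabI_10_1_4 : ColI (ZMod 10) ((1 : ℕ) : ZMod 10) ((4 : ℕ) : ZMod 10) :=
  colI_of_table 10 1 4 9 6 112787 676862 397774 78985 1044068 (by norm_num) (by norm_num) (by norm_num) (by decide)

theorem tabI_10_2_3 : ColI (ZMod 10) ((2 : ℕ) : ZMod 10) ((3 : ℕ) : ZMod 10) :=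
  colI_of_table 10 2 3 8 7 948712 500529 496241 604507 52366 (by norm_num) (by norm_num) (by norm_num) (by decide)

theorem tabI_5_1_2 : ColI (ZMod 5) ((1 : ℕ) : ZMod 5) ((2 : ℕ) : ZMod 5) :=
  colI_of_table 5 1 2 4 3 584 31 295 360 1010 (by norm_num) (by norm_num) (by norm_num) (by decide)

theorem tabI_6_1_3 : ColI (ZMod 6) ((1 : ℕ) : ZMod 6) ((3 : ℕ) : ZMod 6) :=
  colI_of_table 6 1 3 5 3 2340 1725 1203 2055 3930 (by norm_num) (by norm_num) (by norm_num) (by decide)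

theorem tabI_27_1_24 : ColI (ZMod 27) ((1 : ℕ) : ZMod 27) ((24 : ℕ) : ZMod 27) :=
  colI_of_table 27 1 24 26 3 5147389779140903 2695867155169106 2573786771214034 5107551821251300 18012473383752893 (by norm_num) (by norm_num) (by norm_num) (by decide)

theorem tabI_11_1_8 : ColI (ZMod 11) ((1 : ℕ) : ZMod 11) ((8 : ℕ) : ZMod 11) :=
  colI_of_table 11 1 8 10 3 1198372 2637699 3749778 3234326 1024253 (by norm_num) (by norm_num) (by norm_num) (by decide)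

theorem tabI_17_1_14 : ColI (ZMod 17) ((1 : ℕ) : ZMod 17) ((14 : ℕ) : ZMod 17) :=
  colI_of_table 17 1 14 16 3 9817068088 6987646383 4909354467 9775152641 17175767126 (by norm_num) (by norm_num) (by norm_num) (by decide)

theorem tabI_29_1_26 : ColI (ZMod 29) ((1 : ℕ) : ZMod 29) ((26 : ℕ) : ZMod 29) :=
  colI_of_table 29 1 26 28 3 82395094125334055 43099221150509438 41174045010278878 81759026649482980 288195433126695041 (by norm_num) (by norm_num) (by norm_num) (by decide)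

theorem tabI_41_1_38 : ColI (ZMod 41) ((1 : ℕ) : ZMod 41) ((38 : ℕ) : ZMod 41) :=
  colI_of_table 41 1 38 40 3 1382345454009859761917414 723084804136896751790687 690788145636055884970131 1371685694936937148936356 4835120374726894210881337 (by norm_num) (by norm_num) (by norm_num) (by decide)

theorem tabI_13_1_10 : ColI (ZMod 13) ((1 : ℕ) : ZMod 13) ((10 : ℕ) : ZMod 13) :=
  colI_of_table 13 1 10 12 3 35155577 6746159 6402343 34712920 67050434 (by norm_num) (by norm_num) (by norm_num) (by decide)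

theorem tabI_6_2_3 : ColI (ZMod 6) ((2 : ℕ) : ZMod 6) ((3 : ℕ) : ZMod 6) :=
  colI_of_table 6 2 3 4 3 2145 574 1567 1505 3976 (by norm_num) (by norm_num) (by norm_num) (by decide)

theorem tabI_11_1_4 : ColI (ZMod 11) ((1 : ℕ) : ZMod 11) ((4 : ℕ) : ZMod 11) :=
  colI_of_table 11 1 4 10 7 1815655 3496576 2956172 1813559 180697 (by norm_num) (by norm_num) (by norm_num) (by decide)

theorem tabI_13_1_5 : ColI (ZMod 13) ((1 : ℕ) : ZMod 13) ((5 : ℕ) : ZMod 13) :=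
  colI_of_table 13 1 5 12 8 26376472 50959615 46736563 43153672 8376165 (by norm_num) (by norm_num) (by norm_num) (by decide)

theorem tabI_19_1_8 : ColI (ZMod 19) ((1 : ℕ) : ZMod 19) ((8 : ℕ) : ZMod 19) :=
  colI_of_table 19 1 8 18 11 26187208995 104262533117 104715447518 26187243802 274869274244 (by norm_num) (by norm_num) (by norm_num) (by decide)

theorem tabI_25_1_11 : ColI (ZMod 25) ((1 : ℕ) : ZMod 25) ((11 : ℕ) : ZMod 25) :=
  colI_of_table 25 1 11 24 14 109477805914595 783095696792661 780907410720541 887989610448686 489584767853192 (by norm_num) (by norm_num) (by norm_num) (by decide)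

theorem tabI_17_1_7 : ColI (ZMod 17) ((1 : ℕ) : ZMod 17) ((7 : ℕ) : ZMod 17) :=
  colI_of_table 17 1 7 16 10 7823104292 13507055611 15185765298 6749364866 2147415133 (by norm_num) (by norm_num) (by norm_num) (by decide)

theorem tabI_17_1_13 : ColI (ZMod 17) ((1 : ℕ) : ZMod 17) ((13 : ℕ) : ZMod 17) :=
  colI_of_table 17 1 13 16 4 14572918993 3108238987 2387144075 9338170577 7851098998 (by norm_num) (by norm_num) (by norm_num) (by decide)

theorem tabI_25_5_3 : ColI (ZMod 25) ((5 : ℕ) : ZMod 25) ((3 : ℕ) : ZMod 25) :=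
  colI_of_table 25 5 3 20 22 784359820224528 332076110779303 403545372967813 221412678035729 1038698512695034 (by norm_num) (by norm_num) (by norm_num) (by decide)

theorem tabI_25_5_2 : ColI (ZMod 25) ((5 : ℕ) : ZMod 25) ((2 : ℕ) : ZMod 25) :=
  colI_of_table 25 5 2 20 23 37070738860940 428849306718299 663424314265841 107435272668860 1122450778438950 (by norm_num) (by norm_num) (by norm_num) (by decide)

theorem tabH2_2 : Col (ZMod 2 × ZMod 2) (-(1, 0)) (-(0, 1)) 0 :=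
  ⟨tb2 180, tb2 30, tb2 75, tb2 30, tb2 225, by decide⟩

theorem tabH2_5 : Col (ZMod 5 × ZMod 5) (-(1, 0)) (-(0, 1)) 0 :=
  ⟨tb2 501430526389991, tb2 1017708586090526, tb2 21538166145024, tb2 1035713139201950, tb2 693117981948281, by decide⟩

theorem excH (p q r s : ℤ) (h : ExcH p q r s) :
    ∃ (B : Type) (_ : AddCommGroup B) (α β : B), p • α + q • β = 0 ∧ r • α + s • β = 0 ∧
      Col B (-α) (-β) 0 := by
  unfold ExcH at h
  rcases h with ⟨rfl, rfl, rfl, rfl⟩ | ⟨rfl, rfl, rfl, rfl⟩ | ⟨rfl, rfl, rfl, rfl⟩ | ⟨rfl, rfl, rfl, rfl⟩ | ⟨rfl, rfl, rfl, rfl⟩ | ⟨rfl, rfl, rfl, rfl⟩ | ⟨rfl, rfl, rfl, rfl⟩ | ⟨rfl, rfl, rfl, rfl⟩ | ⟨rfl, rfl, rfl, rfl⟩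
  · exact ⟨ZMod 2 × ZMod 2, inferInstance, (1, 0), (0, 1), by decide, by decide, tabH2_2⟩
  · refine ⟨ZMod 14, inferInstance, ((1 : ℕ) : ZMod 14), ((6 : ℕ) : ZMod 14), by decide, by decide, ?_⟩
    have h1 : -((1 : ℕ) : ZMod 14) = ((13 : ℕ) : ZMod 14) := by decide
    have h2 : -((6 : ℕ) : ZMod 14) = ((8 : ℕ) : ZMod 14) := by decide
    rw [h1, h2]; exact tabH_14_1_6
  · exact ⟨ZMod 2 × ZMod 2, inferInstance, (1, 0), (0, 1), by decide, by decide, tabH2_2⟩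
  · refine ⟨ZMod 14, inferInstance, ((2 : ℕ) : ZMod 14), ((5 : ℕ) : ZMod 14), by decide, by decide, ?_⟩
    have h1 : -((2 : ℕ) : ZMod 14) = ((12 : ℕ) : ZMod 14) := by decide
    have h2 : -((5 : ℕ) : ZMod 14) = ((9 : ℕ) : ZMod 14) := by decide
    rw [h1, h2]; exact tabH_14_2_5
  · refine ⟨ZMod 17, inferInstance, ((1 : ℕ) : ZMod 17), ((14 : ℕ) : ZMod 17), by decide, by decide, ?_⟩
    have h1 : -((1 : ℕ) : ZMod 17) = ((16 : ℕ) : ZMod 17) := by decide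
    have h2 : -((14 : ℕ) : ZMod 17) = ((3 : ℕ) : ZMod 17) := by decide
    rw [h1, h2]; exact tabH_17_1_14
  · refine ⟨ZMod 13, inferInstance, ((1 : ℕ) : ZMod 13), ((10 : ℕ) : ZMod 13), by decide, by decide, ?_⟩
    have h1 : -((1 : ℕ) : ZMod 13) = ((12 : ℕ) : ZMod 13) := by decide
    have h2 : -((10 : ℕ) : ZMod 13) = ((3 : ℕ) : ZMod 13) := by decide
    rw [h1, h2]; exact tabH_13_1_10
  · refine ⟨ZMod 19, inferInstance, ((1 : ℕ) : ZMod 19), ((8 : ℕ) : ZMod 19), by decide, by decide, ?_⟩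
    have h1 : -((1 : ℕ) : ZMod 19) = ((18 : ℕ) : ZMod 19) := by decide
    have h2 : -((8 : ℕ) : ZMod 19) = ((11 : ℕ) : ZMod 19) := by decide
    rw [h1, h2]; exact tabH_19_1_8
  · refine ⟨ZMod 25, inferInstance, ((1 : ℕ) : ZMod 25), ((11 : ℕ) : ZMod 25), by decide, by decide, ?_⟩
    have h1 : -((1 : ℕ) : ZMod 25) = ((24 : ℕ) : ZMod 25) := by decide
    have h2 : -((11 : ℕ) : ZMod 25) = ((14 : ℕ) : ZMod 25) := by decide
    rw [h1, h2]; exact tabH_25_1_11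
  · exact ⟨ZMod 5 × ZMod 5, inferInstance, (1, 0), (0, 1), by decide, by decide, tabH2_5⟩

theorem excI (p q r s : ℤ) (h : ExcI p q r s) :
    ∃ (B : Type) (_ : AddCommGroup B) (α β : B), p • α + q • β = 0 ∧ r • α + s • β = 0 ∧
      ColI B α β := by
  unfold ExcI at h
  simp only [List.mem_cons, List.not_mem_nil, or_false, Prod.mk.injEq] at h
  rcases h with ⟨rfl, rfl, rfl, rfl⟩ | ⟨rfl, rfl, rfl, rfl⟩ | ⟨rfl, rfl, rfl, rfl⟩ | ⟨rfl, rfl, rfl, rfl⟩ | ⟨rfl, rfl, rfl, rfl⟩ | ⟨rfl, rfl, rfl, rfl⟩ | ⟨rfl, rfl, rfl, rfl⟩ | ⟨rfl, rfl, rfl, rfl⟩ | ⟨rfl, rfl, rfl, rfl⟩ | ⟨rfl, rfl, rfl, rfl⟩ | ⟨rfl, rfl, rfl, rfl⟩ | ⟨rfl, rfl, rfl, rfl⟩ | ⟨rfl, rfl, rfl, rfl⟩ | ⟨rfl, rfl, rfl, rfl⟩ | ⟨rfl, rfl, rfl, rfl⟩ | ⟨rfl, rfl, rfl, rfl⟩ | ⟨rfl, rfl, rfl, rfl⟩ | ⟨rfl, rfl, rfl, rfl⟩ | ⟨rfl, rfl, rfl, rfl⟩ | ⟨rfl, rfl, rfl, rfl⟩ | ⟨rfl, rfl, rfl, rfl⟩ | ⟨rfl, rfl, rfl, rfl⟩ | ⟨rfl, rfl, rfl, rfl⟩ | ⟨rfl,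 rfl, rfl, rfl⟩ | ⟨rfl, rfl, rfl, rfl⟩ | ⟨rfl, rfl, rfl, rfl⟩ | ⟨rfl, rfl, rfl, rfl⟩
  · exact ⟨ZMod 5, inferInstance, ((1 : ℕ) : ZMod 5), ((3 : ℕ) : ZMod 5), by decide, by decide, tabI_5_1_3⟩
  · exact ⟨ZMod 10, inferInstance, ((1 : ℕ) : ZMod 10), ((4 : ℕ) : ZMod 10), by decide, by decide, tabI_10_1_4⟩
  · exact ⟨ZMod 10, inferInstance, ((2 : ℕ) : ZMod 10), ((3 : ℕ) : ZMod 10), by decide, by decide, tabI_10_2_3⟩
  · exact ⟨ZMod 5, inferInstance, ((1 : ℕ) : ZMod 5), ((2 : ℕ) : ZMod 5), by decide, by decide, tabI_5_1_2⟩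
  · exact ⟨ZMod 6, inferInstance, ((1 : ℕ) : ZMod 6), ((3 : ℕ) : ZMod 6), by decide, by decide, tabI_6_1_3⟩
  · exact ⟨ZMod 27, inferInstance, ((1 : ℕ) : ZMod 27), ((24 : ℕ) : ZMod 27), by decide, by decide, tabI_27_1_24⟩
  · exact ⟨ZMod 11, inferInstance, ((1 : ℕ) : ZMod 11), ((8 : ℕ) : ZMod 11), by decide, by decide, tabI_11_1_8⟩
  · exact ⟨ZMod 17, inferInstance, ((1 : ℕ) : ZMod 17), ((14 : ℕ) : ZMod 17), by decide, by decide, tabI_17_1_14⟩
  · exact ⟨ZMod 29, inferInstance, ((1 : ℕ) : ZMod 29), ((26 : ℕ) : ZMod 29), by decide, by decide, tabI_29_1_26⟩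
  · exact ⟨ZMod 41, inferInstance, ((1 : ℕ) : ZMod 41), ((38 : ℕ) : ZMod 41), by decide, by decide, tabI_41_1_38⟩
  · exact ⟨ZMod 5, inferInstance, ((1 : ℕ) : ZMod 5), ((2 : ℕ) : ZMod 5), by decide, by decide, tabI_5_1_2⟩
  · exact ⟨ZMod 13, inferInstance, ((1 : ℕ) : ZMod 13), ((10 : ℕ) : ZMod 13), by decide, by decide, tabI_13_1_10⟩
  · exact ⟨ZMod 11, inferInstance, ((1 : ℕ) : ZMod 11), ((8 : ℕ) : ZMod 11), by decide, by decide, tabI_11_1_8⟩
  · exact ⟨ZMod 5, inferInstance, ((1 : ℕ) : ZMod 5), ((2 : ℕ) : ZMod 5), by decide, by decide, tabI_5_1_2⟩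
  · exact ⟨ZMod 17, inferInstance, ((1 : ℕ) : ZMod 17), ((14 : ℕ) : ZMod 17), by decide, by decide, tabI_17_1_14⟩
  · exact ⟨ZMod 6, inferInstance, ((2 : ℕ) : ZMod 6), ((3 : ℕ) : ZMod 6), by decide, by decide, tabI_6_2_3⟩
  · exact ⟨ZMod 11, inferInstance, ((1 : ℕ) : ZMod 11), ((4 : ℕ) : ZMod 11), by decide, by decide, tabI_11_1_4⟩
  · exact ⟨ZMod 13, inferInstance, ((1 : ℕ) : ZMod 13), ((5 : ℕ) : ZMod 13), by decide, by decide, tabI_13_1_5⟩
  · exact ⟨ZMod 19, inferInstance, ((1 : ℕ) : ZMod 19), ((8 : ℕ) : ZMod 19), by decide, by decide, tabI_19_1_8⟩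
  · exact ⟨ZMod 25, inferInstance, ((1 : ℕ) : ZMod 25), ((11 : ℕ) : ZMod 25), by decide, by decide, tabI_25_1_11⟩
  · exact ⟨ZMod 17, inferInstance, ((1 : ℕ) : ZMod 17), ((7 : ℕ) : ZMod 17), by decide, by decide, tabI_17_1_7⟩
  · exact ⟨ZMod 13, inferInstance, ((1 : ℕ) : ZMod 13), ((5 : ℕ) : ZMod 13), by decide, by decide, tabI_13_1_5⟩
  · exact ⟨ZMod 17, inferInstance, ((1 : ℕ) : ZMod 17), ((13 : ℕ) : ZMod 17), by decide, by decide, tabI_17_1_13⟩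
  · exact ⟨ZMod 5, inferInstance, ((1 : ℕ) : ZMod 5), ((2 : ℕ) : ZMod 5), by decide, by decide, tabI_5_1_2⟩
  · exact ⟨ZMod 5, inferInstance, ((1 : ℕ) : ZMod 5), ((3 : ℕ) : ZMod 5), by decide, by decide, tabI_5_1_3⟩
  · exact ⟨ZMod 25, inferInstance, ((5 : ℕ) : ZMod 25), ((3 : ℕ) : ZMod 25), by decide, by decide, tabI_25_5_3⟩
  · exact ⟨ZMod 25, inferInstance, ((5 : ℕ) : ZMod 25), ((2 : ℕ) : ZMod 25), by decide, by decide, tabI_25_5_2⟩

end Run7.h236.HR
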