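import Pool.Agent.Run7.h236.HR6

/-!
Every pair of elements of a finite abelian group without short relations has a coloured quotient:
Haar graphs.
-/

set_option autoImplicit false

namespace Run7.h236.HR

/-- There is a coloured quotient for the Haar graph with offsets `-u`, `-w`, `0`. -/
def GoodH (A : Type) [AddCommGroup A] (u w : A) : Prop :=
  ∃ (B : Type) (_ : AddCommGroup B) (α β : B),
    (∀ x y : ℤ, x • u + y • w = 0 → x • α + y • β = 0) ∧ Col B (-α) (-β) 0

theorem GoodH.swap {A : Type} [AddCommGroup A] {u w : A} (h : GoodH A w u) : GoodH A u w := by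
  obtain ⟨B, iB, α, β, h1, h2⟩ := h
  exact ⟨B, iB, β, α, fun x y hxy => by rw [add_comm]; exact h1 y x (by rw [add_comm]; exact hxy),
    h2.swap12⟩

theorem GoodH.tau {A : Type} [AddCommGroup A] {u w : A} (h : GoodH A (u - w) (-w)) :
    GoodH A u w := by
  obtain ⟨B, iB, α, β, h1, h2⟩ := h
  refine ⟨B, iB, α - β, -β, fun x y hxy => ?_, ?_⟩
  · have h3 := h1 x (-x - y) (by
      rw [← hxy]; simp only [smul_sub, smul_neg, sub_smul, neg_smul]; abel)
    rw [← h3]; simp only [smul_sub, smul_neg, sub_smul, neg_smul]; abel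
  · have h3 := (h2.shift β).swap23
    have e1 : -α + β = -(α - β) := by abel
    have e2 : 0 + β = - -β := by abel
    have e3 : -β + β = 0 := by abel
    rwa [e1, e2, e3] at h3

/-- The three triangles. -/
theorem tri_colH (N : ℤ) (hN : 0 < N) (U W : ℤ)
    (h : Tri N U W ∨ Tri N (W - U) (-U) ∨ Tri N (U - W) (-W)) :
    Col (ZMod N.toNat) (-(U : ZMod N.toNat)) (-(W : ZMod N.toNat)) 0 := by
  have hc : ((N.toNat : ℕ) : ℤ) = N := Int.toNat_of_nonneg hN.le
  have h0 : 0 < N.toNat := by omega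
  rcases h with ⟨h1, h2, h3⟩ | ⟨h1, h2, h3⟩ | ⟨h1, h2, h3⟩
  · exact interval_col N.toNat h0 U W (by rw [hc]; exact h1) (by rw [hc]; exact h2)
      (by rw [hc]; exact h3)
  · have := interval_col N.toNat h0 (W - U) (-U) (by rw [hc]; exact h1) (by rw [hc]; exact h2)
      (by rw [hc]; exact h3)
    have h4 := ((this.shift (-(U : ZMod N.toNat))).swap23).swap12
    have e1 : -((W - U : ℤ) : ZMod N.toNat) + -(U : ZMod N.toNat) = -(W : ZMod N.toNat) := by
      push_cast; ring
    have e2 : -((-U : ℤ) : ZMod N.toNat) + -(U : ZMod N.toNat) = 0 := by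
      push_cast; ring
    have e3 : 0 + -(U : ZMod N.toNat) = -(U : ZMod N.toNat) := by ring
    rw [e1, e2, e3] at h4
    exact h4
  · have := interval_col N.toNat h0 (U - W) (-W) (by rw [hc]; exact h1) (by rw [hc]; exact h2)
      (by rw [hc]; exact h3)
    have h4 := (this.shift (-(W : ZMod N.toNat))).swap23
    have e1 : -((U - W : ℤ) : ZMod N.toNat) + -(W : ZMod N.toNat) = -(U : ZMod N.toNat) := by
      push_cast; ring
    have e2 : -((-W : ℤ) : ZMod N.toNat) + -(W : ZMod N.toNat) = 0 := by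
      push_cast; ring
    have e3 : 0 + -(W : ZMod N.toNat) = -(W : ZMod N.toNat) := by ring
    rw [e1, e2, e3] at h4
    exact h4

/-- The lattice of relations. -/
def rel (A : Type) [AddCommGroup A] (u w : A) : AddSubgroup (ℤ × ℤ) where
  carrier := {v | v.1 • u + v.2 • w = 0}
  add_mem' := by
    intro a b ha hb
    simp only [Set.mem_ofPred_eq, Prod.fst_add, Prod.snd_add, add_smul] at *
    have : a.1 • u + b.1 • u + (a.2 • w + b.2 • w) = (a.1 • u + a.2 • w) + (b.1 • u + b.2 • w) := by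
      abel
    rw [this, ha, hb, add_zero]
  zero_mem' := by simp
  neg_mem' := by
    intro a ha
    simp only [Set.mem_ofPred_eq, Prod.fst_neg, Prod.snd_neg, neg_smul] at *
    have : -(a.1 • u) + -(a.2 • w) = -(a.1 • u + a.2 • w) := by abel
    rw [this, ha, neg_zero]

lemma mem_rel {A : Type} [AddCommGroup A] {u w : A} {x y : ℤ} :
    (x, y) ∈ rel A u w ↔ x • u + y • w = 0 := Iff.rfl

lemma char_kernel {A : Type} [AddCommGroup A] {u w : A} {p q r s : ℤ}
    (hN0 : 0 < p * s - q * r)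
    (hb : ∀ x y : ℤ, (x, y) ∈ rel A u w → ∃ i j : ℤ, x = i * p + j * r ∧ y = i * q + j * s)
    (U W : ℤ) (h1 : (p * s - q * r) ∣ (p * U + q * W)) (h2 : (p * s - q * r) ∣ (r * U + s * W))
    (x y : ℤ) (hxy : x • u + y • w = 0) :
    x • (U : ZMod (p * s - q * r).toNat) + y • (W : ZMod (p * s - q * r).toNat) = 0 := by
  obtain ⟨i, j, hx, hy⟩ := hb x y (mem_rel.2 hxy)
  have hc : (((p * s - q * r).toNat : ℕ) : ℤ) = p * s - q * r := Int.toNat_of_nonneg hN0.le
  rw [zsmul_eq_mul, zsmul_eq_mul, ← Int.cast_mul, ← Int.cast_mul, ← Int.cast_add,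
    ZMod.intCast_zmod_eq_zero_iff_dvd, hc]
  have : x * U + y * W = i * (p * U + q * W) + j * (r * U + s * W) := by rw [hx, hy]; ring
  rw [this]
  exact dvd_add (Dvd.dvd.mul_left h1 i) (Dvd.dvd.mul_left h2 j)

lemma ext_kernel {A B : Type} [AddCommGroup A] [AddCommGroup B] {u w : A} {p q r s : ℤ}
    (hb : ∀ x y : ℤ, (x, y) ∈ rel A u w → ∃ i j : ℤ, x = i * p + j * r ∧ y = i * q + j * s)
    (α β : B) (h1 : p • α + q • β = 0) (h2 : r • α + s • β = 0)
    (x y : ℤ) (hxy : x • u + y • w = 0) : x • α + y • β = 0 := by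
  obtain ⟨i, j, hx, hy⟩ := hb x y (mem_rel.2 hxy)
  have : x • α + y • β = i • (p • α + q • β) + j • (r • α + s • β) := by
    rw [hx, hy]; simp only [add_smul, smul_add, mul_smul]; abel
  rw [this, h1, h2, smul_zero, smul_zero, add_zero]

/-- The reduced case. -/
theorem goodH_sector {A : Type} [AddCommGroup A] (u w : A) (n : ℤ) (hn : n ≠ 0)
    (hnu : n • u = 0) (hnw : n • w = 0) (p q : ℤ) (hq : 0 ≤ q) (hqp : q ≤ p)
    (h : p • u + q • w = 0) (h7 : 7 ≤ qf 1 p q)
    (hmin : ∀ x y : ℤ, x • u + y • w = 0 → (x, y) ≠ ((0, 0) : ℤ × ℤ) → qf 1 p q ≤ qf 1 x y) :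
    GoodH A u w := by
  have hp : 0 < p := by
    by_contra hcon
    push Not at hcon
    have h1 : p = 0 := by linarith
    have h2 : q = 0 := by linarith
    rw [h1, h2] at h7
    exact absurd h7 (by decide)
  obtain ⟨r, s, hrs, hN0, hr0, hrp, hb, hbd⟩ := exists_basis 1 (by norm_num) le_rfl (rel A u w) p q
    (mem_rel.2 h) (by
      intro h0
      rw [Prod.mk_eq_zero] at h0
      linarith [h0.1]) (fun x y hxy hne => hmin x y (mem_rel.1 hxy) hne) n hn
    (mem_rel.2 (by rw [hnu, zero_smul, add_zero])) (mem_rel.2 (by rw [hnw, zero_smul, add_zero])) hp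
  have hFN : qf 1 p q ≤ p * s - q * r := by
    by_contra hcon
    push Not at hcon
    have : (p * s - q * r) ^ 2 < qf 1 p q ^ 2 := pow_lt_pow_left₀ hcon hN0.le (by norm_num)
    linarith
  have hmem : ∀ i j : ℤ, (i * p + j * r) • u + (i * q + j * s) • w = 0 := by
    intro i j
    have : (i * p + j * r) • u + (i * q + j * s) • w =
        i • (p • u + q • w) + j • (r • u + s • w) := by
      simp only [add_smul, smul_add, mul_smul]; abel
    rw [this, h, mem_rel.1 hrs, smul_zero, smul_zero, add_zero]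
  rcases arithH p q r s hq hqp h7 hr0 hrp hFN (fun i j hne => hmin _ _ (hmem i j) hne) with
    ⟨U, W, h1, h2, h3⟩ | hexc
  · exact ⟨ZMod (p * s - q * r).toNat, inferInstance, U, W, char_kernel hN0 hb U W h1 h2,
      tri_colH _ hN0 U W h3⟩
  · obtain ⟨B, iB, α, β, h1, h2, h3⟩ := excH p q r s hexc
    exact ⟨B, iB, α, β, ext_kernel hb α β h1 h2, h3⟩

/-- Pairs with a given shortest relation. -/
def SH (A : Type) [AddCommGroup A] (n p q : ℤ) : Prop :=
  ∀ u w : A, n • u = 0 → n • w = 0 → p • u + q • w = 0 →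
    (∀ x y : ℤ, x • u + y • w = 0 → (x, y) ≠ ((0, 0) : ℤ × ℤ) → qf 1 p q ≤ qf 1 x y) → GoodH A u w

theorem SH.swap {A : Type} [AddCommGroup A] {n p q : ℤ} (h : SH A n q p) : SH A n p q := by
  intro u w h1 h2 h3 h4
  refine (h w u h2 h1 (by rw [add_comm]; exact h3) (fun x y hxy hne => ?_)).swap
  have := h4 y x (by rw [add_comm]; exact hxy) (by
    intro h0
    rw [Prod.mk.injEq] at h0
    exact hne (by rw [h0.1, h0.2]))
  have e : ∀ a b : ℤ, qf 1 a b = qf 1 b a := fun a b => by unfold qf; ring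
  rw [e q p, e x y]; exact this

theorem SH.tau {A : Type} [AddCommGroup A] {n p q : ℤ} (h : SH A n p (-p - q)) :
    SH A n p q := by
  intro u w h1 h2 h3 h4
  refine (h (u - w) (-w) (by rw [smul_sub, h1, h2, sub_zero]) (by rw [smul_neg, h2, neg_zero]) ?_
    (fun x y hxy hne => ?_)).tau
  · rw [← h3]; simp only [smul_sub, smul_neg, sub_smul, neg_smul]; abel
  · have := h4 x (-x - y) (by
      rw [← hxy]; simp only [smul_sub, smul_neg, sub_smul, neg_smul]; abel) (by
      intro h0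
      rw [Prod.mk.injEq] at h0
      apply hne
      rw [Prod.mk.injEq]
      exact ⟨h0.1, by linarith [h0.1, h0.2]⟩)
    have e : ∀ a b : ℤ, qf 1 a (-a - b) = qf 1 a b := fun a b => by unfold qf; ring
    rw [e] at this ⊢
    exact this

theorem SH.neg {A : Type} [AddCommGroup A] {n p q : ℤ} (h : SH A n (-p) (-q)) :
    SH A n p q := by
  intro u w h1 h2 h3 h4
  refine h u w h1 h2 ?_ ?_
  · have : (-p) • u + (-q) • w = -(p • u + q • w) := by simp only [neg_smul]; abel
    rw [this, h3, neg_zero]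
  · have e : qf 1 (-p) (-q) = qf 1 p q := by unfold qf; ring
    rw [e]; exact h4

theorem SH.all {A : Type} [AddCommGroup A] {n p q : ℤ} (hn : n ≠ 0) (h7 : 7 ≤ qf 1 p q) :
    SH A n p q := by
  have sector : ∀ p q : ℤ, 7 ≤ qf 1 p q → 0 ≤ q → q ≤ p → SH A n p q := by
    intro p q h7 hq hqp u w h1 h2 h3 h4
    exact goodH_sector u w n hn h1 h2 p q hq hqp h3 h7 h4
  have six : ∀ p q : ℤ, 7 ≤ qf 1 p q → 0 ≤ q → 0 ≤ p → SH A n p q := by
    intro p q h7 hq hp
    rcases le_total q p with h | h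
    · exact sector p q h7 hq h
    · exact (sector q p (by
        have : qf 1 q p = qf 1 p q := by unfold qf; ring
        rw [this]; exact h7) hp h).swap
  -- two of the three coordinates have the same sign
  have pos : ∀ p q : ℤ, 7 ≤ qf 1 p q → (0 ≤ p ∧ 0 ≤ q) ∨ (p ≤ 0 ∧ q ≤ 0) → SH A n p q := by
    intro p q h7 h
    rcases h with ⟨h1, h2⟩ | ⟨h1, h2⟩
    · exact six p q h7 h2 h1
    · refine (six (-p) (-q) ?_ (by linarith) (by linarith)).neg
      have : qf 1 (-p) (-q) = qf 1 p q := by unfold qf; ring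
      rw [this]; exact h7
  by_cases h1 : (0 ≤ p ∧ 0 ≤ q) ∨ (p ≤ 0 ∧ q ≤ 0)
  · exact pos p q h7 h1
  · by_cases h2 : (0 ≤ p ∧ 0 ≤ -p - q) ∨ (p ≤ 0 ∧ -p - q ≤ 0)
    · refine (pos p (-p - q) ?_ h2).tau
      have : qf 1 p (-p - q) = qf 1 p q := by unfold qf; ring
      rw [this]; exact h7
    · have h3 : (0 ≤ q ∧ 0 ≤ -q - p) ∨ (q ≤ 0 ∧ -q - p ≤ 0) := by omega
      refine ((pos q (-q - p) ?_ h3).tau).swap
      have : qf 1 q (-q - p) = qf 1 p q := by unfold qf; ring
      rw [this]; exact h7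

lemma qf1_nonneg (x y : ℤ) : 0 ≤ qf 1 x y := by unfold qf; nlinarith [sq_nonneg (x + y), sq_nonneg x, sq_nonneg y]

/-- The lattice theorem for Haar graphs. -/
theorem goodH {A : Type} [AddCommGroup A] [Finite A] (u w : A)
    (hbad : ∀ x y : ℤ, (x, y) ≠ ((0, 0) : ℤ × ℤ) → qf 1 x y < 7 → x • u + y • w ≠ 0) :
    GoodH A u w := by
  have hn0 : (Nat.card A : ℤ) ≠ 0 := by exact_mod_cast Nat.card_pos.ne'
  have hnu : ∀ x : A, (Nat.card A : ℤ) • x = 0 := by
    intro x; rw [natCast_zsmul]; exact card_nsmul_eq_zero'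
  obtain ⟨⟨p, q⟩, ⟨hpq, hne⟩, hmin⟩ := WellFounded.has_min
    (measure (fun v : ℤ × ℤ => (qf 1 v.1 v.2).toNat)).wf
    {v : ℤ × ℤ | v.1 • u + v.2 • w = 0 ∧ v ≠ (0, 0)} ⟨((Nat.card A : ℤ), 0), by
      simp only [Set.mem_ofPred_eq]
      refine ⟨by rw [hnu, zero_smul, add_zero], ?_⟩
      intro h
      rw [Prod.mk.injEq] at h
      exact hn0 h.1⟩
  simp only [Set.mem_ofPred_eq] at hpq hne hmin
  have h7 : 7 ≤ qf 1 p q := by
    by_contra hcon
    push Not at hcon
    exact hbad p q hne hcon hpq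
  refine SH.all hn0 h7 u w (hnu u) (hnu w) hpq (fun x y hxy hxy0 => ?_)
  have := hmin (x, y) ⟨hxy, hxy0⟩
  have h1 : ¬ (qf 1 x y).toNat < (qf 1 p q).toNat := this
  have h2 := qf1_nonneg x y
  have h3 := qf1_nonneg p q
  omega

end Run7.h236.HR
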