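import Pool.Agent.Run7.h236.HR7

/-!
Every pair of elements of a finite abelian group without short relations has a coloured quotient:
I-graphs.
-/

set_option autoImplicit false

namespace Run7.h236.HR

/-- There is a coloured quotient for the I-graph with parameters `u`, `w`. -/
def GoodI (A : Type) [AddCommGroup A] (u w : A) : Prop :=
  ∃ (B : Type) (_ : AddCommGroup B) (α β : B),
    (∀ x y : ℤ, x • u + y • w = 0 → x • α + y • β = 0) ∧ ColI B α β

theorem GoodI.swap {A : Type} [AddCommGroup A] {u w : A} (h : GoodI A w u) : GoodI A u w := by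
  obtain ⟨B, iB, α, β, h1, h2⟩ := h
  exact ⟨B, iB, β, α, fun x y hxy => by rw [add_comm]; exact h1 y x (by rw [add_comm]; exact hxy),
    h2.swap⟩

theorem GoodI.neg2 {A : Type} [AddCommGroup A] {u w : A} (h : GoodI A u (-w)) :
    GoodI A u w := by
  obtain ⟨B, iB, α, β, h1, h2⟩ := h
  refine ⟨B, iB, α, -β, fun x y hxy => ?_, h2.neg2⟩
  have h3 := h1 x (-y) (by rw [smul_neg, neg_smul, neg_neg]; exact hxy)
  rw [← h3, smul_neg, neg_smul]

/-- The two triangles. -/
theorem tri_colI (N : ℤ) (hN : 0 < N) (U W : ℤ) (h : Tri N U W ∨ Tri N (-U) W) :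
    ColI (ZMod N.toNat) (U : ZMod N.toNat) (W : ZMod N.toNat) := by
  have hc : ((N.toNat : ℕ) : ℤ) = N := Int.toNat_of_nonneg hN.le
  have h0 : 0 < N.toNat := by omega
  rcases h with ⟨h1, h2, h3⟩ | ⟨h1, h2, h3⟩
  · have := (interval_colI N.toNat h0 U W (by rw [hc]; exact h1) (by rw [hc]; exact h2)
      (by rw [hc]; exact h3)).neg2
    rwa [neg_neg] at this
  · have := ((interval_colI N.toNat h0 (-U) W (by rw [hc]; exact h1) (by rw [hc]; exact h2)
      (by rw [hc]; exact h3)).neg2).neg1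
    rw [neg_neg] at this
    push_cast at this
    rwa [neg_neg] at this

/-- The reduced case. -/
theorem goodI_sector {A : Type} [AddCommGroup A] (u w : A) (n : ℤ) (hn : n ≠ 0)
    (hnu : n • u = 0) (hnw : n • w = 0) (p q : ℤ) (hq : 0 ≤ q) (hqp : q ≤ p)
    (h : p • u + q • w = 0) (hne0 : (p, q) ≠ ((0, 0) : ℤ × ℤ))
    (hbad : ∀ x y : ℤ, x • u + y • w = 0 → ¬ BadI x y)
    (hmin : ∀ x y : ℤ, x • u + y • w = 0 → (x, y) ≠ ((0, 0) : ℤ × ℤ) → qf 0 p q ≤ qf 0 x y) :
    GoodI A u w := by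
  have hp : 0 < p := by
    by_contra hcon
    push Not at hcon
    have h1 : p = 0 := by linarith
    have h2 : q = 0 := by linarith
    exact hne0 (by rw [h1, h2])
  obtain ⟨r, s, hrs, hN0, hr0, hrp, hb, hbd⟩ := exists_basis 0 le_rfl (by norm_num) (rel A u w) p q
    (mem_rel.2 h) (by
      intro h0
      rw [Prod.mk_eq_zero] at h0
      linarith [h0.1]) (fun x y hxy hne => hmin x y (mem_rel.1 hxy) hne) n hn
    (mem_rel.2 (by rw [hnu, zero_smul, add_zero])) (mem_rel.2 (by rw [hnw, zero_smul, add_zero])) hp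
  have hmem : ∀ i j : ℤ, (i * p + j * r) • u + (i * q + j * s) • w = 0 := by
    intro i j
    have : (i * p + j * r) • u + (i * q + j * s) • w =
        i • (p • u + q • w) + j • (r • u + s • w) := by
      simp only [add_smul, smul_add, mul_smul]; abel
    rw [this, h, mem_rel.1 hrs, smul_zero, smul_zero, add_zero]
  rcases arithI p q r s hq hqp (hbad p q h) hp.ne' hr0 hrp hN0 (by linarith)
    (fun i j => hbad _ _ (hmem i j)) (fun i j hne => hmin _ _ (hmem i j) hne) with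
    ⟨U, W, h1, h2, h3⟩ | hexc
  · exact ⟨ZMod (p * s - q * r).toNat, inferInstance, U, W, char_kernel hN0 hb U W h1 h2,
      tri_colI _ hN0 U W h3⟩
  · obtain ⟨B, iB, α, β, h1, h2, h3⟩ := excI p q r s hexc
    exact ⟨B, iB, α, β, ext_kernel hb α β h1 h2, h3⟩

/-- Pairs with a given shortest relation. -/
def SI (A : Type) [AddCommGroup A] (n p q : ℤ) : Prop :=
  ∀ u w : A, n • u = 0 → n • w = 0 → p • u + q • w = 0 →
    (∀ x y : ℤ, x • u + y • w = 0 → ¬ BadI x y) →
    (∀ x y : ℤ, x • u + y • w = 0 → (x, y) ≠ ((0, 0) : ℤ × ℤ) → qf 0 p q ≤ qf 0 x y) → GoodI A u w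

lemma BadI_swap {x y : ℤ} (h : BadI x y) : BadI y x := by
  obtain ⟨h1, h2⟩ := h
  refine ⟨fun h0 => h1 (by rw [Prod.mk.injEq] at h0 ⊢; exact ⟨h0.2, h0.1⟩), ?_⟩
  rcases h2 with h | h | h
  · exact Or.inr (Or.inl h)
  · exact Or.inl h
  · exact Or.inr (Or.inr ⟨h.2, h.1⟩)

lemma BadI_neg {x y : ℤ} (h : BadI x y) : BadI x (-y) := by
  obtain ⟨h1, h2⟩ := h
  refine ⟨fun h0 => h1 (by
    rw [Prod.mk.injEq] at h0 ⊢; exact ⟨h0.1, neg_eq_zero.1 h0.2⟩), ?_⟩
  rcases h2 with h | h | h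
  · exact Or.inl ⟨by rw [h.1, neg_zero], h.2⟩
  · exact Or.inr (Or.inl ⟨h.1, by linarith, by linarith⟩)
  · exact Or.inr (Or.inr ⟨h.1, by rw [neg_mul_neg]; exact h.2⟩)

theorem SI.swap {A : Type} [AddCommGroup A] {n p q : ℤ} (h : SI A n q p) : SI A n p q := by
  intro u w h1 h2 h3 h5 h4
  refine (h w u h2 h1 (by rw [add_comm]; exact h3) (fun x y hxy hb => ?_)
    (fun x y hxy hne => ?_)).swap
  · exact h5 y x (by rw [add_comm]; exact hxy) (BadI_swap hb)
  · have := h4 y x (by rw [add_comm]; exact hxy) (by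
      intro h0
      rw [Prod.mk.injEq] at h0
      exact hne (by rw [h0.1, h0.2]))
    have e : ∀ a b : ℤ, qf 0 a b = qf 0 b a := fun a b => by unfold qf; ring
    rw [e q p, e x y]; exact this

theorem SI.neg2 {A : Type} [AddCommGroup A] {n p q : ℤ} (h : SI A n p (-q)) : SI A n p q := by
  intro u w h1 h2 h3 h5 h4
  have e0 : ∀ x y : ℤ, x • u + y • (-w) = 0 → x • u + (-y) • w = 0 := by
    intro x y hxy
    rw [← hxy, smul_neg, neg_smul]
  refine (h u (-w) h1 (by rw [smul_neg, h2, neg_zero]) (by rw [smul_neg, neg_smul, neg_neg]; exact h3)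
    (fun x y hxy hb => ?_) (fun x y hxy hne => ?_)).neg2
  · exact h5 x (-y) (e0 x y hxy) (BadI_neg hb)
  · have := h4 x (-y) (e0 x y hxy) (by
      intro h0
      rw [Prod.mk.injEq] at h0
      apply hne
      rw [Prod.mk.injEq]
      exact ⟨h0.1, neg_eq_zero.1 h0.2⟩)
    have e : ∀ a b : ℤ, qf 0 a (-b) = qf 0 a b := fun a b => by unfold qf; ring
    rw [e] at this ⊢
    exact this

theorem SI.all {A : Type} [AddCommGroup A] {n p q : ℤ} (hn : n ≠ 0)
    (hne0 : (p, q) ≠ ((0, 0) : ℤ × ℤ)) : SI A n p q := by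
  have sector : ∀ p q : ℤ, (p, q) ≠ ((0, 0) : ℤ × ℤ) → 0 ≤ q → q ≤ p → SI A n p q := by
    intro p q hne0 hq hqp u w h1 h2 h3 h5 h4
    exact goodI_sector u w n hn h1 h2 p q hq hqp h3 hne0 h5 h4
  have quad : ∀ p q : ℤ, (p, q) ≠ ((0, 0) : ℤ × ℤ) → 0 ≤ q → 0 ≤ p → SI A n p q := by
    intro p q hne0 hq hp
    rcases le_total q p with h | h
    · exact sector p q hne0 hq h
    · exact (sector q p (by
        intro h0
        rw [Prod.mk.injEq] at h0
        exact hne0 (by rw [h0.1, h0.2])) hp h).swap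
  have half : ∀ p q : ℤ, (p, q) ≠ ((0, 0) : ℤ × ℤ) → 0 ≤ p → SI A n p q := by
    intro p q hne0 hp
    rcases le_total 0 q with h | h
    · exact quad p q hne0 h hp
    · exact (quad p (-q) (by
        intro h0
        rw [Prod.mk.injEq] at h0
        exact hne0 (by rw [h0.1, neg_eq_zero.1 h0.2])) (by linarith) hp).neg2
  rcases le_total 0 p with h | h
  · exact half p q hne0 h
  · rcases le_total 0 q with h' | h'
    · refine (half q p ?_ h').swap
      intro h0
      rw [Prod.mk.injEq] at h0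
      exact hne0 (by rw [h0.1, h0.2])
    · refine ((half (-q) p ?_ (by linarith)).swap).neg2
      intro h0
      rw [Prod.mk.injEq] at h0
      exact hne0 (by rw [h0.2, neg_eq_zero.1 h0.1])

lemma qf0_nonneg (x y : ℤ) : 0 ≤ qf 0 x y := by
  unfold qf; nlinarith [sq_nonneg x, sq_nonneg y]

/-- The lattice theorem for I-graphs. -/
theorem goodI {A : Type} [AddCommGroup A] [Finite A] (u w : A)
    (hbad : ∀ x y : ℤ, x • u + y • w = 0 → ¬ BadI x y) : GoodI A u w := by
  have hn0 : (Nat.card A : ℤ) ≠ 0 := by exact_mod_cast Nat.card_pos.ne'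
  have hnu : ∀ x : A, (Nat.card A : ℤ) • x = 0 := by
    intro x; rw [natCast_zsmul]; exact card_nsmul_eq_zero'
  obtain ⟨⟨p, q⟩, ⟨hpq, hne⟩, hmin⟩ := WellFounded.has_min
    (measure (fun v : ℤ × ℤ => (qf 0 v.1 v.2).toNat)).wf
    {v : ℤ × ℤ | v.1 • u + v.2 • w = 0 ∧ v ≠ (0, 0)} ⟨((Nat.card A : ℤ), 0), by
      simp only [Set.mem_ofPred_eq]
      refine ⟨by rw [hnu, zero_smul, add_zero], ?_⟩
      intro h
      rw [Prod.mk.injEq] at h
      exact hn0 h.1⟩
  simp only [Set.mem_ofPred_eq] at hpq hne hmin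
  refine SI.all hn0 hne u w (hnu u) (hnu w) hpq hbad (fun x y hxy hxy0 => ?_)
  have := hmin (x, y) ⟨hxy, hxy0⟩
  have h1 : ¬ (qf 0 x y).toNat < (qf 0 p q).toNat := this
  have h2 := qf0_nonneg x y
  have h3 := qf0_nonneg p q
  omega

end Run7.h236.HR
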