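import Pool.Agent.Run7.h236.HR8

/-!
Total colourings of labelled graphs.
-/

set_option autoImplicit false

namespace Run7.h236.HR

/-- `G` has a total colouring with four colours. -/
def TC {V : Type} (G : SimpleGraph V) : Prop :=
  ∃ (c : V → Fin 4) (d : V → V → Fin 4),
    (∀ u v : V, G.Adj u v → d u v = d v u) ∧
    (∀ u v : V, G.Adj u v → c u ≠ c v) ∧
    (∀ u v w : V, G.Adj u v → G.Adj u w → v ≠ w → d u v ≠ d u w) ∧
    (∀ u v : V, G.Adj u v → d u v ≠ c u)

theorem Col.uniform {B : Type} [AddCommGroup B] {a b c : B} (h : Col B a b c) :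
    ∃ (P Q : B → Fin 4) (E : Fin 3 → B → Fin 4), ∀ t,
      (∀ k, P t ≠ Q (t + ![a, b, c] k)) ∧ (∀ k, P t ≠ E k t) ∧
      (∀ k l, k ≠ l → E k t ≠ E l t) ∧ (∀ k, Q t ≠ E k (t - ![a, b, c] k)) ∧
      (∀ k l, k ≠ l → E k (t - ![a, b, c] k) ≠ E l (t - ![a, b, c] l)) := by
  obtain ⟨P, Q, X, Y, Z, h⟩ := h
  refine ⟨P, Q, ![X, Y, Z], fun t => ?_⟩
  obtain ⟨⟨h1, h2, h3⟩, ⟨h4, h5, h6, h7, h8, h9⟩, ⟨k4, k5, k6, k7, k8, k9⟩⟩ := h t
  refine ⟨?_, ?_, ?_, ?_, ?_⟩
  · intro k; fin_cases k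
    · exact h1
    · exact h2
    · exact h3
  · intro k; fin_cases k
    · exact h4
    · exact h5
    · exact h6
  · intro k l hkl; fin_cases k <;> fin_cases l
    · exact absurd rfl hkl
    · exact h7
    · exact h8
    · exact h7.symm
    · exact absurd rfl hkl
    · exact h9
    · exact h8.symm
    · exact h9.symm
    · exact absurd rfl hkl
  · intro k; fin_cases k
    · exact k4
    · exact k5
    · exact k6
  · intro k l hkl; fin_cases k <;> fin_cases l
    · exact absurd rfl hkl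
    · exact k7
    · exact k8
    · exact k7.symm
    · exact absurd rfl hkl
    · exact k9
    · exact k8.symm
    · exact k9.symm
    · exact absurd rfl hkl

theorem label_haar {V : Type} (G : SimpleGraph V) {A : Type} [AddCommGroup A]
    (P : Set V) (f : V → A) (a b c : A)
    (hPQ : ∀ u v, G.Adj u v → (u ∈ P ↔ v ∉ P))
    (hadj : ∀ u v, u ∈ P → G.Adj u v → f v = f u + a ∨ f v = f u + b ∨ f v = f u + c)
    (hinj : ∀ u v w, G.Adj u v → G.Adj u w → f v = f w → v = w)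
    (good : GoodH A (c - a) (c - b)) : TC G := by
  classical
  obtain ⟨B, iB, α, β, hk, hcol⟩ := good
  obtain ⟨χ, hχ⟩ := exists_lift (c - a) (c - b) α β hk
  obtain ⟨p, q, E, hE⟩ := hcol.uniform
  set o : Fin 3 → A := ![a, b, c] with ho
  set o' : Fin 3 → B := ![-α, -β, 0] with ho'
  have hshift : ∀ (k : Fin 3) (x : A), χ (x + o k - c) = χ x + o' k := by
    intro k x
    fin_cases k
    · have h1 := (hχ (x + a - c)).1
      have h2 : x + a - c + (c - a) = x := by abel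
      rw [h2] at h1
      show χ (x + a - c) = χ x + -α
      rw [h1]; abel
    · have h1 := (hχ (x + b - c)).2
      have h2 : x + b - c + (c - b) = x := by abel
      rw [h2] at h1
      show χ (x + b - c) = χ x + -β
      rw [h1]; abel
    · show χ (x + c - c) = χ x + 0
      rw [add_zero]; congr 1; abel
  set ty : V → V → Fin 3 := fun u v => if f v = f u + a then 0 else if f v = f u + b then 1 else 2
    with hty
  have hty1 : ∀ u v, u ∈ P → G.Adj u v → f v = f u + o (ty u v) := by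
    intro u v hu huv
    simp only [hty]
    split_ifs with h1 h2
    · exact h1
    · exact h2
    · rcases hadj u v hu huv with h | h | h
      · exact absurd h h1
      · exact absurd h h2
      · exact h
  have hχ2 : ∀ u v, u ∈ P → G.Adj u v → χ (f v - c) = χ (f u) + o' (ty u v) := by
    intro u v hu huv
    rw [hty1 u v hu huv]; exact hshift _ _
  set col : V → Fin 4 := fun u => if u ∈ P then p (χ (f u)) else q (χ (f u - c)) with hcol'
  set D : V → V → Fin 4 := fun u v => if u ∈ P then E (ty u v) (χ (f u)) else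
    E (ty v u) (χ (f v)) with hD
  -- edge colours seen from the second side
  have hD2 : ∀ u v, u ∈ P → G.Adj u v → E (ty u v) (χ (f u)) =
      E (ty u v) (χ (f v - c) - o' (ty u v)) := by
    intro u v hu huv
    rw [hχ2 u v hu huv]; congr 1; abel
  refine ⟨col, D, ?_, ?_, ?_, ?_⟩
  · intro u v huv
    have h1 := hPQ u v huv
    by_cases hu : u ∈ P
    · have hv : v ∉ P := h1.1 hu
      simp only [hD]; rw [if_pos hu, if_neg hv]
    · have hv : v ∈ P := by by_contra hv; exact hu (h1.2 hv)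
      simp only [hD]; rw [if_neg hu, if_pos hv]
  · have key : ∀ u v, u ∈ P → G.Adj u v → col u ≠ col v := by
      intro u v hu huv
      have hv : v ∉ P := (hPQ u v huv).1 hu
      simp only [hcol']; rw [if_pos hu, if_neg hv, hχ2 u v hu huv]
      exact (hE _).1 _
    intro u v huv
    by_cases hu : u ∈ P
    · exact key u v hu huv
    · have hv : v ∈ P := by by_contra hv; exact hu ((hPQ u v huv).2 hv)
      exact (key v u hv huv.symm).symm
  · intro u v w huv huw hvw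
    by_cases hu : u ∈ P
    · simp only [hD]; rw [if_pos hu, if_pos hu]
      refine (hE _).2.2.1 _ _ (fun h => hvw ?_)
      apply hinj u v w huv huw
      rw [hty1 u v hu huv, hty1 u w hu huw, h]
    · have hv : v ∈ P := by by_contra hv; exact hu ((hPQ u v huv).2 hv)
      have hw : w ∈ P := by by_contra hw; exact hu ((hPQ u w huw).2 hw)
      simp only [hD]; rw [if_neg hu, if_neg hu, hD2 v u hv huv.symm, hD2 w u hw huw.symm]
      refine (hE _).2.2.2.2 _ _ (fun h => hvw ?_)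
      apply hinj u v w huv huw
      have h1 := hty1 v u hv huv.symm
      have h2 := hty1 w u hw huw.symm
      rw [h, h2] at h1
      exact (add_right_cancel h1).symm
  · intro u v huv
    by_cases hu : u ∈ P
    · simp only [hD, hcol']; rw [if_pos hu, if_pos hu]
      exact ((hE _).2.1 _).symm
    · have hv : v ∈ P := by by_contra hv; exact hu ((hPQ u v huv).2 hv)
      simp only [hD, hcol']; rw [if_neg hu, if_neg hu, hD2 v u hv huv.symm]
      exact ((hE _).2.2.2.1 _).symm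

theorem label_I {V : Type} (G : SimpleGraph V) {A : Type} [AddCommGroup A]
    (P : Set V) (f : V → A) (a b : A) (ha : a + a ≠ 0) (hb : b + b ≠ 0)
    (hadj : ∀ u v, G.Adj u v → (u ∈ P ∧ v ∈ P ∧ (f v = f u + a ∨ f u = f v + a)) ∨
      (u ∉ P ∧ v ∉ P ∧ (f v = f u + b ∨ f u = f v + b)) ∨ ((u ∈ P ↔ v ∉ P) ∧ f u = f v))
    (hinj : ∀ u v w, G.Adj u v → G.Adj u w → (v ∈ P ↔ w ∈ P) → f v = f w → v = w)
    (good : GoodI A a b) : TC G := by
  classical
  obtain ⟨B, iB, α, β, hk, hcol⟩ := good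
  obtain ⟨χ, hχ⟩ := exists_lift a b α β hk
  obtain ⟨cU, cW, cO, cI, cS, hE⟩ := hcol
  set col : V → Fin 4 := fun u => if u ∈ P then cU (χ (f u)) else cW (χ (f u)) with hcol'
  set D : V → V → Fin 4 := fun u v =>
    if u ∈ P then (if v ∈ P then (if f v = f u + a then cO (χ (f u)) else cO (χ (f v)))
      else cS (χ (f u)))
    else (if v ∈ P then cS (χ (f u)) else
      (if f v = f u + b then cI (χ (f u)) else cI (χ (f v)))) with hD
  have nota : ∀ x y : A, x = y + a → y = x + a → False := by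
    intro x y h1 h2
    apply ha
    rw [h1] at h2
    have : y + 0 = y + (a + a) := by rw [add_zero, ← add_assoc]; exact h2
    exact (add_left_cancel this).symm
  have notb : ∀ x y : A, x = y + b → y = x + b → False := by
    intro x y h1 h2
    apply hb
    rw [h1] at h2
    have : y + 0 = y + (b + b) := by rw [add_zero, ← add_assoc]; exact h2
    exact (add_left_cancel this).symm
  -- local picture
  have DP1 : ∀ u v, u ∈ P → v ∈ P → f v = f u + a → D u v = cO (χ (f u)) := by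
    intro u v hu hv h
    simp only [hD]; rw [if_pos hu, if_pos hv, if_pos h]
  have DP2 : ∀ u v, u ∈ P → v ∈ P → f u = f v + a → D u v = cO (χ (f u) - α) := by
    intro u v hu hv h
    simp only [hD]; rw [if_pos hu, if_pos hv, if_neg (fun h' => nota _ _ h h'), h, (hχ (f v)).1]
    congr 1; abel
  have DS : ∀ u v, ((u ∈ P ↔ v ∉ P) ∧ f u = f v) → D u v = cS (χ (f u)) := by
    intro u v h
    by_cases hu : u ∈ P
    · simp only [hD]; rw [if_pos hu, if_neg (h.1.1 hu)]
    · have hv : v ∈ P := by by_contra hv; exact hu (h.1.2 hv)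
      simp only [hD]; rw [if_neg hu, if_pos hv]
  have DQ1 : ∀ u v, u ∉ P → v ∉ P → f v = f u + b → D u v = cI (χ (f u)) := by
    intro u v hu hv h
    simp only [hD]; rw [if_neg hu, if_neg hv, if_pos h]
  have DQ2 : ∀ u v, u ∉ P → v ∉ P → f u = f v + b → D u v = cI (χ (f u) - β) := by
    intro u v hu hv h
    simp only [hD]; rw [if_neg hu, if_neg hv, if_neg (fun h' => notb _ _ h h'), h, (hχ (f v)).2]
    congr 1; abel
  have nb : ∀ u v, u ∈ P → G.Adj u v → (v ∈ P ∧ f v = f u + a) ∨ (v ∈ P ∧ f u = f v + a) ∨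
      (v ∉ P ∧ f u = f v) := by
    intro u v hu huv
    rcases hadj u v huv with ⟨_, h1, h2 | h2⟩ | ⟨h1, _⟩ | ⟨h1, h2⟩
    · exact Or.inl ⟨h1, h2⟩
    · exact Or.inr (Or.inl ⟨h1, h2⟩)
    · exact absurd hu h1
    · exact Or.inr (Or.inr ⟨h1.1 hu, h2⟩)
  have nb' : ∀ u v, u ∉ P → G.Adj u v → (v ∉ P ∧ f v = f u + b) ∨ (v ∉ P ∧ f u = f v + b) ∨
      (v ∈ P ∧ f u = f v) := by
    intro u v hu huv
    rcases hadj u v huv with ⟨h1, _⟩ | ⟨_, h1, h2 | h2⟩ | ⟨h1, h2⟩
    · exact absurd h1 hu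
    · exact Or.inl ⟨h1, h2⟩
    · exact Or.inr (Or.inl ⟨h1, h2⟩)
    · refine Or.inr (Or.inr ⟨?_, h2⟩)
      by_contra hv; exact hu (h1.2 hv)
  refine ⟨col, D, ?_, ?_, ?_, ?_⟩
  · intro u v huv
    rcases hadj u v huv with ⟨h0, h1, h2 | h2⟩ | ⟨h0, h1, h2 | h2⟩ | ⟨h1, h2⟩
    · rw [DP1 u v h0 h1 h2, DP2 v u h1 h0 h2, h2, (hχ (f u)).1]; congr 1; abel
    · rw [DP2 u v h0 h1 h2, DP1 v u h1 h0 h2, h2, (hχ (f v)).1]; congr 1; abel
    · rw [DQ1 u v h0 h1 h2, DQ2 v u h1 h0 h2, h2, (hχ (f u)).2]; congr 1; abel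
    · rw [DQ2 u v h0 h1 h2, DQ1 v u h1 h0 h2, h2, (hχ (f v)).2]; congr 1; abel
    · rw [DS u v ⟨h1, h2⟩, DS v u ⟨⟨fun h h' => h1.1 h' h, fun h => by
        by_contra h'; exact h (h1.2 h')⟩, h2.symm⟩, h2]
  · intro u v huv
    rcases hadj u v huv with ⟨h0, h1, h2 | h2⟩ | ⟨h0, h1, h2 | h2⟩ | ⟨h1, h2⟩
    · simp only [hcol']; rw [if_pos h0, if_pos h1, h2, (hχ (f u)).1]; exact (hE _).2.2.1
    · simp only [hcol']; rw [if_pos h0, if_pos h1, h2, (hχ (f v)).1]; exact (hE _).2.2.1.symm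
    · simp only [hcol']; rw [if_neg h0, if_neg h1, h2, (hχ (f u)).2]; exact (hE _).2.2.2.1
    · simp only [hcol']; rw [if_neg h0, if_neg h1, h2, (hχ (f v)).2]; exact (hE _).2.2.2.1.symm
    · simp only [hcol']
      by_cases hu : u ∈ P
      · rw [if_pos hu, if_neg (h1.1 hu), h2]; exact (hE _).2.2.2.2
      · have hv : v ∈ P := by by_contra hv; exact hu (h1.2 hv)
        rw [if_neg hu, if_pos hv, h2]; exact (hE _).2.2.2.2.symm
  · intro u v w huv huw hvw
    by_cases hu : u ∈ P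
    · obtain ⟨e1, e2, e3, e4, e5, e6⟩ := (hE (χ (f u))).1
      rcases nb u v hu huv with ⟨k1, k2⟩ | ⟨k1, k2⟩ | ⟨k1, k2⟩ <;>
        rcases nb u w hu huw with ⟨l1, l2⟩ | ⟨l1, l2⟩ | ⟨l1, l2⟩
      · exact absurd (hinj u v w huv huw ⟨fun _ => l1, fun _ => k1⟩ (k2.trans l2.symm)) hvw
      · rw [DP1 u v hu k1 k2, DP2 u w hu l1 l2]; exact e6
      · rw [DP1 u v hu k1 k2, DS u w ⟨⟨fun _ => l1, fun _ => hu⟩, l2⟩]; exact e4.symm
      · rw [DP2 u v hu k1 k2, DP1 u w hu l1 l2]; exact e6.symm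
      · exact absurd (hinj u v w huv huw ⟨fun _ => l1, fun _ => k1⟩
          (add_right_cancel (k2.symm.trans l2))) hvw
      · rw [DP2 u v hu k1 k2, DS u w ⟨⟨fun _ => l1, fun _ => hu⟩, l2⟩]; exact e5.symm
      · rw [DS u v ⟨⟨fun _ => k1, fun _ => hu⟩, k2⟩, DP1 u w hu l1 l2]; exact e4
      · rw [DS u v ⟨⟨fun _ => k1, fun _ => hu⟩, k2⟩, DP2 u w hu l1 l2]; exact e5
      · exact absurd (hinj u v w huv huw ⟨fun h => absurd h k1, fun h => absurd h l1⟩
          (k2.symm.trans l2)) hvw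
    · obtain ⟨e1, e2, e3, e4, e5, e6⟩ := (hE (χ (f u))).2.1
      rcases nb' u v hu huv with ⟨k1, k2⟩ | ⟨k1, k2⟩ | ⟨k1, k2⟩ <;>
        rcases nb' u w hu huw with ⟨l1, l2⟩ | ⟨l1, l2⟩ | ⟨l1, l2⟩
      · exact absurd (hinj u v w huv huw ⟨fun h => absurd h k1, fun h => absurd h l1⟩
          (k2.trans l2.symm)) hvw
      · rw [DQ1 u v hu k1 k2, DQ2 u w hu l1 l2]; exact e6
      · rw [DQ1 u v hu k1 k2, DS u w ⟨⟨fun h => absurd h hu, fun h => absurd l1 h⟩, l2⟩]
        exact e4.symm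
      · rw [DQ2 u v hu k1 k2, DQ1 u w hu l1 l2]; exact e6.symm
      · exact absurd (hinj u v w huv huw ⟨fun h => absurd h k1, fun h => absurd h l1⟩
          (add_right_cancel (k2.symm.trans l2))) hvw
      · rw [DQ2 u v hu k1 k2, DS u w ⟨⟨fun h => absurd h hu, fun h => absurd l1 h⟩, l2⟩]
        exact e5.symm
      · rw [DS u v ⟨⟨fun h => absurd h hu, fun h => absurd k1 h⟩, k2⟩, DQ1 u w hu l1 l2]; exact e4
      · rw [DS u v ⟨⟨fun h => absurd h hu, fun h => absurd k1 h⟩, k2⟩, DQ2 u w hu l1 l2]; exact e5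
      · exact absurd (hinj u v w huv huw ⟨fun _ => l1, fun _ => k1⟩ (k2.symm.trans l2)) hvw
  · intro u v huv
    by_cases hu : u ∈ P
    · obtain ⟨e1, e2, e3, e4, e5, e6⟩ := (hE (χ (f u))).1
      have hc : col u = cU (χ (f u)) := by simp only [hcol']; rw [if_pos hu]
      rw [hc]
      rcases nb u v hu huv with ⟨k1, k2⟩ | ⟨k1, k2⟩ | ⟨k1, k2⟩
      · rw [DP1 u v hu k1 k2]; exact e2.symm
      · rw [DP2 u v hu k1 k2]; exact e3.symm
      · rw [DS u v ⟨⟨fun _ => k1, fun _ => hu⟩, k2⟩]; exact e1.symm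
    · obtain ⟨e1, e2, e3, e4, e5, e6⟩ := (hE (χ (f u))).2.1
      have hc : col u = cW (χ (f u)) := by simp only [hcol']; rw [if_neg hu]
      rw [hc]
      rcases nb' u v hu huv with ⟨k1, k2⟩ | ⟨k1, k2⟩ | ⟨k1, k2⟩
      · rw [DQ1 u v hu k1 k2]; exact e2.symm
      · rw [DQ2 u v hu k1 k2]; exact e3.symm
      · rw [DS u v ⟨⟨fun h => absurd h hu, fun h => absurd k1 h⟩, k2⟩]; exact e1.symm

end Run7.h236.HR
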